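import Mathlib
import Pool.Agent.Lib.MP_90b327_co.Interface
import Pool.Agent.Lib.MP_90b327_co.RB.RDefs
import Pool.Agent.Lib.MP_90b327_co.WW.WDefs

/-!
Definitions for Theorem NC (near cubes, all d), MP_90b327_co. Text: /team-store/PHJ_UC.md
-/

set_option autoImplicit false

namespace Pool.Agent.Lib.MP_90b327_co.UC

open Finset MeasureTheory Pool.Agent.Lib.MP_90b327_co

/-! ### the shape class -/

/-- the box with `g` in the coordinate `k` and `G` in all other coordinates (for `g ⊆ G`) -/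
def bxx {d N : ℕ} (k : Fin d) (g G : Finset (Fin N)) : Finset (Fin d → Fin N) :=
  Finset.univ.filter (fun c => c k ∈ g ∧ ∀ i, c i ∈ G)

/-- near cubes: `g` in the coordinate `k`, `G` in the others, `g ⊆ G`, `|g| ∈ T`, `|G \ g| ≤ w |g|` -/
def NC {d : ℕ} (k : Fin d) (T : Set ℕ) (w : ℕ → ℕ) : WW.Shp d where
  sh N P := ∃ g G : Finset (Fin N), g ⊆ G ∧ g.card ∈ T ∧ (G \ g).card ≤ w g.card ∧ P = bxx k g G
  img := by
    intro K N ι hι P hP
    obtain ⟨g, G, h1, h2, h3, h4⟩ := hP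
    refine ⟨g.image ι, G.image ι, image_subset_image h1, ?_, ?_, ?_⟩
    · rwa [card_image_of_injective _ hι]
    · rw [← image_sdiff _ _ hι, card_image_of_injective _ hι, card_image_of_injective _ hι]
      exact h3
    · subst h4
      ext c
      simp only [bxx, mem_image, mem_filter, mem_univ, true_and]
      constructor
      · rintro ⟨a, ⟨ha0, ha⟩, rfl⟩
        exact ⟨⟨a k, ha0, rfl⟩, fun i => ⟨a i, ha i, rfl⟩⟩
      · rintro ⟨⟨x, hx, hx0⟩, hc⟩
        choose f hf hf' using hc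
        refine ⟨f, ⟨?_, hf⟩, ?_⟩
        · have : f k = x := hι (by rw [hf', hx0])
          rw [this]; exact hx
        · funext i; exact hf' i

/-- the set of entries of a cell -/
def rg {d : ℕ} (c : Fin d → ℕ) : Finset ℕ := univ.image c

/-! ### families of finite sets of vertices -/

/-- vertices: (type, number) -/
abbrev Vx (ι : Type) : Type := ι × ℕ

/-- finite families of finite sets of vertices -/
abbrev Fam (ι : Type) : Type := Finset (Finset (Vx ι))

section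

variable {ι : Type} [DecidableEq ι]

/-- complexes: closed under subsets (the empty family is a complex) -/
def Cx (S : Fam ι) : Prop := ∀ T ∈ S, ∀ U, U ⊆ T → U ∈ S

/-- the vertices of a family -/
def vs (S : Fam ι) : Finset (Vx ι) := S.biUnion (fun T => T)

/-- relabelling -/
def mp (φ : Vx ι → Vx ι) (S : Fam ι) : Fam ι := S.image (fun T => T.image φ)

/-- type preserving maps -/
def Ty (φ : Vx ι → Vx ι) : Prop := ∀ v, (φ v).1 = v.1

/-- all vertices of `b` have the type `s` -/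
def Of (s : ι) (b : Finset (Vx ι)) : Prop := ∀ v ∈ b, v.1 = s

/-- the pairs `(S, S')` and `(R, R')` have the same signed difference in sizes `≤ k` -/
def Dif (k : ℕ) (S S' R R' : Fam ι) : Prop :=
  ∀ T : Finset (Vx ι), T.card ≤ k →
    ((T ∈ S ∧ T ∉ S') ↔ (T ∈ R ∧ T ∉ R')) ∧ ((T ∈ S' ∧ T ∉ S) ↔ (T ∈ R' ∧ T ∉ R))

/-- the class `KK_k` of kernels on complexes -/
structure KK (k : ℕ) (K : Fam ι → Fam ι → ℝ) : Prop where
  one : ∀ S, Cx S → K S S = 1
  symm : ∀ S S', Cx S → Cx S' → K S S' = K S' S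
  psd : ∀ (α : Type) [Fintype α] (S : α → Fam ι) (a : α → ℝ), (∀ i, Cx (S i)) →
    0 ≤ ∑ i, ∑ j, a i * a j * K (S i) (S j)
  inv : ∀ φ : Vx ι → Vx ι, Ty φ → ∀ S S', Cx S → Cx S' →
    Set.InjOn φ (↑(vs S ∪ vs S') : Set (Vx ι)) → K (mp φ S) (mp φ S') = K S S'
  dif : ∀ S S' R R', Cx S → Cx S' → Cx R → Cx R' → Dif k S S' R R' → K S S' = K R R'

/-- the sets `B ∪ T`, `B` a nonempty subset of `b`, `T ∈ S` -/
def st (b : Finset (Vx ι)) (S : Fam ι) : Fam ι :=
  ((b.powerset.erase ∅) ×ˢ S).image (fun p => p.1 ∪ p.2)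

/-- the argument of the derived kernel -/
def jn (b b' : Finset (Vx ι)) (S S' : Fam ι) : Fam ι := S ∪ S' ∪ (st b S ∪ st b' S')

/-- shift of the numbers by `c` -/
def sh (c : ℕ) (v : Vx ι) : Vx ι := (v.1, v.2 + c)

/-- the vertices of type `s` with numbers in `[c, c + a)` -/
def bk (s : ι) (c a : ℕ) : Finset (Vx ι) := (Ico c (c + a)).image (fun i => (s, i))

/-- the derived kernel; `p = (type, size of b, size of b')` -/
def der (p : ι × ℕ × ℕ) (K : Fam ι → Fam ι → ℝ) (S S' : Fam ι) : ℝ :=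
  K (jn (bk p.1 0 p.2.1) (bk p.1 p.2.1 p.2.2) (mp (sh (p.2.1 + p.2.2)) S) (mp (sh (p.2.1 + p.2.2)) S'))
    (jn (bk p.1 0 p.2.1) (bk p.1 p.2.1 p.2.2) (mp (sh (p.2.1 + p.2.2)) S') (mp (sh (p.2.1 + p.2.2)) S))

/-- iterated derived kernels -/
def derL : List (ι × ℕ × ℕ) → (Fam ι → Fam ι → ℝ) → Fam ι → Fam ι → ℝ
  | [], K => K
  | p :: L, K => der p (derL L K)

variable [Fintype ι]

/-- `n s` vertices of each type `s` -/
def cn (n : ι → ℕ) : Finset (Vx ι) := univ.biUnion (fun s => bk s 0 (n s))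

/-- the size functions of a kernel -/
def sf (K : Fam ι → Fam ι → ℝ) (L : List (ι × ℕ × ℕ)) (n : ι → ℕ) : ℝ := derL L K (cn n).powerset ∅

end

/-! ### systems of size functions -/

/-- the properties of the size functions -/
structure Sys {ι : Type} [DecidableEq ι] (d : ℕ) (f : List (ι × ℕ × ℕ) → (ι → ℕ) → ℝ) : Prop where
  bd : ∀ L n, |f L n| ≤ 1
  perm : ∀ L L' n, L.Perm L' → f L n = f L' n
  one : ∀ L n s, f ((s, 0, 0) :: L) n = 1
  symm : ∀ L n s a a', f ((s, a, a') :: L) n = f ((s, a', a) :: L) n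
  top : ∀ L n n', d ≤ L.length → f L n = f L n'
  cs : ∀ L n s (α : Type) [Fintype α] (h : α → ℕ) (c : α → ℝ),
    (∑ i, c i * f L (n + (Pi.single s (h i) : ι → ℕ))) ^ 2 ≤ ∑ i, ∑ j, c i * c j * f ((s, h i, h j) :: L) n
  psd : ∀ L n s (α : Type) [Fintype α] (b : α → Finset ℕ) (c : α → ℝ),
    0 ≤ ∑ i, ∑ j, c i * c j *
      f ((s, (b i \ b j).card, (b j \ b i).card) :: L) (n + (Pi.single s (b i ∩ b j).card : ι → ℕ))

/-- functions of lists of pairs of sizes (limit of the contexts) -/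
structure LS {ι : Type} (N : List (ι × ℕ × ℕ) → ℝ) : Prop where
  bd : ∀ L, |N L| ≤ 1
  perm : ∀ L L', L.Perm L' → N L = N L'
  one : ∀ L s, N ((s, 0, 0) :: L) = 1
  symm : ∀ L s a a', N ((s, a, a') :: L) = N ((s, a', a) :: L)
  psd : ∀ L s (α : Type) [Fintype α] (b : α → Finset ℕ) (c : α → ℝ),
    0 ≤ ∑ i, ∑ j, c i * c j * N ((s, (b i \ b j).card, (b j \ b i).card) :: L)

/-! ### means -/

/-- means: normalised positive linear functionals -/
structure Mn {α : Type} (m : (α → ℝ) → ℝ) : Prop where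
  add : ∀ f g : α → ℝ, m (fun x => f x + g x) = m f + m g
  mul : ∀ (c : ℝ) (f : α → ℝ), m (fun x => c * f x) = c * m f
  mono : ∀ f g : α → ℝ, (∀ x, f x ≤ g x) → m f ≤ m g
  one : m (fun _ => 1) = 1

/-- mean over `range k` -/
noncomputable def av (k : ℕ) (g : ℕ → ℝ) : ℝ := (∑ i ∈ range k, g i) / k

/-- mean over the sizes of a list of pairs, at the scales `Y` -/
noncomputable def avL {ι : Type} : List (ι × ℕ × ℕ) → (List (ι × ℕ × ℕ) → ℝ) → ℝ
  | [], g => g []
  | p :: Y, g => av (2 ^ p.2.1) (fun a => av (2 ^ p.2.2) (fun a' => avL Y (fun L => g ((p.1, a, a') :: L))))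

/-- mean over the contexts `n s < 2^(x s)` -/
noncomputable def avC {ι : Type} [DecidableEq ι] [Fintype ι] (x : ι → ℕ) (g : (ι → ℕ) → ℝ) : ℝ :=
  (∑ n ∈ Fintype.piFinset (fun s => range (2 ^ x s)), g n) / ∏ s, (2 : ℝ) ^ x s

/-- the means of a system at the scales `Y`, `x` -/
noncomputable def FF {ι : Type} [DecidableEq ι] [Fintype ι] (f : List (ι × ℕ × ℕ) → (ι → ℕ) → ℝ)
    (Y : List (ι × ℕ × ℕ)) (x : ι → ℕ) : ℝ := avL Y (fun L => avC x (f L))

/-- all scales of `Y` are at least `X` -/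
def Ge {ι : Type} (X : ℕ) (Y : List (ι × ℕ × ℕ)) : Prop := ∀ p ∈ Y, X ≤ p.2.1 ∧ X ≤ p.2.2

/-- the size functions with all contexts shifted by `c` -/
def shf {ι : Type} (f : List (ι × ℕ × ℕ) → (ι → ℕ) → ℝ) (c : ι → ℕ) :
    List (ι × ℕ × ℕ) → (ι → ℕ) → ℝ := fun L n => f L (n + c)

/-- convergence of the means for the list of types `τ`, uniformly in the position `c` of the contexts -/
def Cvg {ι : Type} [DecidableEq ι] [Fintype ι] (f : List (ι × ℕ × ℕ) → (ι → ℕ) → ℝ)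
    (τ : List ι) (V : ℝ) : Prop :=
  ∀ ε : ℝ, 0 < ε → ∃ X : ℕ, ∀ (Y : List (ι × ℕ × ℕ)) (x c : ι → ℕ), Y.map Prod.fst = τ → Ge X Y →
    (∀ s, X ≤ x s) → |FF (shf f c) Y x - V| ≤ ε

/-- mean of a function of one pair of sizes -/
noncomputable def m2 (P : ℕ → ℕ → ℝ) (z z' : ℕ) : ℝ := av (2 ^ z) (fun a => av (2 ^ z') (fun a' => P a a'))

/-- functions of one pair of sizes -/
structure PP (P : ℕ → ℕ → ℝ) : Prop where
  one : P 0 0 = 1
  symm : ∀ a a', P a a' = P a' a
  psd : ∀ (α : Type) [Fintype α] (b : α → Finset ℕ) (c : α → ℝ),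
    0 ≤ ∑ i, ∑ j, c i * c j * P (b i \ b j).card (b j \ b i).card

/-! ### the kernel of the limit kernel -/

/-- types `0 = al`, `1 = ga`, `2 = H` -/
abbrev V3 : Type := Vx (Fin 3)

/-- vertices as natural numbers -/
def enc (v : V3) : ℕ := 3 * v.2 + v.1

/-- cells of the complex `S`, in the finite set `B` of vertices; `k` is the special coordinate -/
def cel {d : ℕ} (k : Fin d) (B : Finset V3) (S : Fam (Fin 3)) : Finset (Fin d → ℕ) :=
  ((Fintype.piFinset (fun _ : Fin d => B)).filter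
    (fun x => (x k).1 = 0 ∨ ((x k).1 = 1 ∧ univ.image x ∈ S))).image (fun x i => enc (x i))

/-- the kernel on complexes -/
noncomputable def ker {d : ℕ} (k : Fin d) (D : ℝ) (g : Finset (Fin d → ℕ) → Finset (Fin d → ℕ) → ℝ)
    (S S' : Fam (Fin 3)) : ℝ :=
  g (cel k (vs S ∪ vs S') S) (cel k (vs S ∪ vs S') S') / D

/-- the values: `a`, `m`, `h` vertices of the types `al`, `ga`, `H` -/
def nv (a m h : ℕ) : Fin 3 → ℕ := ![a, m, h]

end Pool.Agent.Lib.MP_90b327_co.UC
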