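import Mathlib
import Pool.Agent.Lib.MP_90b327_co.UC.UDefs

/-!
MODULE UMean. (30 minutes) Means: elementary facts. All are short. `sq`: `0 ≤ m ((f - c)^2)` with `c = m f`.
`mn_avL`: induction on the list. `mn_avC`: `∑ n ∈ piFinset, 1 = ∏ 2^(x s)` (`Fintype.card_piFinset`).
`avC_comm`, `av_comm`: from `Mn.sum` and `Mn.mul`.
-/

set_option autoImplicit false

namespace Pool.Agent.Lib.MP_90b327_co.UC

open Finset MeasureTheory Filter Topology Pool.Agent.Lib.MP_90b327_co

theorem Mn.const {α : Type} {m : (α → ℝ) → ℝ} (h : Mn m) (c : ℝ) : m (fun _ => c) = c := by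
  have h1 := h.mul c (fun _ => 1)
  rw [h.one, mul_one] at h1
  simpa using h1

theorem Mn.sub {α : Type} {m : (α → ℝ) → ℝ} (h : Mn m) (f g : α → ℝ) :
    m (fun x => f x - g x) = m f - m g := by
  have h1 := h.add f (fun x => (-1) * g x)
  rw [h.mul] at h1
  have h2 : (fun x => f x - g x) = (fun x => f x + (-1) * g x) := by
    funext x
    ring
  rw [h2, h1]
  ring

theorem Mn.sum {α β : Type} {m : (α → ℝ) → ℝ} (h : Mn m) (s : Finset β) (f : β → α → ℝ) :
    m (fun x => ∑ i ∈ s, f i x) = ∑ i ∈ s, m (f i) := by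
  classical
  induction s using Finset.induction_on with
  | empty => simpa using h.const 0
  | insert a s ha ih =>
    rw [Finset.sum_insert ha, ← ih, ← h.add]
    congr 1
    funext x
    rw [Finset.sum_insert ha]

theorem Mn.abs_le {α : Type} {m : (α → ℝ) → ℝ} (h : Mn m) {f : α → ℝ} {C : ℝ} (hf : ∀ x, |f x| ≤ C) :
    |m f| ≤ C := by
  rw [_root_.abs_le]
  constructor
  · have h1 := h.mono (fun _ => -C) f (fun x => (_root_.abs_le.mp (hf x)).1)
    rwa [h.const] at h1
  · have h1 := h.mono f (fun _ => C) (fun x => (_root_.abs_le.mp (hf x)).2)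
    rwa [h.const] at h1

theorem Mn.abs_sub_le {α : Type} {m : (α → ℝ) → ℝ} (h : Mn m) {f g : α → ℝ} {C : ℝ}
    (hf : ∀ x, |f x - g x| ≤ C) : |m f - m g| ≤ C := by
  rw [← h.sub]
  exact h.abs_le hf

theorem Mn.abs_le_mean {α : Type} {m : (α → ℝ) → ℝ} (h : Mn m) {f g : α → ℝ}
    (hf : ∀ x, |f x| ≤ g x) : |m f| ≤ m g := by
  rw [_root_.abs_le]
  constructor
  · have h1 := h.mono (fun x => (-1) * g x) f (fun x => by
      have := (_root_.abs_le.mp (hf x)).1
      linarith)
    rw [h.mul] at h1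
    linarith
  · exact h.mono f g (fun x => (_root_.abs_le.mp (hf x)).2)

theorem Mn.sq {α : Type} {m : (α → ℝ) → ℝ} (h : Mn m) (f : α → ℝ) : m f ^ 2 ≤ m (fun x => f x ^ 2) := by
  have h1 := h.mono (fun _ => 0) (fun x => (f x ^ 2 + (-2 * m f) * f x) + (m f) ^ 2) (fun x => by
    have : 0 ≤ (f x - m f) ^ 2 := sq_nonneg _
    show (0 : ℝ) ≤ (f x ^ 2 + (-2 * m f) * f x) + (m f) ^ 2
    nlinarith)
  rw [h.const, h.add (fun x => f x ^ 2 + (-2 * m f) * f x) (fun _ => (m f) ^ 2),
    h.add (fun x => f x ^ 2) (fun x => (-2 * m f) * f x), h.mul, h.const] at h1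
  nlinarith

theorem Mn.comp {α β : Type} {m : (α → ℝ) → ℝ} {m' : (β → ℝ) → ℝ} (h : Mn m) (h' : Mn m') :
    Mn (fun f : α × β → ℝ => m (fun x => m' (fun y => f (x, y)))) where
  add f g := by
    rw [← h.add]
    congr 1
    funext x
    exact h'.add _ _
  mul c f := by
    rw [← h.mul]
    congr 1
    funext x
    exact h'.mul _ _
  mono f g hfg := h.mono _ _ fun x => h'.mono _ _ fun y => hfg (x, y)
  one := by
    have h1 : (fun _ : α => m' (fun _ : β => (1 : ℝ))) = fun _ => 1 := by
      funext x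
      exact h'.one
    rw [h1]
    exact h.one

theorem mn_av {k : ℕ} (hk : 0 < k) : Mn (av k) := by
  have hk' : (0 : ℝ) < k := by exact_mod_cast hk
  refine ⟨?_, ?_, ?_, ?_⟩
  · intro f g
    unfold av
    rw [Finset.sum_add_distrib, add_div]
  · intro c f
    unfold av
    rw [← Finset.mul_sum, mul_div_assoc]
  · intro f g hfg
    unfold av
    exact div_le_div_of_nonneg_right (Finset.sum_le_sum fun i _ => hfg i) hk'.le
  · unfold av
    simp only [Finset.sum_const, Finset.card_range, nsmul_eq_mul, mul_one]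
    exact div_self hk'.ne'

theorem mn_av2 (z : ℕ) : Mn (av (2 ^ z)) := mn_av (by positivity)

theorem mn_avL {ι : Type} (Y : List (ι × ℕ × ℕ)) : Mn (avL Y) := by
  induction Y with
  | nil => exact ⟨fun f g => rfl, fun c f => rfl, fun f g h => h [], rfl⟩
  | cons p Y ih =>
    have h1 := mn_av2 p.2.1
    have h2 := mn_av2 p.2.2
    refine ⟨?_, ?_, ?_, ?_⟩
    · intro f g
      show av (2 ^ p.2.1) (fun a => av (2 ^ p.2.2) (fun a' => avL Y (fun L =>
        f ((p.1, a, a') :: L) + g ((p.1, a, a') :: L)))) = _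
      rw [show (fun a => av (2 ^ p.2.2) (fun a' => avL Y (fun L =>
        f ((p.1, a, a') :: L) + g ((p.1, a, a') :: L)))) = (fun a =>
          av (2 ^ p.2.2) (fun a' => avL Y (fun L => f ((p.1, a, a') :: L))) +
          av (2 ^ p.2.2) (fun a' => avL Y (fun L => g ((p.1, a, a') :: L)))) from by
            funext a
            rw [← h2.add]
            congr 1
            funext a'
            exact ih.add _ _, h1.add]
      rfl
    · intro c f
      show av (2 ^ p.2.1) (fun a => av (2 ^ p.2.2) (fun a' => avL Y (fun L =>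
        c * f ((p.1, a, a') :: L)))) = _
      rw [show (fun a => av (2 ^ p.2.2) (fun a' => avL Y (fun L =>
        c * f ((p.1, a, a') :: L)))) = (fun a =>
          c * av (2 ^ p.2.2) (fun a' => avL Y (fun L => f ((p.1, a, a') :: L)))) from by
            funext a
            rw [← h2.mul]
            congr 1
            funext a'
            exact ih.mul _ _, h1.mul]
      rfl
    · intro f g hfg
      exact h1.mono _ _ fun a => h2.mono _ _ fun a' => ih.mono _ _ fun L => hfg _
    · show av (2 ^ p.2.1) (fun a => av (2 ^ p.2.2) (fun a' => avL Y (fun L => 1))) = 1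
      rw [show (fun _ : ℕ => av (2 ^ p.2.2) (fun _ => avL Y (fun _ => (1 : ℝ)))) = fun _ => 1 from by
        funext a
        rw [ih.one]
        exact h2.one]
      exact h1.one

theorem mn_avC {ι : Type} [DecidableEq ι] [Fintype ι] (x : ι → ℕ) : Mn (avC x) := by
  have hk' : (0 : ℝ) < ∏ s, (2 : ℝ) ^ x s := Finset.prod_pos fun s _ => by positivity
  refine ⟨?_, ?_, ?_, ?_⟩
  · intro f g
    unfold avC
    rw [Finset.sum_add_distrib, add_div]
  · intro c f
    unfold avC
    rw [← Finset.mul_sum, mul_div_assoc]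
  · intro f g hfg
    unfold avC
    exact div_le_div_of_nonneg_right (Finset.sum_le_sum fun i _ => hfg i) hk'.le
  · unfold avC
    rw [Finset.sum_const, Fintype.card_piFinset, nsmul_eq_mul, mul_one]
    simp only [Finset.card_range, Nat.cast_prod, Nat.cast_pow, Nat.cast_ofNat]
    exact div_self hk'.ne'

theorem Mn.av_comm {α : Type} {m : (α → ℝ) → ℝ} (h : Mn m) (k : ℕ) (g : α → ℕ → ℝ) :
    m (fun x => av k (g x)) = av k (fun a => m (fun x => g x a)) := by
  unfold av
  rw [← h.sum (range k) (fun i x => g x i)]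
  rw [show (fun x => (∑ i ∈ range k, g x i) / (k : ℝ)) =
    (fun x => (k : ℝ)⁻¹ * ∑ i ∈ range k, g x i) from by
      funext x
      rw [div_eq_inv_mul], h.mul, div_eq_inv_mul]

theorem Mn.avC_comm {α ι : Type} [DecidableEq ι] [Fintype ι] {m : (α → ℝ) → ℝ} (h : Mn m) (x : ι → ℕ)
    (g : α → (ι → ℕ) → ℝ) : m (fun y => avC x (g y)) = avC x (fun n => m (fun y => g y n)) := by
  unfold avC
  rw [← h.sum (Fintype.piFinset (fun s => range (2 ^ x s))) (fun n y => g y n)]
  rw [show (fun y => (∑ n ∈ Fintype.piFinset (fun s => range (2 ^ x s)), g y n) /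
      ∏ s, (2 : ℝ) ^ x s) =
    (fun y => (∏ s, (2 : ℝ) ^ x s)⁻¹ * ∑ n ∈ Fintype.piFinset (fun s => range (2 ^ x s)), g y n)
      from by
      funext y
      rw [div_eq_inv_mul], h.mul, div_eq_inv_mul]

end Pool.Agent.Lib.MP_90b327_co.UC
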