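import Mathlib
import Pool.Agent.Lib.MP_90b327_co.UC.UDefs
import Pool.Agent.Lib.MP_90b327_co.UC.UMean

/-!
MODULE UList. (20 minutes) Means over lists: permutations and limits.
`avL_perm`: induction on `List.Perm`; the swap case by `av_comm` (four means) and the invariance of `g`.
`avL_tendsto`: induction on `Y`; `av` is a finite sum.
-/

set_option autoImplicit false

namespace Pool.Agent.Lib.MP_90b327_co.UC

open Finset MeasureTheory Filter Topology Pool.Agent.Lib.MP_90b327_co

private lemma av_swap {p q : ℕ} (hp : 0 < p) (f : ℕ → ℕ → ℝ) :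
    av p (fun a => av q (fun b => f a b)) = av q (fun b => av p (fun a => f a b)) :=
  (mn_av hp).av_comm q f

private lemma av4 {p q r s : ℕ} (hp : 0 < p) (hq : 0 < q) (f : ℕ → ℕ → ℕ → ℕ → ℝ) :
    av p (fun a => av q (fun b => av r (fun c => av s (fun e => f a b c e)))) =
      av r (fun c => av s (fun e => av p (fun a => av q (fun b => f a b c e)))) := by
  have h1 : ∀ a, av q (fun b => av r (fun c => av s (fun e => f a b c e))) =
      av r (fun c => av s (fun e => av q (fun b => f a b c e))) := by
    intro a
    rw [av_swap hq (fun b c => av s (fun e => f a b c e))]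
    congr 1
    funext c
    exact av_swap hq (fun b e => f a b c e)
  have h2 : av p (fun a => av q (fun b => av r (fun c => av s (fun e => f a b c e)))) =
      av p (fun a => av r (fun c => av s (fun e => av q (fun b => f a b c e)))) := by
    congr 1
    funext a
    exact h1 a
  rw [h2, av_swap hp (fun a c => av s (fun e => av q (fun b => f a b c e)))]
  congr 1
  funext c
  exact av_swap hp (fun a e => av q (fun b => f a b c e))

theorem avL_perm {ι : Type} {Y Y' : List (ι × ℕ × ℕ)} (h : Y.Perm Y') (g : List (ι × ℕ × ℕ) → ℝ)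
    (hg : ∀ L L', L.Perm L' → g L = g L') : avL Y g = avL Y' g := by
  induction h generalizing g with
  | nil => rfl
  | cons x _ ih =>
    simp only [avL]
    congr 1
    funext a
    congr 1
    funext a'
    exact ih _ fun L L' hL => hg _ _ (hL.cons _)
  | swap x y l =>
    simp only [avL]
    rw [av4 (by positivity) (by positivity)
      (fun a b c e => avL l (fun L => g ((y.1, a, b) :: (x.1, c, e) :: L)))]
    congr 1
    funext c
    congr 1
    funext e
    congr 1
    funext a
    congr 1
    funext b
    congr 1
    funext L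
    exact hg _ _ (List.Perm.swap _ _ _)
  | trans _ _ ih1 ih2 => exact (ih1 g hg).trans (ih2 g hg)

theorem av_tendsto {β : Type} {l : Filter β} (k : ℕ) (u : β → ℕ → ℝ) (v : ℕ → ℝ)
    (h : ∀ a, Tendsto (fun z => u z a) l (𝓝 (v a))) : Tendsto (fun z => av k (u z)) l (𝓝 (av k v)) := by
  unfold av
  exact (tendsto_finsetSum _ fun a _ => h a).div_const _

theorem avL_tendsto {ι β : Type} {l : Filter β} (Y : List (ι × ℕ × ℕ))
    (u : β → List (ι × ℕ × ℕ) → ℝ) (v : List (ι × ℕ × ℕ) → ℝ)
    (h : ∀ L, Tendsto (fun z => u z L) l (𝓝 (v L))) :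
    Tendsto (fun z => avL Y (u z)) l (𝓝 (avL Y v)) := by
  induction Y generalizing u v with
  | nil => exact h []
  | cons p Y ih =>
    simp only [avL]
    exact av_tendsto _ _ _ fun a => av_tendsto _ _ _ fun a' =>
      ih (fun z L => u z ((p.1, a, a') :: L)) (fun L => v ((p.1, a, a') :: L)) fun L => h _

end Pool.Agent.Lib.MP_90b327_co.UC
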