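import Mathlib
import Pool.Agent.Lib.MP_90b327_co.UC.UDefs
import Pool.Agent.Lib.MP_90b327_co.UC.UMean

/-!
MODULE UShift. (45 minutes) Shifts of the contexts.
`av_shift`: `|∑_{a<k} g (a + h) - ∑_{a<k} g a| ≤ 2 h` by induction on `h` (`Finset.sum_range_succ'` / one step changes the sum
by `g (k + h) - g h`).
`avC_resample`: `∑_{n ∈ piFinset} ∑_{k < 2^(x s)} g (update n s k) = 2^(x s) ∑_n g n`: the map `(n, k) ↦ (update n s k, n s)` is an involution of
`piFinset × range (2^(x s))` (`Finset.sum_nbij'` / `Finset.sum_product'`).
`avC_indep`: both sides are the mean over the other coordinates: by `avC_resample` type argument, or: `piFinset` of `x` and of `update x s z`;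
every `n` in the second set is `update n' s k`. (One way: show `avC x g = avC (update x s 0) g` for such `g`, by the same bijection
`(n, k) ↦ update n s k`, `n ∈ piFinset (update x s 0)`, i.e. `n s = 0`, `k < 2^(x s)`.)
`shift_small`: resample the coordinate `s`: for each `h < 2^z`: `update n s k + single s h = update n s (k + h)`, then `av_shift`, `h ≤ 2^z`.
`shift_big`: resample: `av_{k < 2^(x s)} av_{h < 2^z} g (update n s (k + h))`; for each `k` by `av_shift` within `2 k / 2^z` of
`av_{h < 2^z} g (update n s h)`; this function of `n` does not depend on `n s`: `avC_indep`, then `avC_resample` for `update x s z`.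
-/

set_option autoImplicit false

namespace Pool.Agent.Lib.MP_90b327_co.UC

open Finset MeasureTheory Filter Topology Pool.Agent.Lib.MP_90b327_co

private theorem us_sum_shift (k : ℕ) (g : ℕ → ℝ) (hg : ∀ a, |g a| ≤ 1) (h : ℕ) :
    |∑ a ∈ range k, g (a + h) - ∑ a ∈ range k, g a| ≤ 2 * h := by
  induction h with
  | zero => simp
  | succ h ih =>
    have h1 : ∑ a ∈ range (k + 1), g (a + h) = ∑ a ∈ range k, g (a + (h + 1)) + g h := by
      rw [Finset.sum_range_succ']
      congr 1
      · refine Finset.sum_congr rfl fun a _ => ?_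
        congr 1
        omega
      · rw [Nat.zero_add]
    have h2 : ∑ a ∈ range (k + 1), g (a + h) = ∑ a ∈ range k, g (a + h) + g (k + h) :=
      Finset.sum_range_succ _ _
    have h3 : ∑ a ∈ range k, g (a + (h + 1)) - ∑ a ∈ range k, g a =
        (∑ a ∈ range k, g (a + h) - ∑ a ∈ range k, g a) + (g (k + h) - g h) := by linarith
    rw [h3]
    refine (abs_add_le _ _).trans ?_
    have h4 := abs_le.mp (hg (k + h))
    have h5 := abs_le.mp (hg h)
    have h6 : |g (k + h) - g h| ≤ 2 := by
      rw [abs_le]
      constructor <;> linarith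
    push_cast
    linarith

theorem av_shift {k : ℕ} (hk : 0 < k) (g : ℕ → ℝ) (hg : ∀ a, |g a| ≤ 1) (h : ℕ) :
    |av k (fun a => g (a + h)) - av k g| ≤ 2 * h / k := by
  have hk' : (0 : ℝ) < k := by exact_mod_cast hk
  unfold av
  rw [← sub_div, abs_div, abs_of_pos hk']
  exact div_le_div_of_nonneg_right (us_sum_shift k g hg h) hk'.le

private theorem us_av_close {k : ℕ} (hk : 0 < k) {f : ℕ → ℝ} {c C : ℝ} (h : ∀ a < k, |f a - c| ≤ C) :
    |av k f - c| ≤ C := by
  have hk' : (0 : ℝ) < k := by exact_mod_cast hk
  have h1 : av k f - c = (∑ a ∈ range k, (f a - c)) / k := by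
    unfold av
    rw [Finset.sum_sub_distrib, Finset.sum_const, Finset.card_range, nsmul_eq_mul]
    field_simp
  rw [h1, abs_div, abs_of_pos hk', div_le_iff₀ hk']
  refine (Finset.abs_sum_le_sum_abs _ _).trans ?_
  refine (Finset.sum_le_sum fun a ha => h a (Finset.mem_range.mp ha)).trans ?_
  rw [Finset.sum_const, Finset.card_range, nsmul_eq_mul, mul_comm]

section
variable {ι : Type} [DecidableEq ι] [Fintype ι]

private theorem us_mem {x n : ι → ℕ} : n ∈ Fintype.piFinset (fun s => range (2 ^ x s)) ↔ ∀ t, n t < 2 ^ x t := by
  rw [Fintype.mem_piFinset]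
  exact forall_congr' fun t => Finset.mem_range

private theorem us_prod (x : ι → ℕ) (s : ι) :
    ∏ t, (2 : ℝ) ^ x t = 2 ^ x s * ∏ t, (2 : ℝ) ^ (Function.update x s 0) t := by
  rw [← Finset.mul_prod_erase univ (fun t => (2 : ℝ) ^ x t) (Finset.mem_univ s),
    ← Finset.mul_prod_erase univ (fun t => (2 : ℝ) ^ (Function.update x s 0) t) (Finset.mem_univ s),
    Function.update_self, pow_zero, one_mul]
  congr 1
  refine Finset.prod_congr rfl fun t ht => ?_
  rw [Function.update_of_ne (Finset.ne_of_mem_erase ht)]

theorem avC_resample (x : ι → ℕ) (s : ι) (g : (ι → ℕ) → ℝ) :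
    avC x g = avC x (fun n => av (2 ^ x s) (fun k => g (Function.update n s k))) := by
  have hp : (0 : ℝ) < 2 ^ x s := by positivity
  have h1 : ∑ n ∈ Fintype.piFinset (fun s => range (2 ^ x s)), ∑ k ∈ range (2 ^ x s), g (Function.update n s k) =
      2 ^ x s * ∑ n ∈ Fintype.piFinset (fun s => range (2 ^ x s)), g n := by
    have h2 : ∑ n ∈ Fintype.piFinset (fun s => range (2 ^ x s)), ∑ _k ∈ range (2 ^ x s), g n =
        2 ^ x s * ∑ n ∈ Fintype.piFinset (fun s => range (2 ^ x s)), g n := by
      rw [Finset.mul_sum]
      refine Finset.sum_congr rfl fun n _ => ?_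
      rw [Finset.sum_const, Finset.card_range, nsmul_eq_mul]
      push_cast
      rfl
    rw [← h2, ← Finset.sum_product', ← Finset.sum_product']
    refine Finset.sum_nbij' (fun p => (Function.update p.1 s p.2, p.1 s)) (fun p => (Function.update p.1 s p.2, p.1 s))
      ?_ ?_ ?_ ?_ ?_
    · rintro ⟨n, k⟩ hp
      rw [Finset.mem_product, us_mem, Finset.mem_range] at hp ⊢
      refine ⟨fun t => ?_, hp.1 s⟩
      by_cases h : t = s
      · subst h
        show Function.update n t k t < _
        rw [Function.update_self]
        exact hp.2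
      · show Function.update n s k t < _
        rw [Function.update_of_ne h]
        exact hp.1 t
    · rintro ⟨n, k⟩ hp
      rw [Finset.mem_product, us_mem, Finset.mem_range] at hp ⊢
      refine ⟨fun t => ?_, hp.1 s⟩
      by_cases h : t = s
      · subst h
        show Function.update n t k t < _
        rw [Function.update_self]
        exact hp.2
      · show Function.update n s k t < _
        rw [Function.update_of_ne h]
        exact hp.1 t
    · rintro ⟨n, k⟩ _
      simp
    · rintro ⟨n, k⟩ _
      simp
    · rintro ⟨n, k⟩ _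
      rfl
  unfold avC av
  rw [← Finset.sum_div, h1]
  congr 1
  push_cast
  field_simp

private theorem us_indep0 (x : ι → ℕ) (s : ι) (g : (ι → ℕ) → ℝ)
    (hg : ∀ n k, g (Function.update n s k) = g n) : avC x g = avC (Function.update x s 0) g := by
  have hp : (0 : ℝ) < 2 ^ x s := by positivity
  have h1 : ∑ n ∈ Fintype.piFinset (fun s => range (2 ^ x s)), g n =
      2 ^ x s * ∑ n ∈ Fintype.piFinset (fun t => range (2 ^ (Function.update x s 0) t)), g n := by
    have h2 : ∑ n ∈ Fintype.piFinset (fun t => range (2 ^ (Function.update x s 0) t)), ∑ _k ∈ range (2 ^ x s), g n =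
        2 ^ x s * ∑ n ∈ Fintype.piFinset (fun t => range (2 ^ (Function.update x s 0) t)), g n := by
      rw [Finset.mul_sum]
      refine Finset.sum_congr rfl fun n _ => ?_
      rw [Finset.sum_const, Finset.card_range, nsmul_eq_mul]
      push_cast
      rfl
    rw [← h2, ← Finset.sum_product']
    refine Finset.sum_nbij' (fun n => (Function.update n s 0, n s)) (fun p => Function.update p.1 s p.2)
      ?_ ?_ ?_ ?_ ?_
    · intro n hn
      rw [us_mem] at hn
      rw [Finset.mem_product, us_mem, Finset.mem_range]
      refine ⟨fun t => ?_, hn s⟩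
      by_cases h : t = s
      · subst h
        show Function.update n t 0 t < _
        rw [Function.update_self, Function.update_self]
        exact Nat.one_pos
      · show Function.update n s 0 t < _
        rw [Function.update_of_ne h, Function.update_of_ne h]
        exact hn t
    · rintro ⟨n, k⟩ hn
      rw [Finset.mem_product, us_mem, Finset.mem_range] at hn
      rw [us_mem]
      intro t
      by_cases h : t = s
      · subst h
        show Function.update n t k t < _
        rw [Function.update_self]
        exact hn.2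
      · show Function.update n s k t < _
        rw [Function.update_of_ne h]
        have := hn.1 t
        rwa [Function.update_of_ne h] at this
    · intro n _
      simp
    · rintro ⟨n, k⟩ hn
      rw [Finset.mem_product, us_mem, Finset.mem_range] at hn
      have h3 : n s = 0 := by
        have h5 := hn.1 s
        rw [Function.update_self, pow_zero] at h5
        exact Nat.lt_one_iff.mp h5
      have h4 : Function.update n s 0 = n := by
        rw [← h3, Function.update_eq_self]
      simp [h4]
    · intro n _
      exact (hg n 0).symm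
  unfold avC
  rw [h1, us_prod x s]
  exact mul_div_mul_left _ _ hp.ne'

theorem avC_indep (x : ι → ℕ) (s : ι) (z : ℕ) (g : (ι → ℕ) → ℝ)
    (hg : ∀ n k, g (Function.update n s k) = g n) : avC x g = avC (Function.update x s z) g := by
  rw [us_indep0 x s g hg, us_indep0 (Function.update x s z) s g hg, Function.update_idem]

omit [Fintype ι] in
private theorem us_add (n : ι → ℕ) (s : ι) (k u : ℕ) :
    Function.update n s k + (Pi.single s u : ι → ℕ) = Function.update n s (k + u) := by
  funext t
  by_cases h : t = s
  · subst h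
    simp
  · simp [h]

theorem shift_one (x : ι → ℕ) (s : ι) (u : ℕ) (g : (ι → ℕ) → ℝ) (hg : ∀ n, |g n| ≤ 1) :
    |avC x (fun n => g (n + (Pi.single s u : ι → ℕ))) - avC x g| ≤ 2 * u / 2 ^ x s := by
  rw [avC_resample x s (fun n => g (n + (Pi.single s u : ι → ℕ))), avC_resample x s g]
  refine (mn_avC x).abs_sub_le fun n => ?_
  have h1 := av_shift (k := 2 ^ x s) (by positivity) (fun k => g (Function.update n s k)) (fun a => hg _) u
  rw [Nat.cast_pow, Nat.cast_ofNat] at h1
  have h2 : (fun k => g (Function.update n s k + (Pi.single s u : ι → ℕ))) = fun a => g (Function.update n s (a + u)) := by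
    funext k
    rw [us_add]
  rw [h2]
  exact h1

theorem shift_small (x : ι → ℕ) (s : ι) (z : ℕ) (g : (ι → ℕ) → ℝ) (hg : ∀ n, |g n| ≤ 1) :
    |avC x (fun n => av (2 ^ z) (fun h => g (n + (Pi.single s h : ι → ℕ)))) - avC x g| ≤
      2 * 2 ^ z / 2 ^ x s := by
  rw [(mn_avC x).av_comm (2 ^ z) (fun n h => g (n + (Pi.single s h : ι → ℕ)))]
  refine us_av_close (by positivity) fun h hh => ?_
  refine (shift_one x s h g hg).trans ?_
  have h1 : (h : ℝ) ≤ 2 ^ z := by exact_mod_cast hh.le
  gcongr

theorem shift_big (x : ι → ℕ) (s : ι) (z : ℕ) (g : (ι → ℕ) → ℝ) (hg : ∀ n, |g n| ≤ 1) :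
    |avC x (fun n => av (2 ^ z) (fun h => g (n + (Pi.single s h : ι → ℕ)))) -
      avC (Function.update x s z) g| ≤ 2 * 2 ^ x s / 2 ^ z := by
  have h1 : avC (Function.update x s z) g = avC x (fun n => av (2 ^ z) (fun h => g (Function.update n s h))) := by
    rw [avC_resample (Function.update x s z) s g, Function.update_self]
    refine (avC_indep x s z _ fun n k => ?_).symm
    congr 1
    funext h
    rw [Function.update_idem]
  rw [h1, avC_resample x s (fun n => av (2 ^ z) (fun h => g (n + (Pi.single s h : ι → ℕ))))]
  refine (mn_avC x).abs_sub_le fun n => ?_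
  refine us_av_close (by positivity) fun k hk => ?_
  have h2 := av_shift (k := 2 ^ z) (by positivity) (fun h => g (Function.update n s h)) (fun a => hg _) k
  rw [Nat.cast_pow, Nat.cast_ofNat] at h2
  have h3 : (fun h => g (Function.update n s k + (Pi.single s h : ι → ℕ))) = fun a => g (Function.update n s (a + k)) := by
    funext h
    rw [us_add, Nat.add_comm]
  rw [h3]
  refine h2.trans ?_
  have h4 : (k : ℝ) ≤ 2 ^ x s := by exact_mod_cast hk.le
  gcongr

end

end Pool.Agent.Lib.MP_90b327_co.UC
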