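import Mathlib
import Pool.Agent.Lib.MP_90b327_co.UC.UDefs
import Pool.Agent.Lib.MP_90b327_co.UC.UList
import Pool.Agent.Lib.MP_90b327_co.UC.UShift

/-!
MODULE UCheap. (45 minutes) Contexts are cheap.
`cs_mean`: for each `L`, `n`: `Sys.cs` with `α = Fin (2^z) ⊕ Fin (2^z')`, `h = ` the number, `c = 1/2^z` on the first part, `-1/2^z'` on the second:
`(av_{h<2^z} f L (n + h e_s) - av_{h<2^z'} f L (n + h e_s))^2 ≤ ` the four double means of `f ((s,h,h') :: L) n`. Then `Mn.sq` for the mean
`avL Y ∘ avC x` (`Mn.comp`), `Mn.mono`, linearity, and the exchange of finite means (`Mn.av_comm`).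
`cheap_one`: `X₀` from the hypothesis for `ε²/64` or so; `z₀ = X₀`; `X = X₀ + k` with `2 · 2^(X₀) / 2^X ≤ ε/8`. For `x` (`≥ X`) and `z`: compare `FF f Y x` and
`FF f Y (update x s z)` both with `FF f Y (update x s Z)`, `Z` so large that `2 · 2^(x s)/2^Z`, `2 · 2^z/2^Z ≤ ε/8`:
`FF f Y x ≈ avL avC (av_{h<2^(X₀)} ..)` (`shift_small`), `≈ avL avC (av_{h<2^Z} ..)` (`cs_mean`, the four terms are within `ε'` of `V`: sum `≤ 4 ε'`),
`≈ FF f Y (update x s Z)` (`shift_big`). (`update (update x s z) s Z = update x s Z`.)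
All this for the shifted system `shf f c` (again a system: `Sys.shift`), the hypothesis `Cvg` is uniform in `c`, so `X` does not depend on `c`.
`cheap`: `d ≤ τ.length`: `Sys.top` (the lists `L` which matter have the types of `Y`; lemma `avL_congr`). Otherwise first `cheap_same`: change the
coordinates one by one (induction over a finset `A` of coordinates: `x_A s = if s ∈ A then x' s else x s`), error `ε / (|ι| + 1)` for each.
Then `c` against `0`: by `cheap_same` replace `x` and `x'` by the constant `Z`; `FF (shf f c) Y (const Z)` and `FF f Y (const Z)` differ by at most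
`∑ s, 2 (c s) / 2^Z → 0` (`shift_one`, coordinates of `c` one by one: `n + c = n + ∑ single s (c s)`).
-/

set_option autoImplicit false

namespace Pool.Agent.Lib.MP_90b327_co.UC

open Finset MeasureTheory Filter Topology Pool.Agent.Lib.MP_90b327_co

variable {ι : Type} [DecidableEq ι] [Fintype ι]

theorem avL_congr {κ : Type} (Y : List (κ × ℕ × ℕ)) (g g' : List (κ × ℕ × ℕ) → ℝ)
    (h : ∀ L, L.map Prod.fst = Y.map Prod.fst → g L = g' L) : avL Y g = avL Y g' := by
  induction Y generalizing g g' with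
  | nil => exact h [] rfl
  | cons p Y ih =>
    simp only [avL]
    have h1 : ∀ a a', avL Y (fun L => g ((p.1, a, a') :: L)) = avL Y (fun L => g' ((p.1, a, a') :: L)) :=
      fun a a' => ih _ _ fun L hL => h _ (by simp [hL])
    simp only [h1]

/-- the double sum of `Sys.cs` as four double means -/
private theorem cs_four (P : ℕ → ℕ → ℝ) (z z' : ℕ) :
    (∑ i : Fin (2 ^ z) ⊕ Fin (2 ^ z'), ∑ j : Fin (2 ^ z) ⊕ Fin (2 ^ z'),
      (Sum.elim (fun _ => (1 : ℝ) / 2 ^ z) (fun _ => -(1 / 2 ^ z')) i) *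
      (Sum.elim (fun _ => (1 : ℝ) / 2 ^ z) (fun _ => -(1 / 2 ^ z')) j) *
      P (Sum.elim (fun a : Fin (2 ^ z) => (a : ℕ)) (fun a : Fin (2 ^ z') => (a : ℕ)) i)
        (Sum.elim (fun a : Fin (2 ^ z) => (a : ℕ)) (fun a : Fin (2 ^ z') => (a : ℕ)) j)) =
    av (2 ^ z) (fun a => av (2 ^ z) (fun a' => P a a')) -
      av (2 ^ z) (fun a => av (2 ^ z') (fun a' => P a a')) -
      av (2 ^ z') (fun a => av (2 ^ z) (fun a' => P a a')) +
      av (2 ^ z') (fun a => av (2 ^ z') (fun a' => P a a')) := by
  have h1 : ∀ (k l : ℕ) (c c' : ℝ), (∑ i : Fin k, ∑ j : Fin l, c * c' * P (i : ℕ) (j : ℕ)) =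
      c * c' * ∑ i ∈ range k, ∑ j ∈ range l, P i j := by
    intro k l c c'
    rw [Finset.mul_sum, Finset.sum_range]
    refine Finset.sum_congr rfl fun i _ => ?_
    rw [Finset.mul_sum, Finset.sum_range]
  have h2 : ∀ (k l : ℕ), av k (fun a => av l (fun a' => P a a')) =
      (1 / (k : ℝ)) * (1 / (l : ℝ)) * ∑ i ∈ range k, ∑ j ∈ range l, P i j := by
    intro k l
    unfold av
    rw [← Finset.sum_div]
    ring
  simp only [Fintype.sum_sum_type, Sum.elim_inl, Sum.elim_inr, Finset.sum_add_distrib]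
  rw [h1, h1, h1, h1, h2, h2, h2, h2]
  push_cast
  ring

theorem cs_mean {d : ℕ} {f : List (ι × ℕ × ℕ) → (ι → ℕ) → ℝ} (hf : Sys d f) (Y : List (ι × ℕ × ℕ))
    (x : ι → ℕ) (s : ι) (z z' : ℕ) :
    (avL Y (fun L => avC x (fun n => av (2 ^ z) (fun h => f L (n + (Pi.single s h : ι → ℕ))))) -
      avL Y (fun L => avC x (fun n => av (2 ^ z') (fun h => f L (n + (Pi.single s h : ι → ℕ)))))) ^ 2 ≤
    FF f ((s, z, z) :: Y) x - FF f ((s, z, z') :: Y) x - FF f ((s, z', z) :: Y) x +
      FF f ((s, z', z') :: Y) x := by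
  set m : (List (ι × ℕ × ℕ) × (ι → ℕ) → ℝ) → ℝ :=
    fun F => avL Y (fun L => avC x (fun n => F (L, n))) with hm
  have hM : Mn m := Mn.comp (mn_avL Y) (mn_avC x)
  have h4 : ∀ u w : ℕ, FF f ((s, u, w) :: Y) x =
      m (fun p => av (2 ^ u) (fun a => av (2 ^ w) (fun a' => f ((s, a, a') :: p.1) p.2))) := by
    intro u w
    have h6 := hM.av_comm (2 ^ u) (fun p a => av (2 ^ w) (fun a' => f ((s, a, a') :: p.1) p.2))
    have h5 : ∀ a, m (fun p => av (2 ^ w) (fun a' => f ((s, a, a') :: p.1) p.2)) =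
        av (2 ^ w) (fun a' => m (fun p => f ((s, a, a') :: p.1) p.2)) := fun a =>
      hM.av_comm (2 ^ w) (fun p a' => f ((s, a, a') :: p.1) p.2)
    rw [h6]
    simp only [h5]
    rfl
  have hA : ∀ u : ℕ, avL Y (fun L => avC x (fun n => av (2 ^ u)
      (fun h => f L (n + (Pi.single s h : ι → ℕ))))) =
      m (fun p => av (2 ^ u) (fun h => f p.1 (p.2 + (Pi.single s h : ι → ℕ)))) := fun u => rfl
  clear_value m
  rw [hA, hA, h4, h4, h4, h4]
  have hs := hM.sub (fun p => av (2 ^ z) (fun h => f p.1 (p.2 + (Pi.single s h : ι → ℕ))))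
    (fun p => av (2 ^ z') (fun h => f p.1 (p.2 + (Pi.single s h : ι → ℕ))))
  rw [← hs]
  refine (hM.sq (fun p => av (2 ^ z) (fun h => f p.1 (p.2 + (Pi.single s h : ι → ℕ))) -
    av (2 ^ z') (fun h => f p.1 (p.2 + (Pi.single s h : ι → ℕ))))).trans ?_
  have hr : ∀ a b c e : List (ι × ℕ × ℕ) × (ι → ℕ) → ℝ, m a - m b - m c + m e =
      m (fun p => a p - b p - c p + e p) := by
    intro a b c e
    have e1 := hM.add (fun p => a p - b p - c p) e
    have e2 := hM.sub (fun p => a p - b p) c
    have e3 := hM.sub a b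
    rw [e1, e2, e3]
  rw [hr]
  refine hM.mono _ _ fun p => ?_
  have h6 := hf.cs p.1 p.2 s (Fin (2 ^ z) ⊕ Fin (2 ^ z'))
    (Sum.elim (fun a : Fin (2 ^ z) => (a : ℕ)) (fun a : Fin (2 ^ z') => (a : ℕ)))
    (Sum.elim (fun _ => (1 : ℝ) / 2 ^ z) (fun _ => -(1 / 2 ^ z')))
  rw [cs_four (fun a a' => f ((s, a, a') :: p.1) p.2) z z'] at h6
  refine le_trans (le_of_eq ?_) h6
  congr 1
  simp only [Fintype.sum_sum_type, Sum.elim_inl, Sum.elim_inr]
  unfold av
  rw [Finset.sum_range, Finset.sum_range, Finset.sum_div, Finset.sum_div, sub_eq_add_neg,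
    ← Finset.sum_neg_distrib]
  congr 1
  · refine Finset.sum_congr rfl fun i _ => ?_
    push_cast
    ring
  · refine Finset.sum_congr rfl fun i _ => ?_
    push_cast
    ring

private theorem pow_small (c : ℝ) (ε : ℝ) (hε : 0 < ε) : ∃ Z : ℕ, ∀ n, Z ≤ n → c / 2 ^ n ≤ ε := by
  obtain ⟨Z, hZ⟩ := pow_unbounded_of_one_lt (c / ε) (by norm_num : (1 : ℝ) < 2)
  refine ⟨Z, fun n hn => ?_⟩
  have h1 : (2 : ℝ) ^ Z ≤ 2 ^ n := pow_le_pow_right₀ (by norm_num) hn
  rw [div_le_iff₀ (by positivity)]
  have h2 : c / ε < 2 ^ n := lt_of_lt_of_le hZ h1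
  rw [div_lt_iff₀ hε] at h2
  linarith

theorem Sys.shift {d : ℕ} {f : List (ι × ℕ × ℕ) → (ι → ℕ) → ℝ} (hf : Sys d f) (c : ι → ℕ) :
    Sys d (shf f c) where
  bd L n := hf.bd L _
  perm L L' n h := hf.perm L L' _ h
  one L n s := hf.one L _ s
  symm L n s a a' := hf.symm L _ s a a'
  top L n n' h := hf.top L _ _ h
  cs L n s α _ h w := by
    have h1 := hf.cs L (n + c) s α h w
    have e : ∀ i, shf f c L (n + (Pi.single s (h i) : ι → ℕ)) =
        f L (n + c + (Pi.single s (h i) : ι → ℕ)) := fun i => by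
      show f L _ = f L _
      rw [add_right_comm]
    simp only [e]
    exact h1
  psd L n s α _ b w := by
    have h1 := hf.psd L (n + c) s α b w
    have e : ∀ i j, shf f c ((s, (b i \ b j).card, (b j \ b i).card) :: L)
        (n + (Pi.single s (b i ∩ b j).card : ι → ℕ)) =
        f ((s, (b i \ b j).card, (b j \ b i).card) :: L)
          (n + c + (Pi.single s (b i ∩ b j).card : ι → ℕ)) := fun i j => by
      show f _ _ = f _ _
      rw [add_right_comm]
    simp only [e]
    exact h1

theorem cheap_one {d : ℕ} {f : List (ι × ℕ × ℕ) → (ι → ℕ) → ℝ} (hf : Sys d f) (τ : List ι) (s : ι)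
    (V : ℝ) (hV : Cvg f (s :: τ) V) (ε : ℝ) (hε : 0 < ε) :
    ∃ X : ℕ, ∀ (Y : List (ι × ℕ × ℕ)) (x c : ι → ℕ) (z : ℕ), Y.map Prod.fst = τ → Ge X Y →
      (∀ t, X ≤ x t) → X ≤ z → |FF (shf f c) Y x - FF (shf f c) Y (Function.update x s z)| ≤ ε := by
  obtain ⟨X₁, hX₁⟩ := hV (ε ^ 2 / 256) (by positivity)
  obtain ⟨X₂, hX₂⟩ := pow_small (2 * 2 ^ X₁) (ε / 8) (by positivity)
  -- the comparison with a very large scale
  have key : ∀ (Y : List (ι × ℕ × ℕ)) (x c : ι → ℕ), Y.map Prod.fst = τ → Ge (max X₁ X₂) Y →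
      (∀ t, max X₁ X₂ ≤ x t) → ∀ Z, X₁ ≤ Z → 2 * (2 : ℝ) ^ x s / 2 ^ Z ≤ ε / 8 →
      |FF (shf f c) Y x - FF (shf f c) Y (Function.update x s Z)| ≤ 3 * ε / 8 := by
    intro Y x c hY hG hx Z hZ hZ2
    have hcv : ∀ u w : ℕ, X₁ ≤ u → X₁ ≤ w → |FF (shf f c) ((s, u, w) :: Y) x - V| ≤ ε ^ 2 / 256 := by
      intro u w hu hw
      refine hX₁ _ _ c (by simp [hY]) ?_ fun t => le_trans (le_max_left _ _) (hx t)
      intro p hp
      rcases List.mem_cons.1 hp with rfl | hp
      · exact ⟨hu, hw⟩
      · exact ⟨le_trans (le_max_left _ _) (hG p hp).1, le_trans (le_max_left _ _) (hG p hp).2⟩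
    have hF : Sys d (shf f c) := hf.shift c
    generalize shf f c = F at hF hcv
    have h1 := cs_mean hF Y x s X₁ Z
    set A := avL Y (fun L => avC x (fun n => av (2 ^ X₁) (fun h => F L (n + (Pi.single s h : ι → ℕ))))) with hA
    set B := avL Y (fun L => avC x (fun n => av (2 ^ Z) (fun h => F L (n + (Pi.single s h : ι → ℕ))))) with hB
    have h2 : |A - B| ≤ ε / 8 := by
      have a1 := abs_le.1 (hcv X₁ X₁ le_rfl le_rfl)
      have a2 := abs_le.1 (hcv X₁ Z le_rfl hZ)
      have a3 := abs_le.1 (hcv Z X₁ hZ le_rfl)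
      have a4 := abs_le.1 (hcv Z Z hZ hZ)
      refine abs_le_of_sq_le_sq' ?_ (by positivity) |> fun h => abs_le.2 h
      nlinarith [a1.1, a1.2, a2.1, a2.2, a3.1, a3.2, a4.1, a4.2]
    have h3 : |A - FF F Y x| ≤ ε / 8 := by
      refine (mn_avL Y).abs_sub_le fun L => ?_
      exact (shift_small x s X₁ (F L) (hF.bd L)).trans
        (hX₂ _ (le_trans (le_max_right _ _) (hx s)))
    have h4 : |B - FF F Y (Function.update x s Z)| ≤ ε / 8 := by
      refine (mn_avL Y).abs_sub_le fun L => ?_
      exact (shift_big x s Z (F L) (hF.bd L)).trans hZ2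
    have h5 : FF F Y x - FF F Y (Function.update x s Z) =
        -(A - FF F Y x) + ((A - B) + (B - FF F Y (Function.update x s Z))) := by ring
    rw [h5]
    refine (abs_add_le _ _).trans ?_
    rw [abs_neg]
    have h6 := abs_add_le (A - B) (B - FF F Y (Function.update x s Z))
    linarith
  refine ⟨max X₁ X₂, fun Y x c z hY hG hx hz => ?_⟩
  obtain ⟨Z₁, hZ₁⟩ := pow_small (2 * 2 ^ x s) (ε / 8) (by positivity)
  obtain ⟨Z₂, hZ₂⟩ := pow_small (2 * 2 ^ z) (ε / 8) (by positivity)
  set Z := max X₁ (max Z₁ Z₂) with hZdef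
  have k1 := key Y x c hY hG hx Z (le_max_left _ _)
    (hZ₁ _ (le_trans (le_max_left _ _) (le_max_right _ _)))
  have k2 := key Y (Function.update x s z) c hY hG (by
      intro t
      by_cases ht : t = s
      · subst ht
        rw [Function.update_self]
        exact hz
      · rw [Function.update_of_ne ht]
        exact hx t) Z (le_max_left _ _) (by
      rw [Function.update_self]
      exact hZ₂ _ (le_trans (le_max_right _ _) (le_max_right _ _)))
  rw [Function.update_idem] at k2
  have h5 : FF (shf f c) Y x - FF (shf f c) Y (Function.update x s z) =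
      (FF (shf f c) Y x - FF (shf f c) Y (Function.update x s Z)) -
        (FF (shf f c) Y (Function.update x s z) - FF (shf f c) Y (Function.update x s Z)) := by ring
  rw [h5]
  refine (abs_sub _ _).trans ?_
  linarith

theorem cheap_same {d : ℕ} {f : List (ι × ℕ × ℕ) → (ι → ℕ) → ℝ} (hf : Sys d f) (τ : List ι)
    (h : (∀ s, ∃ V, Cvg f (s :: τ) V) ∨ d ≤ τ.length) (ε : ℝ) (hε : 0 < ε) :
    ∃ X : ℕ, ∀ (Y : List (ι × ℕ × ℕ)) (x x' c : ι → ℕ), Y.map Prod.fst = τ → Ge X Y →
      (∀ t, X ≤ x t) → (∀ t, X ≤ x' t) → |FF (shf f c) Y x - FF (shf f c) Y x'| ≤ ε := by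
  rcases h with h | h
  · choose V hV using h
    have hε' : 0 < ε / (Fintype.card ι + 1) := by positivity
    choose X hX using fun s => cheap_one hf τ s (V s) (hV s) _ hε'
    refine ⟨univ.sup X, fun Y x x' c hY hG hx hx' => ?_⟩
    have hle : ∀ s, X s ≤ univ.sup X := fun s => Finset.le_sup (f := X) (mem_univ s)
    have key : ∀ A : Finset ι,
        |FF (shf f c) Y x - FF (shf f c) Y (fun t => if t ∈ A then x' t else x t)| ≤
        A.card * (ε / (Fintype.card ι + 1)) := by
      intro A
      induction A using Finset.induction_on with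
      | empty => simp
      | insert s A hs ih =>
        have e1 : (fun t => if t ∈ insert s A then x' t else x t) =
            Function.update (fun t => if t ∈ A then x' t else x t) s (x' s) := by
          funext t
          by_cases ht : t = s
          · subst ht
            simp
          · simp [ht]
        rw [e1, card_insert_of_notMem hs]
        have h2 := hX s Y (fun t => if t ∈ A then x' t else x t) c (x' s) hY
          (fun p hp => ⟨(hle s).trans (hG p hp).1, (hle s).trans (hG p hp).2⟩)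
          (fun t => by
            split_ifs
            · exact (hle s).trans (hx' t)
            · exact (hle s).trans (hx t)) ((hle s).trans (hx' s))
        have h3 : FF (shf f c) Y x -
            FF (shf f c) Y (Function.update (fun t => if t ∈ A then x' t else x t) s (x' s)) =
            (FF (shf f c) Y x - FF (shf f c) Y (fun t => if t ∈ A then x' t else x t)) +
            (FF (shf f c) Y (fun t => if t ∈ A then x' t else x t) -
              FF (shf f c) Y
                (Function.update (fun t => if t ∈ A then x' t else x t) s (x' s))) := by ring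
        rw [h3]
        refine (abs_add_le _ _).trans ?_
        push_cast
        linarith
    have h1 := key univ
    have e2 : (fun t => if t ∈ (univ : Finset ι) then x' t else x t) = x' := by
      funext t
      simp
    rw [e2, card_univ] at h1
    refine h1.trans ?_
    rw [mul_div_assoc', div_le_iff₀ (by positivity)]
    nlinarith
  · refine ⟨0, fun Y x x' c hY _ _ _ => ?_⟩
    have hF : Sys d (shf f c) := hf.shift c
    generalize shf f c = F at hF
    have h1 : FF F Y x = FF F Y x' := by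
      unfold FF
      refine avL_congr Y _ _ fun L hL => ?_
      have hlen : d ≤ L.length := by
        have h2 : L.length = τ.length := by
          rw [← List.length_map (f := Prod.fst) (as := L), hL, hY]
        omega
      have hc : ∀ y : ι → ℕ, avC y (F L) = F L 0 := by
        intro y
        have h3 : F L = fun _ => F L 0 := funext fun n => hF.top L n 0 hlen
        rw [h3]
        exact (mn_avC y).const _
      rw [hc, hc]
    rw [h1, sub_self, abs_zero]
    exact hε.le

private theorem shf_zero (f : List (ι × ℕ × ℕ) → (ι → ℕ) → ℝ) : shf f 0 = f := by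
  funext L n
  show f L (n + 0) = f L n
  rw [add_zero]

/-- a shift of the contexts costs little at large scales -/
private theorem shf_cost {d : ℕ} {f : List (ι × ℕ × ℕ) → (ι → ℕ) → ℝ} (hf : Sys d f)
    (Y : List (ι × ℕ × ℕ)) (x c : ι → ℕ) :
    |FF (shf f c) Y x - FF f Y x| ≤ ∑ s, 2 * (c s : ℝ) / 2 ^ x s := by
  have key : ∀ A : Finset ι,
      |FF (shf f (fun t => if t ∈ A then c t else 0)) Y x - FF f Y x| ≤
        ∑ s ∈ A, 2 * (c s : ℝ) / 2 ^ x s := by
    intro A
    induction A using Finset.induction_on with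
    | empty =>
      have e : (fun t => if t ∈ (∅ : Finset ι) then c t else 0) = (0 : ι → ℕ) := by
        funext t
        simp
      rw [e, shf_zero]
      simp
    | insert s A hs ih =>
      have e : (fun t => if t ∈ insert s A then c t else 0) =
          (Pi.single s (c s) : ι → ℕ) + (fun t => if t ∈ A then c t else 0) := by
        funext t
        by_cases ht : t = s
        · subst ht
          simp [hs]
        · simp [ht]
      rw [Finset.sum_insert hs, e]
      have h2 : |FF (shf f ((Pi.single s (c s) : ι → ℕ) + (fun t => if t ∈ A then c t else 0))) Y x -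
          FF (shf f (fun t => if t ∈ A then c t else 0)) Y x| ≤ 2 * (c s : ℝ) / 2 ^ x s := by
        have hF : Sys d (shf f (fun t => if t ∈ A then c t else 0)) := hf.shift _
        refine (mn_avL Y).abs_sub_le fun L => ?_
        have h3 := shift_one x s (c s) (shf f (fun t => if t ∈ A then c t else 0) L) (hF.bd L)
        have h4 : (fun n => shf f (fun t => if t ∈ A then c t else 0) L
            (n + (Pi.single s (c s) : ι → ℕ))) =
            shf f ((Pi.single s (c s) : ι → ℕ) + (fun t => if t ∈ A then c t else 0)) L := by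
          funext n
          show f L _ = f L _
          rw [add_assoc]
        rw [h4] at h3
        exact h3
      have h5 := abs_sub_le
        (FF (shf f ((Pi.single s (c s) : ι → ℕ) + (fun t => if t ∈ A then c t else 0))) Y x)
        (FF (shf f (fun t => if t ∈ A then c t else 0)) Y x) (FF f Y x)
      linarith
  have h1 := key univ
  have e2 : (fun t => if t ∈ (univ : Finset ι) then c t else 0) = c := by
    funext t
    simp
  rw [e2] at h1
  exact h1

theorem cheap {d : ℕ} {f : List (ι × ℕ × ℕ) → (ι → ℕ) → ℝ} (hf : Sys d f) (τ : List ι)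
    (h : (∀ s, ∃ V, Cvg f (s :: τ) V) ∨ d ≤ τ.length) (ε : ℝ) (hε : 0 < ε) :
    ∃ X : ℕ, ∀ (Y : List (ι × ℕ × ℕ)) (x x' c : ι → ℕ), Y.map Prod.fst = τ → Ge X Y →
      (∀ t, X ≤ x t) → (∀ t, X ≤ x' t) → |FF (shf f c) Y x - FF f Y x'| ≤ ε := by
  obtain ⟨X, hX⟩ := cheap_same hf τ h (ε / 3) (by positivity)
  refine ⟨X, fun Y x x' c hY hG hx hx' => ?_⟩
  -- a common very large scale
  obtain ⟨Z, hZ⟩ := pow_small (∑ s, 2 * (c s : ℝ)) (ε / 3) (by positivity)
  have h1 := hX Y x (fun _ => max X Z) c hY hG hx (fun _ => le_max_left _ _)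
  have h2 := hX Y x' (fun _ => max X Z) 0 hY hG hx' (fun _ => le_max_left _ _)
  rw [shf_zero] at h2
  have h3 := shf_cost hf Y (fun _ => max X Z) c
  rw [← Finset.sum_div] at h3
  have h4 := h3.trans (hZ (max X Z) (le_max_right _ _))
  have h5 := abs_sub_le (FF (shf f c) Y x) (FF (shf f c) Y (fun _ => max X Z))
    (FF f Y x')
  have h6 := abs_sub_le (FF (shf f c) Y (fun _ => max X Z)) (FF f Y (fun _ => max X Z)) (FF f Y x')
  rw [abs_sub_comm] at h2
  linarith

end Pool.Agent.Lib.MP_90b327_co.UC
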