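import Mathlib
import Pool.Agent.Lib.MP_90b327_co.UC.UDefs

/-!
MODULE UCx. (60 minutes) Combinatorics of complexes.
All statements are elementary. `mem_st`: `U = B ∪ T` with `∅ ≠ B ⊆ b`, `T ∩ b = ∅` iff `B = U ∩ b`, `T = U \ b`. `cx_jn`: a subset of `B ∪ T` is
`(U ∩ B) ∪ (U \ B)` with `U \ B ⊆ T`; if `U ∩ B = ∅` it is in `S`. `mp_st`: the nonempty subsets of `b.image φ` are the images of the nonempty
subsets of `b` (`Finset.subset_image_iff`). `jn_diff`: see the text, part 3. `dif_jn`: by `jn_diff`; if `(U ∩ b)` is nonempty then `|U \ b| + 1 ≤ |U| ≤ k`.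
-/

set_option autoImplicit false

namespace Pool.Agent.Lib.MP_90b327_co.UC

open Finset MeasureTheory Filter Topology Pool.Agent.Lib.MP_90b327_co

variable {ι : Type} [DecidableEq ι]

theorem mem_vs {S : Fam ι} {v : Vx ι} : v ∈ vs S ↔ ∃ T ∈ S, v ∈ T := by
  simp [vs]

theorem sub_vs {S : Fam ι} {T : Finset (Vx ι)} (h : T ∈ S) : T ⊆ vs S :=
  fun v hv => mem_vs.2 ⟨T, h, hv⟩

theorem vs_empty : vs (∅ : Fam ι) = ∅ := by
  simp [vs]

theorem vs_union (S S' : Fam ι) : vs (S ∪ S') = vs S ∪ vs S' := by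
  ext v
  simp only [mem_union, mem_vs]
  constructor
  · rintro ⟨T, hT | hT, hv⟩
    · exact Or.inl ⟨T, hT, hv⟩
    · exact Or.inr ⟨T, hT, hv⟩
  · rintro (⟨T, hT, hv⟩ | ⟨T, hT, hv⟩)
    · exact ⟨T, Or.inl hT, hv⟩
    · exact ⟨T, Or.inr hT, hv⟩

theorem vs_pow (C : Finset (Vx ι)) : vs C.powerset = C := by
  ext v
  rw [mem_vs]
  constructor
  · rintro ⟨T, hT, hv⟩
    exact mem_powerset.1 hT hv
  · intro hv
    exact ⟨{v}, mem_powerset.2 (singleton_subset_iff.2 hv), mem_singleton_self v⟩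

theorem vs_mp (φ : Vx ι → Vx ι) (S : Fam ι) : vs (mp φ S) = (vs S).image φ := by
  ext v
  simp only [mem_vs, mp, mem_image]
  constructor
  · rintro ⟨_, ⟨T, hT, rfl⟩, hv⟩
    obtain ⟨w, hw, rfl⟩ := mem_image.1 hv
    exact ⟨w, ⟨T, hT, hw⟩, rfl⟩
  · rintro ⟨w, ⟨T, hT, hw⟩, rfl⟩
    exact ⟨_, ⟨T, hT, rfl⟩, mem_image_of_mem φ hw⟩

theorem cx_empty : Cx (∅ : Fam ι) :=
  fun T hT => absurd hT (notMem_empty T)

theorem cx_pow (C : Finset (Vx ι)) : Cx C.powerset :=
  fun T hT U hU => mem_powerset.2 (hU.trans (mem_powerset.1 hT))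

theorem cx_union {S S' : Fam ι} (h : Cx S) (h' : Cx S') : Cx (S ∪ S') := by
  intro T hT U hU
  rcases mem_union.1 hT with hT | hT
  · exact mem_union_left _ (h T hT U hU)
  · exact mem_union_right _ (h' T hT U hU)

theorem cx_mp (φ : Vx ι → Vx ι) {S : Fam ι} (h : Cx S) : Cx (mp φ S) := by
  intro T' hT' U hU
  obtain ⟨T, hT, rfl⟩ := mem_image.1 hT'
  obtain ⟨U', hU', rfl⟩ := subset_image_iff.1 hU
  exact mem_image_of_mem _ (h T hT U' (by exact_mod_cast hU'))

theorem mp_union (φ : Vx ι → Vx ι) (S S' : Fam ι) : mp φ (S ∪ S') = mp φ S ∪ mp φ S' :=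
  image_union _ _

theorem mp_mp (φ ψ : Vx ι → Vx ι) (S : Fam ι) : mp φ (mp ψ S) = mp (φ ∘ ψ) S := by
  unfold mp
  rw [image_image]
  refine image_congr fun T _ => ?_
  simp only [Function.comp_apply, image_image]

theorem mp_id (S : Fam ι) : mp id S = S := by
  unfold mp
  simp only [image_id, image_id']

theorem mp_congr {φ ψ : Vx ι → Vx ι} {S : Fam ι} (h : ∀ v ∈ vs S, φ v = ψ v) : mp φ S = mp ψ S := by
  refine image_congr fun T hT => image_congr fun v hv => h v (mem_vs.2 ⟨T, hT, hv⟩)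

theorem mp_pow (φ : Vx ι → Vx ι) (C : Finset (Vx ι)) : mp φ C.powerset = (C.image φ).powerset := by
  ext U
  simp only [mp, mem_image, mem_powerset]
  constructor
  · rintro ⟨T, hT, rfl⟩
    exact image_subset_image hT
  · intro hU
    obtain ⟨U', hU', rfl⟩ := subset_image_iff.1 hU
    exact ⟨U', by exact_mod_cast hU', rfl⟩

theorem mp_empty (φ : Vx ι → Vx ι) : mp φ (∅ : Fam ι) = ∅ :=
  image_empty _

theorem mem_mp_inj {φ : Vx ι → Vx ι} {S : Fam ι} {T : Finset (Vx ι)}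
    (h : Set.InjOn φ (↑(vs S ∪ T) : Set (Vx ι))) : T.image φ ∈ mp φ S ↔ T ∈ S := by
  constructor
  · intro hT
    obtain ⟨T', hT', he⟩ := mem_image.1 hT
    have : T' = T := by
      ext v
      constructor
      · intro hv
        have h1 : φ v ∈ T.image φ := by rw [← he]; exact mem_image_of_mem φ hv
        obtain ⟨w, hw, hwv⟩ := mem_image.1 h1
        have h2 : w = v := h (by simp [hw]) (by simp [sub_vs hT' hv]) hwv
        rwa [h2] at hw
      · intro hv
        have h1 : φ v ∈ T'.image φ := by rw [he]; exact mem_image_of_mem φ hv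
        obtain ⟨w, hw, hwv⟩ := mem_image.1 h1
        have h2 : w = v := h (by simp [sub_vs hT' hw]) (by simp [hv]) hwv
        rwa [h2] at hw
    rwa [this] at hT'
  · intro hT
    exact mem_image_of_mem _ hT

theorem st_empty (b : Finset (Vx ι)) : st b (∅ : Fam ι) = ∅ := by
  simp [st]

theorem mem_st {b : Finset (Vx ι)} {S : Fam ι} (h : Disjoint b (vs S)) (U : Finset (Vx ι)) :
    U ∈ st b S ↔ (U ∩ b).Nonempty ∧ U \ b ∈ S := by
  have key : ∀ T ∈ S, ∀ v ∈ T, v ∉ b := fun T hT v hv hb =>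
    disjoint_left.1 h hb (sub_vs hT hv)
  constructor
  · intro hU
    obtain ⟨⟨B, T⟩, hBT, rfl⟩ := mem_image.1 hU
    obtain ⟨hB, hT⟩ := mem_product.1 hBT
    obtain ⟨hB0, hB⟩ := mem_erase.1 hB
    have hBb : B ⊆ b := mem_powerset.1 hB
    change T ∈ S at hT
    change B ≠ ∅ at hB0
    change ((B ∪ T) ∩ b).Nonempty ∧ (B ∪ T) \ b ∈ S
    obtain ⟨v, hv⟩ := nonempty_iff_ne_empty.2 hB0
    refine ⟨⟨v, mem_inter.2 ⟨mem_union_left _ hv, hBb hv⟩⟩, ?_⟩
    have : (B ∪ T) \ b = T := by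
      ext v
      simp only [Finset.mem_sdiff, mem_union]
      constructor
      · rintro ⟨hv | hv, hvb⟩
        · exact absurd (hBb hv) hvb
        · exact hv
      · intro hv
        exact ⟨Or.inr hv, key T hT v hv⟩
    rwa [this]
  · rintro ⟨hU, hT⟩
    refine mem_image.2 ⟨(U ∩ b, U \ b), mem_product.2 ⟨mem_erase.2 ⟨nonempty_iff_ne_empty.1 hU,
      mem_powerset.2 inter_subset_right⟩, hT⟩, ?_⟩
    ext v
    simp only [mem_union, mem_inter, Finset.mem_sdiff]
    tauto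

theorem vs_st (b : Finset (Vx ι)) (S : Fam ι) : vs (st b S) ⊆ b ∪ vs S := by
  intro v hv
  obtain ⟨U, hU, hv⟩ := mem_vs.1 hv
  obtain ⟨⟨B, T⟩, hBT, rfl⟩ := mem_image.1 hU
  obtain ⟨hB, hT⟩ := mem_product.1 hBT
  rcases mem_union.1 hv with hv | hv
  · exact mem_union_left _ (mem_powerset.1 (mem_erase.1 hB).2 hv)
  · exact mem_union_right _ (sub_vs hT hv)

theorem vs_jn (b b' : Finset (Vx ι)) (S S' : Fam ι) : vs (jn b b' S S') ⊆ b ∪ b' ∪ (vs S ∪ vs S') := by
  unfold jn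
  rw [vs_union, vs_union, vs_union]
  refine union_subset subset_union_right (union_subset ?_ ?_)
  · refine (vs_st b S).trans (union_subset ?_ ?_)
    · exact subset_union_left.trans subset_union_left
    · exact subset_union_left.trans subset_union_right
  · refine (vs_st b' S').trans (union_subset ?_ ?_)
    · exact subset_union_right.trans subset_union_left
    · exact subset_union_right.trans subset_union_right

theorem cx_jn (b b' : Finset (Vx ι)) {S S' : Fam ι} (h : Cx S) (h' : Cx S') : Cx (jn b b' S S') := by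
  have key : ∀ (b : Finset (Vx ι)) {S : Fam ι}, Cx S → ∀ T ∈ st b S, ∀ U, U ⊆ T →
      U ∈ S ∨ U ∈ st b S := by
    intro b S h W hW U hU
    obtain ⟨⟨B, T⟩, hBT, rfl⟩ := mem_image.1 hW
    obtain ⟨hB, hT⟩ := mem_product.1 hBT
    obtain ⟨_, hB⟩ := mem_erase.1 hB
    have hBb : B ⊆ b := mem_powerset.1 hB
    change T ∈ S at hT
    change U ⊆ B ∪ T at hU
    have h1 : U \ B ∈ S := by
      refine h T hT _ fun v hv => ?_
      obtain ⟨hv, hvB⟩ := Finset.mem_sdiff.1 hv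
      rcases mem_union.1 (hU hv) with hv | hv
      · exact absurd hv hvB
      · exact hv
    by_cases h2 : U ∩ B = ∅
    · left
      have : U \ B = U := by
        ext v
        rw [Finset.mem_sdiff]
        refine ⟨fun hv => hv.1, fun hv => ⟨hv, fun hvB => ?_⟩⟩
        have h3 : v ∈ U ∩ B := mem_inter.2 ⟨hv, hvB⟩
        rw [h2] at h3
        exact notMem_empty v h3
      rwa [this] at h1
    · right
      refine mem_image.2 ⟨(U ∩ B, U \ B), mem_product.2 ⟨mem_erase.2 ⟨h2,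
        mem_powerset.2 (inter_subset_right.trans hBb)⟩, h1⟩, ?_⟩
      ext v
      simp only [mem_union, mem_inter, Finset.mem_sdiff]
      tauto
  intro T hT U hU
  unfold jn at hT ⊢
  rcases mem_union.1 hT with hT | hT
  · exact mem_union_left _ (cx_union h h' T hT U hU)
  · rcases mem_union.1 hT with hT | hT
    · rcases key b h T hT U hU with h3 | h3
      · exact mem_union_left _ (mem_union_left _ h3)
      · exact mem_union_right _ (mem_union_left _ h3)
    · rcases key b' h' T hT U hU with h3 | h3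
      · exact mem_union_left _ (mem_union_right _ h3)
      · exact mem_union_right _ (mem_union_right _ h3)

theorem mp_st (φ : Vx ι → Vx ι) (b : Finset (Vx ι)) (S : Fam ι) :
    mp φ (st b S) = st (b.image φ) (mp φ S) := by
  ext U
  constructor
  · intro hU
    obtain ⟨W, hW, rfl⟩ := mem_image.1 hU
    obtain ⟨⟨B, T⟩, hBT, rfl⟩ := mem_image.1 hW
    obtain ⟨hB, hT⟩ := mem_product.1 hBT
    obtain ⟨hB0, hB⟩ := mem_erase.1 hB
    refine mem_image.2 ⟨(B.image φ, T.image φ), mem_product.2 ⟨mem_erase.2 ⟨?_,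
      mem_powerset.2 (image_subset_image (mem_powerset.1 hB))⟩, mem_image_of_mem _ hT⟩, ?_⟩
    · intro h
      exact hB0 (image_eq_empty.1 h)
    · exact (image_union _ _).symm
  · intro hU
    obtain ⟨⟨B', T'⟩, hBT, rfl⟩ := mem_image.1 hU
    obtain ⟨hB, hT⟩ := mem_product.1 hBT
    obtain ⟨hB0, hB1⟩ := mem_erase.1 hB
    have hB2 : B' ⊆ b.image φ := mem_powerset.1 hB1
    change B' ≠ ∅ at hB0
    change T' ∈ mp φ S at hT
    clear hB hB1 hBT hU
    obtain ⟨T, hTS, rfl⟩ := mem_image.1 hT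
    obtain ⟨B, hB', rfl⟩ := subset_image_iff.1 hB2
    have hB' : B ⊆ b := by exact_mod_cast hB'
    refine mem_image.2 ⟨B ∪ T, mem_image.2 ⟨(B, T), mem_product.2 ⟨mem_erase.2 ⟨?_,
      mem_powerset.2 hB'⟩, hTS⟩, rfl⟩, image_union _ _⟩
    intro h
    have h' : B = ∅ := h
    exact hB0 (by rw [h', image_empty])

theorem mp_jn (φ : Vx ι → Vx ι) (b b' : Finset (Vx ι)) (S S' : Fam ι) :
    mp φ (jn b b' S S') = jn (b.image φ) (b'.image φ) (mp φ S) (mp φ S') := by
  unfold jn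
  rw [mp_union, mp_union, mp_union, mp_st, mp_st]

theorem jn_diff {b b' : Finset (Vx ι)} {S S' : Fam ι} (hb : Disjoint b b')
    (h : Disjoint (b ∪ b') (vs S ∪ vs S')) (U : Finset (Vx ι)) :
    (U ∈ jn b b' S S' ∧ U ∉ jn b b' S' S) ↔
      ((U ∩ b).Nonempty ∧ U ∩ b' = ∅ ∧ U \ b ∈ S ∧ U \ b ∉ S') ∨
      ((U ∩ b').Nonempty ∧ U ∩ b = ∅ ∧ U \ b' ∈ S' ∧ U \ b' ∉ S) := by
  have hd1 : Disjoint b (vs S) := disjoint_of_subset_left subset_union_left
    (disjoint_of_subset_right subset_union_left h)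
  have hd2 : Disjoint b (vs S') := disjoint_of_subset_left subset_union_left
    (disjoint_of_subset_right subset_union_right h)
  have hd3 : Disjoint b' (vs S) := disjoint_of_subset_left subset_union_right
    (disjoint_of_subset_right subset_union_left h)
  have hd4 : Disjoint b' (vs S') := disjoint_of_subset_left subset_union_right
    (disjoint_of_subset_right subset_union_right h)
  have e1 := mem_st hd1 U
  have e2 := mem_st hd2 U
  have e3 := mem_st hd3 U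
  have e4 := mem_st hd4 U
  have m1 : (U ∩ b).Nonempty → U ∉ S := by
    rintro ⟨v, hv⟩ hU
    exact disjoint_left.1 hd1 (mem_inter.1 hv).2 (sub_vs hU (mem_inter.1 hv).1)
  have m2 : (U ∩ b).Nonempty → U ∉ S' := by
    rintro ⟨v, hv⟩ hU
    exact disjoint_left.1 hd2 (mem_inter.1 hv).2 (sub_vs hU (mem_inter.1 hv).1)
  have m3 : (U ∩ b').Nonempty → U ∉ S := by
    rintro ⟨v, hv⟩ hU
    exact disjoint_left.1 hd3 (mem_inter.1 hv).2 (sub_vs hU (mem_inter.1 hv).1)
  have m4 : (U ∩ b').Nonempty → U ∉ S' := by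
    rintro ⟨v, hv⟩ hU
    exact disjoint_left.1 hd4 (mem_inter.1 hv).2 (sub_vs hU (mem_inter.1 hv).1)
  have n1 : U \ b ∈ S → U ∩ b' = ∅ := by
    intro hU
    rw [eq_empty_iff_forall_notMem]
    intro v hv
    obtain ⟨hvU, hvb⟩ := mem_inter.1 hv
    exact disjoint_left.1 hd3 hvb (sub_vs hU (Finset.mem_sdiff.2 ⟨hvU, fun hb' =>
      disjoint_left.1 hb hb' hvb⟩))
  have n2 : U \ b' ∈ S' → U ∩ b = ∅ := by
    intro hU
    rw [eq_empty_iff_forall_notMem]
    intro v hv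
    obtain ⟨hvU, hvb⟩ := mem_inter.1 hv
    exact disjoint_left.1 hd2 hvb (sub_vs hU (Finset.mem_sdiff.2 ⟨hvU, fun hb' =>
      disjoint_left.1 hb hvb hb'⟩))
  have q1 : U ∩ b = ∅ ↔ ¬ (U ∩ b).Nonempty := not_nonempty_iff_eq_empty.symm
  have q2 : U ∩ b' = ∅ ↔ ¬ (U ∩ b').Nonempty := not_nonempty_iff_eq_empty.symm
  rw [q2] at n1
  rw [q1] at n2
  rw [q1, q2]
  simp only [jn, mem_union, e1, e2, e3, e4]
  constructor
  · rintro ⟨((hp | hq) | (⟨ha, hx⟩ | ⟨hc, hw⟩)), hn⟩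
    · exact absurd (Or.inl (Or.inr hp)) hn
    · exact absurd (Or.inl (Or.inl hq)) hn
    · exact Or.inl ⟨ha, n1 hx, hx, fun hy => hn (Or.inr (Or.inl ⟨ha, hy⟩))⟩
    · exact Or.inr ⟨hc, n2 hw, hw, fun hz => hn (Or.inr (Or.inr ⟨hc, hz⟩))⟩
  · rintro (⟨ha, hc, hx, hy⟩ | ⟨hc, ha, hw, hz⟩)
    · refine ⟨Or.inr (Or.inl ⟨ha, hx⟩), ?_⟩
      rintro ((hq | hp) | (⟨_, hy'⟩ | ⟨hc', _⟩))
      · exact m2 ha hq
      · exact m1 ha hp
      · exact hy hy'
      · exact hc hc'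
    · refine ⟨Or.inr (Or.inr ⟨hc, hw⟩), ?_⟩
      rintro ((hq | hp) | (⟨ha', _⟩ | ⟨_, hz'⟩))
      · exact m4 hc hq
      · exact m3 hc hp
      · exact ha ha'
      · exact (hz hz')

theorem dif_jn {k : ℕ} {b b' : Finset (Vx ι)} {S S' R R' : Fam ι} (hb : Disjoint b b')
    (h : Disjoint (b ∪ b') (vs S ∪ vs S')) (h' : Disjoint (b ∪ b') (vs R ∪ vs R'))
    (hd : Dif (k - 1) S S' R R') : Dif k (jn b b' S S') (jn b b' S' S) (jn b b' R R') (jn b b' R' R) := by
  intro U hU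
  have hcard : ∀ b : Finset (Vx ι), (U ∩ b).Nonempty → (U \ b).card ≤ k - 1 := by
    intro b hb
    have h1 := card_pos.2 hb
    have h2 := card_inter_add_card_sdiff U b
    omega
  have hc : Disjoint (b ∪ b') (vs S' ∪ vs S) := by rwa [union_comm (vs S') (vs S)]
  have hc' : Disjoint (b ∪ b') (vs R' ∪ vs R) := by rwa [union_comm (vs R') (vs R)]
  rw [jn_diff hb h U, jn_diff hb h' U, jn_diff hb hc U, jn_diff hb hc' U]
  have k1 : (U ∩ b).Nonempty → _ := fun hn => hd (U \ b) (hcard b hn)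
  have k2 : (U ∩ b').Nonempty → _ := fun hn => hd (U \ b') (hcard b' hn)
  constructor
  · constructor
    · rintro (⟨a1, a2, a3⟩ | ⟨a1, a2, a3⟩)
      · exact Or.inl ⟨a1, a2, (k1 a1).1.1 a3⟩
      · exact Or.inr ⟨a1, a2, (k2 a1).2.1 a3⟩
    · rintro (⟨a1, a2, a3⟩ | ⟨a1, a2, a3⟩)
      · exact Or.inl ⟨a1, a2, (k1 a1).1.2 a3⟩
      · exact Or.inr ⟨a1, a2, (k2 a1).2.2 a3⟩
  · constructor
    · rintro (⟨a1, a2, a3⟩ | ⟨a1, a2, a3⟩)
      · exact Or.inl ⟨a1, a2, (k1 a1).2.1 a3⟩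
      · exact Or.inr ⟨a1, a2, (k2 a1).1.1 a3⟩
    · rintro (⟨a1, a2, a3⟩ | ⟨a1, a2, a3⟩)
      · exact Or.inl ⟨a1, a2, (k1 a1).2.2 a3⟩
      · exact Or.inr ⟨a1, a2, (k2 a1).1.2 a3⟩

private theorem pow_st_aux (b C : Finset (Vx ι)) : C.powerset ∪ st b C.powerset = (C ∪ b).powerset := by
  ext U
  rw [mem_union, mem_powerset, mem_powerset]
  constructor
  · rintro (hU | hU)
    · exact hU.trans subset_union_left
    · obtain ⟨⟨B, T⟩, hBT, rfl⟩ := mem_image.1 hU
      obtain ⟨hB, hT⟩ := mem_product.1 hBT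
      have hBb := mem_powerset.1 (mem_erase.1 hB).2
      exact union_subset (hBb.trans subset_union_right) ((mem_powerset.1 hT).trans subset_union_left)
  · intro hU
    by_cases h0 : U ∩ b = ∅
    · left
      intro v hv
      rcases mem_union.1 (hU hv) with h1 | h1
      · exact h1
      · exact absurd (mem_inter.2 ⟨hv, h1⟩) (by rw [h0]; exact notMem_empty v)
    · right
      refine mem_image.2 ⟨(U ∩ b, U \ b), mem_product.2 ⟨mem_erase.2 ⟨h0,
        mem_powerset.2 inter_subset_right⟩, mem_powerset.2 fun v hv => ?_⟩, ?_⟩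
      · obtain ⟨hv, hvb⟩ := Finset.mem_sdiff.1 hv
        rcases mem_union.1 (hU hv) with h1 | h1
        · exact h1
        · exact absurd h1 hvb
      · ext v
        simp only [mem_union, mem_inter, Finset.mem_sdiff]
        tauto

theorem jn_pow_left (b b' C : Finset (Vx ι)) : jn b b' C.powerset ∅ = (C ∪ b).powerset := by
  unfold jn
  rw [st_empty, union_empty, union_empty, pow_st_aux]

theorem jn_pow_right (b b' C : Finset (Vx ι)) : jn b b' ∅ C.powerset = (C ∪ b').powerset := by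
  unfold jn
  rw [st_empty, empty_union, empty_union, pow_st_aux]

private theorem dif_mp_aux {k : ℕ} {φ : Vx ι → Vx ι} {S S' R R' : Fam ι} {T : Finset (Vx ι)}
    (h : Set.InjOn φ (↑(vs S ∪ vs R') : Set (Vx ι))) (hT : T.card ≤ k)
    (hd : ∀ U : Finset (Vx ι), U.card ≤ k → (U ∈ S ∧ U ∉ S') → (U ∈ R ∧ U ∉ R')) :
    (T ∈ mp φ S ∧ T ∉ mp φ S') → (T ∈ mp φ R ∧ T ∉ mp φ R') := by
  rintro ⟨h1, h2⟩
  obtain ⟨U, hU, rfl⟩ := mem_image.1 h1
  have hUS := sub_vs hU
  have hinj : Set.InjOn φ (↑U : Set (Vx ι)) := h.mono (by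
    exact_mod_cast hUS.trans subset_union_left)
  have hc : U.card ≤ k := by
    rwa [card_image_of_injOn hinj] at hT
  obtain ⟨h3, h4⟩ := hd U hc ⟨hU, fun h5 => h2 (mem_image_of_mem _ h5)⟩
  refine ⟨mem_image_of_mem _ h3, fun h5 => h4 ?_⟩
  refine (mem_mp_inj (φ := φ) (h.mono ?_)).1 h5
  exact_mod_cast union_subset subset_union_right (hUS.trans subset_union_left)

theorem dif_mp {k : ℕ} {φ : Vx ι → Vx ι} {S S' R R' : Fam ι}
    (h : Set.InjOn φ (↑(vs S ∪ vs S' ∪ (vs R ∪ vs R')) : Set (Vx ι))) (hd : Dif k S S' R R') :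
    Dif k (mp φ S) (mp φ S') (mp φ R) (mp φ R') := by
  have hsub : ∀ {W : Finset (Vx ι)}, W ⊆ vs S ∪ vs S' ∪ (vs R ∪ vs R') →
      Set.InjOn φ (↑W : Set (Vx ι)) := fun hW => h.mono (by exact_mod_cast hW)
  have s1 : vs S ⊆ vs S ∪ vs S' ∪ (vs R ∪ vs R') := subset_union_left.trans subset_union_left
  have s2 : vs S' ⊆ vs S ∪ vs S' ∪ (vs R ∪ vs R') := subset_union_right.trans subset_union_left
  have s3 : vs R ⊆ vs S ∪ vs S' ∪ (vs R ∪ vs R') := subset_union_left.trans subset_union_right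
  have s4 : vs R' ⊆ vs S ∪ vs S' ∪ (vs R ∪ vs R') := subset_union_right.trans subset_union_right
  intro T hT
  refine ⟨⟨?_, ?_⟩, ⟨?_, ?_⟩⟩
  · exact dif_mp_aux (hsub (union_subset s1 s4)) hT fun U hU => (hd U hU).1.1
  · exact dif_mp_aux (hsub (union_subset s3 s2)) hT fun U hU => (hd U hU).1.2
  · exact dif_mp_aux (hsub (union_subset s2 s3)) hT fun U hU => (hd U hU).2.1
  · exact dif_mp_aux (hsub (union_subset s4 s1)) hT fun U hU => (hd U hU).2.2

end Pool.Agent.Lib.MP_90b327_co.UC
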