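import Mathlib
import Pool.Agent.Lib.MP_90b327_co.UC.UDefs
import Pool.Agent.Lib.MP_90b327_co.UC.UCx

/-!
MODULE UPlace. (45 minutes) The derived kernel at any place.
PROOF. `c = a + a'`, `b₀ = bk s 0 a`, `b₀' = bk s a a'`. Choose enumerations `β : ℕ → Vx ι` with `(range a).image β = b` (of the type `s`), `β' : ℕ → Vx ι` with
`(range a').image β' = b'`. `φ v = if v.2 < a ∧ v.1 = s then β v.2 else if v.2 < c ∧ v.1 = s then β' (v.2 - a) else if v.2 < c then v else e (v.1, v.2 - c)`.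
`φ` is type preserving, `φ ∘ sh c = e`, `b₀.image φ = b`, `b₀'.image φ = b'`; injective on `b₀ ∪ b₀' ∪ (vs S ∪ vs S').image (sh c)` (which contains
the vertices of both arguments by `vs_jn`). So `KK.inv` and `mp_jn`, `mp_mp`.
-/

set_option autoImplicit false

namespace Pool.Agent.Lib.MP_90b327_co.UC

open Finset MeasureTheory Filter Topology Pool.Agent.Lib.MP_90b327_co

variable {ι : Type} [DecidableEq ι]

private theorem enum (b : Finset (Vx ι)) (a : ℕ) (hc : b.card = a) (x0 : Vx ι) :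
    ∃ β : ℕ → Vx ι, (∀ i, i < a → β i ∈ b) ∧ (∀ v ∈ b, ∃ i, i < a ∧ β i = v) ∧
      (∀ i j, i < a → j < a → β i = β j → i = j) := by
  classical
  let E := b.equivFinOfCardEq hc
  refine ⟨fun i => if h : i < a then ((E.symm ⟨i, h⟩ : b) : Vx ι) else x0, ?_, ?_, ?_⟩
  · intro i hi
    simp only [hi, dite_true]
    exact (E.symm ⟨i, hi⟩).2
  · intro v hv
    refine ⟨(E ⟨v, hv⟩ : Fin a), (E ⟨v, hv⟩).2, ?_⟩
    simp
  · intro i j hi hj hij
    simp only [hi, hj, dite_true] at hij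
    have := E.symm.injective (Subtype.ext hij)
    simpa using this

theorem place {k : ℕ} {K : Fam ι → Fam ι → ℝ} (hK : KK k K) (s : ι) (a a' : ℕ) (S S' : Fam ι)
    (hS : Cx S) (hS' : Cx S') (e : Vx ι → Vx ι) (he : Ty e)
    (hinj : Set.InjOn e (↑(vs S ∪ vs S') : Set (Vx ι))) (b b' : Finset (Vx ι)) (hb : Of s b)
    (hb' : Of s b') (hc : b.card = a) (hc' : b'.card = a') (hd : Disjoint b b')
    (hd1 : Disjoint (b ∪ b') ((vs S ∪ vs S').image e)) :
    der (s, a, a') K S S' = K (jn b b' (mp e S) (mp e S')) (jn b b' (mp e S') (mp e S)) := by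
  classical
  obtain ⟨β, h1, h2, h3⟩ := enum b a hc (s, 0)
  obtain ⟨β', h1', h2', h3'⟩ := enum b' a' hc' (s, 0)
  let φ : Vx ι → Vx ι := fun v =>
    if v.1 = s ∧ v.2 < a then β v.2 else if v.1 = s ∧ v.2 < a + a' then β' (v.2 - a)
    else if v.2 < a + a' then v else e (v.1, v.2 - (a + a'))
  have φ1 : ∀ i, i < a → φ (s, i) = β i := by
    intro i hi
    simp only [φ, hi, true_and, and_self, if_true]
  have φ2 : ∀ i, i < a' → φ (s, a + i) = β' i := by
    intro i hi
    have e1 : ¬ (a + i < a) := by omega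
    have e2 : a + i < a + a' := by omega
    simp only [φ, e1, e2, true_and, and_false, and_self, if_true, if_false, Nat.add_sub_cancel_left]
  have φ3 : ∀ v, φ (sh (a + a') v) = e v := by
    intro v
    have e1 : ¬ (v.2 + (a + a') < a) := by omega
    have e2 : ¬ (v.2 + (a + a') < a + a') := by omega
    simp only [φ, sh, e1, e2, and_false, if_false, Nat.add_sub_cancel]
  have hT : Ty φ := by
    intro v
    show (if v.1 = s ∧ v.2 < a then β v.2 else if v.1 = s ∧ v.2 < a + a' then β' (v.2 - a)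
      else if v.2 < a + a' then v else e (v.1, v.2 - (a + a'))).1 = v.1
    by_cases c1 : v.1 = s ∧ v.2 < a
    · rw [if_pos c1, hb _ (h1 _ c1.2), c1.1]
    · by_cases c2 : v.1 = s ∧ v.2 < a + a'
      · have hva : ¬ v.2 < a := fun h => c1 ⟨c2.1, h⟩
        have hlt := c2.2
        have : v.2 - a < a' := by omega
        rw [if_neg c1, if_pos c2, hb' _ (h1' _ this), c2.1]
      · by_cases c3 : v.2 < a + a'
        · rw [if_neg c1, if_neg c2, if_pos c3]
        · rw [if_neg c1, if_neg c2, if_neg c3]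
          exact he _
  have i1 : (bk s 0 a).image φ = b := by
    ext v
    simp only [bk, mem_image, mem_Ico, zero_le, zero_add, true_and]
    constructor
    · rintro ⟨u, ⟨i, hi, rfl⟩, rfl⟩
      rw [φ1 i hi]
      exact h1 i hi
    · intro hv
      obtain ⟨i, hi, rfl⟩ := h2 v hv
      exact ⟨(s, i), ⟨i, hi, rfl⟩, φ1 i hi⟩
  have i2 : (bk s a a').image φ = b' := by
    ext v
    simp only [bk, mem_image, mem_Ico]
    constructor
    · rintro ⟨u, ⟨i, hi, rfl⟩, rfl⟩
      obtain ⟨j, rfl⟩ := Nat.exists_eq_add_of_le hi.1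
      have hj : j < a' := by omega
      rw [φ2 j hj]
      exact h1' j hj
    · intro hv
      obtain ⟨i, hi, rfl⟩ := h2' v hv
      exact ⟨(s, a + i), ⟨a + i, ⟨by omega, by omega⟩, rfl⟩, φ2 i hi⟩
  have i3 : φ ∘ sh (a + a') = e := funext φ3
  have hJ : ∀ S₁ S₂ : Fam ι, mp φ (jn (bk s 0 a) (bk s a a') (mp (sh (a + a')) S₁) (mp (sh (a + a')) S₂)) =
      jn b b' (mp e S₁) (mp e S₂) := by
    intro S₁ S₂
    rw [mp_jn, i1, i2, mp_mp, mp_mp, i3]
  have hInj : Set.InjOn φ (↑(bk s 0 a ∪ bk s a a' ∪ (vs S ∪ vs S').image (sh (a + a'))) : Set (Vx ι)) := by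
    have mem : ∀ v, v ∈ bk s 0 a ∪ bk s a a' ∪ (vs S ∪ vs S').image (sh (a + a')) →
        (∃ i, i < a ∧ v = (s, i)) ∨ (∃ i, i < a' ∧ v = (s, a + i)) ∨
          (∃ u, u ∈ vs S ∪ vs S' ∧ v = sh (a + a') u) := by
      intro v hv
      rw [mem_union, mem_union] at hv
      rcases hv with (hv | hv) | hv
      · simp only [bk, mem_image, mem_Ico, zero_le, zero_add, true_and] at hv
        obtain ⟨i, hi, rfl⟩ := hv
        exact Or.inl ⟨i, hi, rfl⟩
      · simp only [bk, mem_image, mem_Ico] at hv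
        obtain ⟨i, hi, rfl⟩ := hv
        obtain ⟨j, rfl⟩ := Nat.exists_eq_add_of_le hi.1
        exact Or.inr (Or.inl ⟨j, by omega, rfl⟩)
      · obtain ⟨u, hu, rfl⟩ := mem_image.1 hv
        exact Or.inr (Or.inr ⟨u, hu, rfl⟩)
    have d1 : ∀ i j, i < a → j < a' → β i ≠ β' j := by
      intro i j hi hj h
      exact (Finset.disjoint_left.1 hd (h1 i hi)) (h ▸ h1' j hj)
    have d2 : ∀ i u, i < a → u ∈ vs S ∪ vs S' → β i ≠ e u := by
      intro i u hi hu h
      exact (Finset.disjoint_left.1 hd1 (mem_union_left _ (h1 i hi))) (h ▸ mem_image_of_mem e hu)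
    have d3 : ∀ i u, i < a' → u ∈ vs S ∪ vs S' → β' i ≠ e u := by
      intro i u hi hu h
      exact (Finset.disjoint_left.1 hd1 (mem_union_right _ (h1' i hi))) (h ▸ mem_image_of_mem e hu)
    intro v hv w hw hvw
    rcases mem v hv with ⟨i, hi, rfl⟩ | ⟨i, hi, rfl⟩ | ⟨u, hu, rfl⟩ <;>
      rcases mem w hw with ⟨j, hj, rfl⟩ | ⟨j, hj, rfl⟩ | ⟨u', hu', rfl⟩
    · rw [φ1 i hi, φ1 j hj] at hvw
      rw [h3 i j hi hj hvw]
    · rw [φ1 i hi, φ2 j hj] at hvw
      exact (d1 i j hi hj hvw).elim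
    · rw [φ1 i hi, φ3] at hvw
      exact (d2 i u' hi hu' hvw).elim
    · rw [φ2 i hi, φ1 j hj] at hvw
      exact (d1 j i hj hi hvw.symm).elim
    · rw [φ2 i hi, φ2 j hj] at hvw
      rw [h3' i j hi hj hvw]
    · rw [φ2 i hi, φ3] at hvw
      exact (d3 i u' hi hu' hvw).elim
    · rw [φ3, φ1 j hj] at hvw
      exact (d2 j u hj hu hvw.symm).elim
    · rw [φ3, φ2 j hj] at hvw
      exact (d3 j u hj hu hvw.symm).elim
    · rw [φ3, φ3] at hvw
      rw [hinj (Finset.mem_coe.2 hu) (Finset.mem_coe.2 hu') hvw]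
  have hsub : ∀ S₁ S₂ : Fam ι, vs S₁ ⊆ vs S ∪ vs S' → vs S₂ ⊆ vs S ∪ vs S' →
      vs (jn (bk s 0 a) (bk s a a') (mp (sh (a + a')) S₁) (mp (sh (a + a')) S₂)) ⊆
        bk s 0 a ∪ bk s a a' ∪ (vs S ∪ vs S').image (sh (a + a')) := by
    intro S₁ S₂ g1 g2
    refine (vs_jn _ _ _ _).trans (union_subset_union (subset_refl _) ?_)
    rw [vs_mp, vs_mp]
    exact union_subset (image_subset_image g1) (image_subset_image g2)
  have key := hK.inv φ hT
    (jn (bk s 0 a) (bk s a a') (mp (sh (a + a')) S) (mp (sh (a + a')) S'))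
    (jn (bk s 0 a) (bk s a a') (mp (sh (a + a')) S') (mp (sh (a + a')) S))
    (cx_jn _ _ (cx_mp _ hS) (cx_mp _ hS')) (cx_jn _ _ (cx_mp _ hS') (cx_mp _ hS))
    (hInj.mono (Finset.coe_subset.2 (union_subset
      (hsub S S' subset_union_left subset_union_right)
      (hsub S' S subset_union_right subset_union_left))))
  rw [hJ, hJ] at key
  rw [key]
  rfl

theorem rel {k : ℕ} {K : Fam ι → Fam ι → ℝ} (hK : KK k K) (s : ι) (C b b' : Finset (Vx ι))
    (hb : Of s b) (hb' : Of s b') (h1 : Disjoint C b) (h2 : Disjoint C b') (h3 : Disjoint b b') :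
    K (C ∪ b).powerset (C ∪ b').powerset = der (s, b.card, b'.card) K C.powerset ∅ := by
  rw [place hK s b.card b'.card C.powerset ∅ (cx_pow C) cx_empty id (fun _ => rfl)
    (Function.injective_id.injOn) b b' hb hb' rfl rfl h3 ?_, mp_id, mp_id, jn_pow_left, jn_pow_right]
  rw [vs_pow, vs_empty, union_empty, image_id]
  exact (disjoint_union_left.2 ⟨h1.symm, h2.symm⟩)

end Pool.Agent.Lib.MP_90b327_co.UC
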