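import Mathlib
import Pool.Agent.Lib.MP_90b327_co.UC.UDefs
import Pool.Agent.Lib.MP_90b327_co.UC.UCx
import Pool.Agent.Lib.MP_90b327_co.UC.UPlace

/-!
MODULE UDer. (30 minutes) Easy properties of the derived kernel.
`der_one`: both arguments are equal. `der_symm`: `KK.symm`, the arguments of `der S' S` are those of `der S S'` exchanged (`jn` with `S ∪ S'` in other order: `der p K S' S`
unfolds to `K (jn S' S) (jn S S')`). `der_inv`: `place` with `e = (the shift) ∘ φ`, the standard blocks. `der_dif`: `dif_jn` and `dif_mp` for the shift (injective).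
-/

set_option autoImplicit false

namespace Pool.Agent.Lib.MP_90b327_co.UC

open Finset MeasureTheory Filter Topology Pool.Agent.Lib.MP_90b327_co

variable {ι : Type} [DecidableEq ι]

private theorem ud_mem (s : ι) (c a : ℕ) (v : Vx ι) :
    v ∈ bk s c a ↔ v.1 = s ∧ c ≤ v.2 ∧ v.2 < c + a := by
  obtain ⟨t, n⟩ := v
  simp only [bk, mem_image, mem_Ico, Prod.mk.injEq]
  constructor
  · rintro ⟨i, hi, rfl, rfl⟩
    exact ⟨rfl, hi⟩
  · rintro ⟨rfl, h⟩
    exact ⟨n, h, rfl, rfl⟩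

private theorem ud_card (s : ι) (c a : ℕ) : (bk s c a).card = a := by
  unfold bk
  rw [card_image_of_injective]
  · simp
  · intro i j h
    exact (Prod.mk.inj h).2

private theorem ud_disj (s : ι) (a a' : ℕ) : Disjoint (bk s 0 a) (bk s a a') := by
  rw [Finset.disjoint_left]
  intro v h1 h2
  rw [ud_mem] at h1 h2
  omega

private theorem ud_disj2 (s : ι) (a a' : ℕ) (C : Finset (Vx ι)) :
    Disjoint (bk s 0 a ∪ bk s a a') (C.image (sh (a + a'))) := by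
  rw [Finset.disjoint_left]
  intro v h1 h2
  rw [mem_union, ud_mem, ud_mem] at h1
  obtain ⟨w, -, rfl⟩ := mem_image.1 h2
  simp only [sh] at h1
  omega

omit [DecidableEq ι] in
private theorem ud_sh (c : ℕ) : Function.Injective (sh (ι := ι) c) := by
  rintro ⟨t, n⟩ ⟨u, m⟩ h
  simp only [sh, Prod.mk.injEq] at h
  exact Prod.ext h.1 (by simpa using h.2)

theorem der_one {k : ℕ} {K : Fam ι → Fam ι → ℝ} (hK : KK k K) (p : ι × ℕ × ℕ) (S : Fam ι) (hS : Cx S) :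
    der p K S S = 1 :=
  hK.one _ (cx_jn _ _ (cx_mp _ hS) (cx_mp _ hS))

theorem der_symm {k : ℕ} {K : Fam ι → Fam ι → ℝ} (hK : KK k K) (p : ι × ℕ × ℕ) (S S' : Fam ι)
    (hS : Cx S) (hS' : Cx S') : der p K S S' = der p K S' S :=
  hK.symm _ _ (cx_jn _ _ (cx_mp _ hS) (cx_mp _ hS')) (cx_jn _ _ (cx_mp _ hS') (cx_mp _ hS))

theorem der_inv {k : ℕ} {K : Fam ι → Fam ι → ℝ} (hK : KK k K) (p : ι × ℕ × ℕ) (φ : Vx ι → Vx ι)
    (hφ : Ty φ) (S S' : Fam ι) (hS : Cx S) (hS' : Cx S')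
    (hinj : Set.InjOn φ (↑(vs S ∪ vs S') : Set (Vx ι))) :
    der p K (mp φ S) (mp φ S') = der p K S S' := by
  obtain ⟨s, a, a'⟩ := p
  rw [place hK s a a' S S' hS hS' (sh (a + a') ∘ φ) (fun v => hφ v)
    (fun x hx y hy h => hinj hx hy (ud_sh _ h)) (bk s 0 a) (bk s a a')
    (fun v hv => ((ud_mem _ _ _ _).1 hv).1) (fun v hv => ((ud_mem _ _ _ _).1 hv).1)
    (ud_card _ _ _) (ud_card _ _ _) (ud_disj _ _ _) (by
      rw [← Finset.image_image]
      exact ud_disj2 s a a' _)]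
  unfold der
  simp only [mp_mp]

theorem der_dif {k : ℕ} {K : Fam ι → Fam ι → ℝ} (hK : KK k K) (p : ι × ℕ × ℕ) (S S' R R' : Fam ι)
    (hS : Cx S) (hS' : Cx S') (hR : Cx R) (hR' : Cx R') (hd : Dif (k - 1) S S' R R') :
    der p K S S' = der p K R R' := by
  obtain ⟨s, a, a'⟩ := p
  refine hK.dif _ _ _ _ (cx_jn _ _ (cx_mp _ hS) (cx_mp _ hS')) (cx_jn _ _ (cx_mp _ hS') (cx_mp _ hS))
    (cx_jn _ _ (cx_mp _ hR) (cx_mp _ hR')) (cx_jn _ _ (cx_mp _ hR') (cx_mp _ hR)) ?_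
  refine dif_jn (ud_disj _ _ _) ?_ ?_ (dif_mp ((ud_sh _).injOn) hd)
  · rw [vs_mp, vs_mp, ← image_union]
    exact ud_disj2 s a a' _
  · rw [vs_mp, vs_mp, ← image_union]
    exact ud_disj2 s a a' _

end Pool.Agent.Lib.MP_90b327_co.UC
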