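import Mathlib
import Pool.Agent.Lib.MP_90b327_co.UC.UDefs
import Pool.Agent.Lib.MP_90b327_co.UC.UCx

/-!
MODULE UKapD. (definitions for the positivity of the derived kernel)
-/

set_option autoImplicit false

namespace Pool.Agent.Lib.MP_90b327_co.UC

open Finset MeasureTheory Filter Topology Pool.Agent.Lib.MP_90b327_co

variable {ι : Type} [DecidableEq ι]

/-- patterns: complexes attached to the indices (number, kind) -/
def Pn (ι : Type) [DecidableEq ι] : Type :=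
  {X : Finset ((ℕ × Bool) × Finset (Vx ι)) // ∀ i T, (i, T) ∈ X → ∀ U, U ⊆ T → (i, U) ∈ X}

/-- the block of the index `i`: numbers are odd -/
def pb (s : ι) (a a' : ℕ) (i : ℕ × Bool) : Finset (Vx ι) :=
  (range (if i.2 then a' else a)).image (fun j => (s, 2 * Nat.pair (Nat.pair i.1 i.2.toNat) j + 1))

/-- the place of the contents: numbers are even -/
def ev (v : Vx ι) : Vx ι := (v.1, 2 * v.2)

/-- the content of the index `i` -/
def ctt (X : Finset ((ℕ × Bool) × Finset (Vx ι))) (i : ℕ × Bool) : Fam ι :=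
  (X.filter (fun q => q.1 = i)).image Prod.snd

/-- all contents -/
def cta (X : Finset ((ℕ × Bool) × Finset (Vx ι))) : Fam ι := X.image Prod.snd

/-- the complex of a pattern, with the common part `Z` -/
def ph (s : ι) (a a' : ℕ) (Z : Fam ι) (X : Finset ((ℕ × Bool) × Finset (Vx ι))) : Fam ι :=
  mp ev Z ∪ (X.image Prod.fst).biUnion (fun i => st (pb s a a' i) (mp ev (ctt X i)))

/-- the kernel on patterns -/
def kap (s : ι) (a a' : ℕ) (K : Fam ι → Fam ι → ℝ) (X Y : Pn ι) : ℝ :=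
  K (ph s a a' (cta X.1 ∪ cta Y.1) X.1) (ph s a a' (cta X.1 ∪ cta Y.1) Y.1)

/-- relabelling of the indices -/
def rli (τ : ℕ × Bool → ℕ × Bool) (X : Finset ((ℕ × Bool) × Finset (Vx ι))) :
    Finset ((ℕ × Bool) × Finset (Vx ι)) := X.image (fun q => (τ q.1, q.2))

/-- the relation: the same signed difference, or a relabelling of the indices inside the two kinds -/
def RR (X Y X' Y' : Pn ι) : Prop :=
  (X.1 \ Y.1 = X'.1 \ Y'.1 ∧ Y.1 \ X.1 = Y'.1 \ X'.1) ∨
  (∃ τ : ℕ × Bool → ℕ × Bool, Function.Injective τ ∧ (∀ i, (τ i).2 = i.2) ∧ X'.1 = rli τ X.1 ∧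
    Y'.1 = rli τ Y.1)

theorem rli_pn (τ : ℕ × Bool → ℕ × Bool) (hτ : Function.Injective τ) (X : Pn ι) :
    ∀ i T, (i, T) ∈ rli τ X.1 → ∀ U, U ⊆ T → (i, U) ∈ rli τ X.1 := by
  intro i T h U hU
  simp only [rli, mem_image, Prod.mk.injEq] at h ⊢
  obtain ⟨⟨j, V⟩, hj, h1, h2⟩ := h
  exact ⟨(j, U), X.2 j V hj U (by rw [← h2] at hU; exact hU), h1, rfl⟩

theorem union_pn (X Y : Finset ((ℕ × Bool) × Finset (Vx ι)))
    (hX : ∀ i T, (i, T) ∈ X → ∀ U, U ⊆ T → (i, U) ∈ X)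
    (hY : ∀ i T, (i, T) ∈ Y → ∀ U, U ⊆ T → (i, U) ∈ Y) :
    ∀ i T, (i, T) ∈ X ∪ Y → ∀ U, U ⊆ T → (i, U) ∈ X ∪ Y := by
  intro i T h U hU
  rcases mem_union.1 h with h | h
  · exact mem_union_left _ (hX i T h U hU)
  · exact mem_union_right _ (hY i T h U hU)

def evn (i : ℕ × Bool) : ℕ × Bool := (2 * i.1, i.2)
def odn (i : ℕ × Bool) : ℕ × Bool := (2 * i.1 + 1, i.2)

theorem evn_inj : Function.Injective evn := by
  rintro ⟨a, b⟩ ⟨c, d⟩ h
  simp only [evn, Prod.mk.injEq] at h ⊢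
  exact ⟨by omega, h.2⟩

theorem odn_inj : Function.Injective odn := by
  rintro ⟨a, b⟩ ⟨c, d⟩ h
  simp only [odn, Prod.mk.injEq] at h ⊢
  exact ⟨by omega, h.2⟩

/-- merging: even indices, odd indices -/
def mm (X A : Pn ι) : Pn ι :=
  ⟨rli evn X.1 ∪ rli odn A.1, union_pn _ _ (rli_pn _ evn_inj X) (rli_pn _ odn_inj A)⟩

/-- the complex `S` at the index `i` -/
def at1 (i : ℕ × Bool) (S : Fam ι) (hS : Cx S) : Pn ι :=
  ⟨S.image (fun T => (i, T)), by
    intro j T h U hU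
    simp only [mem_image, Prod.mk.injEq] at h ⊢
    obtain ⟨V, hV, h1, h2⟩ := h
    exact ⟨U, hS V hV U (by rw [← h2] at hU; exact hU), h1, rfl⟩⟩

/-- the complexes `S`, `S'` at the indices `(0, false)`, `(0, true)` -/
def at2 (S S' : Fam ι) (hS : Cx S) (hS' : Cx S') : Pn ι :=
  ⟨(at1 (0, false) S hS).1 ∪ (at1 (0, true) S' hS').1, union_pn _ _ (at1 _ S hS).2 (at1 _ S' hS').2⟩

end Pool.Agent.Lib.MP_90b327_co.UC
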