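import Mathlib
import Pool.Agent.Lib.MP_90b327_co.UC.UDefs
import Pool.Agent.Lib.MP_90b327_co.UC.UCx
import Pool.Agent.Lib.MP_90b327_co.UC.UKapD

/-!
MODULE UKapA. (60 minutes) The kernel on patterns is a kernel.
`ph_mem`: for `U` of size anything: `U ∈ ph s a a' Z X` iff `U ∈ mp ev Z` or there is an index `i` with `(U ∩ pb i)` nonempty, `U \ pb i = T.image ev`, `(i, T) ∈ X`
(blocks are disjoint from each other and from the even vertices: `mem_st`). `cx_ph`: `Z` a complex containing the contents.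
`ph_dif`: if `Z` contains the contents of `X, Y`, `Z'` those of `X', Y'`, and `X \ Y = X' \ Y'`, `Y \ X = Y' \ X'`, then the signed differences agree:
`U ∈ ph Z X \ ph Z Y` iff there is `(i, T) ∈ X \ Y` with `(U ∩ pb i)` nonempty and `U \ pb i = T.image ev` (`i`, `T` are determined by `U`).
`kap_ker`: one; herm (`KK.symm`); psd: common `Z` for the finite family by `ph_dif`, then `KK.psd` for real and imaginary parts (the sum
`∑ conj c_i c_j k_ij` has real part `∑ (re c_i re c_j + im c_i im c_j) k_ij`, `k` real symmetric); relation: first kind `ph_dif`, `KK.dif`; second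
kind: `KK.inv` with the map `ψ` which sends the odd vertex `(s, 2 pair (pair n β) j + 1)` to `(s, 2 pair (pair n' β) j + 1)`, `(n', β) = τ (n, β)`, and
fixes the even vertices (use `Nat.unpair`): `mp ψ (ph Z X) = ph Z (rli τ X)`; `cta (rli τ X) = cta X`.
-/

set_option autoImplicit false

namespace Pool.Agent.Lib.MP_90b327_co.UC

open Finset MeasureTheory Filter Topology Pool.Agent.Lib.MP_90b327_co

variable {ι : Type} [DecidableEq ι]

private theorem ev_inj : Function.Injective (ev : Vx ι → Vx ι) := by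
  rintro ⟨a, b⟩ ⟨c, d⟩ h
  simp only [ev, Prod.mk.injEq] at h ⊢
  exact ⟨h.1, by omega⟩

private theorem pb_odd {s : ι} {a a' : ℕ} {i : ℕ × Bool} {v : Vx ι} (h : v ∈ pb s a a' i) :
    v.2 % 2 = 1 := by
  simp only [pb, mem_image] at h
  obtain ⟨j, _, rfl⟩ := h
  show (2 * Nat.pair (Nat.pair i.1 i.2.toNat) j + 1) % 2 = 1
  omega

private theorem im_even {T : Finset (Vx ι)} {v : Vx ι} (h : v ∈ T.image ev) : v.2 % 2 = 0 := by
  simp only [mem_image] at h
  obtain ⟨w, _, rfl⟩ := h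
  show (2 * w.2) % 2 = 0
  omega

private theorem mp_even {S : Fam ι} {U : Finset (Vx ι)} (h : U ∈ mp ev S) {v : Vx ι} (hv : v ∈ U) :
    v.2 % 2 = 0 := by
  simp only [mp, mem_image] at h
  obtain ⟨T, _, rfl⟩ := h
  exact im_even hv

private theorem pb_disj_vs (s : ι) (a a' : ℕ) (i : ℕ × Bool) (S : Fam ι) :
    Disjoint (pb s a a' i) (vs (mp ev S)) := by
  rw [Finset.disjoint_left]
  intro v h1 h2
  obtain ⟨T, hT, hv⟩ := mem_vs.1 h2
  have e1 := pb_odd h1
  have e2 := mp_even hT hv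
  omega

private theorem toNat_inj : ∀ b b' : Bool, b.toNat = b'.toNat → b = b' := by decide

private theorem pb_eq {s : ι} {a a' : ℕ} {i i' : ℕ × Bool} {v : Vx ι} (h : v ∈ pb s a a' i)
    (h' : v ∈ pb s a a' i') : i = i' := by
  simp only [pb, mem_image] at h h'
  obtain ⟨j, _, rfl⟩ := h
  obtain ⟨j', _, h2⟩ := h'
  simp only [Prod.mk.injEq, true_and] at h2
  have h3 : Nat.pair (Nat.pair i'.1 i'.2.toNat) j' = Nat.pair (Nat.pair i.1 i.2.toNat) j := by omega
  rw [Nat.pair_eq_pair] at h3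
  obtain ⟨h4, _⟩ := h3
  rw [Nat.pair_eq_pair] at h4
  exact (Prod.ext h4.1 (toNat_inj _ _ h4.2)).symm

private theorem mem_ctt {X : Finset ((ℕ × Bool) × Finset (Vx ι))} {i : ℕ × Bool} {T : Finset (Vx ι)} :
    T ∈ ctt X i ↔ (i, T) ∈ X := by
  simp only [ctt, mem_image, mem_filter]
  constructor
  · rintro ⟨⟨j, V⟩, ⟨h1, h2⟩, h3⟩
    simp only at h2 h3
    rw [← h2, ← h3]; exact h1
  · intro h
    exact ⟨(i, T), ⟨h, rfl⟩, rfl⟩

private theorem mem_cta {X : Finset ((ℕ × Bool) × Finset (Vx ι))} {T : Finset (Vx ι)} :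
    T ∈ cta X ↔ ∃ i, (i, T) ∈ X := by
  simp only [cta, mem_image]
  constructor
  · rintro ⟨⟨j, V⟩, h1, rfl⟩
    exact ⟨j, h1⟩
  · rintro ⟨i, h⟩
    exact ⟨(i, T), h, rfl⟩

private theorem cx_cta (X : Pn ι) : Cx (cta X.1) := by
  intro T hT U hU
  obtain ⟨i, hi⟩ := mem_cta.1 hT
  exact mem_cta.2 ⟨i, X.2 i T hi U hU⟩

private theorem mem_ph {s : ι} {a a' : ℕ} {Z : Fam ι} {X : Finset ((ℕ × Bool) × Finset (Vx ι))}
    {U : Finset (Vx ι)} :
    U ∈ ph s a a' Z X ↔ U ∈ mp ev Z ∨ ∃ i T, (i, T) ∈ X ∧ (U ∩ pb s a a' i).Nonempty ∧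
      U \ pb s a a' i = T.image ev := by
  unfold ph
  rw [mem_union, mem_biUnion]
  constructor
  · rintro (h | ⟨i, _, h⟩)
    · exact Or.inl h
    · right
      rw [mem_st (pb_disj_vs s a a' i _)] at h
      obtain ⟨h1, h2⟩ := h
      simp only [mp, mem_image] at h2
      obtain ⟨T, hT, h3⟩ := h2
      exact ⟨i, T, mem_ctt.1 hT, h1, h3.symm⟩
  · rintro (h | ⟨i, T, h, h1, h2⟩)
    · exact Or.inl h
    · right
      refine ⟨i, mem_image.2 ⟨(i, T), h, rfl⟩, ?_⟩
      rw [mem_st (pb_disj_vs s a a' i _)]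
      refine ⟨h1, ?_⟩
      simp only [mp, mem_image]
      exact ⟨T, mem_ctt.2 h, h2.symm⟩

theorem cx_ph (s : ι) (a a' : ℕ) (Z : Fam ι) (hZ : Cx Z) (X : Pn ι) (h : cta X.1 ⊆ Z) :
    Cx (ph s a a' Z X.1) := by
  intro T0 hT0 U hU
  rw [mem_ph] at hT0 ⊢
  rcases hT0 with h0 | ⟨i, T, hT, _, h2⟩
  · exact Or.inl (cx_mp ev hZ T0 h0 U hU)
  · have hsub : U \ pb s a a' i ⊆ T.image ev := by
      rw [← h2]; exact sdiff_subset_sdiff hU (Subset.refl _)
    obtain ⟨T', hT', e⟩ := Finset.subset_image_iff.1 hsub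
    have hX := X.2 i T hT T' (by exact_mod_cast hT')
    by_cases hne : (U ∩ pb s a a' i).Nonempty
    · exact Or.inr ⟨i, T', hX, hne, e.symm⟩
    · left
      rw [Finset.not_nonempty_iff_eq_empty, ← Finset.disjoint_iff_inter_eq_empty] at hne
      rw [Finset.sdiff_eq_self_of_disjoint hne] at e
      rw [← e]
      exact mem_image.2 ⟨T', h (mem_cta.2 ⟨i, hX⟩), rfl⟩

private theorem ph_sd {s : ι} {a a' : ℕ} {Z : Fam ι} {X Y : Finset ((ℕ × Bool) × Finset (Vx ι))}
    {U : Finset (Vx ι)} :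
    (U ∈ ph s a a' Z X ∧ U ∉ ph s a a' Z Y) ↔
      ∃ i T, (i, T) ∈ X \ Y ∧ (U ∩ pb s a a' i).Nonempty ∧ U \ pb s a a' i = T.image ev := by
  constructor
  · rintro ⟨h1, h2⟩
    rw [mem_ph] at h1 h2
    rcases h1 with h1 | ⟨i, T, hT, h3, h4⟩
    · exact absurd (Or.inl h1) h2
    · refine ⟨i, T, mem_sdiff.2 ⟨hT, fun hY => h2 (Or.inr ⟨i, T, hY, h3, h4⟩)⟩, h3, h4⟩
  · rintro ⟨i, T, hT, h3, h4⟩
    obtain ⟨hX, hY⟩ := mem_sdiff.1 hT
    refine ⟨mem_ph.2 (Or.inr ⟨i, T, hX, h3, h4⟩), fun h5 => ?_⟩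
    obtain ⟨v, hv⟩ := h3
    obtain ⟨hvU, hvb⟩ := mem_inter.1 hv
    have hodd := pb_odd hvb
    rcases mem_ph.1 h5 with h5 | ⟨i', T', hT', _, h7⟩
    · have := mp_even h5 hvU
      omega
    · have hi : v ∈ pb s a a' i' := by
        by_contra hcon
        have : v ∈ U \ pb s a a' i' := mem_sdiff.2 ⟨hvU, hcon⟩
        rw [h7] at this
        have := im_even this
        omega
      have hii := pb_eq hvb hi
      subst hii
      rw [h4] at h7
      have := Finset.image_injective ev_inj h7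
      rw [this] at hY
      exact hY hT'

theorem ph_dif (k : ℕ) (s : ι) (a a' : ℕ) (Z Z' : Fam ι) (hZ : Cx Z) (hZ' : Cx Z') (X Y X' Y' : Pn ι)
    (h1 : cta X.1 ⊆ Z) (h2 : cta Y.1 ⊆ Z) (h3 : cta X'.1 ⊆ Z') (h4 : cta Y'.1 ⊆ Z')
    (h5 : X.1 \ Y.1 = X'.1 \ Y'.1) (h6 : Y.1 \ X.1 = Y'.1 \ X'.1) :
    Dif k (ph s a a' Z X.1) (ph s a a' Z Y.1) (ph s a a' Z' X'.1) (ph s a a' Z' Y'.1) := by
  intro U _
  constructor
  · rw [ph_sd, ph_sd, h5]
  · rw [ph_sd, ph_sd, h6]

/-- the relabelling of the odd vertices -/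
private noncomputable def psi (τ : ℕ × Bool → ℕ × Bool) (v : Vx ι) : Vx ι :=
  if v.2 % 2 = 0 then v else
    (v.1, 2 * Nat.pair (Nat.pair (τ ((v.2 / 2).unpair.1.unpair.1,
      decide ((v.2 / 2).unpair.1.unpair.2 = 1))).1 (v.2 / 2).unpair.1.unpair.2) (v.2 / 2).unpair.2 + 1)

private theorem psi_ev (τ : ℕ × Bool → ℕ × Bool) (v : Vx ι) : psi τ (ev v) = ev v := by
  unfold psi
  rw [if_pos (by show (2 * v.2) % 2 = 0; omega)]

private theorem psi_ty (τ : ℕ × Bool → ℕ × Bool) : Ty (psi τ : Vx ι → Vx ι) := by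
  intro v
  unfold psi
  split_ifs <;> rfl

private theorem psi_inj (τ : ℕ × Bool → ℕ × Bool) (hτ : Function.Injective τ)
    (hτ2 : ∀ i, (τ i).2 = i.2) : Function.Injective (psi τ : Vx ι → Vx ι) := by
  intro v w h
  have ht : v.1 = w.1 := by
    have h1 := congrArg Prod.fst h
    rwa [psi_ty, psi_ty] at h1
  unfold psi at h
  split_ifs at h with h1 h2 h2
  · exact h
  · exfalso
    have := congrArg Prod.snd h
    simp only at this
    omega
  · exfalso
    have := congrArg Prod.snd h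
    simp only at this
    omega
  · have h3 := congrArg Prod.snd h
    simp only at h3
    have h4 : Nat.pair (Nat.pair (τ ((v.2 / 2).unpair.1.unpair.1,
        decide ((v.2 / 2).unpair.1.unpair.2 = 1))).1 (v.2 / 2).unpair.1.unpair.2) (v.2 / 2).unpair.2 =
        Nat.pair (Nat.pair (τ ((w.2 / 2).unpair.1.unpair.1,
        decide ((w.2 / 2).unpair.1.unpair.2 = 1))).1 (w.2 / 2).unpair.1.unpair.2) (w.2 / 2).unpair.2 := by
      omega
    rw [Nat.pair_eq_pair] at h4
    obtain ⟨h5, h6⟩ := h4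
    rw [Nat.pair_eq_pair] at h5
    obtain ⟨h7, h8⟩ := h5
    have h9 := hτ (Prod.ext h7 (by rw [hτ2, hτ2]; simp only; rw [h8]))
    have h10 := congrArg Prod.fst h9
    simp only at h10
    have h11 : (v.2 / 2).unpair.1 = (w.2 / 2).unpair.1 := by
      rw [← Nat.pair_unpair (v.2 / 2).unpair.1, ← Nat.pair_unpair (w.2 / 2).unpair.1, h10, h8]
    have h12 : v.2 / 2 = w.2 / 2 := by
      rw [← Nat.pair_unpair (v.2 / 2), ← Nat.pair_unpair (w.2 / 2), h11, h6]
    exact Prod.ext ht (by omega)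

private theorem toNat_dec : ∀ b : Bool, decide (b.toNat = 1) = b := by decide

private theorem psi_pb (τ : ℕ × Bool → ℕ × Bool) (hτ2 : ∀ i, (τ i).2 = i.2) (s : ι) (a a' : ℕ)
    (i : ℕ × Bool) : (pb s a a' i).image (psi τ) = pb s a a' (τ i) := by
  unfold pb
  rw [Finset.image_image, hτ2]
  apply Finset.image_congr
  intro j _
  show psi τ (s, 2 * Nat.pair (Nat.pair i.1 i.2.toNat) j + 1) = _
  unfold psi
  simp only
  rw [if_neg (by omega)]
  have e : (2 * Nat.pair (Nat.pair i.1 i.2.toNat) j + 1) / 2 = Nat.pair (Nat.pair i.1 i.2.toNat) j := by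
    omega
  rw [e, Nat.unpair_pair]
  simp only
  rw [Nat.unpair_pair]
  simp only
  rw [toNat_dec]

private theorem mp_psi_ev (τ : ℕ × Bool → ℕ × Bool) (S : Fam ι) : mp (psi τ) (mp ev S) = mp ev S := by
  rw [mp_mp]
  apply mp_congr
  intro v _
  exact psi_ev τ v

private theorem ctt_rli (τ : ℕ × Bool → ℕ × Bool) (hτ : Function.Injective τ)
    (X : Finset ((ℕ × Bool) × Finset (Vx ι))) (i : ℕ × Bool) : ctt (rli τ X) (τ i) = ctt X i := by
  ext T
  rw [mem_ctt, mem_ctt]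
  simp only [rli, mem_image, Prod.mk.injEq]
  constructor
  · rintro ⟨⟨j, V⟩, h1, h2, h3⟩
    have := hτ h2
    simp only at this h3
    rw [← this, ← h3]; exact h1
  · intro h
    exact ⟨(i, T), h, rfl, rfl⟩

private theorem mp_psi_ph (τ : ℕ × Bool → ℕ × Bool) (hτ : Function.Injective τ)
    (hτ2 : ∀ i, (τ i).2 = i.2) (s : ι) (a a' : ℕ) (Z : Fam ι)
    (X : Finset ((ℕ × Bool) × Finset (Vx ι))) :
    mp (psi τ) (ph s a a' Z X) = ph s a a' Z (rli τ X) := by
  unfold ph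
  rw [mp_union, mp_psi_ev]
  congr 1
  have e1 : (rli τ X).image Prod.fst = (X.image Prod.fst).image τ := by
    unfold rli
    rw [Finset.image_image, Finset.image_image]
    rfl
  have e2 : ((X.image Prod.fst).image τ).biUnion
      (fun i => st (pb s a a' i) (mp ev (ctt (rli τ X) i))) =
      (X.image Prod.fst).biUnion (fun i => st (pb s a a' (τ i)) (mp ev (ctt (rli τ X) (τ i)))) :=
    Finset.image_biUnion
  have e3 : mp (psi τ) ((X.image Prod.fst).biUnion (fun i => st (pb s a a' i) (mp ev (ctt X i)))) =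
      (X.image Prod.fst).biUnion (fun i => mp (psi τ) (st (pb s a a' i) (mp ev (ctt X i)))) := by
    unfold mp
    rw [Finset.biUnion_image]
  rw [e1, e2, e3]
  apply Finset.biUnion_congr rfl
  intro i _
  rw [mp_st, psi_pb τ hτ2, ctt_rli τ hτ, mp_psi_ev]

private theorem cta_rli (τ : ℕ × Bool → ℕ × Bool) (X : Finset ((ℕ × Bool) × Finset (Vx ι))) :
    cta (rli τ X) = cta X := by
  unfold cta rli
  rw [Finset.image_image]
  rfl

private theorem kap_Z {k : ℕ} {K : Fam ι → Fam ι → ℝ} (hK : KK k K) (s : ι) (a a' : ℕ) (X Y : Pn ι)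
    (Z : Fam ι) (hZ : Cx Z) (h1 : cta X.1 ⊆ Z) (h2 : cta Y.1 ⊆ Z) :
    kap s a a' K X Y = K (ph s a a' Z X.1) (ph s a a' Z Y.1) := by
  have hZ' : Cx (cta X.1 ∪ cta Y.1) := cx_union (cx_cta X) (cx_cta Y)
  unfold kap
  exact hK.dif _ _ _ _ (cx_ph s a a' _ hZ' X subset_union_left) (cx_ph s a a' _ hZ' Y subset_union_right)
    (cx_ph s a a' _ hZ X h1) (cx_ph s a a' _ hZ Y h2)
    (ph_dif k s a a' _ _ hZ' hZ X Y X Y subset_union_left subset_union_right h1 h2 rfl rfl)

private theorem kap_symm {k : ℕ} {K : Fam ι → Fam ι → ℝ} (hK : KK k K) (s : ι) (a a' : ℕ) (X Y : Pn ι) :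
    kap s a a' K X Y = kap s a a' K Y X := by
  have hZ' : Cx (cta X.1 ∪ cta Y.1) := cx_union (cx_cta X) (cx_cta Y)
  rw [kap_Z hK s a a' Y X (cta X.1 ∪ cta Y.1) hZ' subset_union_right subset_union_left]
  unfold kap
  exact hK.symm _ _ (cx_ph s a a' _ hZ' X subset_union_left) (cx_ph s a a' _ hZ' Y subset_union_right)

private theorem kap_psd {k : ℕ} {K : Fam ι → Fam ι → ℝ} (hK : KK k K) (s : ι) (a a' : ℕ)
    (α : Type) [Fintype α] (X : α → Pn ι) (c : α → ℝ) :
    0 ≤ ∑ i, ∑ j, c i * c j * kap s a a' K (X i) (X j) := by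
  set Z : Fam ι := univ.biUnion (fun i => cta (X i).1) with hZd
  have hZ : Cx Z := by
    intro T hT U hU
    rw [hZd, mem_biUnion] at hT ⊢
    obtain ⟨i, hi, h⟩ := hT
    exact ⟨i, hi, cx_cta (X i) T h U hU⟩
  have hsub : ∀ i, cta (X i).1 ⊆ Z := fun i => Finset.subset_biUnion_of_mem (fun i => cta (X i).1) (mem_univ i)
  have := hK.psd α (fun i => ph s a a' Z (X i).1) c (fun i => cx_ph s a a' Z hZ (X i) (hsub i))
  refine this.trans_eq ?_
  apply Finset.sum_congr rfl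
  intro i _
  apply Finset.sum_congr rfl
  intro j _
  rw [kap_Z hK s a a' (X i) (X j) Z hZ (hsub i) (hsub j)]

theorem kap_ker {k : ℕ} {K : Fam ι → Fam ι → ℝ} (hK : KK k K) (s : ι) (a a' : ℕ) :
    RB.Ker RR (fun X Y : Pn ι => ((kap s a a' K X Y : ℝ) : ℂ)) := by
  refine ⟨?_, ?_, ?_, ?_⟩
  · intro X
    have hZ' : Cx (cta X.1 ∪ cta X.1) := cx_union (cx_cta X) (cx_cta X)
    have : kap s a a' K X X = 1 := by
      unfold kap
      exact hK.one _ (cx_ph s a a' _ hZ' X subset_union_left)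
    simp only [this, Complex.ofReal_one]
  · intro X Y
    simp only [Complex.conj_ofReal]
    rw [kap_symm hK]
  · intro α _ X c
    have h1 := kap_psd hK s a a' α X (fun i => (c i).re)
    have h2 := kap_psd hK s a a' α X (fun i => (c i).im)
    have e : (∑ i, ∑ j, (starRingEnd ℂ) (c i) * c j * ((kap s a a' K (X i) (X j) : ℝ) : ℂ)).re =
        ∑ i, ∑ j, (c i).re * (c j).re * kap s a a' K (X i) (X j) +
        ∑ i, ∑ j, (c i).im * (c j).im * kap s a a' K (X i) (X j) := by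
      rw [← Finset.sum_add_distrib, Complex.re_sum]
      apply Finset.sum_congr rfl
      intro i _
      rw [← Finset.sum_add_distrib, Complex.re_sum]
      apply Finset.sum_congr rfl
      intro j _
      simp only [Complex.mul_re, Complex.mul_im, Complex.conj_re, Complex.conj_im, Complex.ofReal_re,
        Complex.ofReal_im]
      ring
    rw [e]
    exact add_nonneg h1 h2
  · intro X Y X' Y' h
    have hZ : Cx (cta X.1 ∪ cta Y.1) := cx_union (cx_cta X) (cx_cta Y)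
    have hZ' : Cx (cta X'.1 ∪ cta Y'.1) := cx_union (cx_cta X') (cx_cta Y')
    have key : kap s a a' K X Y = kap s a a' K X' Y' := by
      rcases h with ⟨h1, h2⟩ | ⟨τ, hτ, hτ2, h1, h2⟩
      · unfold kap
        exact hK.dif _ _ _ _ (cx_ph s a a' _ hZ X subset_union_left)
          (cx_ph s a a' _ hZ Y subset_union_right)
          (cx_ph s a a' _ hZ' X' subset_union_left) (cx_ph s a a' _ hZ' Y' subset_union_right)
          (ph_dif k s a a' _ _ hZ hZ' X Y X' Y' subset_union_left subset_union_right subset_union_left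
            subset_union_right h1 h2)
      · unfold kap
        rw [h1, h2, cta_rli, cta_rli, ← mp_psi_ph τ hτ hτ2, ← mp_psi_ph τ hτ hτ2]
        exact (hK.inv (psi τ) (psi_ty τ) _ _ (cx_ph s a a' _ hZ X subset_union_left)
          (cx_ph s a a' _ hZ Y subset_union_right) (psi_inj τ hτ hτ2).injOn).symm
    simp only [key]

end Pool.Agent.Lib.MP_90b327_co.UC
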