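import Mathlib
import Pool.Agent.Lib.MP_90b327_co.UC.UDefs
import Pool.Agent.Lib.MP_90b327_co.UC.UKapD

/-!
MODULE UKapB. (40 minutes) Merging.
`rel`: first kind: differences of `mm X A`, `mm Y B` are the unions of the even and odd parts. Second kind: the injection `τ` on the even indices,
identity on the odd ones: `(2n, β) ↦ (2 n', β)` with `(n', β) = τ (n, β)`, `(2n+1, β) ↦ (2n+1, β)`. `left`: `mm X A`, `mm Y A` have the same signed difference as
`(rli evn X, rli evn Y)` (first kind), then the injection `evn` (second kind, used backwards: `k (rli evn X) (rli evn Y) = k X Y`). `right`: same.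
-/

set_option autoImplicit false

namespace Pool.Agent.Lib.MP_90b327_co.UC

open Finset MeasureTheory Filter Topology Pool.Agent.Lib.MP_90b327_co

variable {ι : Type} [DecidableEq ι]

private theorem mem_rli {τ : ℕ × Bool → ℕ × Bool} {X : Finset ((ℕ × Bool) × Finset (Vx ι))}
    {i : ℕ × Bool} {T : Finset (Vx ι)} :
    (i, T) ∈ rli τ X ↔ ∃ j, (j, T) ∈ X ∧ τ j = i := by
  simp only [rli, mem_image, Prod.mk.injEq]
  constructor
  · rintro ⟨⟨j, V⟩, hj, h1, h2⟩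
    exact ⟨j, by rw [← h2]; exact hj, h1⟩
  · rintro ⟨j, hj, h1⟩
    exact ⟨(j, T), hj, h1, rfl⟩

private theorem mem_rli_inj {τ : ℕ × Bool → ℕ × Bool} (hτ : Function.Injective τ)
    {X : Finset ((ℕ × Bool) × Finset (Vx ι))} {j : ℕ × Bool} {T : Finset (Vx ι)} :
    (τ j, T) ∈ rli τ X ↔ (j, T) ∈ X := by
  rw [mem_rli]
  constructor
  · rintro ⟨i, hi, h⟩
    rw [← hτ h]; exact hi
  · intro h
    exact ⟨j, h, rfl⟩

private theorem odn_ne_evn (i j : ℕ × Bool) : odn i ≠ evn j := by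
  intro h
  have h1 := congrArg Prod.fst h
  simp only [odn, evn] at h1
  omega

private theorem evn_or_odn (i : ℕ × Bool) : (∃ j, i = evn j) ∨ (∃ j, i = odn j) := by
  rcases Nat.even_or_odd' i.1 with ⟨n, h | h⟩
  · left
    exact ⟨(n, i.2), Prod.ext h rfl⟩
  · right
    exact ⟨(n, i.2), Prod.ext h rfl⟩

private theorem evn_not_odn {X : Finset ((ℕ × Bool) × Finset (Vx ι))} {j : ℕ × Bool}
    {T : Finset (Vx ι)} : (evn j, T) ∉ rli odn X := by
  rw [mem_rli]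
  rintro ⟨i, _, h⟩
  exact odn_ne_evn i j h

private theorem odn_not_evn {X : Finset ((ℕ × Bool) × Finset (Vx ι))} {j : ℕ × Bool}
    {T : Finset (Vx ι)} : (odn j, T) ∉ rli evn X := by
  rw [mem_rli]
  rintro ⟨i, _, h⟩
  exact odn_ne_evn j i h.symm

private theorem sdiff_mm (X A Y B : Finset ((ℕ × Bool) × Finset (Vx ι))) :
    (rli evn X ∪ rli odn A) \ (rli evn Y ∪ rli odn B) = rli evn (X \ Y) ∪ rli odn (A \ B) := by
  ext ⟨i, T⟩
  rcases evn_or_odn i with ⟨j, rfl⟩ | ⟨j, rfl⟩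
  · simp only [Finset.mem_sdiff, mem_union, mem_rli_inj evn_inj, evn_not_odn, or_false]
  · simp only [Finset.mem_sdiff, mem_union, mem_rli_inj odn_inj, odn_not_evn, false_or]

private theorem sdiff_rli {τ : ℕ × Bool → ℕ × Bool} (hτ : Function.Injective τ)
    (X Y : Finset ((ℕ × Bool) × Finset (Vx ι))) : rli τ X \ rli τ Y = rli τ (X \ Y) := by
  ext ⟨i, T⟩
  simp only [Finset.mem_sdiff, mem_rli]
  constructor
  · rintro ⟨⟨j, hj, h⟩, h2⟩
    exact ⟨j, ⟨hj, fun h3 => h2 ⟨j, h3, h⟩⟩, h⟩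
  · rintro ⟨j, ⟨hj, hj2⟩, h⟩
    refine ⟨⟨j, hj, h⟩, ?_⟩
    rintro ⟨l, hl, h3⟩
    have : l = j := hτ (h3.trans h.symm)
    rw [this] at hl
    exact hj2 hl

private theorem rli_comp (f g : ℕ × Bool → ℕ × Bool) (X : Finset ((ℕ × Bool) × Finset (Vx ι))) :
    rli f (rli g X) = rli (f ∘ g) X := by
  ext ⟨i, T⟩
  simp only [mem_rli]
  constructor
  · rintro ⟨j, ⟨l, hl, h1⟩, h2⟩
    exact ⟨l, hl, by rw [Function.comp_apply, h1, h2]⟩
  · rintro ⟨l, hl, h⟩
    exact ⟨g l, ⟨l, hl, rfl⟩, h⟩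

private theorem rli_union (f : ℕ × Bool → ℕ × Bool) (X Y : Finset ((ℕ × Bool) × Finset (Vx ι))) :
    rli f (X ∪ Y) = rli f X ∪ rli f Y := by
  simp only [rli, image_union]

private theorem rli_empty (f : ℕ × Bool → ℕ × Bool) :
    rli f (∅ : Finset ((ℕ × Bool) × Finset (Vx ι))) = ∅ := by
  simp only [rli, image_empty]

private theorem sdiff_mm_left (X Y A : Finset ((ℕ × Bool) × Finset (Vx ι))) :
    (rli evn X ∪ rli odn A) \ (rli evn Y ∪ rli odn A) = rli evn X \ rli evn Y := by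
  have h : A \ A = (∅ : Finset ((ℕ × Bool) × Finset (Vx ι))) := Finset.sdiff_self A
  rw [sdiff_mm, h, rli_empty, union_empty, sdiff_rli evn_inj]

private theorem sdiff_mm_right (X A B : Finset ((ℕ × Bool) × Finset (Vx ι))) :
    (rli evn X ∪ rli odn A) \ (rli evn X ∪ rli odn B) = rli odn A \ rli odn B := by
  have h : X \ X = (∅ : Finset ((ℕ × Bool) × Finset (Vx ι))) := Finset.sdiff_self X
  rw [sdiff_mm, h, rli_empty, empty_union, sdiff_rli odn_inj]

/-- `τ` on the even indices, identity on the odd ones -/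
private def sg (τ : ℕ × Bool → ℕ × Bool) (i : ℕ × Bool) : ℕ × Bool :=
  if i.1 % 2 = 0 then evn (τ (i.1 / 2, i.2)) else i

private theorem sg_evn (τ : ℕ × Bool → ℕ × Bool) (j : ℕ × Bool) : sg τ (evn j) = evn (τ j) := by
  obtain ⟨n, b⟩ := j
  have h1 : (2 * n) % 2 = 0 := by omega
  have h2 : (2 * n) / 2 = n := by omega
  simp only [sg, evn, h1, if_true, h2]

private theorem sg_odn (τ : ℕ × Bool → ℕ × Bool) (j : ℕ × Bool) : sg τ (odn j) = odn j := by
  obtain ⟨n, b⟩ := j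
  have h1 : ¬ (2 * n + 1) % 2 = 0 := by omega
  simp only [sg, odn, h1, if_false]

private theorem sg_inj {τ : ℕ × Bool → ℕ × Bool} (hτ : Function.Injective τ) :
    Function.Injective (sg τ) := by
  intro i j h
  rcases evn_or_odn i with ⟨i', rfl⟩ | ⟨i', rfl⟩ <;> rcases evn_or_odn j with ⟨j', rfl⟩ | ⟨j', rfl⟩
  · rw [sg_evn, sg_evn] at h
    rw [hτ (evn_inj h)]
  · rw [sg_evn, sg_odn] at h
    exact absurd h.symm (odn_ne_evn _ _)
  · rw [sg_odn, sg_evn] at h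
    exact absurd h (odn_ne_evn _ _)
  · rw [sg_odn, sg_odn] at h
    exact h

private theorem sg_kind {τ : ℕ × Bool → ℕ × Bool} (hτ : ∀ i, (τ i).2 = i.2) (i : ℕ × Bool) :
    (sg τ i).2 = i.2 := by
  rcases evn_or_odn i with ⟨j, rfl⟩ | ⟨j, rfl⟩
  · rw [sg_evn]
    simp only [evn, hτ]
  · rw [sg_odn]

private theorem sg_mm (τ : ℕ × Bool → ℕ × Bool) (X A : Finset ((ℕ × Bool) × Finset (Vx ι))) :
    rli evn (rli τ X) ∪ rli odn A = rli (sg τ) (rli evn X ∪ rli odn A) := by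
  have h1 : sg τ ∘ evn = evn ∘ τ := funext (fun j => sg_evn τ j)
  have h2 : sg τ ∘ odn = odn := funext (fun j => sg_odn τ j)
  rw [rli_union, rli_comp, rli_comp, rli_comp, h1, h2]

theorem mm_mrg : RB.Mrg (mm : Pn ι → Pn ι → Pn ι) RR := by
  refine ⟨?_, ?_, ?_⟩
  · rintro X Y X' Y' A B (⟨h1, h2⟩ | ⟨τ, hτ, hk, h1, h2⟩)
    · left
      refine ⟨?_, ?_⟩
      · show (rli evn X.1 ∪ rli odn A.1) \ (rli evn Y.1 ∪ rli odn B.1) =
          (rli evn X'.1 ∪ rli odn A.1) \ (rli evn Y'.1 ∪ rli odn B.1)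
        rw [sdiff_mm, sdiff_mm, h1]
      · show (rli evn Y.1 ∪ rli odn B.1) \ (rli evn X.1 ∪ rli odn A.1) =
          (rli evn Y'.1 ∪ rli odn B.1) \ (rli evn X'.1 ∪ rli odn A.1)
        rw [sdiff_mm, sdiff_mm, h2]
    · right
      refine ⟨sg τ, sg_inj hτ, sg_kind hk, ?_, ?_⟩
      · show rli evn X'.1 ∪ rli odn A.1 = rli (sg τ) (rli evn X.1 ∪ rli odn A.1)
        rw [h1, sg_mm]
      · show rli evn Y'.1 ∪ rli odn B.1 = rli (sg τ) (rli evn Y.1 ∪ rli odn B.1)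
        rw [h2, sg_mm]
  · intro k hk X Y A
    have e1 : k (mm X A) (mm Y A) =
        k (⟨rli evn X.1, rli_pn _ evn_inj X⟩ : Pn ι) (⟨rli evn Y.1, rli_pn _ evn_inj Y⟩ : Pn ι) := by
      apply hk
      left
      refine ⟨?_, ?_⟩
      · show (rli evn X.1 ∪ rli odn A.1) \ (rli evn Y.1 ∪ rli odn A.1) = rli evn X.1 \ rli evn Y.1
        exact sdiff_mm_left _ _ _
      · show (rli evn Y.1 ∪ rli odn A.1) \ (rli evn X.1 ∪ rli odn A.1) = rli evn Y.1 \ rli evn X.1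
        exact sdiff_mm_left _ _ _
    rw [e1]
    symm
    apply hk
    right
    exact ⟨evn, evn_inj, fun _ => rfl, rfl, rfl⟩
  · intro k hk X A B
    have e1 : k (mm X A) (mm X B) =
        k (⟨rli odn A.1, rli_pn _ odn_inj A⟩ : Pn ι) (⟨rli odn B.1, rli_pn _ odn_inj B⟩ : Pn ι) := by
      apply hk
      left
      refine ⟨?_, ?_⟩
      · show (rli evn X.1 ∪ rli odn A.1) \ (rli evn X.1 ∪ rli odn B.1) = rli odn A.1 \ rli odn B.1
        exact sdiff_mm_right _ _ _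
      · show (rli evn X.1 ∪ rli odn B.1) \ (rli evn X.1 ∪ rli odn A.1) = rli odn B.1 \ rli odn A.1
        exact sdiff_mm_right _ _ _
    rw [e1]
    symm
    apply hk
    right
    exact ⟨odn, odn_inj, fun _ => rfl, rfl, rfl⟩

end Pool.Agent.Lib.MP_90b327_co.UC
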