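import Mathlib
import Pool.Agent.Lib.MP_90b327_co.UC.UDefs
import Pool.Agent.Lib.MP_90b327_co.UC.UDer
import Pool.Agent.Lib.MP_90b327_co.UC.UKapA
import Pool.Agent.Lib.MP_90b327_co.UC.UKapB
import Pool.Agent.Lib.MP_90b327_co.RB.RepC
import Pool.Agent.Lib.MP_90b327_co.UC.UPlace

/-!
MODULE UPsd. (60 minutes) The derived kernel is positive semidefinite.
`der_kap`: `der (s,a,a') K S S' = kap s a a' K (at2 S S') (at2 S' S)`: `place` with `e = ev`, `b = pb s a a' (0,false)`, `b' = pb s a a' (0,true)`; the second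
side: `ph Z (at2 S S') = jn b b' (mp ev S) (mp ev S')` for `Z = S ∪ S'` up to equality of the sets (`cta (at2 S S') ∪ cta (at2 S' S) = S ∪ S'`).
`der_psd`: `RB.rep mm_mrg (kap_ker hK s a a')` gives `th`. `zeta0 = th (at1 (0,false) S) (at1 (0,false) S')`, `zeta1 = th (at1 (0,true) S) (at1 (0,true) S')`.
`th (at2 S S') (at2 S' S) = th (mm (at1 (0,false) S) (at1 (0,true) S')) (mm (at1 (0,false) S') (at1 (0,true) S))` (second relation with
`τ (0,false) = (0,false)`, `τ (0,true) = (1,true)`, e.g. `τ (n, false) = (2n, false)`, `τ (n, true) = (2n+1, true)`) `= zeta0 (S,S') zeta1 (S',S)`. So for real `a_i`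
`∑ a_i a_j der = ∫ ∑ a_i a_j zeta0(S_i,S_j) conj zeta1 (S_i,S_j)`, and the integrand has real part `≥ 0`: `Matrix.PosSemidef.hadamard` (the matrices
`zeta0 (S_i,S_j)` and `conj zeta1 (S_i,S_j)` are positive semidefinite: `Ker.psd`, `Ker.herm`; adapt the order of the indices).
`der_KK`: collect.
-/

set_option autoImplicit false

namespace Pool.Agent.Lib.MP_90b327_co.UC

open Finset MeasureTheory Filter Topology Pool.Agent.Lib.MP_90b327_co

variable {ι : Type} [DecidableEq ι]

private theorem ctt_at2_f (S S' : Fam ι) (hS : Cx S) (hS' : Cx S') :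
    ctt (at2 S S' hS hS').1 (0, false) = S := by
  ext T
  simp [ctt, at2, at1]

private theorem ctt_at2_t (S S' : Fam ι) (hS : Cx S) (hS' : Cx S') :
    ctt (at2 S S' hS hS').1 (0, true) = S' := by
  ext T
  simp [ctt, at2, at1]

private theorem cta_at2 (S S' : Fam ι) (hS : Cx S) (hS' : Cx S') :
    cta (at2 S S' hS hS').1 = S ∪ S' := by
  ext T
  simp only [cta, at2, at1, mem_image, mem_union]
  constructor
  · rintro ⟨q, (⟨V, hV, rfl⟩ | ⟨V, hV, rfl⟩), rfl⟩
    · exact Or.inl hV
    · exact Or.inr hV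
  · rintro (h | h)
    · exact ⟨_, Or.inl ⟨T, h, rfl⟩, rfl⟩
    · exact ⟨_, Or.inr ⟨T, h, rfl⟩, rfl⟩

private theorem ph_at2 (s : ι) (a a' : ℕ) (S S' : Fam ι) (hS : Cx S) (hS' : Cx S') :
    ph s a a' (S ∪ S') (at2 S S' hS hS').1 =
      jn (pb s a a' (0, false)) (pb s a a' (0, true)) (mp ev S) (mp ev S') := by
  unfold ph jn
  rw [mp_union]
  congr 1
  ext U
  simp only [mem_biUnion, mem_union]
  constructor
  · rintro ⟨i, hi, hU⟩
    rw [mem_image] at hi
    obtain ⟨q, hq, rfl⟩ := hi
    have hq' : q.1 = (0, false) ∨ q.1 = (0, true) := by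
      simp only [at2, at1, mem_union, mem_image] at hq
      rcases hq with ⟨T, _, rfl⟩ | ⟨T, _, rfl⟩
      · exact Or.inl rfl
      · exact Or.inr rfl
    rcases hq' with h | h
    · left
      rw [h, ctt_at2_f] at hU
      exact hU
    · right
      rw [h, ctt_at2_t] at hU
      exact hU
  · rintro (hU | hU)
    · refine ⟨(0, false), ?_, ?_⟩
      · have hne : S.Nonempty := by
          rw [Finset.nonempty_iff_ne_empty]
          rintro rfl
          rw [mp_empty, st_empty] at hU
          simp at hU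
        obtain ⟨T, hT⟩ := hne
        rw [mem_image]
        refine ⟨((0, false), T), ?_, rfl⟩
        simp [at2, at1, hT]
      · rw [ctt_at2_f]
        exact hU
    · refine ⟨(0, true), ?_, ?_⟩
      · have hne : S'.Nonempty := by
          rw [Finset.nonempty_iff_ne_empty]
          rintro rfl
          rw [mp_empty, st_empty] at hU
          simp at hU
        obtain ⟨T, hT⟩ := hne
        rw [mem_image]
        refine ⟨((0, true), T), ?_, rfl⟩
        simp [at2, at1, hT]
      · rw [ctt_at2_t]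
        exact hU

omit [DecidableEq ι] in
private theorem ev_inj : Function.Injective (ev : Vx ι → Vx ι) := by
  rintro ⟨a, b⟩ ⟨c, d⟩ h
  simp only [ev, Prod.mk.injEq] at h ⊢
  exact ⟨h.1, by omega⟩

private theorem pb_of (s : ι) (a a' : ℕ) (i : ℕ × Bool) : Of s (pb s a a' i) := by
  intro v hv
  simp only [pb, mem_image] at hv
  obtain ⟨j, _, rfl⟩ := hv
  rfl

private theorem pb_card (s : ι) (a a' : ℕ) (i : ℕ × Bool) :
    (pb s a a' i).card = if i.2 then a' else a := by
  unfold pb
  rw [card_image_of_injective, card_range]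
  intro j j' h
  simp only [Prod.mk.injEq, true_and] at h
  have h2 : Nat.pair (Nat.pair i.1 i.2.toNat) j = Nat.pair (Nat.pair i.1 i.2.toNat) j' := by omega
  exact (Nat.pair_eq_pair.1 h2).2

private theorem pb_disj (s : ι) (a a' : ℕ) :
    Disjoint (pb s a a' (0, false)) (pb s a a' (0, true)) := by
  rw [Finset.disjoint_left]
  intro v hv hv'
  simp only [pb, mem_image] at hv hv'
  obtain ⟨j, _, rfl⟩ := hv
  obtain ⟨j', _, h⟩ := hv'
  simp only [Prod.mk.injEq, true_and] at h
  have h2 : Nat.pair (Nat.pair 0 true.toNat) j' = Nat.pair (Nat.pair 0 false.toNat) j := by omega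
  have h3 := (Nat.pair_eq_pair.1 h2).1
  have h4 := (Nat.pair_eq_pair.1 h3).2
  simp at h4

private theorem pb_odd (s : ι) (a a' : ℕ) (i : ℕ × Bool) (v : Vx ι) (hv : v ∈ pb s a a' i) :
    v.2 % 2 = 1 := by
  simp only [pb, mem_image] at hv
  obtain ⟨j, _, rfl⟩ := hv
  show (2 * Nat.pair (Nat.pair i.1 i.2.toNat) j + 1) % 2 = 1
  omega

theorem der_kap {k : ℕ} {K : Fam ι → Fam ι → ℝ} (hK : KK k K) (s : ι) (a a' : ℕ) (S S' : Fam ι)
    (hS : Cx S) (hS' : Cx S') :
    der (s, a, a') K S S' = kap s a a' K (at2 S S' hS hS') (at2 S' S hS' hS) := by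
  rw [place hK s a a' S S' hS hS' ev (fun v => rfl) (ev_inj.injOn) (pb s a a' (0, false))
    (pb s a a' (0, true)) (pb_of s a a' _) (pb_of s a a' _) (by rw [pb_card]; simp)
    (by rw [pb_card]; simp) (pb_disj s a a') ?_]
  · unfold kap
    have h1 : cta (at2 S S' hS hS').1 ∪ cta (at2 S' S hS' hS).1 = S ∪ S' := by
      rw [cta_at2, cta_at2]
      ext T
      simp only [mem_union]
      tauto
    have h2 : cta (at2 S S' hS hS').1 ∪ cta (at2 S' S hS' hS).1 = S' ∪ S := by
      rw [h1, union_comm]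
    rw [← ph_at2 s a a' S S' hS hS', ← ph_at2 s a a' S' S hS' hS]
    nth_rewrite 1 [h1]
    rw [h2]
  · rw [Finset.disjoint_left]
    intro v hv hv'
    rw [mem_image] at hv'
    obtain ⟨u, _, rfl⟩ := hv'
    have h0 : (ev u).2 % 2 = 0 := by
      show (2 * u.2) % 2 = 0
      omega
    rcases mem_union.1 hv with h | h
    · have := pb_odd s a a' _ _ h
      omega
    · have := pb_odd s a a' _ _ h
      omega

private def tau (i : ℕ × Bool) : ℕ × Bool := (2 * i.1 + i.2.toNat, i.2)

private theorem tau_inj : Function.Injective tau := by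
  rintro ⟨a, b⟩ ⟨c, d⟩ h
  simp only [tau, Prod.mk.injEq] at h ⊢
  obtain ⟨h1, h2⟩ := h
  subst h2
  exact ⟨by omega, rfl⟩

private theorem rli_tau (S S' : Fam ι) (hS : Cx S) (hS' : Cx S') :
    (mm (at1 (0, false) S hS) (at1 (0, true) S' hS')).1 = rli tau (at2 S S' hS hS').1 := by
  unfold mm at2 at1 rli
  simp only [image_union, image_image]
  rfl

private theorem th_at2 {k : Pn ι → Pn ι → ℂ} (hk : RB.Ker RR k)
    (hm : ∀ X Y A B, k (mm X A) (mm Y B) = k X Y * k A B) (S S' : Fam ι) (hS : Cx S) (hS' : Cx S') :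
    k (at2 S S' hS hS') (at2 S' S hS' hS) =
      k (at1 (0, false) S hS) (at1 (0, false) S' hS') *
        k (at1 (0, true) S' hS') (at1 (0, true) S hS) := by
  rw [← hm]
  refine hk.rel _ _ _ _ (Or.inr ⟨tau, tau_inj, fun i => rfl, ?_, ?_⟩)
  · exact rli_tau S S' hS hS'
  · exact rli_tau S' S hS' hS

open scoped ComplexOrder in
private theorem psd_of {α : Type} [Fintype α] (A : Matrix α α ℂ) (hA : ∀ i j, A j i = (starRingEnd ℂ) (A i j))
    (h : ∀ c : α → ℂ, 0 ≤ (∑ i, ∑ j, (starRingEnd ℂ) (c i) * c j * A i j).re) : A.PosSemidef := by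
  refine Matrix.PosSemidef.of_dotProduct_mulVec_nonneg ?_ fun x => ?_
  · ext i j
    rw [Matrix.conjTranspose_apply, hA j i]
    rfl
  · have e : dotProduct (star x) (A.mulVec x) = ∑ i, ∑ j, (starRingEnd ℂ) (x i) * x j * A i j := by
      unfold dotProduct Matrix.mulVec dotProduct
      refine Finset.sum_congr rfl fun i _ => ?_
      rw [Finset.mul_sum]
      refine Finset.sum_congr rfl fun j _ => ?_
      show (starRingEnd ℂ) (x i) * (A i j * x j) = _
      ring
    rw [e]
    have him : (starRingEnd ℂ) (∑ i, ∑ j, (starRingEnd ℂ) (x i) * x j * A i j) =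
        ∑ i, ∑ j, (starRingEnd ℂ) (x i) * x j * A i j := by
      rw [map_sum]
      have e2 : ∀ i, (starRingEnd ℂ) (∑ j, (starRingEnd ℂ) (x i) * x j * A i j) =
          ∑ j, (starRingEnd ℂ) (x j) * x i * A j i := by
        intro i
        rw [map_sum]
        refine Finset.sum_congr rfl fun j _ => ?_
        rw [map_mul, map_mul, Complex.conj_conj, ← hA i j]
        ring
      rw [Finset.sum_congr rfl fun i _ => e2 i]
      exact Finset.sum_comm
    rw [Complex.le_def]
    refine ⟨h x, ?_⟩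
    have := Complex.conj_eq_iff_im.1 him
    rw [this]
    rfl

open scoped ComplexOrder in
private theorem schur {α 𝒳 : Type} [Fintype α] {R : 𝒳 → 𝒳 → 𝒳 → 𝒳 → Prop} {k : 𝒳 → 𝒳 → ℂ}
    (hk : RB.Ker R k) (X Y : α → 𝒳) (c : α → ℝ) :
    0 ≤ (∑ i, ∑ j, ((c i * c j : ℝ) : ℂ) * (k (X i) (X j) * k (Y j) (Y i))).re := by
  have hA : (Matrix.of fun i j => k (X i) (X j)).PosSemidef := by
    refine psd_of _ (fun i j => ?_) fun c => ?_
    · simp only [Matrix.of_apply]
      exact hk.herm _ _
    · simp only [Matrix.of_apply]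
      exact hk.psd α X c
  have hB : (Matrix.of fun i j => k (Y j) (Y i)).PosSemidef := by
    refine psd_of _ (fun i j => ?_) fun c => ?_
    · simp only [Matrix.of_apply]
      exact hk.herm _ _
    · simp only [Matrix.of_apply]
      have h := hk.psd α Y (fun i => (starRingEnd ℂ) (c i))
      refine h.trans (le_of_eq ?_)
      congr 1
      rw [Finset.sum_comm]
      refine Finset.sum_congr rfl fun i _ => ?_
      refine Finset.sum_congr rfl fun j _ => ?_
      simp only [Complex.conj_conj]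
      ring
  have hAB := (hA.hadamard hB).dotProduct_mulVec_nonneg (fun i => (c i : ℂ))
  have e : dotProduct (star (fun i => (c i : ℂ))) ((Matrix.hadamard (Matrix.of fun i j => k (X i) (X j))
      (Matrix.of fun i j => k (Y j) (Y i))).mulVec (fun i => (c i : ℂ))) =
      ∑ i, ∑ j, ((c i * c j : ℝ) : ℂ) * (k (X i) (X j) * k (Y j) (Y i)) := by
    unfold dotProduct Matrix.mulVec dotProduct
    refine Finset.sum_congr rfl fun i _ => ?_
    rw [Finset.mul_sum]
    refine Finset.sum_congr rfl fun j _ => ?_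
    show (starRingEnd ℂ) (c i : ℂ) * (k (X i) (X j) * k (Y j) (Y i) * (c j : ℂ)) = _
    rw [Complex.conj_ofReal]
    push_cast
    ring
  rw [e, Complex.le_def] at hAB
  exact hAB.1

theorem der_psd {k : ℕ} {K : Fam ι → Fam ι → ℝ} (hK : KK k K) (p : ι × ℕ × ℕ) (α : Type) [Fintype α]
    (S : α → Fam ι) (c : α → ℝ) (hS : ∀ i, Cx (S i)) :
    0 ≤ ∑ i, ∑ j, c i * c j * der p K (S i) (S j) := by
  obtain ⟨s, a, a'⟩ := p
  obtain ⟨r⟩ := RB.rep mm_mrg _ (kap_ker hK s a a')
  have hmean : ∀ i j, ((der (s, a, a') K (S i) (S j) : ℝ) : ℂ) =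
      ∫ ω, r.th ω (at1 (0, false) (S i) (hS i)) (at1 (0, false) (S j) (hS j)) *
        r.th ω (at1 (0, true) (S j) (hS j)) (at1 (0, true) (S i) (hS i)) ∂r.P := by
    intro i j
    rw [der_kap hK s a a' (S i) (S j) (hS i) (hS j), r.mean]
    refine integral_congr_ae (Filter.Eventually.of_forall fun ω => ?_)
    exact th_at2 (r.ker ω) (r.mul ω) (S i) (S j) (hS i) (hS j)
  have hint : ∀ i j, Integrable (fun ω => r.th ω (at1 (0, false) (S i) (hS i)) (at1 (0, false) (S j) (hS j)) *
        r.th ω (at1 (0, true) (S j) (hS j)) (at1 (0, true) (S i) (hS i))) r.P := by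
    intro i j
    refine Integrable.of_bound (((r.meas _ _).mul (r.meas _ _)).aestronglyMeasurable) 1
      (Filter.Eventually.of_forall fun ω => ?_)
    rw [norm_mul]
    exact mul_le_one₀ (RB.ker_norm_le (r.ker ω) _ _) (norm_nonneg _) (RB.ker_norm_le (r.ker ω) _ _)
  have hint2 : ∀ i j, Integrable (fun ω => ((c i * c j : ℝ) : ℂ) *
      (r.th ω (at1 (0, false) (S i) (hS i)) (at1 (0, false) (S j) (hS j)) *
        r.th ω (at1 (0, true) (S j) (hS j)) (at1 (0, true) (S i) (hS i)))) r.P :=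
    fun i j => (hint i j).const_mul _
  have hsum : ((∑ i, ∑ j, c i * c j * der (s, a, a') K (S i) (S j) : ℝ) : ℂ) =
      ∫ ω, ∑ i, ∑ j, ((c i * c j : ℝ) : ℂ) *
        (r.th ω (at1 (0, false) (S i) (hS i)) (at1 (0, false) (S j) (hS j)) *
        r.th ω (at1 (0, true) (S j) (hS j)) (at1 (0, true) (S i) (hS i))) ∂r.P := by
    rw [integral_finsetSum _ (fun i _ => integrable_finsetSum _ fun j _ => hint2 i j)]
    push_cast
    refine Finset.sum_congr rfl fun i _ => ?_
    rw [integral_finsetSum _ (fun j _ => by have := hint2 i j; push_cast at this; exact this)]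
    refine Finset.sum_congr rfl fun j _ => ?_
    rw [integral_const_mul, hmean i j]
  have hre : (∑ i, ∑ j, c i * c j * der (s, a, a') K (S i) (S j)) =
      (((∑ i, ∑ j, c i * c j * der (s, a, a') K (S i) (S j) : ℝ) : ℂ)).re := by
    rw [Complex.ofReal_re]
  rw [hre, hsum]
  have hint3 : Integrable (fun ω => ∑ i, ∑ j, ((c i * c j : ℝ) : ℂ) *
        (r.th ω (at1 (0, false) (S i) (hS i)) (at1 (0, false) (S j) (hS j)) *
        r.th ω (at1 (0, true) (S j) (hS j)) (at1 (0, true) (S i) (hS i)))) r.P :=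
    integrable_finsetSum _ (fun i _ => integrable_finsetSum _ fun j _ => hint2 i j)
  have e1 := integral_re hint3
  simp only [RCLike.re_to_complex] at e1
  rw [← e1]
  refine integral_nonneg fun ω => ?_
  exact schur (r.ker ω) (fun i => at1 (0, false) (S i) (hS i)) (fun i => at1 (0, true) (S i) (hS i)) c

theorem der_KK {k : ℕ} {K : Fam ι → Fam ι → ℝ} (hK : KK k K) (p : ι × ℕ × ℕ) : KK (k - 1) (der p K) where
  one := der_one hK p
  symm := der_symm hK p
  psd := fun α _ S c hS => der_psd hK p α S c hS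
  inv := der_inv hK p
  dif := der_dif hK p

end Pool.Agent.Lib.MP_90b327_co.UC
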