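import Mathlib
import Pool.Agent.Lib.MP_90b327_co.UC.UDefs
import Pool.Agent.Lib.MP_90b327_co.UC.UCx
import Pool.Agent.Lib.MP_90b327_co.UC.UPlace
import Pool.Agent.Lib.MP_90b327_co.UC.UDer
import Pool.Agent.Lib.MP_90b327_co.UC.UPsd

/-!
MODULE UComm. (50 minutes) Derivations commute.
`der_comm`: `p = (s,a,a')`, `q = (t,c,c')`. Choose the blocks: `b_q, b_q'` standard (numbers `< c + c'`), `b_p, b_p'` numbers in `[c + c', c + c' + a + a')`, and the
contents shifted by `c + c' + a + a'`. Left side: unfold `der p (der q K)`: `= der q K (jn b_p° b_p°' S₁ S₁') (..)`, unfold again: `= K (jn b_q b_q' (mp sh (jn ..)) ..) ..`, and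
`mp_jn` moves the shift inside. Right side: unfold `der q (der p K) S S' = der p K (jn b_q b_q' S₂ S₂') (jn b_q b_q' S₂' S₂)`, then `place` with
`e v = if v.2 < c + c' then v else sh (a + a') v` and the blocks `b_p, b_p'`. Both sides are now `K` of complexes built from the same `b_p, b_p', b_q, b_q'` and the same
shifted `T, T'`: first `jn b_q b_q' (jn b_p b_p' T T') (jn b_p b_p' T' T)` and `jn b_q b_q' (jn b_p b_p' T' T) (jn b_p b_p' T T')`, second the same with `p, q` exchanged.
They have the same signed difference (`jn_diff` twice: the difference at `U` is the product of the two signs and of the signed difference of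
`T, T'` at `U \ (b_p ∪ b_p' ∪ b_q ∪ b_q')`): `KK.dif`. Lemma `jn_jn`.
-/

set_option autoImplicit false

namespace Pool.Agent.Lib.MP_90b327_co.UC

open Finset MeasureTheory Filter Topology Pool.Agent.Lib.MP_90b327_co

variable {ι : Type} [DecidableEq ι]

private theorem core {b b' c c' : Finset (Vx ι)} {T T' : Fam ι} (hb : Disjoint b b') (hc : Disjoint c c')
    (hbc : Disjoint (b ∪ b') (c ∪ c')) (h1 : Disjoint (b ∪ b') (vs T ∪ vs T'))
    (h2 : Disjoint (c ∪ c') (vs T ∪ vs T')) (U : Finset (Vx ι)) :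
    (U ∈ jn c c' (jn b b' T T') (jn b b' T' T) ∧ U ∉ jn c c' (jn b b' T' T) (jn b b' T T')) ↔
      ((U ∩ c).Nonempty ∧ U ∩ c' = ∅ ∧
        (((U ∩ b).Nonempty ∧ U ∩ b' = ∅ ∧ (U \ c) \ b ∈ T ∧ (U \ c) \ b ∉ T') ∨
          ((U ∩ b').Nonempty ∧ U ∩ b = ∅ ∧ (U \ c) \ b' ∈ T' ∧ (U \ c) \ b' ∉ T))) ∨
      ((U ∩ c').Nonempty ∧ U ∩ c = ∅ ∧
        (((U ∩ b).Nonempty ∧ U ∩ b' = ∅ ∧ (U \ c') \ b ∈ T' ∧ (U \ c') \ b ∉ T) ∨
          ((U ∩ b').Nonempty ∧ U ∩ b = ∅ ∧ (U \ c') \ b' ∈ T ∧ (U \ c') \ b' ∉ T'))) := by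
  have hX : Disjoint (c ∪ c') (vs (jn b b' T T') ∪ vs (jn b b' T' T)) := by
    have hv := vs_jn b b' T' T
    rw [union_comm (vs T') (vs T)] at hv
    refine Disjoint.mono_right (union_subset (vs_jn b b' T T') hv) ?_
    exact disjoint_union_right.2 ⟨hbc.symm, h2⟩
  have e1 : ∀ x y : Finset (Vx ι), Disjoint x y → (U \ x) ∩ y = U ∩ y := by
    intro x y hxy
    ext v
    simp only [mem_inter, Finset.mem_sdiff]
    constructor
    · rintro ⟨⟨h, _⟩, h'⟩
      exact ⟨h, h'⟩
    · rintro ⟨h, h'⟩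
      exact ⟨⟨h, fun h'' => (disjoint_left.1 hxy h'' h')⟩, h'⟩
  have d1 : Disjoint c b := (hbc.mono subset_union_left subset_union_left).symm
  have d2 : Disjoint c b' := (hbc.mono subset_union_right subset_union_left).symm
  have d3 : Disjoint c' b := (hbc.mono subset_union_left subset_union_right).symm
  have d4 : Disjoint c' b' := (hbc.mono subset_union_right subset_union_right).symm
  have h1' : Disjoint (b ∪ b') (vs T' ∪ vs T) := by rwa [union_comm (vs T') (vs T)]
  rw [jn_diff hc hX U, jn_diff hb h1 (U \ c), jn_diff hb h1' (U \ c'), e1 c b d1, e1 c b' d2, e1 c' b d3,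
    e1 c' b' d4]

private theorem core2 {b b' c c' : Finset (Vx ι)} {T T' : Fam ι} (hb : Disjoint b b') (hc : Disjoint c c')
    (hbc : Disjoint (b ∪ b') (c ∪ c')) (h1 : Disjoint (b ∪ b') (vs T ∪ vs T'))
    (h2 : Disjoint (c ∪ c') (vs T ∪ vs T')) (U : Finset (Vx ι)) :
    (U ∈ jn c c' (jn b b' T T') (jn b b' T' T) ∧ U ∉ jn c c' (jn b b' T' T) (jn b b' T T')) ↔
      (U ∈ jn b b' (jn c c' T T') (jn c c' T' T) ∧ U ∉ jn b b' (jn c c' T' T) (jn c c' T T')) := by
  rw [core hb hc hbc h1 h2 U, core hc hb hbc.symm h2 h1 U, sdiff_right_comm U b c, sdiff_right_comm U b c',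
    sdiff_right_comm U b' c, sdiff_right_comm U b' c']
  tauto

theorem jn_jn {k : ℕ} {b b' c c' : Finset (Vx ι)} {T T' : Fam ι} (hb : Disjoint b b') (hc : Disjoint c c')
    (hbc : Disjoint (b ∪ b') (c ∪ c')) (h1 : Disjoint (b ∪ b') (vs T ∪ vs T'))
    (h2 : Disjoint (c ∪ c') (vs T ∪ vs T')) :
    Dif k (jn c c' (jn b b' T T') (jn b b' T' T)) (jn c c' (jn b b' T' T) (jn b b' T T'))
      (jn b b' (jn c c' T T') (jn c c' T' T)) (jn b b' (jn c c' T' T) (jn c c' T T')) := by
  intro U _
  refine ⟨core2 hb hc hbc h1 h2 U, ?_⟩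
  exact core2 hb hc hbc (by rwa [union_comm (vs T') (vs T)]) (by rwa [union_comm (vs T') (vs T)]) U

private theorem mem_bk {s : ι} {c a : ℕ} {v : Vx ι} : v ∈ bk s c a ↔ v.1 = s ∧ c ≤ v.2 ∧ v.2 < c + a := by
  unfold bk
  simp only [mem_image, mem_Ico]
  constructor
  · rintro ⟨i, ⟨h1, h2⟩, rfl⟩
    exact ⟨rfl, h1, h2⟩
  · rintro ⟨h0, h1, h2⟩
    exact ⟨v.2, ⟨h1, h2⟩, by rw [← h0]⟩

private theorem sh_inj (c : ℕ) : Function.Injective (sh (ι := ι) c) := by
  rintro ⟨x, i⟩ ⟨y, j⟩ h
  simp only [sh, Prod.mk.injEq, Nat.add_right_cancel_iff] at h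
  exact Prod.ext h.1 h.2

private theorem sh_sh (c a : ℕ) : (sh (ι := ι) c) ∘ (sh a) = sh (a + c) := by
  funext v
  simp only [Function.comp, sh, add_assoc]

theorem der_comm {k : ℕ} {K : Fam ι → Fam ι → ℝ} (hK : KK k K) (p q : ι × ℕ × ℕ) (S S' : Fam ι)
    (hS : Cx S) (hS' : Cx S') : der p (der q K) S S' = der q (der p K) S S' := by
  obtain ⟨s, a, a'⟩ := p
  obtain ⟨t, c, c'⟩ := q
  -- the left side
  have hL : der (s, a, a') (der (t, c, c') K) S S' =
      K (jn (bk t 0 c) (bk t c c')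
          (jn ((bk s 0 a).image (sh (c + c'))) ((bk s a a').image (sh (c + c')))
            (mp (sh (a + a' + (c + c'))) S) (mp (sh (a + a' + (c + c'))) S'))
          (jn ((bk s 0 a).image (sh (c + c'))) ((bk s a a').image (sh (c + c')))
            (mp (sh (a + a' + (c + c'))) S') (mp (sh (a + a' + (c + c'))) S)))
        (jn (bk t 0 c) (bk t c c')
          (jn ((bk s 0 a).image (sh (c + c'))) ((bk s a a').image (sh (c + c')))
            (mp (sh (a + a' + (c + c'))) S') (mp (sh (a + a' + (c + c'))) S))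
          (jn ((bk s 0 a).image (sh (c + c'))) ((bk s a a').image (sh (c + c')))
            (mp (sh (a + a' + (c + c'))) S) (mp (sh (a + a' + (c + c'))) S'))) := by
    simp only [der, mp_jn, mp_mp, sh_sh]
  -- the right side
  set e : Vx ι → Vx ι := fun v => if v.2 < c + c' then v else sh (a + a') v with hedef
  have he : Ty e := by
    intro v
    simp only [hedef]
    split_ifs <;> rfl
  have heinj : Function.Injective e := by
    rintro ⟨x, i⟩ ⟨y, j⟩ h
    simp only [hedef, sh] at h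
    split_ifs at h with h1 h2 h2
    · exact h
    · simp only [Prod.mk.injEq] at h
      omega
    · simp only [Prod.mk.injEq] at h
      omega
    · simp only [Prod.mk.injEq] at h
      exact Prod.ext h.1 (by simpa using h.2)
  have heid : ∀ B : Finset (Vx ι), (∀ v ∈ B, v.2 < c + c') → B.image e = B := by
    intro B hB
    have : B.image e = B.image id := by
      refine image_congr ?_
      intro v hv
      simp only [hedef, hB v hv, if_true, id]
    rw [this, image_id]
  have hesh : e ∘ sh (c + c') = sh (a + a' + (c + c')) := by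
    funext v
    have : ¬ ((sh (c + c') v).2 < c + c') := by simp only [sh]; omega
    simp only [Function.comp, hedef, this, if_false]
    simp only [sh]
    exact Prod.ext rfl (by simp only; omega)
  have hvs : ∀ R : Fam ι, ∀ v ∈ vs (mp (sh (c + c')) R), c + c' ≤ v.2 := by
    intro R v hv
    rw [vs_mp, mem_image] at hv
    obtain ⟨u, _, rfl⟩ := hv
    simp only [sh]
    omega
  have hvs2 : ∀ R : Fam ι, ∀ v ∈ vs (mp (sh (a + a' + (c + c'))) R), a + a' + (c + c') ≤ v.2 := by
    intro R v hv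
    rw [vs_mp, mem_image] at hv
    obtain ⟨u, _, rfl⟩ := hv
    simp only [sh]
    omega
  set b := (bk s 0 a).image (sh (c + c')) with hbdef
  set b' := (bk s a a').image (sh (c + c')) with hb'def
  have mb : ∀ v ∈ b, v.1 = s ∧ c + c' ≤ v.2 ∧ v.2 < c + c' + a := by
    intro v hv
    rw [hbdef, mem_image] at hv
    obtain ⟨u, hu, rfl⟩ := hv
    rw [mem_bk] at hu
    simp only [sh]
    refine ⟨hu.1, by omega, by omega⟩
  have mb' : ∀ v ∈ b', v.1 = s ∧ c + c' + a ≤ v.2 ∧ v.2 < c + c' + a + a' := by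
    intro v hv
    rw [hb'def, mem_image] at hv
    obtain ⟨u, hu, rfl⟩ := hv
    rw [mem_bk] at hu
    simp only [sh]
    refine ⟨hu.1, by omega, by omega⟩
  have mc : ∀ v ∈ bk t 0 c, v.2 < c := by
    intro v hv
    rw [mem_bk] at hv
    omega
  have mc' : ∀ v ∈ bk t c c', c ≤ v.2 ∧ v.2 < c + c' := by
    intro v hv
    rw [mem_bk] at hv
    omega
  have hbb' : Disjoint b b' := by
    rw [disjoint_left]
    intro v hv hv'
    have := mb v hv
    have := mb' v hv'
    omega
  have hcc' : Disjoint (bk t 0 c) (bk t c c') := by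
    rw [disjoint_left]
    intro v hv hv'
    have := mc v hv
    have := mc' v hv'
    omega
  have mbb : ∀ v ∈ b ∪ b', c + c' ≤ v.2 ∧ v.2 < c + c' + a + a' := by
    intro v hv
    rcases mem_union.1 hv with h | h
    · have := mb v h
      omega
    · have := mb' v h
      omega
  have mcc : ∀ v ∈ bk t 0 c ∪ bk t c c', v.2 < c + c' := by
    intro v hv
    rcases mem_union.1 hv with h | h
    · have := mc v h
      omega
    · have := mc' v h
      omega
  have hbc : Disjoint (b ∪ b') (bk t 0 c ∪ bk t c c') := by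
    rw [disjoint_left]
    intro v hv hv'
    have := mbb v hv
    have := mcc v hv'
    omega
  have hbT : Disjoint (b ∪ b') (vs (mp (sh (a + a' + (c + c'))) S) ∪ vs (mp (sh (a + a' + (c + c'))) S')) := by
    rw [disjoint_left]
    intro v hv hv'
    have := mbb v hv
    rcases mem_union.1 hv' with h | h
    · have := hvs2 S v h
      omega
    · have := hvs2 S' v h
      omega
  have hcT : Disjoint (bk t 0 c ∪ bk t c c')
      (vs (mp (sh (a + a' + (c + c'))) S) ∪ vs (mp (sh (a + a' + (c + c'))) S')) := by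
    rw [disjoint_left]
    intro v hv hv'
    have := mcc v hv
    rcases mem_union.1 hv' with h | h
    · have := hvs2 S v h
      omega
    · have := hvs2 S' v h
      omega
  have hcx1 : Cx (mp (sh (c + c')) S) := cx_mp _ hS
  have hcx2 : Cx (mp (sh (c + c')) S') := cx_mp _ hS'
  have hcb : b.card = a := by
    rw [hbdef, card_image_of_injective _ (sh_inj _), bk, card_image_of_injective _ (by
      intro i j h
      simpa using h)]
    simp
  have hcb' : b'.card = a' := by
    rw [hb'def, card_image_of_injective _ (sh_inj _), bk, card_image_of_injective _ (by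
      intro i j h
      simpa using h)]
    simp
  have hR0 : der (t, c, c') (der (s, a, a') K) S S' =
      der (s, a, a') K (jn (bk t 0 c) (bk t c c') (mp (sh (c + c')) S) (mp (sh (c + c')) S'))
        (jn (bk t 0 c) (bk t c c') (mp (sh (c + c')) S') (mp (sh (c + c')) S)) := rfl
  have hdis : Disjoint (b ∪ b')
      ((vs (jn (bk t 0 c) (bk t c c') (mp (sh (c + c')) S) (mp (sh (c + c')) S')) ∪
        vs (jn (bk t 0 c) (bk t c c') (mp (sh (c + c')) S') (mp (sh (c + c')) S))).image e) := by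
    rw [disjoint_left]
    intro v hv hv'
    have h0 := mbb v hv
    rw [mem_image] at hv'
    obtain ⟨u, hu, rfl⟩ := hv'
    have hu' : u ∈ bk t 0 c ∪ bk t c c' ∪ (vs (mp (sh (c + c')) S) ∪ vs (mp (sh (c + c')) S')) := by
      rcases mem_union.1 hu with h | h
      · exact vs_jn _ _ _ _ h
      · have := vs_jn _ _ _ _ h
        rwa [union_comm (vs (mp (sh (c + c')) S')) (vs (mp (sh (c + c')) S))] at this
    rcases mem_union.1 hu' with h | h
    · have h3 := mcc u h
      simp only [hedef, h3, if_true] at h0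
      omega
    · have h3 : c + c' ≤ u.2 := by
        rcases mem_union.1 h with h | h
        · exact hvs S u h
        · exact hvs S' u h
      have h4 : ¬ (u.2 < c + c') := by omega
      simp only [hedef, h4, if_false, sh] at h0
      omega
  have hR : der (t, c, c') (der (s, a, a') K) S S' =
      K (jn b b'
          (jn (bk t 0 c) (bk t c c') (mp (sh (a + a' + (c + c'))) S) (mp (sh (a + a' + (c + c'))) S'))
          (jn (bk t 0 c) (bk t c c') (mp (sh (a + a' + (c + c'))) S') (mp (sh (a + a' + (c + c'))) S)))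
        (jn b b'
          (jn (bk t 0 c) (bk t c c') (mp (sh (a + a' + (c + c'))) S') (mp (sh (a + a' + (c + c'))) S))
          (jn (bk t 0 c) (bk t c c') (mp (sh (a + a' + (c + c'))) S) (mp (sh (a + a' + (c + c'))) S'))) := by
    rw [hR0, place hK s a a' _ _ (cx_jn _ _ hcx1 hcx2) (cx_jn _ _ hcx2 hcx1) e he heinj.injOn b b'
      (fun v hv => (mb v hv).1) (fun v hv => (mb' v hv).1) hcb hcb' hbb' hdis]
    rw [mp_jn, mp_jn, mp_mp, mp_mp, hesh, heid (bk t 0 c) (fun v hv => lt_of_lt_of_le (mc v hv) (by omega)),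
      heid (bk t c c') (fun v hv => (mc' v hv).2)]
  rw [hL, hR]
  have hT1 : Cx (mp (sh (a + a' + (c + c'))) S) := cx_mp _ hS
  have hT2 : Cx (mp (sh (a + a' + (c + c'))) S') := cx_mp _ hS'
  exact hK.dif _ _ _ _ (cx_jn _ _ (cx_jn _ _ hT1 hT2) (cx_jn _ _ hT2 hT1))
    (cx_jn _ _ (cx_jn _ _ hT2 hT1) (cx_jn _ _ hT1 hT2))
    (cx_jn _ _ (cx_jn _ _ hT1 hT2) (cx_jn _ _ hT2 hT1))
    (cx_jn _ _ (cx_jn _ _ hT2 hT1) (cx_jn _ _ hT1 hT2))
    (jn_jn hbb' hcc' hbc hbT hcT)

end Pool.Agent.Lib.MP_90b327_co.UC
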