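import Mathlib
import Pool.Agent.Lib.MP_90b327_co.UC.UDefs
import Pool.Agent.Lib.MP_90b327_co.RB.RepC

/-!
MODULE UPairA. (45 minutes) Representation of a function of one pair of sizes.
PROOF. `𝒳 = Finset ℕ`, `k b b' = P |b \ b'| |b' \ b|` (complex), relation `RN X Y X' Y'`: (exists `v ∉ X ∪ Y`, `X' = insert v X`, `Y' = insert v Y`) or
(exists an injection `τ`, `X' = X.image τ`, `Y' = Y.image τ`); `m X A = X.image (2 ·) ∪ A.image (2 · + 1)`.
`Mrg m RN`: rel: relabel by `τ` on the even numbers (identity on the odd ones; insertion of `2 v`). left: remove the elements of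
`A.image (2 · + 1)` one by one (induction), then the injection `2 ·`. right: same.
`Ker RN k`: one: `P 0 0 = 1`; herm: symmetry of the real `P`; psd: from `PP.psd` applied to the real and imaginary parts
(see `NS/` or `WW/` for this step); rel: the numbers `|X \ Y|`, `|Y \ X|` do not change.
`RB.rep` gives `Ω, th`; `w ω = th ω {0} ∅`, `‖w‖ ≤ 1` (positive definite, normalised: `RB.RepA`), `th ω b b' = w^|b| conj(w)^|b'|` for disjoint
`b, b'` by induction with `mul`, `rel` (injections) and `herm`.
-/

set_option autoImplicit false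

namespace Pool.Agent.Lib.MP_90b327_co.UC

open Finset MeasureTheory Filter Topology Pool.Agent.Lib.MP_90b327_co

/-- a common element may be inserted, elements may be relabelled -/
private def RN (X Y X' Y' : Finset ℕ) : Prop :=
  (∃ v, v ∉ X ∧ v ∉ Y ∧ X' = insert v X ∧ Y' = insert v Y) ∨
  (∃ τ : ℕ → ℕ, Function.Injective τ ∧ X' = X.image τ ∧ Y' = Y.image τ)

/-- even elements, odd elements -/
private def mN (X A : Finset ℕ) : Finset ℕ :=
  X.image (fun i => 2 * i) ∪ A.image (fun i => 2 * i + 1)

private lemma mem_mN_even {X A : Finset ℕ} {v : ℕ} : 2 * v ∈ mN X A ↔ v ∈ X := by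
  unfold mN
  simp only [mem_union, mem_image]
  constructor
  · rintro (⟨a, ha, h⟩ | ⟨a, ha, h⟩)
    · have : a = v := by omega
      rwa [this] at ha
    · omega
  · intro h
    exact Or.inl ⟨v, h, rfl⟩

private lemma mem_mN_odd {X A : Finset ℕ} {v : ℕ} : 2 * v + 1 ∈ mN X A ↔ v ∈ A := by
  unfold mN
  simp only [mem_union, mem_image]
  constructor
  · rintro (⟨a, ha, h⟩ | ⟨a, ha, h⟩)
    · omega
    · have : a = v := by omega
      rwa [this] at ha
  · intro h
    exact Or.inr ⟨v, h, rfl⟩

private lemma mN_insert_left (v : ℕ) (X A : Finset ℕ) :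
    mN (insert v X) A = insert (2 * v) (mN X A) := by
  unfold mN
  rw [image_insert, insert_union]

private lemma mN_insert_right (v : ℕ) (X A : Finset ℕ) :
    mN X (insert v A) = insert (2 * v + 1) (mN X A) := by
  unfold mN
  rw [image_insert, union_insert]

private lemma inj_even : Function.Injective (fun i : ℕ => 2 * i) := fun a b h => by
  simp only at h; omega

private lemma inj_odd : Function.Injective (fun i : ℕ => 2 * i + 1) := fun a b h => by
  simp only at h; omega

private theorem mrgN : RB.Mrg mN RN where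
  rel := by
    intro X Y X' Y' A B hR
    rcases hR with ⟨v, hX, hY, rfl, rfl⟩ | ⟨τ, hτ, rfl, rfl⟩
    · exact Or.inl ⟨2 * v, fun h => hX (mem_mN_even.1 h), fun h => hY (mem_mN_even.1 h),
        mN_insert_left v X A, mN_insert_left v Y B⟩
    · refine Or.inr ⟨fun n => if n % 2 = 0 then 2 * τ (n / 2) else n, ?_, ?_, ?_⟩
      · intro x y hxy
        simp only at hxy
        by_cases hx : x % 2 = 0 <;> by_cases hy : y % 2 = 0
        · rw [if_pos hx, if_pos hy] at hxy
          have h1 : τ (x / 2) = τ (y / 2) := by omega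
          have h2 := hτ h1
          omega
        · rw [if_pos hx, if_neg hy] at hxy
          omega
        · rw [if_neg hx, if_pos hy] at hxy
          omega
        · rwa [if_neg hx, if_neg hy] at hxy
      · unfold mN
        rw [image_union, image_image, image_image, image_image]
        congr 1
        · refine image_congr fun i _ => ?_
          simp [Function.comp]
        · refine image_congr fun i _ => ?_
          have h1 : ¬ ((2 * i + 1) % 2 = 0) := by omega
          simp only [Function.comp]
          rw [if_neg h1]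
      · unfold mN
        rw [image_union, image_image, image_image, image_image]
        congr 1
        · refine image_congr fun i _ => ?_
          simp [Function.comp]
        · refine image_congr fun i _ => ?_
          have h1 : ¬ ((2 * i + 1) % 2 = 0) := by omega
          simp only [Function.comp]
          rw [if_neg h1]
  left := by
    intro k hk X Y A
    induction A using Finset.induction_on with
    | empty =>
      refine (hk _ _ _ _ (Or.inr ⟨fun i => 2 * i, inj_even, ?_, ?_⟩)).symm
      · simp [mN]
      · simp [mN]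
    | insert a A ha ih =>
      rw [← ih]
      refine (hk _ _ _ _ (Or.inl ⟨2 * a + 1, ?_, ?_, ?_, ?_⟩)).symm
      · exact fun h => ha (mem_mN_odd.1 h)
      · exact fun h => ha (mem_mN_odd.1 h)
      · exact mN_insert_right a X A
      · exact mN_insert_right a Y A
  right := by
    intro k hk X A B
    induction X using Finset.induction_on with
    | empty =>
      refine (hk _ _ _ _ (Or.inr ⟨fun i => 2 * i + 1, inj_odd, ?_, ?_⟩)).symm
      · simp [mN]
      · simp [mN]
    | insert a X ha ih =>
      rw [← ih]
      refine (hk _ _ _ _ (Or.inl ⟨2 * a, ?_, ?_, ?_, ?_⟩)).symm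
      · exact fun h => ha (mem_mN_even.1 h)
      · exact fun h => ha (mem_mN_even.1 h)
      · exact mN_insert_left a X A
      · exact mN_insert_left a X B

private theorem kerN (P : ℕ → ℕ → ℝ) (h : PP P) :
    RB.Ker RN (fun X Y : Finset ℕ => ((P (X \ Y).card (Y \ X).card : ℝ) : ℂ)) where
  one := by
    intro X
    simp only [sdiff_self, bot_eq_empty, card_empty, h.one, Complex.ofReal_one]
  herm := by
    intro X Y
    simp only [Complex.conj_ofReal]
    rw [h.symm]
  psd := by
    intro ι _ X c
    have h1 := h.psd ι X (fun i => (c i).re)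
    have h2 := h.psd ι X (fun i => (c i).im)
    have h3 : (∑ i, ∑ j, (starRingEnd ℂ) (c i) * c j *
        ((P (X i \ X j).card (X j \ X i).card : ℝ) : ℂ)).re =
        (∑ i, ∑ j, (c i).re * (c j).re * P (X i \ X j).card (X j \ X i).card) +
        ∑ i, ∑ j, (c i).im * (c j).im * P (X i \ X j).card (X j \ X i).card := by
      rw [Complex.re_sum, ← sum_add_distrib]
      refine sum_congr rfl fun i _ => ?_
      rw [Complex.re_sum, ← sum_add_distrib]
      refine sum_congr rfl fun j _ => ?_
      simp only [Complex.mul_re, Complex.mul_im, Complex.conj_re, Complex.conj_im,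
        Complex.ofReal_re, Complex.ofReal_im]
      ring
    rw [h3]
    exact add_nonneg h1 h2
  rel := by
    intro X Y X' Y' hR
    rcases hR with ⟨v, hX, hY, rfl, rfl⟩ | ⟨τ, hτ, rfl, rfl⟩
    · have e1 : insert v X \ insert v Y = X \ Y := by
        ext t
        simp only [Finset.mem_sdiff, mem_insert]
        constructor
        · rintro ⟨h1 | h1, h2⟩
          · exact absurd (Or.inl h1) h2
          · exact ⟨h1, fun h3 => h2 (Or.inr h3)⟩
        · rintro ⟨h1, h2⟩
          refine ⟨Or.inr h1, ?_⟩
          rintro (h3 | h3)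
          · exact hX (h3 ▸ h1)
          · exact h2 h3
      have e2 : insert v Y \ insert v X = Y \ X := by
        ext t
        simp only [Finset.mem_sdiff, mem_insert]
        constructor
        · rintro ⟨h1 | h1, h2⟩
          · exact absurd (Or.inl h1) h2
          · exact ⟨h1, fun h3 => h2 (Or.inr h3)⟩
        · rintro ⟨h1, h2⟩
          refine ⟨Or.inr h1, ?_⟩
          rintro (h3 | h3)
          · exact hY (h3 ▸ h1)
          · exact h2 h3
      simp only [e1, e2]
    · have e1 : (X.image τ \ Y.image τ).card = (X \ Y).card := by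
        rw [← image_sdiff _ _ hτ, card_image_of_injective _ hτ]
      have e2 : (Y.image τ \ X.image τ).card = (Y \ X).card := by
        rw [← image_sdiff _ _ hτ, card_image_of_injective _ hτ]
      simp only [e1, e2]

private lemma relab (x : ℕ) (b b' : Finset ℕ) (hb : x ∉ b) (hb' : x ∉ b') :
    RN (insert x b) b' (mN {0} b) (mN ∅ b') := by
  refine Or.inr ⟨fun y => if y = x then 0 else 2 * y + 1, ?_, ?_, ?_⟩
  · intro y z hyz
    simp only at hyz
    by_cases hy : y = x <;> by_cases hz : z = x
    · rw [hy, hz]
    · rw [if_pos hy, if_neg hz] at hyz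
      omega
    · rw [if_neg hy, if_pos hz] at hyz
      omega
    · rw [if_neg hy, if_neg hz] at hyz
      omega
  · unfold mN
    rw [image_insert, if_pos rfl]
    have e1 : b.image (fun y => if y = x then 0 else 2 * y + 1) = b.image (fun i => 2 * i + 1) :=
      image_congr fun y hy => by
        have : y ≠ x := fun h => hb (h ▸ hy)
        simp only [if_neg this]
    rw [e1]
    rfl
  · unfold mN
    have e1 : b'.image (fun y => if y = x then 0 else 2 * y + 1) =
        b'.image (fun i => 2 * i + 1) :=
      image_congr fun y hy => by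
        have : y ≠ x := fun h => hb' (h ▸ hy)
        simp only [if_neg this]
    rw [e1, image_empty, empty_union]

private lemma relab_symm {X Y X' Y' : Finset ℕ} (h : RN X Y X' Y') : RN Y X Y' X' := by
  rcases h with ⟨v, hX, hY, h1, h2⟩ | ⟨τ, hτ, h1, h2⟩
  · exact Or.inl ⟨v, hY, hX, h2, h1⟩
  · exact Or.inr ⟨τ, hτ, h2, h1⟩

theorem pp_rep (P : ℕ → ℕ → ℝ) (h : PP P) :
    ∃ (Ω : Type) (_ : MeasurableSpace Ω) (μ : Measure Ω) (_ : IsProbabilityMeasure μ) (w : Ω → ℂ),
      Measurable w ∧ (∀ ω, ‖w ω‖ ≤ 1) ∧
      ∀ a a' : ℕ, ((P a a' : ℝ) : ℂ) = ∫ ω, w ω ^ a * (starRingEnd ℂ (w ω)) ^ a' ∂μ := by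
  obtain ⟨T⟩ := RB.rep mrgN _ (kerN P h)
  refine ⟨T.Ω, T.mΩ, T.P, T.prob, fun ω => T.th ω {0} ∅, T.meas _ _,
    fun ω => RB.ker_norm_le (T.ker ω) _ _, fun a a' => ?_⟩
  have key1 : ∀ ω (x : ℕ) (b b' : Finset ℕ), x ∉ b → x ∉ b' →
      T.th ω (insert x b) b' = T.th ω {0} ∅ * T.th ω b b' := by
    intro ω x b b' hb hb'
    rw [(T.ker ω).rel _ _ _ _ (relab x b b' hb hb'), T.mul]
  have key2 : ∀ ω (x : ℕ) (b b' : Finset ℕ), x ∉ b → x ∉ b' →
      T.th ω b (insert x b') = (starRingEnd ℂ) (T.th ω {0} ∅) * T.th ω b b' := by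
    intro ω x b b' hb hb'
    rw [(T.ker ω).rel _ _ _ _ (relab_symm (relab x b' b hb' hb)), T.mul,
      (T.ker ω).herm {0} ∅]
  have l1 : ∀ ω (b' : Finset ℕ), T.th ω ∅ b' = (starRingEnd ℂ) (T.th ω {0} ∅) ^ b'.card := by
    intro ω b'
    induction b' using Finset.induction_on with
    | empty => rw [(T.ker ω).one, card_empty, pow_zero]
    | insert x b' hx ih =>
      rw [key2 ω x ∅ b' (notMem_empty x) hx, ih, card_insert_of_notMem hx, pow_succ']
  have l2 : ∀ ω (b' b : Finset ℕ), Disjoint b b' →
      T.th ω b b' = T.th ω {0} ∅ ^ b.card * (starRingEnd ℂ) (T.th ω {0} ∅) ^ b'.card := by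
    intro ω b' b
    induction b using Finset.induction_on with
    | empty => intro _; rw [l1, card_empty, pow_zero, one_mul]
    | insert x b hx ih =>
      intro hd
      have hx' : x ∉ b' := disjoint_left.1 hd (mem_insert_self x b)
      have hd' : Disjoint b b' := disjoint_of_subset_left (subset_insert x b) hd
      rw [key1 ω x b b' hx hx', ih hd', card_insert_of_notMem hx, pow_succ', mul_assoc]
  have hdis : Disjoint (range a) (Ico a (a + a')) := by
    rw [disjoint_left]
    intro t ht ht'
    rw [mem_range] at ht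
    rw [mem_Ico] at ht'
    omega
  have hm := T.mean (range a) (Ico a (a + a'))
  rw [sdiff_eq_self_of_disjoint hdis, sdiff_eq_self_of_disjoint hdis.symm, card_range,
    Nat.card_Ico, Nat.add_sub_cancel_left] at hm
  rw [hm]
  refine integral_congr_ae (Filter.Eventually.of_forall fun ω => ?_)
  simp only
  rw [l2 ω _ _ hdis, card_range, Nat.card_Ico, Nat.add_sub_cancel_left]

end Pool.Agent.Lib.MP_90b327_co.UC
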