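import Mathlib
import Pool.Agent.Lib.MP_90b327_co.UC.UDefs
import Pool.Agent.Lib.MP_90b327_co.UC.UMean
import Pool.Agent.Lib.MP_90b327_co.UC.UPairA

/-!
MODULE UPairB. (45 minutes) Means of a function of one pair of sizes.
PROOF. `A k ω = (1/k) ∑_{h<k} w^h`. By `pp_rep`, `m2 P z z' = ∫ A (2^z) conj (A (2^z'))` (finite sums), in particular `m2 P z z = ∫ ‖A (2^z)‖^2`.
`A (2k) = A k (1 + w^k) / 2`, so `‖A (2^(z+1))‖ ≤ ‖A (2^z)‖`: first claim. `p = μ {w = 1}`. `A k → 1_{w=1}` pointwise (for `w ≠ 1`: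
`‖A k‖ ≤ 2 / (k ‖1 - w‖)`), `‖A k‖ ≤ 1`: dominated convergence gives the second claim. Third: on `{w = 1}` all `A k = 1`, so
`m2 P z z' - p = ∫_{w ≠ 1} A conj A'`, and `|A conj A'| ≤ (|A|^2 + |A'|^2)/2`, `∫_{w ≠ 1} |A|^2 = m2 P z z - p`.
-/

set_option autoImplicit false

namespace Pool.Agent.Lib.MP_90b327_co.UC

open Finset MeasureTheory Filter Topology Pool.Agent.Lib.MP_90b327_co

private noncomputable def Ak (w : ℂ) (k : ℕ) : ℂ := (∑ i ∈ range k, w ^ i) / k

private theorem Ak_norm_le (w : ℂ) (hw : ‖w‖ ≤ 1) (k : ℕ) : ‖Ak w k‖ ≤ 1 := by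
  unfold Ak
  rcases Nat.eq_zero_or_pos k with rfl | hk
  · simp
  · have hk' : (0 : ℝ) < k := by exact_mod_cast hk
    rw [norm_div, Complex.norm_natCast, div_le_one hk']
    calc ‖∑ i ∈ range k, w ^ i‖ ≤ ∑ i ∈ range k, ‖w ^ i‖ := norm_sum_le _ _
      _ ≤ ∑ i ∈ range k, (1 : ℝ) := by
          apply Finset.sum_le_sum
          intro i _
          rw [norm_pow]
          exact pow_le_one₀ (norm_nonneg _) hw
      _ = k := by simp

private theorem Ak_two (w : ℂ) (k : ℕ) : Ak w (2 * k) = Ak w k * ((1 + w ^ k) / 2) := by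
  unfold Ak
  rw [two_mul, Finset.sum_range_add]
  have h : ∑ x ∈ range k, w ^ (k + x) = w ^ k * ∑ x ∈ range k, w ^ x := by
    rw [Finset.mul_sum]
    exact Finset.sum_congr rfl (fun x _ => by rw [pow_add])
  rw [h]
  push_cast
  rcases Nat.eq_zero_or_pos k with rfl | hk
  · simp
  · have hk' : (k : ℂ) ≠ 0 := by exact_mod_cast hk.ne'
    have hk2 : (k : ℂ) + k ≠ 0 := by
      rw [← two_mul]; exact mul_ne_zero two_ne_zero hk'
    field_simp
    ring

private theorem Ak_mono (w : ℂ) (hw : ‖w‖ ≤ 1) (z : ℕ) : ‖Ak w (2 ^ (z + 1))‖ ≤ ‖Ak w (2 ^ z)‖ := by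
  rw [pow_succ', Ak_two, norm_mul]
  have h : ‖(1 + w ^ (2 ^ z)) / 2‖ ≤ 1 := by
    rw [norm_div]
    have h1 : ‖1 + w ^ (2 ^ z)‖ ≤ 2 := by
      calc ‖1 + w ^ (2 ^ z)‖ ≤ ‖(1 : ℂ)‖ + ‖w ^ (2 ^ z)‖ := norm_add_le _ _
        _ ≤ 1 + 1 := by
            rw [norm_one, norm_pow]
            gcongr
            exact pow_le_one₀ (norm_nonneg _) hw
        _ = 2 := by norm_num
    have h2 : ‖(2 : ℂ)‖ = 2 := by simp
    rw [h2]
    linarith
  calc ‖Ak w (2 ^ z)‖ * ‖(1 + w ^ (2 ^ z)) / 2‖ ≤ ‖Ak w (2 ^ z)‖ * 1 := by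
        exact mul_le_mul_of_nonneg_left h (norm_nonneg _)
    _ = ‖Ak w (2 ^ z)‖ := mul_one _

private theorem Ak_one (k : ℕ) (hk : 0 < k) : Ak 1 k = 1 := by
  unfold Ak
  have hk' : (k : ℂ) ≠ 0 := by exact_mod_cast hk.ne'
  simp [div_self hk']

private theorem Ak_lim (w : ℂ) (hw : ‖w‖ ≤ 1) (h1 : w ≠ 1) :
    Tendsto (fun z : ℕ => ‖Ak w (2 ^ z)‖) atTop (𝓝 0) := by
  have hb : ∀ z : ℕ, ‖Ak w (2 ^ z)‖ ≤ (2 / ‖w - 1‖) * (1 / 2) ^ z := by
    intro z
    unfold Ak
    rw [geom_sum_eq h1, norm_div, norm_div]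
    have hn : 0 < ‖w - 1‖ := norm_pos_iff.2 (sub_ne_zero.2 h1)
    have h2 : ‖w ^ (2 ^ z) - 1‖ ≤ 2 := by
      calc ‖w ^ (2 ^ z) - 1‖ ≤ ‖w ^ (2 ^ z)‖ + ‖(1 : ℂ)‖ := norm_sub_le _ _
        _ ≤ 1 + 1 := by
            rw [norm_one, norm_pow]
            gcongr
            exact pow_le_one₀ (norm_nonneg _) hw
        _ = 2 := by norm_num
    have h3 : ‖((2 ^ z : ℕ) : ℂ)‖ = 2 ^ z := by
      rw [Complex.norm_natCast]; push_cast; rfl
    rw [h3, one_div, inv_pow, ← div_eq_mul_inv]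
    gcongr
  have hl : Tendsto (fun z : ℕ => (2 / ‖w - 1‖) * (1 / 2 : ℝ) ^ z) atTop (𝓝 0) := by
    have := (tendsto_pow_atTop_nhds_zero_of_lt_one (r := (1 / 2 : ℝ)) (by norm_num)
      (by norm_num)).const_mul (2 / ‖w - 1‖)
    rwa [mul_zero] at this
  exact squeeze_zero (fun z => norm_nonneg _) hb hl

private theorem Ak_meas {Ω : Type} [MeasurableSpace Ω] (w : Ω → ℂ) (hw : Measurable w) (k : ℕ) :
    Measurable (fun ω => Ak (w ω) k) := by
  unfold Ak
  exact (Finset.measurable_fun_sum _ (fun i _ => hw.pow_const i)).div_const _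

private theorem integrable_of_le_one {Ω : Type} [MeasurableSpace Ω] (μ : Measure Ω)
    [IsProbabilityMeasure μ] (f : Ω → ℂ) (hf : Measurable f) (hb : ∀ ω, ‖f ω‖ ≤ 1) :
    Integrable f μ :=
  Integrable.of_bound hf.aestronglyMeasurable 1 (Filter.Eventually.of_forall hb)

private theorem m2_eq {Ω : Type} [MeasurableSpace Ω] (μ : Measure Ω) [IsProbabilityMeasure μ]
    (w : Ω → ℂ) (hm : Measurable w) (hw : ∀ ω, ‖w ω‖ ≤ 1) (P : ℕ → ℕ → ℝ)
    (hP : ∀ a a' : ℕ, ((P a a' : ℝ) : ℂ) = ∫ ω, w ω ^ a * (starRingEnd ℂ (w ω)) ^ a' ∂μ) (z z' : ℕ) :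
    ((m2 P z z' : ℝ) : ℂ) = ∫ ω, Ak (w ω) (2 ^ z) * (starRingEnd ℂ (Ak (w ω) (2 ^ z'))) ∂μ := by
  have hint : ∀ a a' : ℕ, Integrable (fun ω => w ω ^ a * (starRingEnd ℂ (w ω)) ^ a') μ := by
    intro a a'
    apply integrable_of_le_one
    · exact (hm.pow_const a).mul ((Complex.continuous_conj.measurable.comp hm).pow_const a')
    · intro ω
      rw [norm_mul, norm_pow, norm_pow, RCLike.norm_conj]
      exact mul_le_one₀ (pow_le_one₀ (norm_nonneg _) (hw ω)) (by positivity)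
        (pow_le_one₀ (norm_nonneg _) (hw ω))
  have h1 : ∀ ω, Ak (w ω) (2 ^ z) * (starRingEnd ℂ (Ak (w ω) (2 ^ z'))) =
      (∑ a ∈ range (2 ^ z), ∑ a' ∈ range (2 ^ z'), w ω ^ a * (starRingEnd ℂ (w ω)) ^ a') *
        (1 / (((2 ^ z : ℕ) : ℂ) * ((2 ^ z' : ℕ) : ℂ))) := by
    intro ω
    unfold Ak
    rw [← Finset.sum_mul_sum, map_div₀, map_sum, map_natCast]
    simp only [map_pow]
    ring
  simp only [h1]
  rw [integral_mul_const, integral_finsetSum _ (fun a _ => integrable_finsetSum _ (fun a' _ => hint a a'))]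
  simp only [integral_finsetSum _ (fun a' _ => hint _ a'), ← hP]
  unfold m2 av
  push_cast
  simp only [← Finset.sum_div]
  rw [div_div, div_eq_mul_one_div, mul_comm ((2 : ℂ) ^ z')]

theorem pp_lim (P : ℕ → ℕ → ℝ) (h : PP P) : ∃ p : ℝ, (∀ z, m2 P (z + 1) (z + 1) ≤ m2 P z z) ∧
    Tendsto (fun z => m2 P z z) atTop (𝓝 p) ∧
    ∀ z z', |m2 P z z' - p| ≤ (m2 P z z + m2 P z' z') / 2 - p := by
  obtain ⟨Ω, _, μ, _, w, hm, hw, hP⟩ := pp_rep P h
  have hE : MeasurableSet {ω | w ω = 1} := hm (measurableSet_singleton 1)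
  -- the diagonal
  have hAm : ∀ z, Measurable (fun ω => Ak (w ω) (2 ^ z)) := fun z => Ak_meas w hm _
  have hAb : ∀ z ω, ‖Ak (w ω) (2 ^ z)‖ ≤ 1 := fun z ω => Ak_norm_le _ (hw ω) _
  have hpos : ∀ z : ℕ, 0 < 2 ^ z := fun z => by positivity
  have hsqint : ∀ z, Integrable (fun ω => ‖Ak (w ω) (2 ^ z)‖ ^ 2) μ := by
    intro z
    refine Integrable.of_bound ((hAm z).norm.pow_const 2).aestronglyMeasurable 1
      (Filter.Eventually.of_forall (fun ω => ?_))
    rw [Real.norm_eq_abs, abs_of_nonneg (by positivity)]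
    exact pow_le_one₀ (norm_nonneg _) (hAb z ω)
  have hdiag : ∀ z, m2 P z z = ∫ ω, ‖Ak (w ω) (2 ^ z)‖ ^ 2 ∂μ := by
    intro z
    have h1 := m2_eq μ w hm hw P hP z z
    have h2 : ∀ ω, Ak (w ω) (2 ^ z) * (starRingEnd ℂ (Ak (w ω) (2 ^ z))) =
        ((‖Ak (w ω) (2 ^ z)‖ ^ 2 : ℝ) : ℂ) := by
      intro ω
      rw [Complex.mul_conj, Complex.normSq_eq_norm_sq]
    simp only [h2] at h1
    rw [integral_complex_ofReal] at h1
    exact_mod_cast h1
  set I : Ω → ℝ := fun ω => Set.indicator {ω | w ω = 1} (fun _ => (1 : ℝ)) ω with hI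
  have hIint : Integrable I μ := (integrable_const (1 : ℝ)).indicator hE
  set B : ℕ → Ω → ℂ := fun z ω => Set.indicator {ω | w ω = 1}ᶜ (fun ω => Ak (w ω) (2 ^ z)) ω with hB
  have hBm : ∀ z, Measurable (B z) := fun z => (hAm z).indicator hE.compl
  have hBb : ∀ z ω, ‖B z ω‖ ≤ 1 := by
    intro z ω
    by_cases hω : w ω = 1
    · simp [hB, hω]
    · have : B z ω = Ak (w ω) (2 ^ z) := by
        simp only [hB]
        rw [Set.indicator_of_mem]
        exact hω
      rw [this]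
      exact hAb z ω
  have hsplit : ∀ z z' ω, Ak (w ω) (2 ^ z) * (starRingEnd ℂ (Ak (w ω) (2 ^ z'))) =
      ((I ω : ℝ) : ℂ) + B z ω * (starRingEnd ℂ (B z' ω)) := by
    intro z z' ω
    by_cases hω : w ω = 1
    · have hmem : ω ∈ {ω | w ω = 1} := hω
      have h1 : I ω = 1 := by simp only [hI]; rw [Set.indicator_of_mem hmem]
      have h2 : ∀ z, B z ω = 0 := by
        intro z
        simp only [hB]
        rw [Set.indicator_of_notMem]
        simpa using hω
      rw [h1, h2, h2, hω, Ak_one _ (hpos z), Ak_one _ (hpos z')]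
      simp
    · have h1 : I ω = 0 := by
        simp only [hI]
        rw [Set.indicator_of_notMem]
        exact hω
      have h2 : ∀ z, B z ω = Ak (w ω) (2 ^ z) := by
        intro z
        simp only [hB]
        rw [Set.indicator_of_mem]
        exact hω
      rw [h1, h2, h2]
      simp
  have hBint : ∀ z z', Integrable (fun ω => B z ω * (starRingEnd ℂ (B z' ω))) μ := by
    intro z z'
    apply integrable_of_le_one
    · exact (hBm z).mul (Complex.continuous_conj.measurable.comp (hBm z'))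
    · intro ω
      rw [norm_mul, RCLike.norm_conj]
      exact mul_le_one₀ (hBb z ω) (norm_nonneg _) (hBb z' ω)
  have hBsq : ∀ z, Integrable (fun ω => ‖B z ω‖ ^ 2) μ := by
    intro z
    refine Integrable.of_bound ((hBm z).norm.pow_const 2).aestronglyMeasurable 1
      (Filter.Eventually.of_forall (fun ω => ?_))
    rw [Real.norm_eq_abs, abs_of_nonneg (by positivity)]
    exact pow_le_one₀ (norm_nonneg _) (hBb z ω)
  set p : ℝ := ∫ ω, I ω ∂μ with hp
  have hmix : ∀ z z', ((m2 P z z' : ℝ) : ℂ) = (p : ℂ) + ∫ ω, B z ω * (starRingEnd ℂ (B z' ω)) ∂μ := by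
    intro z z'
    rw [m2_eq μ w hm hw P hP z z']
    simp only [hsplit]
    have hIc : Integrable (fun ω => ((I ω : ℝ) : ℂ)) μ := hIint.ofReal
    rw [integral_add hIc (hBint z z'), integral_complex_ofReal]
  have hdrop : ∀ z, m2 P z z - p = ∫ ω, ‖B z ω‖ ^ 2 ∂μ := by
    intro z
    have h1 := hmix z z
    have h2 : ∀ ω, B z ω * (starRingEnd ℂ (B z ω)) = ((‖B z ω‖ ^ 2 : ℝ) : ℂ) := by
      intro ω
      rw [Complex.mul_conj, Complex.normSq_eq_norm_sq]
    simp only [h2] at h1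
    rw [integral_complex_ofReal] at h1
    have h3 : m2 P z z = p + ∫ ω, ‖B z ω‖ ^ 2 ∂μ := by exact_mod_cast h1
    linarith
  refine ⟨p, ?_, ?_, ?_⟩
  · intro z
    rw [hdiag, hdiag]
    apply integral_mono (hsqint _) (hsqint _)
    intro ω
    have := Ak_mono (w ω) (hw ω) z
    simp only
    gcongr
  · have hlim : Tendsto (fun z => ∫ ω, ‖Ak (w ω) (2 ^ z)‖ ^ 2 ∂μ) atTop (𝓝 (∫ ω, I ω ∂μ)) := by
      refine tendsto_integral_of_dominated_convergence (fun _ => (1 : ℝ))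
        (fun z => ((hAm z).norm.pow_const 2).aestronglyMeasurable) (integrable_const _) ?_ ?_
      · intro z
        refine Filter.Eventually.of_forall (fun ω => ?_)
        rw [Real.norm_eq_abs, abs_of_nonneg (by positivity)]
        exact pow_le_one₀ (norm_nonneg _) (hAb z ω)
      · refine Filter.Eventually.of_forall (fun ω => ?_)
        by_cases hω : w ω = 1
        · have hmem : ω ∈ {ω | w ω = 1} := hω
          have h1 : I ω = 1 := by simp only [hI]; rw [Set.indicator_of_mem hmem]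
          rw [h1, hω]
          have : ∀ z : ℕ, ‖Ak 1 (2 ^ z)‖ ^ 2 = 1 := by
            intro z
            rw [Ak_one _ (hpos z)]
            simp
          simp only [this]
          exact tendsto_const_nhds
        · have h1 : I ω = 0 := by
            simp only [hI]
            rw [Set.indicator_of_notMem]
            exact hω
          rw [h1]
          have := (Ak_lim (w ω) (hw ω) hω).pow 2
          simpa using this
    simpa only [hdiag] using hlim
  · intro z z'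
    have h1 : ‖((m2 P z z' - p : ℝ) : ℂ)‖ ≤ ∫ ω, (‖B z ω‖ ^ 2 + ‖B z' ω‖ ^ 2) / 2 ∂μ := by
      have h2 : ((m2 P z z' - p : ℝ) : ℂ) = ∫ ω, B z ω * (starRingEnd ℂ (B z' ω)) ∂μ := by
        push_cast
        rw [hmix z z']
        ring
      rw [h2]
      refine norm_integral_le_of_norm_le (((hBsq z).add (hBsq z')).div_const 2)
        (Filter.Eventually.of_forall (fun ω => ?_))
      rw [norm_mul, RCLike.norm_conj]
      nlinarith [sq_nonneg (‖B z ω‖ - ‖B z' ω‖)]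
    rw [Complex.norm_real, Real.norm_eq_abs] at h1
    refine h1.trans (le_of_eq ?_)
    rw [integral_div, integral_add (hBsq z) (hBsq z'), ← hdrop, ← hdrop]
    ring

end Pool.Agent.Lib.MP_90b327_co.UC
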