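import Mathlib
import Pool.Agent.Lib.MP_90b327_co.UC.UDefs
import Pool.Agent.Lib.MP_90b327_co.UC.UList
import Pool.Agent.Lib.MP_90b327_co.UC.UPairB

/-!
MODULE UEqs. (40 minutes) Equal scales.
`LS.head`: `N (q :: ·)` is of the same class (permute the two heads). `LS.pp`: the head pair.
`ls_mono`: for all `N` by induction on the `Forall₂`. Head: `avL (p :: Y) N = avL Y (fun L => m2 (fun a a' => N ((s,a,a') :: L)) y y)` (`Mn.av_comm` twice for
`avL Y`) is decreasing in `y` by `pp_lim` (iterate one step) and `Mn.mono`; tail: `avL (p :: Y) N = av av (avL Y (N ((s,a,a') :: ·)))`, induction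
hypothesis for `N ((s,a,a') :: ·)`, `Mn.mono`.
`ls_eq`: `Ψ z = avL (τ.map (fun s => (s,z,z))) N` is decreasing (`ls_mono`) and `≥ -1`, so it converges to `V = inf`. Given `ε` take `X` with `Ψ X ≤ V + ε`;
for `Y` with equal scales `≥ X` and `Z` an upper bound of the scales: `V ≤ Ψ Z ≤ avL Y N ≤ Ψ X ≤ V + ε`.
-/

set_option autoImplicit false

namespace Pool.Agent.Lib.MP_90b327_co.UC

open Finset MeasureTheory Filter Topology Pool.Agent.Lib.MP_90b327_co

variable {ι : Type}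

theorem LS.head {N : List (ι × ℕ × ℕ) → ℝ} (h : LS N) (q : ι × ℕ × ℕ) : LS (fun L => N (q :: L)) := by
  refine ⟨fun L => h.bd _, fun L L' hL => h.perm _ _ (hL.cons q), ?_, ?_, ?_⟩
  · intro L s
    rw [h.perm _ _ (List.Perm.swap (s, 0, 0) q L)]
    exact h.one _ _
  · intro L s a a'
    rw [h.perm _ _ (List.Perm.swap (s, a, a') q L), h.perm _ _ (List.Perm.swap (s, a', a) q L)]
    exact h.symm _ _ _ _
  · intro L s α _ b c
    have := h.psd (q :: L) s α b c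
    refine this.trans_eq ?_
    refine sum_congr rfl fun i _ => sum_congr rfl fun j _ => ?_
    rw [h.perm _ _ (List.Perm.swap (s, (b i \ b j).card, (b j \ b i).card) q L)]

theorem LS.pp {N : List (ι × ℕ × ℕ) → ℝ} (h : LS N) (s : ι) (L : List (ι × ℕ × ℕ)) :
    PP (fun a a' => N ((s, a, a') :: L)) :=
  ⟨h.one _ _, fun a a' => h.symm _ _ _ _, fun α _ b c => h.psd L s α b c⟩

theorem avL_cons (p : ι × ℕ × ℕ) (Y : List (ι × ℕ × ℕ)) (N : List (ι × ℕ × ℕ) → ℝ) :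
    avL (p :: Y) N = avL Y (fun L => m2 (fun a a' => N ((p.1, a, a') :: L)) p.2.1 p.2.2) := by
  have h1 := (mn_avL Y).av_comm (2 ^ p.2.1)
    (fun L a => av (2 ^ p.2.2) (fun a' => N ((p.1, a, a') :: L)))
  have h2 : ∀ a, avL Y (fun L => av (2 ^ p.2.2) (fun a' => N ((p.1, a, a') :: L)))
      = av (2 ^ p.2.2) (fun a' => avL Y (fun L => N ((p.1, a, a') :: L))) := fun a =>
    (mn_avL Y).av_comm (2 ^ p.2.2) (fun L a' => N ((p.1, a, a') :: L))
  simp only [h2] at h1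
  exact h1.symm

theorem m2_anti {P : ℕ → ℕ → ℝ} (h : PP P) {y z : ℕ} (hyz : y ≤ z) : m2 P z z ≤ m2 P y y := by
  obtain ⟨p, h1, -, -⟩ := pp_lim P h
  exact antitone_nat_of_succ_le (f := fun z => m2 P z z) h1 hyz

theorem ls_mono {N : List (ι × ℕ × ℕ) → ℝ} (h : LS N) (Y Y' : List (ι × ℕ × ℕ))
    (hY : List.Forall₂ (fun p q : ι × ℕ × ℕ => p.1 = q.1 ∧ p.2.1 = p.2.2 ∧ q.2.1 = q.2.2 ∧ p.2.1 ≤ q.2.1)
      Y Y') : avL Y' N ≤ avL Y N := by
  induction hY generalizing N with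
  | nil => exact le_rfl
  | @cons p q l₁ l₂ hpq _ ih =>
    obtain ⟨e1, e2, e3, e4⟩ := hpq
    have s1 : avL (q :: l₂) N ≤ avL (p :: l₂) N := by
      rw [avL_cons, avL_cons]
      refine (mn_avL l₂).mono _ _ fun L => ?_
      rw [← e1, ← e2, ← e3]
      exact m2_anti (h.pp p.1 L) e4
    refine s1.trans ?_
    show av (2 ^ p.2.1) _ ≤ av (2 ^ p.2.1) _
    refine (mn_av2 _).mono _ _ fun a => (mn_av2 _).mono _ _ fun a' => ?_
    exact ih (h.head (p.1, a, a'))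

theorem exists_scale_bound (Y : List (ι × ℕ × ℕ)) : ∃ Z : ℕ, ∀ p ∈ Y, p.2.1 ≤ Z := by
  induction Y with
  | nil => exact ⟨0, by simp⟩
  | cons q Y ih =>
    obtain ⟨Z, hZ⟩ := ih
    refine ⟨max Z q.2.1, fun p hp => ?_⟩
    rcases List.mem_cons.1 hp with rfl | hp
    · exact le_max_right _ _
    · exact (hZ p hp).trans (le_max_left _ _)

theorem ls_eq {N : List (ι × ℕ × ℕ) → ℝ} (h : LS N) (τ : List ι) :
    ∃ V : ℝ, Tendsto (fun z => avL (τ.map (fun s => (s, z, z))) N) atTop (𝓝 V) ∧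
      ∀ ε : ℝ, 0 < ε → ∃ X : ℕ, ∀ Y : List (ι × ℕ × ℕ), Y.map Prod.fst = τ →
        (∀ p ∈ Y, p.2.1 = p.2.2 ∧ X ≤ p.2.1) → |avL Y N - V| ≤ ε := by
  set Ψ : ℕ → ℝ := fun z => avL (τ.map (fun s => (s, z, z))) N with hΨ
  have hanti : Antitone Ψ := by
    intro y z hyz
    refine ls_mono h _ _ ?_
    rw [List.forall₂_map_left_iff, List.forall₂_map_right_iff, List.forall₂_same]
    intro s _
    exact ⟨rfl, rfl, rfl, hyz⟩
  have hbd : BddBelow (Set.range Ψ) := by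
    refine ⟨-1, ?_⟩
    rintro _ ⟨z, rfl⟩
    exact (abs_le.1 ((mn_avL _).abs_le h.bd)).1
  have hlim := tendsto_atTop_ciInf hanti hbd
  refine ⟨⨅ z, Ψ z, hlim, fun ε hε => ?_⟩
  obtain ⟨X, hX⟩ := (hlim.eventually_lt_const (lt_add_of_pos_right (⨅ z, Ψ z) hε)).exists
  refine ⟨X, fun Y hY hp => ?_⟩
  obtain ⟨Z, hZ⟩ := exists_scale_bound Y
  have hmap : ∀ z : ℕ, τ.map (fun s => (s, z, z)) = Y.map (fun p => ((p.1, z, z) : ι × ℕ × ℕ)) := by
    intro z
    rw [← hY, List.map_map]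
    rfl
  have up : avL Y N ≤ Ψ X := by
    refine ls_mono h _ _ ?_
    rw [hmap, List.forall₂_map_left_iff, List.forall₂_same]
    intro p hpY
    exact ⟨rfl, rfl, (hp p hpY).1, (hp p hpY).2⟩
  have lo : Ψ Z ≤ avL Y N := by
    refine ls_mono h _ _ ?_
    rw [hmap, List.forall₂_map_right_iff, List.forall₂_same]
    intro p hpY
    exact ⟨rfl, (hp p hpY).1, rfl, hZ p hpY⟩
  have lo' : (⨅ z, Ψ z) ≤ Ψ Z := ciInf_le hbd Z
  rw [abs_le]
  constructor
  · linarith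
  · linarith

end Pool.Agent.Lib.MP_90b327_co.UC
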