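import Mathlib
import Pool.Agent.Lib.MP_90b327_co.UC.UDefs
import Pool.Agent.Lib.MP_90b327_co.UC.UEqs

/-!
MODULE UMix. All scales.
PROOF of `ls_mix` by induction on `τ₁` (for all `τ₂`; `V` is the limit of the equal scale means of `τ₁ ++ τ₂`). `τ₁ = []`: `ls_eq` (uniqueness of
limits). `τ₁ = s :: τ₁'`: `Y₁ = (s,y,y') :: Y₁'`, `O = Y₁' ++ Y₂`. The list `Y₁' ++ (s,z,z) :: Y₂` is a permutation of `(s,z,z) :: O`; its types
are `τ₁' ++ s :: τ₂`, a permutation of `τ₁ ++ τ₂`, so the equal scale limit is the same `V` (`avL_perm`). Induction hypothesis: for `z, scales ≥ X`: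
`|avL ((s,z,z) :: O) N - V| ≤ ε/3`. For every `L` let `p L` be the number of `pp_lim` for `P_L a a' = N ((s,a,a') :: L)`. By `avL_cons`,
`avL ((s,z,z) :: O) N = avL O (fun L => m2 P_L z z) → avL O p` (`avL_tendsto`), so `|avL O p - V| ≤ ε/3`, and
`|avL ((s,y,y') :: O) N - avL O p| ≤ avL O (fun L => (m2 P_L y y + m2 P_L y' y')/2 - p L) ≤ 2 ε/3` (`Mn.abs_le_mean`).
-/

set_option autoImplicit false

namespace Pool.Agent.Lib.MP_90b327_co.UC

open Finset MeasureTheory Filter Topology Pool.Agent.Lib.MP_90b327_co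

variable {ι : Type}

theorem ls_mix {N : List (ι × ℕ × ℕ) → ℝ} (h : LS N) (τ₁ : List ι) : ∀ (τ₂ : List ι) (V : ℝ),
    Tendsto (fun z => avL ((τ₁ ++ τ₂).map (fun s => (s, z, z))) N) atTop (𝓝 V) →
    ∀ ε : ℝ, 0 < ε → ∃ X : ℕ, ∀ Y₁ Y₂ : List (ι × ℕ × ℕ), Y₁.map Prod.fst = τ₁ →
      Y₂.map Prod.fst = τ₂ → Ge X Y₁ → (∀ p ∈ Y₂, p.2.1 = p.2.2 ∧ X ≤ p.2.1) →
        |avL (Y₁ ++ Y₂) N - V| ≤ ε := by
  induction τ₁ with
  | nil =>
    intro τ₂ V hV ε hε
    obtain ⟨V', hV', hX⟩ := ls_eq h τ₂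
    have hVV : V = V' := tendsto_nhds_unique hV (by simpa using hV')
    subst hVV
    obtain ⟨X, hX⟩ := hX ε hε
    refine ⟨X, fun Y₁ Y₂ h1 h2 _ h4 => ?_⟩
    have hY₁ : Y₁ = [] := by simpa using h1
    subst hY₁
    exact hX Y₂ h2 h4
  | cons s τ₁' ih =>
    intro τ₂ V hV ε hε
    have hperm : ∀ z : ℕ, avL ((τ₁' ++ s :: τ₂).map (fun s => (s, z, z))) N =
        avL ((s :: τ₁' ++ τ₂).map (fun s => (s, z, z))) N := by
      intro z
      refine avL_perm ?_ N h.perm
      exact (List.perm_middle (a := s) (l₁ := τ₁') (l₂ := τ₂)).map _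
    have hV2 : Tendsto (fun z => avL ((τ₁' ++ s :: τ₂).map (fun s => (s, z, z))) N) atTop (𝓝 V) := by
      refine hV.congr ?_
      intro z
      exact (hperm z).symm
    obtain ⟨X, hX⟩ := ih (s :: τ₂) V hV2 (ε / 3) (by positivity)
    refine ⟨X, fun Y₁ Y₂ h1 h2 h3 h4 => ?_⟩
    cases Y₁ with
    | nil => simp at h1
    | cons p Y₁' =>
      obtain ⟨t, y, y'⟩ := p
      simp only [List.map_cons, List.cons.injEq] at h1
      obtain ⟨hts, h1'⟩ := h1
      change t = s at hts
      subst hts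
      have h3' : Ge X Y₁' := fun q hq => h3 q (List.mem_cons_of_mem _ hq)
      have hyy : X ≤ y ∧ X ≤ y' := h3 (t, y, y') (by simp)
      set O := Y₁' ++ Y₂ with hO
      have hPP : ∀ L, PP (fun a a' => N ((t, a, a') :: L)) := fun L => h.pp t L
      choose p hp1 hp2 hp3 using fun L => pp_lim _ (hPP L)
      have hmO := mn_avL O
      -- equal scales in the head
      have heq : ∀ z, X ≤ z → |avL O (fun L => m2 (fun a a' => N ((t, a, a') :: L)) z z) - V| ≤ ε / 3 := by
        intro z hz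
        have := hX Y₁' ((t, z, z) :: Y₂) h1' (by simp [h2]) h3' (by
          intro q hq
          rcases List.mem_cons.1 hq with rfl | hq
          · exact ⟨rfl, hz⟩
          · exact h4 q hq)
        have hpe : avL (Y₁' ++ (t, z, z) :: Y₂) N = avL ((t, z, z) :: O) N :=
          avL_perm (by rw [hO]; exact List.perm_middle) N h.perm
        rw [hpe, avL_cons] at this
        exact this
      have hlim : Tendsto (fun z => avL O (fun L => m2 (fun a a' => N ((t, a, a') :: L)) z z)) atTop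
          (𝓝 (avL O p)) := avL_tendsto O (fun z L => m2 (fun a a' => N ((t, a, a') :: L)) z z) p hp2
      have hpV : |avL O p - V| ≤ ε / 3 := by
        have h5 : Tendsto (fun z => |avL O (fun L => m2 (fun a a' => N ((t, a, a') :: L)) z z) - V|) atTop
            (𝓝 (|avL O p - V|)) := (hlim.sub_const V).abs
        refine le_of_tendsto h5 ?_
        filter_upwards [eventually_ge_atTop X] with z hz
        exact heq z hz
      have hmain : |avL O (fun L => m2 (fun a a' => N ((t, a, a') :: L)) y y') - avL O p| ≤ 2 * ε / 3 := by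
        rw [← hmO.sub]
        refine (hmO.abs_le_mean (g := fun L => (m2 (fun a a' => N ((t, a, a') :: L)) y y +
          m2 (fun a a' => N ((t, a, a') :: L)) y' y') / 2 - p L) (fun L => hp3 L y y')).trans ?_
        rw [hmO.sub]
        have h6 : avL O (fun L => (m2 (fun a a' => N ((t, a, a') :: L)) y y +
            m2 (fun a a' => N ((t, a, a') :: L)) y' y') / 2) =
            (avL O (fun L => m2 (fun a a' => N ((t, a, a') :: L)) y y) +
            avL O (fun L => m2 (fun a a' => N ((t, a, a') :: L)) y' y')) / 2 := by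
          have h7 := hmO.mul (1 / 2) (fun L => m2 (fun a a' => N ((t, a, a') :: L)) y y +
            m2 (fun a a' => N ((t, a, a') :: L)) y' y')
          rw [hmO.add] at h7
          rw [show (fun L => (m2 (fun a a' => N ((t, a, a') :: L)) y y +
            m2 (fun a a' => N ((t, a, a') :: L)) y' y') / 2) = fun L => 1 / 2 * (m2 (fun a a' => N ((t, a, a') :: L)) y y +
            m2 (fun a a' => N ((t, a, a') :: L)) y' y') from by funext L; ring, h7]
          ring
        rw [h6]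
        have e1 := abs_le.1 (heq y hyy.1)
        have e2 := abs_le.1 (heq y' hyy.2)
        have e3 := abs_le.1 hpV
        linarith [e1.2, e2.2, e3.1]
      have hfin : avL ((t, y, y') :: Y₁' ++ Y₂) N = avL O (fun L => m2 (fun a a' => N ((t, a, a') :: L)) y y') := by
        rw [List.cons_append, ← hO, avL_cons]
      rw [hfin]
      have e4 := abs_le.1 hmain
      have e5 := abs_le.1 hpV
      rw [abs_le]
      constructor <;> linarith [e4.1, e4.2, e5.1, e5.2]

theorem ls_cvg {N : List (ι × ℕ × ℕ) → ℝ} (h : LS N) (τ : List ι) :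
    ∃ V : ℝ, ∀ ε : ℝ, 0 < ε → ∃ X : ℕ, ∀ Y : List (ι × ℕ × ℕ), Y.map Prod.fst = τ → Ge X Y →
      |avL Y N - V| ≤ ε := by
  obtain ⟨V, hV, -⟩ := ls_eq h τ
  refine ⟨V, fun ε hε => ?_⟩
  obtain ⟨X, hX⟩ := ls_mix h τ [] V (by simpa using hV) ε hε
  refine ⟨X, fun Y hY hG => ?_⟩
  have := hX Y [] hY rfl hG (by simp)
  simpa using this

end Pool.Agent.Lib.MP_90b327_co.UC
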