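import Mathlib
import Pool.Agent.Lib.MP_90b327_co.UC.UDefs
import Pool.Agent.Lib.MP_90b327_co.UC.UList
import Pool.Agent.Lib.MP_90b327_co.UC.UShift
import Pool.Agent.Lib.MP_90b327_co.UC.UMix
import Pool.Agent.Lib.MP_90b327_co.UC.UCheap

/-!
MODULE UConv. (40 minutes) Uniform convergence.
`ls_exists`: `U = hyperfilter ℕ`; the sequence `x ↦ avC (fun _ => x) (f L)` lies in `[-1, 1]`: it has a limit `N L` along the ultrafilter
(`isCompact_Icc.ultrafilter_le_nhds'`). `bd, perm, one, symm` pass to the limit. psd: the limit of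
`∑ c_i c_j avC x (fun n => f (..) (n + single s |b_i ∩ b_j|)) ≥ 0`, and by `shift_one` the shift changes each mean by `≤ 2 u / 2^x → 0`
(`Nat.hyperfilter_le_atTop`).
`uc`: induction on `d - τ.length`. If `d ≤ τ.length` or by the induction hypothesis: `cheap`. `ls_cvg` for `N` gives `V` and `X₁` for `ε/2`;
`cheap` gives `X₂` for `ε/2`; for scales `≥ max X₁ X₂`: `FF f Y (fun _ => x') = avL Y (fun L => avC (fun _ => x') (f L)) → avL Y N` along `U` (`avL_tendsto`),
so `|FF (shf f c) Y x - avL Y N| ≤ ε/2` (`cheap`, `le_of_tendsto`), total `ε`.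
-/

set_option autoImplicit false

namespace Pool.Agent.Lib.MP_90b327_co.UC

open Finset MeasureTheory Filter Topology Pool.Agent.Lib.MP_90b327_co

variable {ι : Type} [DecidableEq ι] [Fintype ι]

theorem ls_exists {d : ℕ} {f : List (ι × ℕ × ℕ) → (ι → ℕ) → ℝ} (hf : Sys d f) :
    ∃ N : List (ι × ℕ × ℕ) → ℝ, LS N ∧
      ∀ L, Tendsto (fun x : ℕ => avC (fun _ => x) (f L)) (hyperfilter ℕ : Filter ℕ) (𝓝 (N L)) := by
  have hlim : ∀ L, ∃ v : ℝ, Tendsto (fun x : ℕ => avC (fun _ : ι => x) (f L))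
      (hyperfilter ℕ : Filter ℕ) (𝓝 v) := by
    intro L
    have h1 : Set.Icc (-1 : ℝ) 1 ∈ (hyperfilter ℕ).map (fun x : ℕ => avC (fun _ : ι => x) (f L)) := by
      rw [Ultrafilter.mem_map]
      refine Filter.mem_of_superset Filter.univ_mem ?_
      intro x _
      exact abs_le.1 ((mn_avC (fun _ : ι => x)).abs_le (hf.bd L))
    obtain ⟨v, _, hv⟩ := (isCompact_Icc (a := (-1 : ℝ)) (b := 1)).ultrafilter_le_nhds' _ h1
    exact ⟨v, hv⟩
  choose N hN using hlim
  have hsh : ∀ (L : List (ι × ℕ × ℕ)) (s : ι) (u : ℕ),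
      Tendsto (fun x : ℕ => avC (fun _ : ι => x) (fun n => f L (n + (Pi.single s u : ι → ℕ))))
        (hyperfilter ℕ : Filter ℕ) (𝓝 (N L)) := by
    intro L s u
    have h1 : Tendsto (fun x : ℕ => 2 * (u : ℝ) / 2 ^ x) atTop (𝓝 0) := by
      have h2 : Tendsto (fun x : ℕ => (2 : ℝ) ^ x) atTop atTop :=
        tendsto_pow_atTop_atTop_of_one_lt (by norm_num)
      exact h2.const_div_atTop _
    have h3 : Tendsto (fun x : ℕ => avC (fun _ : ι => x) (fun n => f L (n + (Pi.single s u : ι → ℕ))) -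
        avC (fun _ : ι => x) (f L)) (hyperfilter ℕ : Filter ℕ) (𝓝 0) := by
      refine squeeze_zero_norm (fun x => ?_) (h1.mono_left Nat.hyperfilter_le_atTop)
      rw [Real.norm_eq_abs]
      exact shift_one (fun _ : ι => x) s u (f L) (hf.bd L)
    have h4 := h3.add (hN L)
    rw [zero_add] at h4
    refine h4.congr fun x => ?_
    ring
  refine ⟨N, ⟨?_, ?_, ?_, ?_, ?_⟩, hN⟩
  · intro L
    exact le_of_tendsto (hN L).abs (Eventually.of_forall fun x => (mn_avC _).abs_le (hf.bd L))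
  · intro L L' hL
    have h1 : f L = f L' := funext fun n => hf.perm L L' n hL
    refine tendsto_nhds_unique (hN L) ?_
    rw [h1]
    exact hN L'
  · intro L s
    refine tendsto_nhds_unique (hN _) ?_
    have h1 : f ((s, 0, 0) :: L) = fun _ => 1 := funext fun n => hf.one L n s
    rw [h1]
    refine tendsto_const_nhds.congr fun x => ?_
    exact ((mn_avC _).one).symm
  · intro L s a a'
    have h1 : f ((s, a, a') :: L) = f ((s, a', a) :: L) := funext fun n => hf.symm L n s a a'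
    refine tendsto_nhds_unique (hN _) ?_
    rw [h1]
    exact hN _
  · intro L s α _ b c
    have h1 : Tendsto (fun x : ℕ => ∑ i, ∑ j, c i * c j *
        avC (fun _ : ι => x) (fun n => f ((s, (b i \ b j).card, (b j \ b i).card) :: L)
          (n + (Pi.single s (b i ∩ b j).card : ι → ℕ)))) (hyperfilter ℕ : Filter ℕ)
        (𝓝 (∑ i, ∑ j, c i * c j * N ((s, (b i \ b j).card, (b j \ b i).card) :: L))) :=
      tendsto_finsetSum _ fun i _ => tendsto_finsetSum _ fun j _ => (hsh _ s _).const_mul _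
    refine ge_of_tendsto h1 (Eventually.of_forall fun x => ?_)
    have hM := mn_avC (fun _ : ι => x)
    have h2 := hM.mono (fun _ => 0) _ (fun n => hf.psd L n s α b c)
    rw [hM.const] at h2
    refine h2.trans (le_of_eq ?_)
    rw [hM.sum]
    refine Finset.sum_congr rfl fun i _ => ?_
    rw [hM.sum]
    refine Finset.sum_congr rfl fun j _ => ?_
    rw [hM.mul]

private theorem uc_step {d : ℕ} {f : List (ι × ℕ × ℕ) → (ι → ℕ) → ℝ} (hf : Sys d f) (τ : List ι)
    (h : (∀ s, ∃ V, Cvg f (s :: τ) V) ∨ d ≤ τ.length) : ∃ V : ℝ, Cvg f τ V := by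
  obtain ⟨N, hN, hlim⟩ := ls_exists hf
  obtain ⟨V, hV⟩ := ls_cvg hN τ
  refine ⟨V, fun ε hε => ?_⟩
  obtain ⟨X₁, hX₁⟩ := hV (ε / 2) (by positivity)
  obtain ⟨X₂, hX₂⟩ := cheap hf τ h (ε / 2) (by positivity)
  refine ⟨max X₁ X₂, fun Y x c hY hG hx => ?_⟩
  have h1 := hX₁ Y hY (fun p hp => ⟨(le_max_left _ _).trans (hG p hp).1, (le_max_left _ _).trans (hG p hp).2⟩)
  have hG2 : Ge X₂ Y :=
    fun p hp => ⟨(le_max_right _ _).trans (hG p hp).1, (le_max_right _ _).trans (hG p hp).2⟩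
  have h2 : Tendsto (fun x' : ℕ => FF f Y (fun _ => x')) (hyperfilter ℕ : Filter ℕ) (𝓝 (avL Y N)) :=
    avL_tendsto Y (fun (x' : ℕ) L => avC (fun _ : ι => x') (f L)) N hlim
  have h3 : Tendsto (fun x' : ℕ => |FF (shf f c) Y x - FF f Y (fun _ => x')|) (hyperfilter ℕ : Filter ℕ)
      (𝓝 (|FF (shf f c) Y x - avL Y N|)) := (h2.const_sub _).abs
  have h4 : |FF (shf f c) Y x - avL Y N| ≤ ε / 2 := by
    refine le_of_tendsto h3 ?_
    have h5 : ∀ᶠ x' : ℕ in (hyperfilter ℕ : Filter ℕ), X₂ ≤ x' :=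
      Nat.hyperfilter_le_atTop (eventually_ge_atTop X₂)
    filter_upwards [h5] with x' hx'
    exact hX₂ Y x (fun _ => x') c hY hG2 (fun t => (le_max_right _ _).trans (hx t)) (fun _ => hx')
  have h5 : FF (shf f c) Y x - V = (FF (shf f c) Y x - avL Y N) + (avL Y N - V) := by ring
  rw [h5]
  refine (abs_add_le _ _).trans ?_
  linarith

theorem uc {d : ℕ} {f : List (ι × ℕ × ℕ) → (ι → ℕ) → ℝ} (hf : Sys d f) (τ : List ι) :
    ∃ V : ℝ, Cvg f τ V := by
  have key : ∀ (k : ℕ) (τ : List ι), d - τ.length ≤ k → ∃ V : ℝ, Cvg f τ V := by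
    intro k
    induction k with
    | zero =>
      intro τ hτ
      exact uc_step hf τ (Or.inr (by omega))
    | succ k ih =>
      intro τ hτ
      refine uc_step hf τ (Or.inl fun s => ih (s :: τ) ?_)
      rw [List.length_cons]
      omega
  exact key _ τ le_rfl

end Pool.Agent.Lib.MP_90b327_co.UC
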