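import Mathlib
import Pool.Agent.Lib.MP_90b327_co.UC.UDefs
import Pool.Agent.Lib.MP_90b327_co.UC.UCx
import Pool.Agent.Lib.MP_90b327_co.UC.UPlace
import Pool.Agent.Lib.MP_90b327_co.UC.UDer
import Pool.Agent.Lib.MP_90b327_co.UC.UPsd
import Pool.Agent.Lib.MP_90b327_co.UC.UComm

/-!
MODULE USys. (60 minutes) The size functions form a system.
`derL_KK`: induction, `der_KK`. `derL_perm`: `List.Perm` induction; `der p` only uses the values on complexes (`der_congr`), swap: `der_comm`.
`sf_eq`: `KK.inv` for `derL L K`: for each type a bijection of the vertices of `C` of this type with `[0, n s)`.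
`sys`: bd: positive semidefinite 2x2 with ones (`α = Bool`, complexes `(cn n).powerset`, `∅`). perm: `derL_perm`. one: `der (s,0,0) K' S S' `: the blocks are empty, both
arguments are `S ∪ S'`. symm: `rel` for `derL L K` and `KK.symm`. top: `derL L K` is in `KK 0` (`d - L.length = 0`): `Dif 0` of `((cn n).powerset, ∅)` and
`((cn n').powerset, ∅)`: only `T = ∅`. psd: complexes `(C ∪ b_i').powerset`, `C = cn n`, `b_i' = {(s, n s + v) : v ∈ b_i}` in `derL L K`, `rel` with
`C ∪ (b_i' ∩ b_j')`, `b_i' \ b_j'`, `b_j' \ b_i'`, `sf_eq`. cs: module UCs.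
-/

set_option autoImplicit false

namespace Pool.Agent.Lib.MP_90b327_co.UC

open Finset MeasureTheory Filter Topology Pool.Agent.Lib.MP_90b327_co

variable {ι : Type} [DecidableEq ι]

theorem der_congr (p : ι × ℕ × ℕ) {K K' : Fam ι → Fam ι → ℝ}
    (h : ∀ S S', Cx S → Cx S' → K S S' = K' S S') (S S' : Fam ι) (hS : Cx S) (hS' : Cx S') :
    der p K S S' = der p K' S S' := by
  unfold der
  exact h _ _ (cx_jn _ _ (cx_mp _ hS) (cx_mp _ hS')) (cx_jn _ _ (cx_mp _ hS') (cx_mp _ hS))

theorem derL_KK {k : ℕ} {K : Fam ι → Fam ι → ℝ} (hK : KK k K) (L : List (ι × ℕ × ℕ)) :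
    KK (k - L.length) (derL L K) := by
  induction L with
  | nil => simpa [derL] using hK
  | cons p L ih =>
    have h := der_KK ih p
    have e : k - (p :: L).length = k - L.length - 1 := by simp only [List.length_cons]; omega
    rw [e]
    exact h

theorem derL_perm {k : ℕ} {K : Fam ι → Fam ι → ℝ} (hK : KK k K) {L L' : List (ι × ℕ × ℕ)}
    (h : L.Perm L') (S S' : Fam ι) (hS : Cx S) (hS' : Cx S') : derL L K S S' = derL L' K S S' := by
  induction h generalizing S S' with
  | nil => rfl
  | cons x _ ih => exact der_congr x (fun T T' hT hT' => ih T T' hT hT') S S' hS hS'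
  | swap x y l => exact der_comm (derL_KK hK l) y x S S' hS hS'
  | trans _ _ ih1 ih2 => exact (ih1 S S' hS hS').trans (ih2 S S' hS hS')

private theorem ex_enum {α : Type} [DecidableEq α] (A : Finset α) :
    ∃ f : α → ℕ, Set.InjOn f (↑A : Set α) ∧ A.image f = range A.card := by
  classical
  refine ⟨fun x => if h : x ∈ A then (A.equivFin ⟨x, h⟩ : ℕ) else 0, ?_, ?_⟩
  · intro x hx y hy hxy
    have hx' : x ∈ A := hx
    have hy' : y ∈ A := hy
    simp only [hx', hy', dif_pos] at hxy
    have h2 : A.equivFin ⟨x, hx'⟩ = A.equivFin ⟨y, hy'⟩ := Fin.ext hxy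
    have h3 := A.equivFin.injective h2
    exact congrArg Subtype.val h3
  · ext m
    simp only [Finset.mem_image, mem_range]
    constructor
    · rintro ⟨x, hx, rfl⟩
      simp only [hx, dif_pos]
      exact (A.equivFin ⟨x, hx⟩).2
    · intro hm
      refine ⟨(A.equivFin.symm ⟨m, hm⟩ : A), (A.equivFin.symm ⟨m, hm⟩).2, ?_⟩
      simp

variable [Fintype ι]

private theorem mem_bk {s : ι} {c a : ℕ} {v : Vx ι} : v ∈ bk s c a ↔ v.1 = s ∧ c ≤ v.2 ∧ v.2 < c + a := by
  unfold bk
  simp only [Finset.mem_image, mem_Ico]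
  constructor
  · rintro ⟨i, ⟨h1, h2⟩, rfl⟩
    exact ⟨rfl, h1, h2⟩
  · rintro ⟨rfl, h1, h2⟩
    exact ⟨v.2, ⟨h1, h2⟩, rfl⟩

private theorem mem_cn {n : ι → ℕ} {v : Vx ι} : v ∈ cn n ↔ v.2 < n v.1 := by
  unfold cn
  simp only [mem_biUnion, mem_univ, true_and, mem_bk]
  constructor
  · rintro ⟨s, rfl, _, h⟩
    simpa using h
  · intro h
    exact ⟨v.1, rfl, Nat.zero_le _, by simpa using h⟩

theorem sf_eq {k : ℕ} {K : Fam ι → Fam ι → ℝ} (hK : KK k K) (L : List (ι × ℕ × ℕ)) (C : Finset (Vx ι)) :
    derL L K C.powerset ∅ = sf K L (fun s => (C.filter (fun v => v.1 = s)).card) := by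
  have hK' := derL_KK hK L
  have hex : ∀ s : ι, ∃ f : Vx ι → ℕ, Set.InjOn f (↑(C.filter (fun v => v.1 = s)) : Set (Vx ι)) ∧
      (C.filter (fun v => v.1 = s)).image f = range (C.filter (fun v => v.1 = s)).card :=
    fun s => ex_enum _
  choose f hf1 hf2 using hex
  set φ : Vx ι → Vx ι := fun v => (v.1, f v.1 v) with hφ
  have hinj : Set.InjOn φ (↑(vs C.powerset ∪ vs (∅ : Fam ι)) : Set (Vx ι)) := by
    rw [vs_pow, vs_empty, union_empty]
    intro v hv w hw hvw
    have hv' : v ∈ C := hv
    have hw' : w ∈ C := hw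
    simp only [hφ, Prod.mk.injEq] at hvw
    obtain ⟨h1, h2⟩ := hvw
    rw [← h1] at h2
    exact hf1 v.1 (by simp [hv']) (by simp [hw', h1]) h2
  have hinv := hK'.inv φ (fun v => rfl) C.powerset ∅ (cx_pow C) cx_empty hinj
  rw [mp_pow, mp_empty] at hinv
  have himg : C.image φ = cn (fun s => (C.filter (fun v => v.1 = s)).card) := by
    ext w
    rw [mem_cn, Finset.mem_image]
    constructor
    · rintro ⟨v, hv, rfl⟩
      have : f v.1 v ∈ (C.filter (fun x => x.1 = v.1)).image (f v.1) :=
        mem_image_of_mem _ (by simp [hv])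
      rw [hf2, mem_range] at this
      exact this
    · intro hw
      have : w.2 ∈ (C.filter (fun x => x.1 = w.1)).image (f w.1) := by
        rw [hf2, mem_range]; exact hw
      obtain ⟨v, hv, hv2⟩ := Finset.mem_image.1 this
      simp only [mem_filter] at hv
      refine ⟨v, hv.1, ?_⟩
      simp only [hφ]
      rw [hv.2, hv2]
  unfold sf
  rw [← himg, hinv]

theorem sf_bd {k : ℕ} {K : Fam ι → Fam ι → ℝ} (hK : KK k K) (L : List (ι × ℕ × ℕ)) (n : ι → ℕ) :
    |sf K L n| ≤ 1 := by
  have hK' := derL_KK hK L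
  have h1 : derL L K (cn n).powerset (cn n).powerset = 1 := hK'.one _ (cx_pow _)
  have h2 : derL L K ∅ ∅ = 1 := hK'.one _ cx_empty
  have h3 : derL L K ∅ (cn n).powerset = derL L K (cn n).powerset ∅ := hK'.symm _ _ cx_empty (cx_pow _)
  have hc : ∀ i : Bool, Cx (if i then (cn n).powerset else (∅ : Fam ι)) := by
    intro i; cases i
    · simpa using cx_empty
    · simpa using cx_pow (cn n)
  have hp := hK'.psd Bool (fun i => if i then (cn n).powerset else ∅) (fun _ => 1) hc
  have hm := hK'.psd Bool (fun i => if i then (cn n).powerset else ∅) (fun i => if i then 1 else -1) hc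
  simp only [Fintype.sum_bool, if_true, Bool.false_eq_true, if_false, h1, h2, h3] at hp hm
  unfold sf
  rw [abs_le]
  constructor <;> linarith

theorem sf_one {k : ℕ} {K : Fam ι → Fam ι → ℝ} (hK : KK k K) (L : List (ι × ℕ × ℕ)) (n : ι → ℕ) (s : ι) :
    sf K ((s, 0, 0) :: L) n = 1 := by
  have hK' := derL_KK hK L
  unfold sf
  change der (s, 0, 0) (derL L K) (cn n).powerset ∅ = 1
  unfold der
  have hb : bk s 0 0 = (∅ : Finset (Vx ι)) := by unfold bk; simp
  have hst : ∀ S : Fam ι, st (∅ : Finset (Vx ι)) S = ∅ := by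
    intro S; unfold st; simp
  simp only [hb, jn, hst, union_empty]
  rw [union_comm (mp _ ∅) (mp _ _)]
  exact hK'.one _ (cx_union (cx_mp _ (cx_pow _)) (cx_mp _ cx_empty))

theorem sf_symm {k : ℕ} {K : Fam ι → Fam ι → ℝ} (hK : KK k K) (L : List (ι × ℕ × ℕ)) (n : ι → ℕ) (s : ι)
    (a a' : ℕ) : sf K ((s, a, a') :: L) n = sf K ((s, a', a) :: L) n := by
  have hK' := derL_KK hK L
  have hcard : ∀ c m : ℕ, (bk s c m).card = m := by
    intro c m
    unfold bk
    rw [card_image_of_injective _ (fun x y h => by simpa using h)]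
    simp
  have hof : ∀ c m : ℕ, Of s (bk s c m) := fun c m v hv => (mem_bk.1 hv).1
  have d1 : Disjoint (cn n) (bk s (n s) a) := by
    rw [disjoint_left]; intro v hv hv'
    obtain ⟨e, h1, h2⟩ := mem_bk.1 hv'
    have := mem_cn.1 hv
    rw [e] at this; omega
  have d2 : Disjoint (cn n) (bk s (n s + a) a') := by
    rw [disjoint_left]; intro v hv hv'
    obtain ⟨e, h1, h2⟩ := mem_bk.1 hv'
    have := mem_cn.1 hv
    rw [e] at this; omega
  have d3 : Disjoint (bk s (n s) a) (bk s (n s + a) a') := by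
    rw [disjoint_left]; intro v hv hv'
    obtain ⟨e, h1, h2⟩ := mem_bk.1 hv
    obtain ⟨e', h1', h2'⟩ := mem_bk.1 hv'
    omega
  have r1 := rel hK' s (cn n) (bk s (n s) a) (bk s (n s + a) a') (hof _ _) (hof _ _) d1 d2 d3
  have r2 := rel hK' s (cn n) (bk s (n s + a) a') (bk s (n s) a) (hof _ _) (hof _ _) d2 d1 d3.symm
  rw [hcard, hcard] at r1 r2
  unfold sf
  change der (s, a, a') (derL L K) (cn n).powerset ∅ = der (s, a', a) (derL L K) (cn n).powerset ∅
  rw [← r1, ← r2]
  exact hK'.symm _ _ (cx_pow _) (cx_pow _)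

theorem sf_top {k : ℕ} {K : Fam ι → Fam ι → ℝ} (hK : KK k K) (L : List (ι × ℕ × ℕ)) (n n' : ι → ℕ)
    (hL : k ≤ L.length) : sf K L n = sf K L n' := by
  have hK' := derL_KK hK L
  have e : k - L.length = 0 := by omega
  rw [e] at hK'
  unfold sf
  refine hK'.dif _ _ _ _ (cx_pow _) cx_empty (cx_pow _) cx_empty ?_
  intro T hT
  have hT0 : T = ∅ := card_eq_zero.1 (by omega)
  subst hT0
  simp

theorem sf_psd {k : ℕ} {K : Fam ι → Fam ι → ℝ} (hK : KK k K) (L : List (ι × ℕ × ℕ)) (n : ι → ℕ) (s : ι)
    (α : Type) [Fintype α] (b : α → Finset ℕ) (c : α → ℝ) :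
    0 ≤ ∑ i, ∑ j, c i * c j *
      sf K ((s, (b i \ b j).card, (b j \ b i).card) :: L) (n + (Pi.single s (b i ∩ b j).card : ι → ℕ)) := by
  have hK' := derL_KK hK L
  set g : ℕ → Vx ι := fun v => (s, n s + v) with hg
  have hgi : Function.Injective g := by
    intro x y h
    simp only [hg, Prod.mk.injEq] at h
    omega
  have hgs : ∀ v, (g v).1 = s := fun v => rfl
  have hgC : ∀ v, g v ∉ cn n := by
    intro v hv
    have := mem_cn.1 hv
    simp only [hg] at this
    omega
  have key : ∀ i j, derL L K (cn n ∪ (b i).image g).powerset (cn n ∪ (b j).image g).powerset =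
      sf K ((s, (b i \ b j).card, (b j \ b i).card) :: L) (n + (Pi.single s (b i ∩ b j).card : ι → ℕ)) := by
    intro i j
    have h1 : cn n ∪ (b i).image g = (cn n ∪ (b i ∩ b j).image g) ∪ (b i \ b j).image g := by
      rw [union_assoc, ← image_union]
      congr 2
      ext x; simp only [Finset.mem_union, Finset.mem_inter, Finset.mem_sdiff]; tauto
    have h2 : cn n ∪ (b j).image g = (cn n ∪ (b i ∩ b j).image g) ∪ (b j \ b i).image g := by
      rw [union_assoc, ← image_union]
      congr 2
      ext x; simp only [Finset.mem_union, Finset.mem_inter, Finset.mem_sdiff]; tauto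
    have hof : ∀ X : Finset ℕ, Of s (X.image g) := by
      intro X v hv
      obtain ⟨x, _, rfl⟩ := Finset.mem_image.1 hv
      rfl
    have dC : ∀ X : Finset ℕ, Disjoint (cn n) (X.image g) := by
      intro X
      rw [disjoint_left]; intro v hv hv'
      obtain ⟨x, _, rfl⟩ := Finset.mem_image.1 hv'
      exact hgC x hv
    have dI : ∀ X Y : Finset ℕ, Disjoint X Y → Disjoint (X.image g) (Y.image g) := by
      intro X Y h
      exact (disjoint_image hgi).2 h
    have e1 : Disjoint (b i ∩ b j) (b i \ b j) := by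
      rw [disjoint_left]; intro x hx hx'
      simp only [Finset.mem_inter, Finset.mem_sdiff] at hx hx'
      tauto
    have e2 : Disjoint (b i ∩ b j) (b j \ b i) := by
      rw [disjoint_left]; intro x hx hx'
      simp only [Finset.mem_inter, Finset.mem_sdiff] at hx hx'
      tauto
    have e3 : Disjoint (b i \ b j) (b j \ b i) := by
      rw [disjoint_left]; intro x hx hx'
      simp only [Finset.mem_sdiff] at hx hx'
      tauto
    rw [h1, h2, rel hK' s (cn n ∪ (b i ∩ b j).image g) ((b i \ b j).image g) ((b j \ b i).image g)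
      (hof _) (hof _) (disjoint_union_left.2 ⟨dC _, dI _ _ e1⟩) (disjoint_union_left.2 ⟨dC _, dI _ _ e2⟩)
      (dI _ _ e3), card_image_of_injective _ hgi, card_image_of_injective _ hgi]
    change derL ((s, (b i \ b j).card, (b j \ b i).card) :: L) K _ ∅ = _
    rw [sf_eq hK]
    congr 1
    funext t
    rw [filter_union, card_union_of_disjoint]
    · have c1 : ((cn n).filter (fun v => v.1 = t)).card = n t := by
        have : (cn n).filter (fun v => v.1 = t) = bk t 0 (n t) := by
          ext v
          rw [mem_filter, mem_cn, mem_bk]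
          constructor
          · rintro ⟨h, rfl⟩; exact ⟨rfl, Nat.zero_le _, by simpa using h⟩
          · rintro ⟨rfl, _, h⟩; exact ⟨by simpa using h, rfl⟩
        rw [this]
        unfold bk
        rw [card_image_of_injective _ (fun x y h => by simpa using h)]
        simp
      rw [c1, Pi.add_apply]
      congr 1
      by_cases hst : t = s
      · subst hst
        rw [Pi.single_eq_same, filter_true_of_mem, card_image_of_injective _ hgi]
        intro v hv
        obtain ⟨x, _, rfl⟩ := Finset.mem_image.1 hv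
        rfl
      · rw [Pi.single_eq_of_ne hst, filter_false_of_mem, card_empty]
        intro v hv
        obtain ⟨x, _, rfl⟩ := Finset.mem_image.1 hv
        exact fun h => hst h.symm
    · exact (dC (b i ∩ b j)).mono (filter_subset _ _) (filter_subset _ _)
  have hp := hK'.psd α (fun i => (cn n ∪ (b i).image g).powerset) c (fun i => cx_pow _)
  simpa only [key] using hp

end Pool.Agent.Lib.MP_90b327_co.UC
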