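import Mathlib
import Pool.Agent.Lib.MP_90b327_co.UC.UDefs
import Pool.Agent.Lib.MP_90b327_co.UC.USys

/-!
MODULE UCs. (45 minutes) Cauchy-Schwarz to the derived kernel.
PROOF. `K' = derL L K`, `C = cn n`. For `Q ≥ 1` choose disjoint blocks `b_i^t` (`i : α`, `t < Q`) of type `s`, size `h i`, outside `C` (`α` finite: number the pairs `(i,t)`).
Positive semidefiniteness of `K'` with the complexes `∅` (coefficient `-y`) and `(C ∪ b_i^t).powerset` (coefficients `c i / Q`) for all real `y` gives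
`(∑_{i,t} (c i / Q) K' (C ∪ b_i^t).powerset ∅)^2 ≤ ∑ (c i c j / Q^2) K' (C ∪ b_i^t).powerset (C ∪ b_j^u).powerset` (`K' ∅ ∅ = 1`).
Left: `K' (C ∪ b_i^t).powerset ∅ = sf K L (n + single s (h i))` (`sf_eq`), so the left side is `(∑ c i sf ..)^2`. Right: for `(i,t) ≠ (j,u)`:
`rel`: `sf K ((s, h i, h j) :: L) n`; for equal ones `1`. So `(..)^2 ≤ ∑ c i c j sf K ((s,h i,h j) :: L) n + (1/Q) ∑ c i^2 (1 - sf K ((s,h i,h i) :: L) n)`; `Q → ∞`.
-/

set_option autoImplicit false

namespace Pool.Agent.Lib.MP_90b327_co.UC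

open Finset MeasureTheory Filter Topology Pool.Agent.Lib.MP_90b327_co

variable {ι : Type} [DecidableEq ι] [Fintype ι]

omit [Fintype ι] in
private theorem cs_mem_bk {s : ι} {c a : ℕ} {v : Vx ι} : v ∈ bk s c a ↔ v.1 = s ∧ c ≤ v.2 ∧ v.2 < c + a := by
  unfold bk
  rw [mem_image]
  constructor
  · rintro ⟨i, hi, rfl⟩
    rw [mem_Ico] at hi
    exact ⟨rfl, hi.1, hi.2⟩
  · rintro ⟨h1, h2, h3⟩
    exact ⟨v.2, mem_Ico.2 ⟨h2, h3⟩, by rw [← h1]⟩

omit [Fintype ι] in
private theorem cs_card_bk (s : ι) (c a : ℕ) : (bk s c a).card = a := by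
  unfold bk
  rw [card_image_of_injective _ (fun i j h => (Prod.mk.inj h).2), Nat.card_Ico]
  omega

private theorem cs_mem_cn {n : ι → ℕ} {v : Vx ι} : v ∈ cn n ↔ v.2 < n v.1 := by
  unfold cn
  rw [mem_biUnion]
  constructor
  · rintro ⟨s, -, hs⟩
    rw [cs_mem_bk] at hs
    rw [hs.1]
    omega
  · intro h
    exact ⟨v.1, mem_univ _, cs_mem_bk.2 ⟨rfl, Nat.zero_le _, by omega⟩⟩

theorem sf_cs {k : ℕ} {K : Fam ι → Fam ι → ℝ} (hK : KK k K) (L : List (ι × ℕ × ℕ)) (n : ι → ℕ) (s : ι)
    (α : Type) [Fintype α] (h : α → ℕ) (c : α → ℝ) :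
    (∑ i, c i * sf K L (n + (Pi.single s (h i) : ι → ℕ))) ^ 2 ≤
      ∑ i, ∑ j, c i * c j * sf K ((s, h i, h j) :: L) n := by
  classical
  have hK' : KK (k - L.length) (derL L K) := derL_KK hK L
  set K' := derL L K with hK'def
  set C := cn n with hC
  set f : α → α → ℝ := fun i j => sf K ((s, h i, h j) :: L) n with hf
  set A := ∑ i, c i * sf K L (n + (Pi.single s (h i) : ι → ℕ)) with hA
  set Bv := ∑ i, ∑ j, c i * c j * f i j with hBv
  set E := ∑ i, c i ^ 2 * (1 - f i i) with hE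
  have key : ∀ Q : ℕ, 0 < Q → A ^ 2 ≤ Bv + E / Q := by
    intro Q hQ
    have hQ' : (0 : ℝ) < Q := by exact_mod_cast hQ
    set H := ∑ i, h i with hH
    have hHi : ∀ i, h i ≤ H := fun i => Finset.single_le_sum (fun _ _ => Nat.zero_le _) (mem_univ i)
    set e := Fintype.equivFin (α × Fin Q) with he
    set b : α × Fin Q → Finset (Vx ι) := fun p => bk s (n s + H * (e p : ℕ)) (h p.1) with hb
    have hb1 : ∀ p, Of s (b p) := fun p v hv => (cs_mem_bk.1 hv).1
    have hbc : ∀ p, (b p).card = h p.1 := fun p => cs_card_bk _ _ _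
    have hCb : ∀ p, Disjoint C (b p) := by
      intro p
      rw [Finset.disjoint_left]
      intro v hv hv'
      have h1 := cs_mem_cn.1 hv
      obtain ⟨h2, h3, -⟩ := cs_mem_bk.1 hv'
      rw [h2] at h1
      omega
    have hlt : ∀ p q v, (e p : ℕ) < (e q : ℕ) → v ∈ b p → v ∈ b q → False := by
      intro p q v hpq hv hv'
      obtain ⟨-, -, h3⟩ := cs_mem_bk.1 hv
      obtain ⟨-, h5, -⟩ := cs_mem_bk.1 hv'
      have h6 : H * (e p : ℕ) + H ≤ H * (e q : ℕ) := by
        calc H * (e p : ℕ) + H = H * ((e p : ℕ) + 1) := by ring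
          _ ≤ H * (e q : ℕ) := Nat.mul_le_mul_left _ hpq
      have h7 := hHi p.1
      omega
    have hbb : ∀ p q, p ≠ q → Disjoint (b p) (b q) := by
      intro p q hpq
      rw [Finset.disjoint_left]
      intro v hv hv'
      have hne : (e p : ℕ) ≠ (e q : ℕ) := fun h0 => hpq (e.injective (Fin.ext h0))
      rcases Nat.lt_or_gt_of_ne hne with h1 | h1
      · exact hlt p q v h1 hv hv'
      · exact hlt q p v h1 hv' hv
    have v0 : ∀ p, K' (C ∪ b p).powerset ∅ = sf K L (n + (Pi.single s (h p.1) : ι → ℕ)) := by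
      intro p
      rw [hK'def, sf_eq hK]
      congr 1
      funext s'
      rw [filter_union, card_union_of_disjoint ((hCb p).mono (filter_subset _ _) (filter_subset _ _))]
      have h1 : (C.filter fun v => v.1 = s') = bk s' 0 (n s') := by
        ext v
        rw [mem_filter, hC, cs_mem_cn, cs_mem_bk]
        constructor
        · rintro ⟨h1, h2⟩
          rw [h2] at h1
          exact ⟨h2, Nat.zero_le _, by omega⟩
        · rintro ⟨h1, -, h2⟩
          rw [h1]
          exact ⟨by omega, rfl⟩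
      rw [h1, cs_card_bk, Pi.add_apply]
      congr 1
      by_cases hs : s' = s
      · subst hs
        rw [Pi.single_eq_same, filter_true_of_mem (fun v hv => hb1 p v hv), hbc]
      · rw [Pi.single_eq_of_ne hs, filter_false_of_mem (fun v hv h2 => hs (by rw [← h2]; exact hb1 p v hv)), card_empty]
    have v1 : ∀ p, K' (C ∪ b p).powerset (C ∪ b p).powerset = 1 := fun p => hK'.one _ (cx_pow _)
    have v2 : ∀ p q, p ≠ q → K' (C ∪ b p).powerset (C ∪ b q).powerset = f p.1 q.1 := by
      intro p q hpq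
      rw [rel hK' s C (b p) (b q) (hb1 p) (hb1 q) (hCb p) (hCb q) (hbb p q hpq), hbc, hbc]
      rfl
    have v3 : ∀ p, K' ∅ (C ∪ b p).powerset = sf K L (n + (Pi.single s (h p.1) : ι → ℕ)) := by
      intro p
      rw [hK'.symm _ _ cx_empty (cx_pow _), v0]
    have v4 : K' ∅ ∅ = 1 := hK'.one _ cx_empty
    have hpsd := hK'.psd (Option (α × Fin Q)) (fun o => o.elim ∅ (fun p => (C ∪ b p).powerset))
      (fun o => o.elim (-A) (fun p => c p.1 / Q)) (by
        rintro (_ | p)
        · exact cx_empty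
        · exact cx_pow _)
    simp only [Fintype.sum_option, Option.elim] at hpsd
    have hsum : ∀ g : α → ℝ, ∑ p : α × Fin Q, g p.1 = Q * ∑ i, g i := by
      intro g
      rw [Fintype.sum_prod_type, mul_sum]
      refine sum_congr rfl fun i _ => ?_
      show ∑ _y : Fin Q, g i = Q * g i
      rw [sum_const, card_univ, Fintype.card_fin, nsmul_eq_mul]
    have e1 : ∑ p : α × Fin Q, c p.1 / Q * sf K L (n + (Pi.single s (h p.1) : ι → ℕ)) = A := by
      rw [hsum (fun i => c i / Q * sf K L (n + (Pi.single s (h i) : ι → ℕ))), mul_sum]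
      refine sum_congr rfl fun i _ => ?_
      field_simp
    have e2 : ∑ p : α × Fin Q, -A * (c p.1 / Q) * K' ∅ (C ∪ b p).powerset = -A * A := by
      calc _ = ∑ p : α × Fin Q, -A * (c p.1 / Q * sf K L (n + (Pi.single s (h p.1) : ι → ℕ))) :=
            sum_congr rfl fun p _ => by rw [v3, mul_assoc]
        _ = -A * A := by rw [← mul_sum, e1]
    have e3 : ∑ p : α × Fin Q, c p.1 / Q * -A * K' (C ∪ b p).powerset ∅ = -A * A := by
      calc _ = ∑ p : α × Fin Q, -A * (c p.1 / Q * sf K L (n + (Pi.single s (h p.1) : ι → ℕ))) :=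
            sum_congr rfl fun p _ => by rw [v0]; ring
        _ = -A * A := by rw [← mul_sum, e1]
    have e4 : ∑ p : α × Fin Q, ∑ q : α × Fin Q,
        c p.1 / Q * (c q.1 / Q) * K' (C ∪ b p).powerset (C ∪ b q).powerset = Bv + E / Q := by
      have h1 : ∀ p q : α × Fin Q, c p.1 / Q * (c q.1 / Q) * K' (C ∪ b p).powerset (C ∪ b q).powerset =
          c p.1 / Q * (c q.1 / Q) * f p.1 q.1 +
            (if p = q then c p.1 / Q * (c q.1 / Q) * (1 - f p.1 q.1) else 0) := by
        intro p q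
        by_cases hpq : p = q
        · subst hpq
          rw [if_pos rfl, v1]
          ring
        · rw [if_neg hpq, v2 p q hpq, add_zero]
      have h2 : ∑ p : α × Fin Q, ∑ q : α × Fin Q, c p.1 / Q * (c q.1 / Q) * f p.1 q.1 = Bv := by
        have h3 : ∀ p : α × Fin Q, ∑ q : α × Fin Q, c p.1 / Q * (c q.1 / Q) * f p.1 q.1 =
            Q * ∑ j, c p.1 / Q * (c j / Q) * f p.1 j := fun p => hsum (fun j => c p.1 / Q * (c j / Q) * f p.1 j)
        rw [sum_congr rfl (fun p _ => h3 p), hsum (fun i => Q * ∑ j, c i / Q * (c j / Q) * f i j), mul_sum]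
        refine sum_congr rfl fun i _ => ?_
        rw [mul_sum, mul_sum]
        refine sum_congr rfl fun j _ => ?_
        field_simp
      have h4 : ∑ p : α × Fin Q, ∑ q : α × Fin Q,
          (if p = q then c p.1 / Q * (c q.1 / Q) * (1 - f p.1 q.1) else 0) = E / Q := by
        have h5 : ∀ p : α × Fin Q, ∑ q : α × Fin Q,
            (if p = q then c p.1 / Q * (c q.1 / Q) * (1 - f p.1 q.1) else 0) =
            c p.1 / Q * (c p.1 / Q) * (1 - f p.1 p.1) := by
          intro p
          rw [sum_ite_eq, if_pos (mem_univ p)]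
        rw [sum_congr rfl (fun p _ => h5 p), hsum (fun i => c i / Q * (c i / Q) * (1 - f i i)), hE, sum_div, mul_sum]
        refine sum_congr rfl fun i _ => ?_
        field_simp
      rw [sum_congr rfl (fun p _ => sum_congr rfl (fun q _ => h1 p q))]
      simp only [sum_add_distrib]
      rw [h2, h4]
    rw [v4, e2, sum_add_distrib, e3, e4] at hpsd
    nlinarith
  have hlim : Tendsto (fun Q : ℕ => Bv + E / Q) atTop (𝓝 (Bv + 0)) :=
    tendsto_const_nhds.add (tendsto_const_div_atTop_nhds_zero_nat E)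
  rw [add_zero] at hlim
  exact ge_of_tendsto hlim (eventually_atTop.2 ⟨1, fun Q hQ => key Q hQ⟩)

theorem sys {d : ℕ} {K : Fam ι → Fam ι → ℝ} (hK : KK d K) : Sys d (sf K) where
  bd := sf_bd hK
  perm := fun L L' n h => derL_perm hK h _ _ (cx_pow _) cx_empty
  one := sf_one hK
  symm := fun L n s a a' => sf_symm hK L n s a a'
  top := sf_top hK
  cs := fun L n s α _ h c => sf_cs hK L n s α h c
  psd := fun L n s α _ b c => sf_psd hK L n s α b c

end Pool.Agent.Lib.MP_90b327_co.UC
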