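import Mathlib
import Pool.Agent.Lib.MP_90b327_co.UC.UDefs
import Pool.Agent.Lib.MP_90b327_co.UC.UMean
import Pool.Agent.Lib.MP_90b327_co.UC.UShift

/-!
MODULE UFar. (45 minutes) The far value.
PROOF. Let `S u p = ∑_{q ≤ p} u q`. Fix `n ≥ 1`, `ε > 0`; `X` from `hV` (used with `c = 0`). Take the scales `l p = (p + 1) * L` (`p ≤ n`), `L ≥ X` large. Work with `avC l` for the
index type `Fin (n + 1)` (sizes `u : Fin (n+1) → ℕ`). `hch` holds for all `u`; mean over `u`: `n^2 D ≤ n + 2 ∑_{i<j<n} avC l (u ↦ f (nv ..))`.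
CLAIM `|avC l (u ↦ f (nv (S i) (S j - S i) (S n - S j))) - avC ![l i, l j, l n] f| ≤ 6 · n · 2^(1-L)` or any bound tending to `0` as `L → ∞`:
resample (`avC_resample`) the coordinates `i`, `j`, `n`: the three entries become `c₁ + k`, `c₂ + k'`, `c₃ + k''` with `k < 2^(l i)`, `k' < 2^(l j)`,
`k'' < 2^(l n)` independent, and `c₁ = ∑_{q<i} u q ≤ n 2^(l i - L)`, `c₂ = ∑_{i<q<j} u q ≤ n 2^(l j - L)`, `c₃ = ∑_{j<q<n} u q ≤ n 2^(l n - L)`. By `av_shift` three times the
mean over `k, k', k''` is within `3 · 2 n 2^(-L)` of `av av av f (nv k k' k'')`, which is `avC ![l i, l j, l n] f` (lemma `avC_three`). With `hV`: every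
term is `≤ V + ε + 6 n 2^(-L)`; so `n^2 D ≤ n + n^2 (V + ε + 6 n 2^(-L))` (if `V + ε + .. < 0`, still fine: `2 ∑_{i<j} = n (n - 1)`; use
`|V| ≤ 1`), `L → ∞`, `ε → 0`, divide by `n^2`, `n → ∞`: `D ≤ V`.
-/

set_option autoImplicit false

namespace Pool.Agent.Lib.MP_90b327_co.UC

open Finset MeasureTheory Filter Topology Pool.Agent.Lib.MP_90b327_co

theorem avC_three (x : Fin 3 → ℕ) (f : (Fin 3 → ℕ) → ℝ) :
    avC x f = av (2 ^ x 0) (fun a => av (2 ^ x 1) (fun m => av (2 ^ x 2) (fun h => f (nv a m h)))) := by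
  have h1 : ∑ n ∈ Fintype.piFinset (fun s => range (2 ^ x s)), f n =
      ∑ p ∈ range (2 ^ x 0) ×ˢ (range (2 ^ x 1) ×ˢ range (2 ^ x 2)), f (nv p.1 p.2.1 p.2.2) := by
    refine Finset.sum_nbij' (fun n => (n 0, n 1, n 2)) (fun p => nv p.1 p.2.1 p.2.2) ?_ ?_ ?_ ?_ ?_
    · intro n hn
      rw [Fintype.mem_piFinset] at hn
      simp only [mem_product]
      exact ⟨hn 0, hn 1, hn 2⟩
    · intro p hp
      simp only [mem_product] at hp
      rw [Fintype.mem_piFinset]
      intro s
      fin_cases s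
      · exact hp.1
      · exact hp.2.1
      · exact hp.2.2
    · intro n _
      funext s
      fin_cases s <;> rfl
    · intro p _
      rfl
    · intro n _
      congr 1
      funext s
      fin_cases s <;> rfl
  unfold avC
  rw [h1, Finset.sum_product]
  simp only [Finset.sum_product]
  unfold av
  rw [Fin.prod_univ_three]
  simp only [Finset.sum_div, div_div]
  refine Finset.sum_congr rfl fun a _ => Finset.sum_congr rfl fun m _ =>
    Finset.sum_congr rfl fun h _ => ?_
  congr 1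
  push_cast
  ring

/-- the extension of `u` by zero -/
def exU {n : ℕ} (u : Fin (n + 1) → ℕ) (q : ℕ) : ℕ := if h : q < n + 1 then u ⟨q, h⟩ else 0

theorem avC_le_of {ι : Type} [DecidableEq ι] [Fintype ι] (x : ι → ℕ) (g : (ι → ℕ) → ℝ) (C : ℝ)
    (hg : ∀ u ∈ Fintype.piFinset (fun s => range (2 ^ x s)), g u ≤ C) : avC x g ≤ C := by
  have hk' : (0 : ℝ) < ∏ s, (2 : ℝ) ^ x s := Finset.prod_pos fun s _ => by positivity
  unfold avC
  rw [div_le_iff₀ hk']
  refine (Finset.sum_le_sum hg).trans ?_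
  rw [Finset.sum_const, Fintype.card_piFinset, nsmul_eq_mul]
  simp only [Finset.card_range, Nat.cast_prod, Nat.cast_pow, Nat.cast_ofNat]
  rw [mul_comm]

theorem three_shift (f : (Fin 3 → ℕ) → ℝ) (hf : ∀ n, |f n| ≤ 1) (A B C a b c : ℕ) :
    |av (2 ^ A) (fun k => av (2 ^ B) (fun k' => av (2 ^ C) (fun k'' =>
        f (nv (k + a) (k' + b) (k'' + c))))) -
      av (2 ^ A) (fun k => av (2 ^ B) (fun k' => av (2 ^ C) (fun k'' => f (nv k k' k''))))| ≤
      2 * a / 2 ^ A + 2 * b / 2 ^ B + 2 * c / 2 ^ C := by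
  have h2A : (0 : ℕ) < 2 ^ A := by positivity
  have h2B : (0 : ℕ) < 2 ^ B := by positivity
  have h2C : (0 : ℕ) < 2 ^ C := by positivity
  have mA := mn_av2 A
  have mB := mn_av2 B
  have mC := mn_av2 C
  have s1 : |av (2 ^ A) (fun k => av (2 ^ B) (fun k' => av (2 ^ C) (fun k'' =>
        f (nv (k + a) (k' + b) (k'' + c))))) -
      av (2 ^ A) (fun k => av (2 ^ B) (fun k' => av (2 ^ C) (fun k'' =>
        f (nv k (k' + b) (k'' + c)))))| ≤ 2 * a / 2 ^ A := by
    have := av_shift h2A (fun k => av (2 ^ B) (fun k' => av (2 ^ C) (fun k'' =>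
        f (nv k (k' + b) (k'' + c))))) (fun k => mB.abs_le fun k' => mC.abs_le fun k'' => hf _) a
    simpa using this
  have s2 : |av (2 ^ A) (fun k => av (2 ^ B) (fun k' => av (2 ^ C) (fun k'' =>
        f (nv k (k' + b) (k'' + c))))) -
      av (2 ^ A) (fun k => av (2 ^ B) (fun k' => av (2 ^ C) (fun k'' =>
        f (nv k k' (k'' + c)))))| ≤ 2 * b / 2 ^ B := by
    refine mA.abs_sub_le fun k => ?_
    have := av_shift h2B (fun k' => av (2 ^ C) (fun k'' =>
        f (nv k k' (k'' + c)))) (fun k' => mC.abs_le fun k'' => hf _) b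
    simpa using this
  have s3 : |av (2 ^ A) (fun k => av (2 ^ B) (fun k' => av (2 ^ C) (fun k'' =>
        f (nv k k' (k'' + c))))) -
      av (2 ^ A) (fun k => av (2 ^ B) (fun k' => av (2 ^ C) (fun k'' =>
        f (nv k k' k''))))| ≤ 2 * c / 2 ^ C := by
    refine mA.abs_sub_le fun k => mB.abs_sub_le fun k' => ?_
    have := av_shift h2C (fun k'' => f (nv k k' k'')) (fun k'' => hf _) c
    simpa using this
  have t1 := abs_le.mp s1
  have t2 := abs_le.mp s2
  have t3 := abs_le.mp s3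
  rw [abs_le]
  constructor <;> linarith [t1.1, t1.2, t2.1, t2.2, t3.1, t3.2]

theorem small_sum {n : ℕ} (L : ℕ) (l : Fin (n + 1) → ℕ) (hl : ∀ s, l s = ((s : ℕ) + 1) * L)
    (u : Fin (n + 1) → ℕ) (hu : u ∈ Fintype.piFinset (fun s => range (2 ^ l s)))
    (t : Fin (n + 1)) (S : Finset ℕ) (hS : ∀ q ∈ S, q < (t : ℕ)) :
    2 * ((∑ q ∈ S, exU u q : ℕ) : ℝ) / 2 ^ l t ≤ 2 * n / 2 ^ L := by
  rw [Fintype.mem_piFinset] at hu
  have hc : S.card ≤ n := by
    have h1 : S ⊆ range (t : ℕ) := fun q hq => mem_range.2 (hS q hq)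
    have h2 := card_le_card h1
    rw [card_range] at h2
    have := t.2
    omega
  have h1 : (∑ q ∈ S, exU u q) * 2 ^ L ≤ n * 2 ^ l t := by
    rw [Finset.sum_mul]
    refine (Finset.sum_le_card_nsmul S _ (2 ^ l t) ?_).trans ?_
    · intro q hq
      have hq' := hS q hq
      have hqn : q < n + 1 := lt_trans hq' t.2
      unfold exU
      rw [dif_pos hqn]
      have h3 := mem_range.1 (hu ⟨q, hqn⟩)
      rw [hl] at h3
      calc u ⟨q, hqn⟩ * 2 ^ L ≤ 2 ^ ((q + 1) * L) * 2 ^ L := Nat.mul_le_mul_right _ h3.le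
        _ = 2 ^ ((q + 2) * L) := by rw [← pow_add]; congr 1; ring
        _ ≤ 2 ^ l t := by
          refine Nat.pow_le_pow_right (by norm_num) ?_
          rw [hl]
          exact Nat.mul_le_mul_right _ (by omega)
    · rw [smul_eq_mul]
      exact Nat.mul_le_mul_right _ hc
  have h2 : ((∑ q ∈ S, exU u q : ℕ) : ℝ) * 2 ^ L ≤ n * 2 ^ l t := by exact_mod_cast h1
  have h4 : (0 : ℝ) < 2 ^ l t := by positivity
  have h5 : (0 : ℝ) < 2 ^ L := by positivity
  rw [div_le_div_iff₀ h4 h5]
  linarith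

theorem exU_upd {n : ℕ} (u : Fin (n + 1) → ℕ) (I : Fin (n + 1)) (k : ℕ) (q : ℕ) :
    exU (Function.update u I k) q = if q = (I : ℕ) then k else exU u q := by
  unfold exU
  by_cases h : q < n + 1
  · rw [dif_pos h, dif_pos h]
    by_cases h2 : q = (I : ℕ)
    · subst h2
      simp
    · rw [if_neg h2, Function.update_of_ne]
      intro h3
      apply h2
      rw [← h3]
  · rw [dif_neg h, dif_neg h]
    by_cases h2 : q = (I : ℕ)
    · exact absurd (h2 ▸ I.2) h
    · rw [if_neg h2]

theorem gsum (n : ℕ) : ∑ j ∈ range n, (j : ℝ) = n * (n - 1) / 2 := by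
  induction n with
  | zero => simp
  | succ n ih =>
    rw [Finset.sum_range_succ, ih]
    push_cast
    ring

theorem far_val (f : (Fin 3 → ℕ) → ℝ) (hf : ∀ n, |f n| ≤ 1) (V : ℝ)
    (hV : ∀ ε : ℝ, 0 < ε → ∃ X : ℕ, ∀ x c : Fin 3 → ℕ, (∀ s, X ≤ x s) →
      |avC x (fun n => f (n + c)) - V| ≤ ε)
    (D : ℝ) (hch : ∀ (n : ℕ) (u : ℕ → ℕ), (n : ℝ) ^ 2 * D ≤ n + 2 * ∑ j ∈ range n, ∑ i ∈ range j,
      f (nv (∑ q ∈ range (i + 1), u q) (∑ q ∈ Ico (i + 1) (j + 1), u q)
        (∑ q ∈ Ico (j + 1) (n + 1), u q))) : D ≤ V := by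
  -- the bound for each n and each ε
  have key : ∀ (n : ℕ) (ε : ℝ), 0 < ε → (n : ℝ) ^ 2 * D ≤ n + n * (n - 1) * (V + 2 * ε) := by
    intro n ε hε
    obtain ⟨X, hX⟩ := hV ε hε
    obtain ⟨L0, hL0⟩ := exists_nat_gt (6 * (n : ℝ) / ε)
    set L := max (max X L0) 1 with hLdef
    have hXL : X ≤ L := (le_max_left _ _).trans (le_max_left _ _)
    have hL0L : L0 ≤ L := (le_max_right _ _).trans (le_max_left _ _)
    have h6 : 3 * (2 * (n : ℝ) / 2 ^ L) ≤ ε := by
      have h1 : (L0 : ℝ) ≤ L := by exact_mod_cast hL0L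
      have h2 : (L : ℝ) ≤ 2 ^ L := by exact_mod_cast (Nat.lt_two_pow_self (n := L)).le
      have h3 : 6 * (n : ℝ) < ε * 2 ^ L := by
        have := (div_lt_iff₀ hε).1 hL0
        nlinarith
      have h5 : (0 : ℝ) < 2 ^ L := by positivity
      rw [show 3 * (2 * (n : ℝ) / 2 ^ L) = (6 * n) / 2 ^ L by ring, div_le_iff₀ h5]
      exact h3.le
    set l : Fin (n + 1) → ℕ := fun s => ((s : ℕ) + 1) * L with hl
    have hl' : ∀ s, l s = ((s : ℕ) + 1) * L := fun s => rfl
    have hlX : ∀ s, X ≤ l s := by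
      intro s
      rw [hl']
      calc X ≤ 1 * L := by omega
        _ ≤ ((s : ℕ) + 1) * L := Nat.mul_le_mul_right _ (by omega)
    have mC := mn_avC l
    set G : ℕ → ℕ → (Fin (n + 1) → ℕ) → ℝ := fun i j u =>
      f (nv (∑ q ∈ range (i + 1), exU u q) (∑ q ∈ Ico (i + 1) (j + 1), exU u q)
        (∑ q ∈ Ico (j + 1) (n + 1), exU u q)) with hG
    have claim : ∀ i j : ℕ, i < j → j < n → avC l (G i j) ≤ V + 2 * ε := by
      intro i j hij hjn
      let I : Fin (n + 1) := ⟨i, by omega⟩
      let J : Fin (n + 1) := ⟨j, by omega⟩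
      let N : Fin (n + 1) := ⟨n, by omega⟩
      rw [avC_resample l N, avC_resample l J, avC_resample l I]
      refine avC_le_of l _ _ fun u hu => ?_
      have e1 : (fun k => av (2 ^ l J) (fun k' => av (2 ^ l N) (fun k'' => G i j
          (Function.update (Function.update (Function.update u I k) J k') N k'')))) =
          (fun k => av (2 ^ l J) (fun k' => av (2 ^ l N) (fun k'' =>
            f (nv (k + ∑ q ∈ range i, exU u q) (k' + ∑ q ∈ Ico (i + 1) j, exU u q)
              (k'' + ∑ q ∈ Ico (j + 1) n, exU u q))))) := by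
        funext k
        congr 1
        funext k'
        congr 1
        funext k''
        have hI : (I : ℕ) = i := rfl
        have hJ : (J : ℕ) = j := rfl
        have hN : (N : ℕ) = n := rfl
        have a1 : ∑ q ∈ range (i + 1), exU (Function.update (Function.update
            (Function.update u I k) J k') N k'') q = k + ∑ q ∈ range i, exU u q := by
          rw [Finset.sum_range_succ, add_comm]
          congr 1
          · rw [exU_upd, exU_upd, exU_upd, hI, hJ, hN, if_neg (by omega), if_neg (by omega),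
              if_pos rfl]
          · refine Finset.sum_congr rfl fun q hq => ?_
            rw [mem_range] at hq
            rw [exU_upd, exU_upd, exU_upd, hI, hJ, hN, if_neg (by omega), if_neg (by omega),
              if_neg (by omega)]
        have a2 : ∑ q ∈ Ico (i + 1) (j + 1), exU (Function.update (Function.update
            (Function.update u I k) J k') N k'') q = k' + ∑ q ∈ Ico (i + 1) j, exU u q := by
          rw [Finset.sum_Ico_succ_top (by omega), add_comm]
          congr 1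
          · rw [exU_upd, exU_upd, hJ, hN, if_neg (by omega), if_pos rfl]
          · refine Finset.sum_congr rfl fun q hq => ?_
            rw [mem_Ico] at hq
            rw [exU_upd, exU_upd, exU_upd, hI, hJ, hN, if_neg (by omega), if_neg (by omega),
              if_neg (by omega)]
        have a3 : ∑ q ∈ Ico (j + 1) (n + 1), exU (Function.update (Function.update
            (Function.update u I k) J k') N k'') q = k'' + ∑ q ∈ Ico (j + 1) n, exU u q := by
          rw [Finset.sum_Ico_succ_top (by omega), add_comm]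
          congr 1
          · rw [exU_upd, hN, if_pos rfl]
          · refine Finset.sum_congr rfl fun q hq => ?_
            rw [mem_Ico] at hq
            rw [exU_upd, exU_upd, exU_upd, hI, hJ, hN, if_neg (by omega), if_neg (by omega),
              if_neg (by omega)]
        simp only [hG]
        rw [a1, a2, a3]
      have e2 := three_shift f hf (l I) (l J) (l N) (∑ q ∈ range i, exU u q)
        (∑ q ∈ Ico (i + 1) j, exU u q) (∑ q ∈ Ico (j + 1) n, exU u q)
      have b1 := small_sum L l hl' u hu I (range i) (fun q hq => mem_range.1 hq)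
      have b2 := small_sum L l hl' u hu J (Ico (i + 1) j) (fun q hq => (mem_Ico.1 hq).2)
      have b3 := small_sum L l hl' u hu N (Ico (j + 1) n) (fun q hq => (mem_Ico.1 hq).2)
      have e3 := hX ![l I, l J, l N] 0 (by
        intro s
        fin_cases s
        · exact hlX I
        · exact hlX J
        · exact hlX N)
      simp only [add_zero] at e3
      rw [avC_three] at e3
      have e3' : |av (2 ^ l I) (fun k => av (2 ^ l J) (fun k' => av (2 ^ l N) (fun k'' =>
        f (nv k k' k'')))) - V| ≤ ε := e3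
      have e4 := (abs_le.mp e2).2
      have e5 := (abs_le.mp e3').2
      show av (2 ^ l I) (fun k => av (2 ^ l J) (fun k' => av (2 ^ l N) (fun k'' => G i j
          (Function.update (Function.update (Function.update u I k) J k') N k'')))) ≤ V + 2 * ε
      rw [e1]
      linarith
    have h1 : (n : ℝ) ^ 2 * D ≤ avC l (fun u => n + 2 * ∑ j ∈ range n, ∑ i ∈ range j, G i j u) := by
      rw [← mC.const ((n : ℝ) ^ 2 * D)]
      exact mC.mono _ _ fun u => hch n (exU u)
    have h2 : avC l (fun u => n + 2 * ∑ j ∈ range n, ∑ i ∈ range j, G i j u) =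
        n + 2 * ∑ j ∈ range n, ∑ i ∈ range j, avC l (G i j) := by
      rw [mC.add (fun _ => (n : ℝ)) (fun u => 2 * ∑ j ∈ range n, ∑ i ∈ range j, G i j u), mC.const,
        mC.mul, mC.sum]
      congr 2
      refine Finset.sum_congr rfl fun j _ => ?_
      rw [mC.sum]
    have h3 : ∑ j ∈ range n, ∑ i ∈ range j, avC l (G i j) ≤
        ∑ j ∈ range n, ∑ _i ∈ range j, (V + 2 * ε) :=
      Finset.sum_le_sum fun j hj => Finset.sum_le_sum fun i hi =>
        claim i j (mem_range.1 hi) (mem_range.1 hj)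
    have h4 : ∑ j ∈ range n, ∑ _i ∈ range j, (V + 2 * ε) = n * (n - 1) / 2 * (V + 2 * ε) := by
      simp only [Finset.sum_const, card_range, nsmul_eq_mul]
      rw [← Finset.sum_mul]
      congr 1
      exact gsum n
    rw [h2] at h1
    rw [h4] at h3
    linarith
  -- the limit
  by_contra hlt
  push Not at hlt
  set δ := (D - V) / 4 with hδ
  have hδ0 : 0 < δ := by rw [hδ]; linarith
  obtain ⟨n, hn⟩ := exists_nat_gt ((1 + |V + 2 * δ|) / (2 * δ))
  have hn0 : (0 : ℝ) < n := lt_of_le_of_lt (by positivity) hn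
  have h1 := key n δ hδ0
  have h2 := (div_lt_iff₀ (by positivity : (0 : ℝ) < 2 * δ)).1 hn
  have h3 : D = V + 4 * δ := by rw [hδ]; ring
  rw [h3] at h1
  have h4 := neg_abs_le (V + 2 * δ)
  -- n^2 (V + 4δ) ≤ n + n (n-1) (V + 2δ)
  have h5 : (n : ℝ) * (V + 4 * δ) ≤ 1 + (n - 1) * (V + 2 * δ) := by
    have : (n : ℝ) * ((n : ℝ) * (V + 4 * δ)) ≤ n * (1 + (n - 1) * (V + 2 * δ)) := by nlinarith
    exact le_of_mul_le_mul_left this hn0
  nlinarith

end Pool.Agent.Lib.MP_90b327_co.UC
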