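import Mathlib
import Pool.Agent.Lib.MP_90b327_co.UC.UDefs
import Pool.Agent.Lib.MP_90b327_co.WW.WDefs

/-!
MODULE URem. The general removal lemma for the limit kernel `WW.JK d C D g`. Compare `EX/ERem.lean`
(d = 2, the same proof).
-/

set_option autoImplicit false

namespace Pool.Agent.Lib.MP_90b327_co.UC

open Finset MeasureTheory Filter Topology Pool.Agent.Lib.MP_90b327_co

theorem rem_many {d : ℕ} {Cs : WW.Shp d} {D : ℝ} {g : Finset (Fin d → ℕ) → Finset (Fin d → ℕ) → ℝ}
    (h : WW.JK d Cs D g) (U : Finset ℕ) (X Y : Finset (Fin d → ℕ))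
    (hU : ∀ x : Fin d → ℕ, (∃ i, x i ∈ U) → (x ∈ X ↔ x ∈ Y)) :
    g X Y = g (X.filter (fun x => ∀ i, x i ∉ U)) (Y.filter (fun x => ∀ i, x i ∉ U)) := by
  induction U using Finset.induction_on generalizing X Y with
  | empty => simp
  | insert v C hv ih =>
    have h1 : ∀ Z : Finset (Fin d → ℕ), (Z.filter (fun c => ∀ i, c i ≠ v)).filter
        (fun c => ∀ i, c i ∉ C) = Z.filter (fun c => ∀ i, c i ∉ insert v C) := by
      intro Z
      ext x
      simp only [mem_filter, mem_insert, not_or]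
      constructor
      · rintro ⟨⟨h1, h2⟩, h3⟩
        exact ⟨h1, fun i => ⟨h2 i, h3 i⟩⟩
      · rintro ⟨h1, h2⟩
        exact ⟨⟨h1, fun i => (h2 i).1⟩, fun i => (h2 i).2⟩
    rw [h.rem X Y v (fun c hc => hU c (hc.imp fun i e => by rw [e]; exact mem_insert_self _ _)),
      ih (X.filter (fun c => ∀ i, c i ≠ v)) (Y.filter (fun c => ∀ i, c i ≠ v)) ?_, h1, h1]
    intro x hx
    simp only [mem_filter]
    rw [hU x (hx.imp fun i e => mem_insert_of_mem e)]

section copies

private def rmv (q m a : ℕ) : ℕ := if a = q then m else a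

private theorem rmv_self (q m : ℕ) : rmv q m q = m := if_pos rfl

private theorem rmv_ne {q m a : ℕ} (h : a ≠ q) : rmv q m a = a := if_neg h

private def Bd {d : ℕ} (n : ℕ) (Z : Finset (Fin d → ℕ)) : Prop := ∀ c ∈ Z, ∀ i, c i < n

private def WC {d : ℕ} {ι : Type} [Fintype ι] (q : ℕ) (f : ι → ℕ) (U : Finset (Fin d → ℕ))
    (V : ι → Finset (Fin d → ℕ)) : Finset (Fin d → ℕ) :=
  U.filter (fun c => ∀ i, c i ≠ q) ∪
    univ.biUnion (fun s => ((V s).filter (fun c => ∃ i, c i = q)).image (fun c => rmv q (f s) ∘ c))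

private theorem mem_WC {d : ℕ} {ι : Type} [Fintype ι] (q : ℕ) (f : ι → ℕ)
    (U : Finset (Fin d → ℕ)) (V : ι → Finset (Fin d → ℕ)) (c : Fin d → ℕ) :
    c ∈ WC q f U V ↔ (c ∈ U ∧ ∀ i, c i ≠ q) ∨
      ∃ s, ∃ z ∈ V s, (∃ i, z i = q) ∧ rmv q (f s) ∘ z = c := by
  unfold WC
  simp only [mem_union, mem_filter, mem_biUnion, mem_univ, true_and, mem_image]
  constructor
  · rintro (h | ⟨s, z, ⟨h1, h2⟩, h3⟩)
    · exact Or.inl h
    · exact Or.inr ⟨s, z, h1, h2, h3⟩
  · rintro (h | ⟨s, z, h1, h2, h3⟩)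
    · exact Or.inl h
    · exact Or.inr ⟨s, z, ⟨h1, h2⟩, h3⟩

/-- the two patterns agree at the copy `f s` -/
private theorem agree_copy {d : ℕ} {ι : Type} [Fintype ι] {q n : ℕ} {f : ι → ℕ}
    (hfn : ∀ s, n ≤ f s) (hfi : ∀ s s', f s = f s' → s = s') {U U' : Finset (Fin d → ℕ)}
    {V V' : ι → Finset (Fin d → ℕ)} (hU : Bd n U) (hU' : Bd n U') (hV : ∀ s, Bd n (V s))
    (hV' : ∀ s, Bd n (V' s)) (s : ι) (hs : V s = V' s) (c : Fin d → ℕ) (hc : ∃ i, c i = f s) :
    c ∈ WC q f U V ↔ c ∈ WC q f U' V' := by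
  have key : ∀ {U U' : Finset (Fin d → ℕ)} {V V' : ι → Finset (Fin d → ℕ)}, Bd n U →
      (∀ s, Bd n (V s)) → V s = V' s → c ∈ WC q f U V → c ∈ WC q f U' V' := by
    intro U U' V V' hU hV hs hm
    rw [mem_WC] at hm ⊢
    have hn := hfn s
    obtain ⟨i, hi⟩ := hc
    rcases hm with ⟨h1, _⟩ | ⟨s', z, hz, h1, h2⟩
    · have := hU c h1 i
      omega
    · right
      have hss : s' = s := by
        by_contra hne
        have hne' : f s' ≠ f s := fun h => hne (hfi _ _ h)
        have hzn := hV s' z hz i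
        have h3 : rmv q (f s') (z i) = f s := by rw [← hi, ← h2]; rfl
        by_cases hd1 : z i = q
        · rw [hd1, rmv_self] at h3; exact hne' h3
        · rw [rmv_ne hd1] at h3; omega
      subst hss
      exact ⟨s', z, hs ▸ hz, h1, h2⟩
  exact ⟨key hU hV hs, key hU' hV' hs.symm⟩

/-- emptying the vertices of `C` (copies only) -/
private theorem filter_WC {d : ℕ} {ι : Type} [Fintype ι] {q n : ℕ} {f : ι → ℕ} {C : Finset ℕ}
    (hC : ∀ a ∈ C, n ≤ a) {U : Finset (Fin d → ℕ)} {V : ι → Finset (Fin d → ℕ)} (hU : Bd n U)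
    (hV : ∀ s, Bd n (V s)) : (WC q f U V).filter (fun c => ∀ i, c i ∉ C) =
      WC q f U (fun s => if f s ∈ C then ∅ else V s) := by
  ext c
  rw [mem_filter, mem_WC, mem_WC]
  constructor
  · rintro ⟨h | ⟨s, z, hz, ⟨i, hi⟩, h2⟩, h4⟩
    · exact Or.inl h
    · right
      have hfs : f s ∉ C := by
        have := h4 i
        rw [← h2] at this
        show f s ∉ C
        rw [Function.comp_apply, hi, rmv_self] at this
        exact this
      exact ⟨s, z, by rw [if_neg hfs]; exact hz, ⟨i, hi⟩, h2⟩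
  · rintro (⟨h1, h2⟩ | ⟨s, z, hz, h1, h2⟩)
    · refine ⟨Or.inl ⟨h1, h2⟩, fun i hi => ?_⟩
      have := hC _ hi
      have := hU c h1 i
      omega
    · by_cases hfs : f s ∈ C
      · rw [if_pos hfs] at hz
        exact absurd hz (notMem_empty _)
      · rw [if_neg hfs] at hz
        refine ⟨Or.inr ⟨s, z, hz, h1, h2⟩, fun i => ?_⟩
        rw [← h2, Function.comp_apply]
        by_cases hdp : z i = q
        · rw [hdp, rmv_self]; exact hfs
        · rw [rmv_ne hdp]
          intro hi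
          have := hC _ hi
          have := hV s z hz i
          omega

/-- only one copy left: a relabelling -/
private theorem WC_one {d : ℕ} {ι : Type} [Fintype ι] {q n : ℕ} {f : ι → ℕ}
    (hfn : ∀ s, n ≤ f s) (s : ι) (U Z : Finset (Fin d → ℕ)) (hZ : Bd n Z)
    (hUZ : ∀ c : Fin d → ℕ, (∀ i, c i ≠ q) → (c ∈ U ↔ c ∈ Z)) (V : ι → Finset (Fin d → ℕ))
    (hVs : V s = Z) (hV : ∀ s', s' ≠ s → V s' = ∅) :
    WC q f U V = WW.mv (Equiv.swap q (f s)) Z := by
  have hn := hfn s
  have hsw : ∀ a, a < n → Equiv.swap q (f s) a = rmv q (f s) a := by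
    intro a ha
    by_cases h : a = q
    · rw [h, Equiv.swap_apply_left, rmv_self]
    · rw [Equiv.swap_apply_of_ne_of_ne h (by omega), rmv_ne h]
  have hsz : ∀ z ∈ Z, (Equiv.swap q (f s)) ∘ z = rmv q (f s) ∘ z := by
    intro z hz
    funext i
    exact hsw _ (hZ z hz i)
  ext c
  rw [mem_WC]
  unfold WW.mv
  rw [mem_image]
  constructor
  · rintro (⟨h1, h2⟩ | ⟨s', z, hz, h1, h2⟩)
    · have hc := (hUZ c h2).1 h1
      refine ⟨c, hc, ?_⟩
      rw [hsz c hc]
      funext i
      exact rmv_ne (h2 i)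
    · by_cases hss : s' = s
      · subst hss
        rw [hVs] at hz
        exact ⟨z, hz, by rw [hsz z hz, h2]⟩
      · rw [hV s' hss] at hz
        exact absurd hz (notMem_empty _)
  · rintro ⟨z, hz, rfl⟩
    by_cases h2 : ∃ i, z i = q
    · right
      exact ⟨s, z, hVs ▸ hz, h2, (hsz z hz).symm⟩
    · left
      push Not at h2
      have e : (Equiv.swap q (f s)) ∘ z = z := by
        rw [hsz z hz]
        funext i
        exact rmv_ne (h2 i)
      rw [e]
      exact ⟨(hUZ z h2).2 hz, h2⟩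

/-- two copies left: a relabelling of a fixed pattern -/
private theorem WC_two {d : ℕ} {ι : Type} [Fintype ι] {q n : ℕ} {f : ι → ℕ}
    (s s' : ι) (U Z Z' : Finset (Fin d → ℕ)) (hU : Bd n U) (hZ : Bd n Z)
    (hZ' : Bd n Z') (V : ι → Finset (Fin d → ℕ)) (hVs : V s = Z) (hVs' : V s' = Z')
    (hV : ∀ s'', s'' ≠ s → s'' ≠ s' → V s'' = ∅)
    (τ : ℕ → ℕ) (hτ : ∀ a < n, τ a = a) (hτ0 : τ n = f s) (hτ1 : τ (n + 1) = f s') :
    WC q f U V = WW.mv τ (WC q (fun b : Bool => if b then n + 1 else n) U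
      (fun b : Bool => if b then Z' else Z)) := by
  have e : ∀ (m a : ℕ), a < n → τ (rmv q m a) = rmv q (τ m) a := by
    intro m a ha
    by_cases h : a = q
    · rw [h, rmv_self, rmv_self]
    · rw [rmv_ne h, rmv_ne h, hτ a ha]
  have e' : ∀ (m : ℕ) (z : Fin d → ℕ), (∀ i, z i < n) → τ ∘ (rmv q m ∘ z) = rmv q (τ m) ∘ z := by
    intro m z hz
    funext i
    exact e m _ (hz i)
  ext c
  rw [mem_WC]
  unfold WW.mv
  rw [mem_image]
  constructor
  · rintro (⟨h1, h2⟩ | ⟨t, z, hz, h1, h2⟩)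
    · refine ⟨c, (mem_WC _ _ _ _ _).2 (Or.inl ⟨h1, h2⟩), ?_⟩
      funext i
      exact hτ _ (hU c h1 i)
    · by_cases ht : t = s
      · subst ht
        rw [hVs] at hz
        refine ⟨rmv q n ∘ z, (mem_WC _ _ _ _ _).2 (Or.inr ⟨false, z, by simpa using hz, h1, by simp⟩), ?_⟩
        rw [e' _ z (hZ z hz), hτ0, h2]
      · by_cases ht' : t = s'
        · subst ht'
          rw [hVs'] at hz
          refine ⟨rmv q (n + 1) ∘ z, (mem_WC _ _ _ _ _).2
            (Or.inr ⟨true, z, by simpa using hz, h1, by simp⟩), ?_⟩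
          rw [e' _ z (hZ' z hz), hτ1, h2]
        · rw [hV t ht ht'] at hz
          exact absurd hz (notMem_empty _)
  · rintro ⟨x, hx, rfl⟩
    rw [mem_WC] at hx
    rcases hx with ⟨h1, h2⟩ | ⟨b, z, hz, h1, h2⟩
    · left
      have : τ ∘ x = x := by
        funext i
        exact hτ _ (hU x h1 i)
      rw [this]
      exact ⟨h1, h2⟩
    · right
      cases b
      · simp only [Bool.false_eq_true, if_false] at hz h2
        exact ⟨s, z, hVs ▸ hz, h1, by rw [← h2, e' _ z (hZ z hz), hτ0]⟩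
      · simp only [if_true] at hz h2
        exact ⟨s', z, hVs' ▸ hz, h1, by rw [← h2, e' _ z (hZ' z hz), hτ1]⟩

/-- statement `P T` of the removal lemma -/
private def RPT {d : ℕ} (g : Finset (Fin d → ℕ) → Finset (Fin d → ℕ) → ℝ) (T : Finset ℕ) : Prop :=
  ∀ (X Y : Finset (Fin d → ℕ)) (c : Fin d → ℕ), c ∉ X → c ∉ Y → T ⊆ rg c →
    (∀ x : Fin d → ℕ, T ⊆ rg x → (x ∈ X ↔ x ∈ Y)) → g (insert c X) (insert c Y) = g X Y

/-- difference cells do not contain all of `T` -/
private theorem agree_T {d : ℕ} {ι : Type} [Fintype ι] {q n : ℕ} {f : ι → ℕ} {T : Finset ℕ}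
    (hT : ∀ a ∈ T, a < n) (hfn : ∀ s, n ≤ f s) {U : Finset (Fin d → ℕ)}
    {V V' : ι → Finset (Fin d → ℕ)}
    (hV : ∀ t, ∀ z : Fin d → ℕ, insert q T ⊆ rg z → (z ∈ V t ↔ z ∈ V' t))
    (x : Fin d → ℕ) (hx : T ⊆ rg x) : x ∈ WC q f U V ↔ x ∈ WC q f U V' := by
  have key : ∀ {V V' : ι → Finset (Fin d → ℕ)},
      (∀ t, ∀ z : Fin d → ℕ, insert q T ⊆ rg z → (z ∈ V t ↔ z ∈ V' t)) →
      x ∈ WC q f U V → x ∈ WC q f U V' := by
    intro V V' hV hm
    rw [mem_WC] at hm ⊢
    rcases hm with h | ⟨s, z, hz, h1, h2⟩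
    · exact Or.inl h
    · right
      refine ⟨s, z, (hV s z ?_).1 hz, h1, h2⟩
      intro a ha
      rw [mem_insert] at ha
      rcases ha with rfl | ha
      · obtain ⟨i, hi⟩ := h1
        rw [rg, mem_image]
        exact ⟨i, mem_univ _, hi⟩
      · have h3 := hx ha
        rw [rg, mem_image] at h3 ⊢
        obtain ⟨i, _, hi⟩ := h3
        refine ⟨i, mem_univ _, ?_⟩
        have h4 : rmv q (f s) (z i) = a := by rw [← hi, ← h2]; rfl
        by_cases hzi : z i = q
        · rw [hzi, rmv_self] at h4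
          have := hfn s
          have := hT a ha
          omega
        · rwa [rmv_ne hzi] at h4
  exact ⟨key hV, key (fun t z hz => (hV t z hz).symm)⟩

/-- a copy of the cell `c` -/
private theorem WC_insert {d : ℕ} {ι : Type} [Fintype ι] [DecidableEq ι] {q n : ℕ} {f : ι → ℕ}
    (hfn : ∀ s, n ≤ f s) (hfi : ∀ s s', f s = f s' → s = s')
    {U : Finset (Fin d → ℕ)} {V : ι → Finset (Fin d → ℕ)} (hU : Bd n U) (hV : ∀ s, Bd n (V s))
    (t : ι) (c : Fin d → ℕ) (hc : ∃ i, c i = q) (hcn : ∀ i, c i < n) (hct : c ∈ V t) :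
    rmv q (f t) ∘ c ∉ WC q f U (Function.update V t ((V t).erase c)) ∧
      WC q f U V = insert (rmv q (f t) ∘ c) (WC q f U (Function.update V t ((V t).erase c))) := by
  have hinj : ∀ z z' : Fin d → ℕ, (∀ i, z i < n) → (∀ i, z' i < n) →
      rmv q (f t) ∘ z = rmv q (f t) ∘ z' → z = z' := by
    intro z z' hz hz' he
    funext i
    have h1 : rmv q (f t) (z i) = rmv q (f t) (z' i) := congrFun he i
    have h2 := hfn t
    have h3 := hz i
    have h4 := hz' i
    unfold rmv at h1
    split_ifs at h1 with h5 h6 h6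
    · rw [h5, h6]
    · omega
    · omega
    · exact h1
  constructor
  · rw [mem_WC]
    obtain ⟨i, hi⟩ := hc
    rintro (⟨h1, _⟩ | ⟨s, z, hz, h1, h2⟩)
    · have h3 := hU _ h1 i
      rw [Function.comp_apply, hi, rmv_self] at h3
      have := hfn t
      omega
    · by_cases hst : s = t
      · subst hst
        rw [Function.update_self, mem_erase] at hz
        exact hz.1 (hinj z c (hV s z hz.2) hcn h2)
      · rw [Function.update_of_ne hst] at hz
        obtain ⟨j, hj⟩ := h1
        have h3 : rmv q (f s) (z j) = rmv q (f t) (c j) := congrFun h2 j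
        rw [hj, rmv_self] at h3
        by_cases h4 : c j = q
        · rw [h4, rmv_self] at h3
          exact hst (hfi _ _ h3)
        · rw [rmv_ne h4] at h3
          have := hfn s
          have := hcn j
          omega
  · ext x
    rw [mem_insert, mem_WC, mem_WC]
    constructor
    · rintro (h | ⟨s, z, hz, h1, h2⟩)
      · exact Or.inr (Or.inl h)
      · by_cases hst : s = t
        · subst hst
          by_cases hzc : z = c
          · left; rw [← h2, hzc]
          · right; right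
            exact ⟨s, z, by rw [Function.update_self, mem_erase]; exact ⟨hzc, hz⟩, h1, h2⟩
        · right; right
          exact ⟨s, z, by rw [Function.update_of_ne hst]; exact hz, h1, h2⟩
    · rintro (h | h | ⟨s, z, hz, h1, h2⟩)
      · exact Or.inr ⟨t, c, hct, hc, h.symm⟩
      · exact Or.inl h
      · by_cases hst : s = t
        · subst hst
          rw [Function.update_self, mem_erase] at hz
          exact Or.inr ⟨s, z, hz.2, h1, h2⟩
        · rw [Function.update_of_ne hst] at hz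
          exact Or.inr ⟨s, z, hz, h1, h2⟩

/-- the copy of the cell `c` is removed in both patterns -/
private theorem strip {d : ℕ} {g : Finset (Fin d → ℕ) → Finset (Fin d → ℕ) → ℝ} {ι : Type}
    [Fintype ι] [DecidableEq ι] {q n : ℕ} {f : ι → ℕ} {T : Finset ℕ} (hP : RPT g T)
    (hT : ∀ a ∈ T, a < n) (hqT : q ∉ T) (hfn : ∀ s, n ≤ f s)
    (hfi : ∀ s s', f s = f s' → s = s') {U : Finset (Fin d → ℕ)}
    {V V' : ι → Finset (Fin d → ℕ)} (hU : Bd n U) (hV : ∀ s, Bd n (V s)) (hV' : ∀ s, Bd n (V' s))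
    (hVV : ∀ t, ∀ z : Fin d → ℕ, insert q T ⊆ rg z → (z ∈ V t ↔ z ∈ V' t))
    (t : ι) (c : Fin d → ℕ) (hc : insert q T ⊆ rg c) (hcn : ∀ i, c i < n) :
    g (WC q f U V) (WC q f U V') = g (WC q f U (Function.update V t ((V t).erase c)))
      (WC q f U (Function.update V' t ((V' t).erase c))) := by
  have hcq : ∃ i, c i = q := by
    have h1 := hc (mem_insert_self q T)
    rw [rg, mem_image] at h1
    obtain ⟨i, _, hi⟩ := h1
    exact ⟨i, hi⟩
  by_cases hct : c ∈ V t
  · have hct' : c ∈ V' t := (hVV t c hc).1 hct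
    obtain ⟨h1, h2⟩ := WC_insert hfn hfi hU hV t c hcq hcn hct
    obtain ⟨h3, h4⟩ := WC_insert hfn hfi hU hV' t c hcq hcn hct'
    rw [h2, h4]
    refine hP _ _ _ h1 h3 ?_ (agree_T hT hfn ?_)
    · intro a ha
      have h5 := hc (mem_insert_of_mem ha)
      rw [rg, mem_image] at h5 ⊢
      obtain ⟨i, _, hi⟩ := h5
      refine ⟨i, mem_univ _, ?_⟩
      rw [Function.comp_apply, rmv_ne, hi]
      rw [hi]
      rintro rfl
      exact hqT ha
    · intro s z hz
      by_cases hst : s = t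
      · subst hst
        rw [Function.update_self, Function.update_self, mem_erase, mem_erase, hVV s z hz]
      · rw [Function.update_of_ne hst, Function.update_of_ne hst]
        exact hVV s z hz
  · have hct' : c ∉ V' t := fun h => hct ((hVV t c hc).2 h)
    rw [erase_eq_of_notMem hct, erase_eq_of_notMem hct', Function.update_eq_self,
      Function.update_eq_self]

private theorem rem_fam {d : ℕ} {Cs : WW.Shp d} {D : ℝ}
    {g : Finset (Fin d → ℕ) → Finset (Fin d → ℕ) → ℝ} (h : WW.JK d Cs D g) {q : ℕ} {T : Finset ℕ}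
    (hqT : q ∉ T) (hP : RPT g T) (X Y : Finset (Fin d → ℕ)) (c : Fin d → ℕ) (hX : c ∉ X)
    (hY : c ∉ Y) (hc : insert q T ⊆ rg c)
    (hXY : ∀ x : Fin d → ℕ, insert q T ⊆ rg x → (x ∈ X ↔ x ∈ Y)) :
    ∃ ρ : ℝ, ∀ K : ℕ, ∃ (x : Finset (Fin d → ℕ)) (y : Fin K × Bool → Finset (Fin d → ℕ)),
      (∀ t, g x (y (t, false)) = g X Y) ∧ (∀ t, g x (y (t, true)) = g (insert c X) (insert c Y)) ∧
      ∀ s s', s ≠ s' → g (y s) (y s') = ρ := by
  have hrg : ∀ a ∈ insert q T, ∃ i, c i = a := by
    intro a ha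
    have h1 := hc ha
    rw [rg, mem_image] at h1
    obtain ⟨i, _, hi⟩ := h1
    exact ⟨i, hi⟩
  have hcq : ∃ i, c i = q := hrg q (mem_insert_self q T)
  obtain ⟨n, hcn, hXn, hYn⟩ : ∃ n, (∀ i, c i < n) ∧ Bd n X ∧ Bd n Y := by
    refine ⟨univ.sup c + X.sup (fun z => univ.sup z) + Y.sup (fun z => univ.sup z) + 1,
      fun i => ?_, fun z hz i => ?_, fun z hz i => ?_⟩
    · have h1 : c i ≤ univ.sup c := Finset.le_sup (f := c) (mem_univ i)
      omega
    · have h1 : z i ≤ univ.sup z := Finset.le_sup (f := z) (mem_univ i)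
      have h2 : univ.sup z ≤ X.sup (fun z => univ.sup z) :=
        Finset.le_sup (f := fun z : Fin d → ℕ => univ.sup z) hz
      omega
    · have h1 : z i ≤ univ.sup z := Finset.le_sup (f := z) (mem_univ i)
      have h2 : univ.sup z ≤ Y.sup (fun z => univ.sup z) :=
        Finset.le_sup (f := fun z : Fin d → ℕ => univ.sup z) hz
      omega
  have hTn : ∀ a ∈ T, a < n := by
    intro a ha
    obtain ⟨i, hi⟩ := hrg a (mem_insert_of_mem ha)
    rw [← hi]; exact hcn i
  set XX : Bool → Finset (Fin d → ℕ) := fun b => if b then insert c X else X with hXX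
  set YY : Bool → Finset (Fin d → ℕ) := fun b => if b then insert c Y else Y with hYY
  have hXXn : ∀ b, Bd n (XX b) := by
    intro b
    cases b
    · exact hXn
    · intro z hz i
      simp only [hXX, if_true, mem_insert] at hz
      rcases hz with rfl | hz
      · exact hcn i
      · exact hXn z hz i
  have hYYn : ∀ b, Bd n (YY b) := by
    intro b
    cases b
    · exact hYn
    · intro z hz i
      simp only [hYY, if_true, mem_insert] at hz
      rcases hz with rfl | hz
      · exact hcn i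
      · exact hYn z hz i
  have hXp : ∀ b, ∀ z : Fin d → ℕ, (∀ i, z i ≠ q) → (z ∈ X ↔ z ∈ XX b) := by
    intro b z h1
    cases b
    · rfl
    · simp only [hXX, if_true, mem_insert]
      constructor
      · exact Or.inr
      · rintro (rfl | h)
        · obtain ⟨i, hi⟩ := hcq
          exact absurd hi (h1 i)
        · exact h
  have hYp : ∀ b, ∀ z : Fin d → ℕ, (∀ i, z i ≠ q) → (z ∈ Y ↔ z ∈ YY b) := by
    intro b z h1
    cases b
    · rfl
    · simp only [hYY, if_true, mem_insert]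
      constructor
      · exact Or.inr
      · rintro (rfl | h)
        · obtain ⟨i, hi⟩ := hcq
          exact absurd hi (h1 i)
        · exact h
  have hXXe : ∀ b, (XX b).erase c = X := by
    intro b
    cases b
    · exact erase_eq_of_notMem hX
    · exact erase_insert hX
  have hYYe : ∀ b, (YY b).erase c = Y := by
    intro b
    cases b
    · exact erase_eq_of_notMem hY
    · exact erase_insert hY
  have hmX : ∀ b, ∀ z : Fin d → ℕ, insert q T ⊆ rg z → (z ∈ XX b ↔ z ∈ YY b) := by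
    intro b z hz
    cases b
    · exact hXY z hz
    · simp only [hXX, hYY, if_true, mem_insert]
      rw [hXY z hz]
  refine ⟨g (WC q (fun b : Bool => if b then n + 1 else n) Y (fun b : Bool => if b then X else Y))
    (WC q (fun b : Bool => if b then n + 1 else n) Y (fun b : Bool => if b then Y else X)),
    fun K => ?_⟩
  obtain ⟨f, hf⟩ : ∃ f : Fin K × Bool → ℕ, f = fun s => n + 2 * s.1.1 + (if s.2 then 1 else 0) :=
    ⟨_, rfl⟩
  have hfn : ∀ s, n ≤ f s := by
    intro s
    rw [hf]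
    dsimp only
    omega
  have hfi : ∀ s s', f s = f s' → s = s' := by
    rintro ⟨⟨t, ht⟩, b⟩ ⟨⟨t', ht'⟩, b'⟩ hpp
    rw [hf] at hpp
    dsimp only at hpp
    have h1 : t = t' ∧ b = b' := by
      cases b <;> cases b' <;> simp at hpp ⊢ <;> omega
    obtain ⟨rfl, rfl⟩ := h1
    rfl
  set Vx : Fin K × Bool → Finset (Fin d → ℕ) := fun s => XX s.2 with hVx
  set Vy : Fin K × Bool → Fin K × Bool → Finset (Fin d → ℕ) :=
    fun s s' => if s' = s then YY s.2 else XX s'.2 with hVy
  have hVxn : ∀ s, Bd n (Vx s) := fun s => hXXn _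
  have hVyn : ∀ s s', Bd n (Vy s s') := by
    intro s s'
    simp only [hVy]
    split_ifs
    · exact hYYn _
    · exact hXXn _
  -- part (b)
  have hb : ∀ s : Fin K × Bool, g (WC q f X Vx) (WC q f Y (Vy s)) = g (XX s.2) (YY s.2) := by
    intro s
    have hfC : ∀ s', f s' ∈ (univ.erase s).image f ↔ s' ≠ s := by
      intro s'
      rw [mem_image]
      constructor
      · rintro ⟨s'', h1, h2⟩
        rw [← hfi _ _ h2]
        exact (mem_erase.1 h1).1
      · intro h1
        exact ⟨s', mem_erase.2 ⟨h1, mem_univ _⟩, rfl⟩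
    have hCn : ∀ a ∈ (univ.erase s).image f, n ≤ a := by
      intro a ha
      obtain ⟨s', _, h2⟩ := mem_image.1 ha
      rw [← h2]; exact hfn s'
    rw [rem_many h ((univ.erase s).image f) _ _ ?_, filter_WC hCn hXn hVxn,
      filter_WC hCn hYn (hVyn s), WC_one hfn s X (XX s.2) (hXXn _) (hXp _) _ ?_ ?_,
      WC_one hfn s Y (YY s.2) (hYYn _) (hYp _) _ ?_ ?_]
    · exact h.inv _ (Equiv.swap q (f s)).injective _ _
    · rw [if_neg (by rw [hfC]; simp)]
      simp [hVy]
    · intro s' hs'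
      rw [if_pos ((hfC s').2 hs')]
    · rw [if_neg (by rw [hfC]; simp)]
    · intro s' hs'
      rw [if_pos ((hfC s').2 hs')]
    · rintro z ⟨i, hz⟩
      obtain ⟨s', h1, h2⟩ := mem_image.1 hz
      refine agree_copy hfn hfi hXn hYn hVxn (hVyn s) s' ?_ z ⟨i, h2.symm⟩
      simp only [hVx, hVy]
      rw [if_neg (mem_erase.1 h1).1]
  refine ⟨WC q f X Vx, fun s => WC q f Y (Vy s), fun t => hb (t, false), fun t => hb (t, true),
    fun s s' hss => ?_⟩
  -- part (c)
  have hVV : ∀ t, ∀ z : Fin d → ℕ, insert q T ⊆ rg z → (z ∈ Vy s t ↔ z ∈ Vy s' t) := by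
    intro t z hz
    simp only [hVy]
    by_cases e1 : t = s
    · rw [if_pos e1, if_neg (by rw [e1]; exact hss), e1]; exact (hmX _ z hz).symm
    · rw [if_neg e1]
      by_cases e2 : t = s'
      · rw [if_pos e2, e2]; exact hmX _ z hz
      · rw [if_neg e2]
  have hup : ∀ (V : Fin K × Bool → Finset (Fin d → ℕ)) (t : Fin K × Bool), (∀ s, Bd n (V s)) →
      ∀ s, Bd n (Function.update V t ((V t).erase c) s) := by
    intro V t hV s
    by_cases e : s = t
    · subst e
      rw [Function.update_self]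
      exact fun z hz => hV s z (mem_erase.1 hz).2
    · rw [Function.update_of_ne e]
      exact hV s
  rw [strip hP hTn hqT hfn hfi hYn (hVyn s) (hVyn s') hVV s c hc hcn]
  set W := Function.update (Vy s) s ((Vy s s).erase c) with hW
  set W' := Function.update (Vy s') s ((Vy s' s).erase c) with hW'
  have hWn : ∀ t, Bd n (W t) := hup _ s (hVyn s)
  have hWn' : ∀ t, Bd n (W' t) := hup _ s (hVyn s')
  have hWW : ∀ t, ∀ z : Fin d → ℕ, insert q T ⊆ rg z → (z ∈ W t ↔ z ∈ W' t) := by
    intro t z hz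
    rw [hW, hW']
    by_cases e : t = s
    · subst e
      rw [Function.update_self, Function.update_self, mem_erase, mem_erase, hVV t z hz]
    · rw [Function.update_of_ne e, Function.update_of_ne e]
      exact hVV t z hz
  rw [strip hP hTn hqT hfn hfi hYn hWn hWn' hWW s' c hc hcn]
  set Z := Function.update W s' ((W s').erase c) with hZ
  set Z' := Function.update W' s' ((W' s').erase c) with hZ'
  have hZn : ∀ t, Bd n (Z t) := hup _ s' hWn
  have hZn' : ∀ t, Bd n (Z' t) := hup _ s' hWn'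
  have eZs : Z s = Y := by
    rw [hZ, Function.update_of_ne hss, hW, Function.update_self]
    simp only [hVy, if_true]
    exact hYYe _
  have eZs' : Z s' = X := by
    rw [hZ, Function.update_self, hW, Function.update_of_ne hss.symm]
    simp only [hVy]
    rw [if_neg hss.symm]
    exact hXXe _
  have eZs2 : Z' s = X := by
    rw [hZ', Function.update_of_ne hss, hW', Function.update_self]
    simp only [hVy]
    rw [if_neg hss]
    exact hXXe _
  have eZs2' : Z' s' = Y := by
    rw [hZ', Function.update_self, hW', Function.update_of_ne hss.symm]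
    simp only [hVy, if_true]
    exact hYYe _
  have eZt : ∀ t, t ≠ s → t ≠ s' → Z t = Z' t := by
    intro t h1 h2
    rw [hZ, hZ', Function.update_of_ne h2, Function.update_of_ne h2, hW, hW',
      Function.update_of_ne h1, Function.update_of_ne h1]
    simp only [hVy]
    rw [if_neg h1, if_neg h2]
  obtain ⟨C, hC⟩ : ∃ C : Finset ℕ, C = ((univ.erase s).erase s').image f := ⟨_, rfl⟩
  have hfC : ∀ t, f t ∈ C ↔ t ≠ s ∧ t ≠ s' := by
    intro t
    rw [hC, mem_image]
    constructor
    · rintro ⟨s'', h1, h2⟩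
      rw [← hfi _ _ h2]
      have h3 := mem_erase.1 h1
      exact ⟨(mem_erase.1 h3.2).1, h3.1⟩
    · rintro ⟨h1, h2⟩
      exact ⟨t, mem_erase.2 ⟨h2, mem_erase.2 ⟨h1, mem_univ _⟩⟩, rfl⟩
  have hCn : ∀ a ∈ C, n ≤ a := by
    intro a ha
    rw [hC] at ha
    obtain ⟨t, _, h2⟩ := mem_image.1 ha
    rw [← h2]; exact hfn t
  obtain ⟨τ, hτd⟩ : ∃ τ : ℕ → ℕ, τ = fun k => if k < n then k else if k = n then f s else
      if k = n + 1 then f s' else f s + f s' + k := ⟨_, rfl⟩
  have hτ : ∀ a < n, τ a = a := by intro a ha; rw [hτd]; simp [ha]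
  have hτ0 : τ n = f s := by rw [hτd]; simp
  have hτ1 : τ (n + 1) = f s' := by rw [hτd]; simp
  have hfne : f s ≠ f s' := fun h => hss (hfi _ _ h)
  have hτi : Function.Injective τ := by
    intro a b hab
    have h1 := hfn s
    have h2 := hfn s'
    rw [hτd] at hab
    dsimp only at hab
    split_ifs at hab <;> omega
  rw [rem_many h C _ _ ?_, filter_WC hCn hYn hZn, filter_WC hCn hYn hZn',
    WC_two (n := n) s s' Y Y X hYn hYn hXn _ ?_ ?_ ?_ τ hτ hτ0 hτ1,
    WC_two (n := n) s s' Y X Y hYn hXn hYn _ ?_ ?_ ?_ τ hτ hτ0 hτ1]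
  · exact h.inv τ hτi _ _
  · rw [if_neg (by rw [hfC]; tauto), eZs2]
  · rw [if_neg (by rw [hfC]; tauto), eZs2']
  · intro s'' h1 h2
    rw [if_pos ((hfC s'').2 ⟨h1, h2⟩)]
  · rw [if_neg (by rw [hfC]; tauto), eZs]
  · rw [if_neg (by rw [hfC]; tauto), eZs']
  · intro s'' h1 h2
    rw [if_pos ((hfC s'').2 ⟨h1, h2⟩)]
  · rintro z ⟨i, hz⟩
    rw [hC] at hz
    obtain ⟨t, h1, h2⟩ := mem_image.1 hz
    have h3 := mem_erase.1 h1
    exact agree_copy hfn hfi hYn hYn hZn hZn' t (eZt t (mem_erase.1 h3.2).1 h3.1) z ⟨i, h2.symm⟩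

end copies

/-! ### positivity -/

private noncomputable def ww (K : ℕ) (p : Fin K × Bool) : ℝ :=
  if p.2 = true then -(1 / (K : ℝ)) else 1 / K

private theorem ww_sum (K : ℕ) : ∑ p : Fin K × Bool, ww K p = 0 := by
  rw [Fintype.sum_prod_type]
  refine Finset.sum_eq_zero fun t _ => ?_
  rw [Fintype.sum_bool]
  simp [ww]

private theorem ww_sq (K : ℕ) (hK : 1 ≤ K) : ∑ p : Fin K × Bool, ww K p * ww K p = 2 / K := by
  have hK0 : (K : ℝ) ≠ 0 := by
    have : (1 : ℝ) ≤ K := by exact_mod_cast hK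
    linarith
  rw [Fintype.sum_prod_type]
  have h1 : ∀ t : Fin K, ∑ b : Bool, ww K (t, b) * ww K (t, b) = 2 / (K : ℝ) ^ 2 := by
    intro t
    rw [Fintype.sum_bool]
    simp only [ww, if_true, Bool.false_eq_true, if_false]
    field_simp
    norm_num
  rw [Finset.sum_congr rfl fun t _ => h1 t, Finset.sum_const, Finset.card_univ, Fintype.card_fin,
    nsmul_eq_mul]
  field_simp

private theorem ww_double (K : ℕ) (hK : 1 ≤ K) (D q : ℝ) (G : Fin K × Bool → Fin K × Bool → ℝ)
    (hd : ∀ p, G p p = D) (ho : ∀ p p', p ≠ p' → G p p' = q) :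
    ∑ p, ∑ p', ww K p * ww K p' * G p p' = 2 / K * (D - q) := by
  classical
  have h1 : ∀ p, ∑ p', ww K p * ww K p' * G p p' =
      ww K p * (∑ p', ww K p') * q + (D - q) * (ww K p * ww K p) := by
    intro p
    have h2 : ∀ p', ww K p * ww K p' * G p p' = ww K p * ww K p' * q +
        (if p = p' then (D - q) * (ww K p * ww K p') else 0) := by
      intro p'
      by_cases h : p = p'
      · subst h
        rw [if_pos rfl, hd]
        ring
      · rw [if_neg h, ho p p' h, add_zero]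
    rw [Finset.sum_congr rfl fun p' _ => h2 p', Finset.sum_add_distrib, Finset.sum_ite_eq,
      if_pos (Finset.mem_univ p), ← Finset.sum_mul, ← Finset.mul_sum]
  rw [Finset.sum_congr rfl fun p _ => h1 p, Finset.sum_add_distrib, ww_sum, ← Finset.mul_sum,
    ww_sq K hK]
  simp only [mul_zero, zero_mul, Finset.sum_const_zero, zero_add]
  ring

private theorem rpt_step {d : ℕ} {Cs : WW.Shp d} {D : ℝ}
    {g : Finset (Fin d → ℕ) → Finset (Fin d → ℕ) → ℝ} (h : WW.JK d Cs D g) {q : ℕ} {T : Finset ℕ}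
    (hqT : q ∉ T) (hP : RPT g T) : RPT g (insert q T) := by
  intro X Y c hX hY hc hXY
  obtain ⟨r, hr⟩ := rem_fam h hqT hP X Y c hX hY hc hXY
  obtain ⟨e, he⟩ : ∃ e, e = g X Y - g (insert c X) (insert c Y) := ⟨_, rfl⟩
  have key : ∀ K : ℕ, 1 ≤ K → e ^ 2 ≤ (D - D ^ 2) * (2 * (D - r)) / K := by
    intro K hK
    obtain ⟨x, y, h1, h2, h3⟩ := hr K
    have hK0 : (0 : ℝ) < K := by exact_mod_cast hK
    have hlam : ∀ lam : ℝ, 0 ≤ (D - D ^ 2) * (lam * lam) + (2 * e) * lam + 2 / K * (D - r) := by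
      intro lam
      have hp := h.psd (Option (Fin K × Bool)) (fun o => o.elim x y) (fun o => o.elim lam (ww K))
      have h4 : ∑ p, ww K p * g x (y p) = e := by
        rw [Fintype.sum_prod_type]
        have h5 : ∀ t : Fin K, ∑ b : Bool, ww K (t, b) * g x (y (t, b)) = e / K := by
          intro t
          rw [Fintype.sum_bool, h1, h2, he]
          simp only [ww, if_true, Bool.false_eq_true, if_false]
          ring
        rw [Finset.sum_congr rfl fun t _ => h5 t, Finset.sum_const, Finset.card_univ,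
          Fintype.card_fin, nsmul_eq_mul]
        field_simp
      have h5 : ∑ p, ∑ p', ww K p * ww K p' * g (y p) (y p') = 2 / K * (D - r) :=
        ww_double K hK D r (fun p p' => g (y p) (y p')) (fun p => h.diag _) h3
      simp only [Fintype.sum_option, Option.elim_none, Option.elim_some] at hp
      rw [ww_sum, add_zero, Finset.sum_add_distrib, h5, h.diag] at hp
      have h6 : ∑ p, lam * ww K p * g x (y p) = lam * e := by
        rw [← h4, Finset.mul_sum]
        exact Finset.sum_congr rfl fun p _ => by ring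
      have h7 : ∑ p, ww K p * lam * g (y p) x = lam * e := by
        rw [← h4, Finset.mul_sum]
        refine Finset.sum_congr rfl fun p _ => ?_
        rw [h.symm (y p) x]
        ring
      rw [h6, h7] at hp
      linarith
    have hd := discrim_le_zero hlam
    unfold discrim at hd
    have h8 : (D - D ^ 2) * (2 * (D - r)) / K = (D - D ^ 2) * (2 / K * (D - r)) := by ring
    rw [h8]
    linarith
  have he0 : e = 0 := by
    by_contra hne
    have hpos : 0 < e ^ 2 := by positivity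
    obtain ⟨n, hn⟩ := exists_nat_gt ((D - D ^ 2) * (2 * (D - r)) / e ^ 2)
    have h1 := key (n + 1) (by omega)
    have hn1 : (0 : ℝ) < ((n + 1 : ℕ) : ℝ) := by positivity
    rw [le_div_iff₀ hn1] at h1
    rw [div_lt_iff₀ hpos] at hn
    push_cast at h1
    nlinarith
  rw [he] at he0
  linarith

private theorem rpt {d : ℕ} {Cs : WW.Shp d} {D : ℝ}
    {g : Finset (Fin d → ℕ) → Finset (Fin d → ℕ) → ℝ} (h : WW.JK d Cs D g) (T : Finset ℕ) :
    RPT g T := by
  induction T using Finset.induction_on with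
  | empty =>
    intro X Y c _ _ _ hXY
    have : X = Y := by
      ext x
      exact hXY x (empty_subset _)
    rw [this, h.diag, h.diag]
  | insert q T hq ih => exact rpt_step h hq ih

theorem removal {d : ℕ} {Cs : WW.Shp d} {D : ℝ} {g : Finset (Fin d → ℕ) → Finset (Fin d → ℕ) → ℝ}
    (h : WW.JK d Cs D g) (X Y : Finset (Fin d → ℕ)) (c : Fin d → ℕ) (hX : c ∉ X) (hY : c ∉ Y)
    (hr : ∀ x : Fin d → ℕ, rg c ⊆ rg x → (x ∈ X ↔ x ∈ Y)) :
    g (insert c X) (insert c Y) = g X Y :=
  rpt h (rg c) X Y c hX hY (Subset.refl _) hr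

theorem removal_bulk {d : ℕ} {Cs : WW.Shp d} {D : ℝ}
    {g : Finset (Fin d → ℕ) → Finset (Fin d → ℕ) → ℝ}
    (h : WW.JK d Cs D g) (X Y C : Finset (Fin d → ℕ)) (hX : Disjoint C X) (hY : Disjoint C Y)
    (hr : ∀ c ∈ C, ∀ x : Fin d → ℕ, rg c ⊆ rg x → (x ∈ X ↔ x ∈ Y)) :
    g (X ∪ C) (Y ∪ C) = g X Y := by
  induction C using Finset.induction_on with
  | empty => simp
  | insert c C hc ih =>
    rw [disjoint_insert_left] at hX hY
    have e : ∀ Z : Finset (Fin d → ℕ), Z ∪ insert c C = insert c (Z ∪ C) := by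
      intro Z
      rw [union_insert]
    rw [e, e, removal h (X ∪ C) (Y ∪ C) c ?_ ?_ ?_,
      ih hX.2 hY.2 (fun c' hc' => hr c' (mem_insert_of_mem hc'))]
    · rw [mem_union]; exact fun h => h.elim hX.1 hc
    · rw [mem_union]; exact fun h => h.elim hY.1 hc
    · intro x hx
      rw [mem_union, mem_union, hr c (mem_insert_self _ _) x hx]

end Pool.Agent.Lib.MP_90b327_co.UC
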