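import Mathlib
import Pool.Agent.Lib.MP_90b327_co.UC.UDefs
import Pool.Agent.Lib.MP_90b327_co.UC.UCx
import Pool.Agent.Lib.MP_90b327_co.UC.URem

/-!
MODULE UKerA. (45 minutes) The kernel on complexes from the limit kernel: ambient set, invariance.
`ker_big`: the vertices of `B` outside `vs S ∪ vs S'` lie only in common cells (type `al` cells are in both; a type `ga` cell is in neither, as its
set of entries is in neither family): `rem_many` with `U = enc` of these vertices; the filtered sets are `cel k (vs S ∪ vs S') ..`.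
`cel_mp`: the map `enc` is injective; for `φ` type preserving and injective on `B ⊇ vs S`: take `M` larger than all numbers of `φ` on `B` and of `B`,
`σ n = enc (φ (dec n))` for `dec n ∈ B` and `σ n = n + 3 M` otherwise (`dec n = (n % 3, n / 3)`), injective, and
`WW.mv σ (cel k B S) = cel d (B.image φ) (mp φ S)`. `ker_inv`: `JK.inv`.
-/

set_option autoImplicit false

namespace Pool.Agent.Lib.MP_90b327_co.UC

open Finset MeasureTheory Filter Topology Pool.Agent.Lib.MP_90b327_co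

theorem enc_inj : Function.Injective enc := by
  rintro ⟨a, m⟩ ⟨b, n⟩ h
  simp only [enc] at h
  have ha := a.isLt
  have hb := b.isLt
  have h1 : m = n := by omega
  have h2 : (a : ℕ) = b := by omega
  rw [h1, Fin.ext h2]

private theorem mem_cel {d : ℕ} (k : Fin d) (B : Finset V3) (S : Fam (Fin 3)) (x : Fin d → ℕ) :
    x ∈ cel k B S ↔ ∃ y : Fin d → V3, (∀ i, y i ∈ B) ∧
      ((y k).1 = 0 ∨ ((y k).1 = 1 ∧ univ.image y ∈ S)) ∧ (fun i => enc (y i)) = x := by
  unfold cel
  simp only [mem_image, mem_filter, Fintype.mem_piFinset, and_assoc]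

theorem ker_big {d : ℕ} (k : Fin d) {Cs : WW.Shp d} {D : ℝ}
    {g : Finset (Fin d → ℕ) → Finset (Fin d → ℕ) → ℝ} (h : WW.JK d Cs D g) (S S' : Fam (Fin 3))
    (B : Finset V3) (hB : vs S ∪ vs S' ⊆ B) : ker k D g S S' = g (cel k B S) (cel k B S') / D := by
  unfold ker
  congr 1
  set C := vs S ∪ vs S' with hC
  have hen : ∀ v, enc v ∈ (B \ C).image enc ↔ v ∈ B \ C := by
    intro v
    rw [mem_image]
    constructor
    · rintro ⟨w, hw, hwv⟩
      rwa [← enc_inj hwv]
    · exact fun hv => ⟨v, hv, rfl⟩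
  have hfil : ∀ R : Fam (Fin 3), (cel k B R).filter (fun x => ∀ i, x i ∉ (B \ C).image enc) =
      cel k C R := by
    intro R
    ext x
    rw [mem_filter, mem_cel, mem_cel]
    constructor
    · rintro ⟨⟨y, h1, h2, rfl⟩, h3⟩
      refine ⟨y, fun i => ?_, h2, rfl⟩
      have h4 := h3 i
      rw [hen, Finset.mem_sdiff] at h4
      by_contra h5
      exact h4 ⟨h1 i, h5⟩
    · rintro ⟨y, h1, h2, rfl⟩
      refine ⟨⟨y, fun i => hB (h1 i), h2, rfl⟩, fun i => ?_⟩
      rw [hen, Finset.mem_sdiff]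
      exact fun h5 => h5.2 (h1 i)
  have hout : ∀ (R : Fam (Fin 3)), vs R ⊆ C → ∀ (y : Fin d → V3) (i : Fin d), y i ∈ B \ C →
      univ.image y ∉ R := by
    intro R hR y i hi hm
    exact (Finset.mem_sdiff.1 hi).2 (hR (sub_vs hm (mem_image_of_mem y (mem_univ i))))
  have hmove : ∀ (R R' : Fam (Fin 3)), vs R ⊆ C → ∀ x : Fin d → ℕ,
      (∃ i, x i ∈ (B \ C).image enc) → x ∈ cel k B R → x ∈ cel k B R' := by
    rintro R R' hR x ⟨i, hi⟩ hx
    rw [mem_cel] at hx ⊢
    obtain ⟨y, h1, h2, rfl⟩ := hx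
    rw [hen] at hi
    refine ⟨y, h1, ?_, rfl⟩
    rcases h2 with h2 | ⟨_, h2⟩
    · exact Or.inl h2
    · exact absurd h2 (hout R hR y i hi)
  have hS : vs S ⊆ C := subset_union_left
  have hS' : vs S' ⊆ C := subset_union_right
  rw [rem_many h ((B \ C).image enc) (cel k B S) (cel k B S')
    (fun x hx => ⟨hmove S S' hS x hx, hmove S' S hS' x hx⟩), hfil, hfil]

private theorem exists_ext (A : Finset ℕ) (f : ℕ → ℕ) (hf : Set.InjOn f (↑A : Set ℕ)) :
    ∃ σ : ℕ → ℕ, Function.Injective σ ∧ ∀ n ∈ A, σ n = f n := by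
  classical
  refine ⟨fun n => if n ∈ A then f n else n + (A.sup f + 1), ?_, fun n hn => if_pos hn⟩
  intro a b hab
  dsimp only at hab
  by_cases ha : a ∈ A
  · have h1 : f a ≤ A.sup f := Finset.le_sup ha
    by_cases hb : b ∈ A
    · rw [if_pos ha, if_pos hb] at hab
      exact hf ha hb hab
    · rw [if_pos ha, if_neg hb] at hab
      omega
  · by_cases hb : b ∈ A
    · have h1 : f b ≤ A.sup f := Finset.le_sup hb
      rw [if_neg ha, if_pos hb] at hab
      omega
    · rw [if_neg ha, if_neg hb] at hab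
      omega

private theorem cel_mp {d : ℕ} (k : Fin d) (B : Finset V3) (φ : V3 → V3) (hφ : Ty φ)
    (hi : Set.InjOn φ (↑B : Set V3)) (σ : ℕ → ℕ) (hσ : ∀ v ∈ B, σ (enc v) = enc (φ v))
    (S : Fam (Fin 3)) (hS : vs S ⊆ B) :
    WW.mv σ (cel k B S) = cel k (B.image φ) (mp φ S) := by
  have hcond : ∀ y : Fin d → V3, (∀ i, y i ∈ B) →
      (univ.image (fun i => φ (y i)) ∈ mp φ S ↔ univ.image y ∈ S) := by
    intro y hy
    have h1 : univ.image (fun i => φ (y i)) = (univ.image y).image φ := by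
      rw [image_image]
      rfl
    rw [h1]
    refine mem_mp_inj (hi.mono ?_)
    rw [Finset.coe_subset]
    refine union_subset hS fun v hv => ?_
    obtain ⟨i, _, rfl⟩ := mem_image.1 hv
    exact hy i
  ext x
  unfold WW.mv
  rw [mem_image, mem_cel]
  constructor
  · rintro ⟨c, hc, rfl⟩
    rw [mem_cel] at hc
    obtain ⟨y, h1, h2, rfl⟩ := hc
    refine ⟨fun i => φ (y i), fun i => mem_image_of_mem φ (h1 i), ?_, ?_⟩
    · rw [hcond y h1, hφ]
      exact h2
    · funext i
      exact (hσ _ (h1 i)).symm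
  · rintro ⟨z, h1, h2, rfl⟩
    have h3 : ∀ i, ∃ v ∈ B, φ v = z i := fun i => mem_image.1 (h1 i)
    choose y hy hyz using h3
    have hz : z = fun i => φ (y i) := by
      funext i
      exact (hyz i).symm
    subst hz
    rw [hcond y hy, hφ] at h2
    refine ⟨fun i => enc (y i), (mem_cel k B S _).2 ⟨y, hy, h2, rfl⟩, ?_⟩
    funext i
    exact hσ _ (hy i)

theorem ker_inv {d : ℕ} (k : Fin d) {Cs : WW.Shp d} {D : ℝ}
    {g : Finset (Fin d → ℕ) → Finset (Fin d → ℕ) → ℝ} (h : WW.JK d Cs D g) (φ : V3 → V3) (hφ : Ty φ)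
    (S S' : Fam (Fin 3)) (hS : Cx S) (hS' : Cx S') (hi : Set.InjOn φ (↑(vs S ∪ vs S') : Set V3)) :
    ker k D g (mp φ S) (mp φ S') = ker k D g S S' := by
  unfold ker
  congr 1
  have hB : vs (mp φ S) ∪ vs (mp φ S') = (vs S ∪ vs S').image φ := by
    rw [vs_mp, vs_mp, image_union]
  rw [hB]
  set B := vs S ∪ vs S' with hBdef
  obtain ⟨σ, hσi, hσ⟩ := exists_ext (B.image enc) (fun n => enc (φ (Function.invFun enc n))) (by
    intro a ha b hb hab
    obtain ⟨v, hv, rfl⟩ := mem_image.1 (mem_coe.1 ha)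
    obtain ⟨w, hw, rfl⟩ := mem_image.1 (mem_coe.1 hb)
    dsimp only at hab
    rw [Function.leftInverse_invFun enc_inj v, Function.leftInverse_invFun enc_inj w] at hab
    rw [hi (mem_coe.2 hv) (mem_coe.2 hw) (enc_inj hab)])
  have hσ' : ∀ v ∈ B, σ (enc v) = enc (φ v) := by
    intro v hv
    rw [hσ _ (mem_image_of_mem enc hv), Function.leftInverse_invFun enc_inj v]
  rw [← cel_mp k B φ hφ hi σ hσ' S subset_union_left,
    ← cel_mp k B φ hφ hi σ hσ' S' subset_union_right]
  exact h.inv σ hσi _ _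

end Pool.Agent.Lib.MP_90b327_co.UC
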