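import Mathlib
import Pool.Agent.Lib.MP_90b327_co.UC.UDefs
import Pool.Agent.Lib.MP_90b327_co.UC.UKerA
import Pool.Agent.Lib.MP_90b327_co.UC.URem

/-!
MODULE UKerB. (45 minutes) The kernel on complexes is in `KK d`.
`ker_dif`: `B` = all vertices; let `C` be the cells of `B^d` of type `ga` in the first coordinate with set of entries in `(S ∩ S') ∪ (R ∩ R')`, and
`C₁ = C \ (P(S) ∪ P(S'))`, `C₂ = C \ (P(R) ∪ P(R'))` (`P = cel k B`). `removal_bulk` for `P(S), P(S'), C₁` (text, part 2) gives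
`g P(S) P(S') = g (P(S) ∪ C) (P(S') ∪ C)`; same for `R, R'`; and `P(S) ∪ C = P(R) ∪ C`, `P(S') ∪ C = P(R') ∪ C` (the set of entries of a cell has at
most `d` elements).
`ker_KK`: one: `JK.diag`, `D ≠ 0`; symm; psd: `ker_big` with a common `B`, `JK.psd`.
-/

set_option autoImplicit false

namespace Pool.Agent.Lib.MP_90b327_co.UC

open Finset MeasureTheory Filter Topology Pool.Agent.Lib.MP_90b327_co

/-- membership of an encoded cell -/
private theorem mem_cel {d : ℕ} (k : Fin d) (B : Finset V3) (S : Fam (Fin 3)) (x : Fin d → V3) :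
    (fun i => enc (x i)) ∈ cel k B S ↔
      (∀ i, x i ∈ B) ∧ ((x k).1 = 0 ∨ ((x k).1 = 1 ∧ univ.image x ∈ S)) := by
  unfold cel
  rw [mem_image]
  constructor
  · rintro ⟨y, hy, hyx⟩
    have e : y = x := by
      funext i
      exact enc_inj (congrFun hyx i)
    subst e
    rw [mem_filter, Fintype.mem_piFinset] at hy
    exact hy
  · intro hx
    exact ⟨x, by rw [mem_filter, Fintype.mem_piFinset]; exact hx, rfl⟩

private theorem cel_enc {d : ℕ} {k : Fin d} {B : Finset V3} {S : Fam (Fin 3)} {y : Fin d → ℕ}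
    (hy : y ∈ cel k B S) : ∃ x : Fin d → V3, (fun i => enc (x i)) = y := by
  unfold cel at hy
  obtain ⟨x, _, hx⟩ := mem_image.1 hy
  exact ⟨x, hx⟩

private theorem card_cell {d : ℕ} (x : Fin d → V3) : (univ.image x).card ≤ d :=
  card_image_le.trans (by simp)

/-- cells whose sets of entries are in `I` may be added -/
private theorem half {d : ℕ} (k : Fin d) {Cs : WW.Shp d} {D : ℝ}
    {g : Finset (Fin d → ℕ) → Finset (Fin d → ℕ) → ℝ} (h : WW.JK d Cs D g) (B : Finset V3)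
    (S S' I : Fam (Fin 3)) (hS : Cx S) (hS' : Cx S')
    (hI : ∀ T : Finset V3, T.card ≤ d → T ∈ I → (T ∈ S ↔ T ∈ S')) :
    g (cel k B (S ∪ I)) (cel k B (S' ∪ I)) = g (cel k B S) (cel k B S') := by
  set X := cel k B S with hX
  set Y := cel k B S' with hY
  set C := cel k B I \ (X ∪ Y) with hC
  have e1 : cel k B (S ∪ I) = X ∪ C := by
    ext y
    constructor
    · intro hy
      obtain ⟨x, rfl⟩ := cel_enc hy
      have h1 := (mem_cel _ _ _ _).1 hy
      by_cases h2 : (fun i => enc (x i)) ∈ X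
      · exact mem_union_left _ h2
      · refine mem_union_right _ ?_
        rw [hC, Finset.mem_sdiff, mem_union]
        rw [hX, mem_cel] at h2
        rw [hX, hY, mem_cel, mem_cel, mem_cel]
        rcases h1 with ⟨hB, h0 | ⟨h0, h3⟩⟩
        · exact absurd ⟨hB, Or.inl h0⟩ h2
        · rcases mem_union.1 h3 with h3 | h3
          · exact absurd ⟨hB, Or.inr ⟨h0, h3⟩⟩ h2
          · refine ⟨⟨hB, Or.inr ⟨h0, h3⟩⟩, ?_⟩
            rintro (h4 | ⟨_, h4 | ⟨_, h4⟩⟩)
            · exact h2 h4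
            · exact h2 ⟨hB, Or.inl h4⟩
            · exact h2 ⟨hB, Or.inr ⟨h0, (hI _ (card_cell x) h3).2 h4⟩⟩
    · intro hy
      rcases mem_union.1 hy with hy | hy
      · obtain ⟨x, rfl⟩ := cel_enc (hX ▸ hy)
        rw [hX, mem_cel] at hy
        rw [mem_cel]
        exact ⟨hy.1, hy.2.imp id fun h => ⟨h.1, mem_union_left _ h.2⟩⟩
      · rw [hC, Finset.mem_sdiff] at hy
        obtain ⟨x, rfl⟩ := cel_enc hy.1
        have h1 := (mem_cel _ _ _ _).1 hy.1
        rw [mem_cel]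
        exact ⟨h1.1, h1.2.imp id fun h => ⟨h.1, mem_union_right _ h.2⟩⟩
  have e2 : cel k B (S' ∪ I) = Y ∪ C := by
    ext y
    constructor
    · intro hy
      obtain ⟨x, rfl⟩ := cel_enc hy
      have h1 := (mem_cel _ _ _ _).1 hy
      by_cases h2 : (fun i => enc (x i)) ∈ Y
      · exact mem_union_left _ h2
      · refine mem_union_right _ ?_
        rw [hC, Finset.mem_sdiff, mem_union]
        rw [hY, mem_cel] at h2
        rw [hX, hY, mem_cel, mem_cel, mem_cel]
        rcases h1 with ⟨hB, h0 | ⟨h0, h3⟩⟩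
        · exact absurd ⟨hB, Or.inl h0⟩ h2
        · rcases mem_union.1 h3 with h3 | h3
          · exact absurd ⟨hB, Or.inr ⟨h0, h3⟩⟩ h2
          · refine ⟨⟨hB, Or.inr ⟨h0, h3⟩⟩, ?_⟩
            rintro (⟨_, h4 | ⟨_, h4⟩⟩ | h4)
            · exact h2 ⟨hB, Or.inl h4⟩
            · exact h2 ⟨hB, Or.inr ⟨h0, (hI _ (card_cell x) h3).1 h4⟩⟩
            · exact h2 h4
    · intro hy
      rcases mem_union.1 hy with hy | hy
      · obtain ⟨x, rfl⟩ := cel_enc (hY ▸ hy)
        rw [hY, mem_cel] at hy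
        rw [mem_cel]
        exact ⟨hy.1, hy.2.imp id fun h => ⟨h.1, mem_union_left _ h.2⟩⟩
      · rw [hC, Finset.mem_sdiff] at hy
        obtain ⟨x, rfl⟩ := cel_enc hy.1
        have h1 := (mem_cel _ _ _ _).1 hy.1
        rw [mem_cel]
        exact ⟨h1.1, h1.2.imp id fun h => ⟨h.1, mem_union_right _ h.2⟩⟩
  rw [e1, e2]
  refine removal_bulk h X Y C ?_ ?_ ?_
  · rw [hC]
    exact disjoint_of_subset_right subset_union_left sdiff_disjoint
  · rw [hC]
    exact disjoint_of_subset_right subset_union_right sdiff_disjoint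
  · intro c hc y hcy
    rw [hC, Finset.mem_sdiff, mem_union, not_or] at hc
    obtain ⟨z, rfl⟩ := cel_enc hc.1
    obtain ⟨hc1, hc2, hc3⟩ := hc
    have hz := (mem_cel _ _ _ _).1 hc1
    rw [hX, mem_cel] at hc2
    rw [hY, mem_cel] at hc3
    have hz1 : (z k).1 = 1 := by
      rcases hz.2 with h0 | ⟨h0, _⟩
      · exact absurd ⟨hz.1, Or.inl h0⟩ hc2
      · exact h0
    have hzS : univ.image z ∉ S := fun h1 => hc2 ⟨hz.1, Or.inr ⟨hz1, h1⟩⟩
    have hzS' : univ.image z ∉ S' := fun h1 => hc3 ⟨hz.1, Or.inr ⟨hz1, h1⟩⟩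
    have hsub : ∀ x : Fin d → V3, (fun i => enc (x i)) = y → univ.image z ⊆ univ.image x := by
      rintro x rfl v hv
      obtain ⟨i, _, rfl⟩ := mem_image.1 hv
      have h1 : enc (z i) ∈ rg (fun i => enc (x i)) :=
        hcy (mem_image.2 ⟨i, mem_univ _, rfl⟩)
      obtain ⟨j, _, hj⟩ := mem_image.1 h1
      exact mem_image.2 ⟨j, mem_univ _, enc_inj hj⟩
    constructor
    · intro hy
      obtain ⟨x, hx⟩ := cel_enc (hX ▸ hy)
      rw [hX, ← hx, mem_cel] at hy
      rw [hY, ← hx, mem_cel]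
      rcases hy with ⟨hB, h0 | ⟨_, h0⟩⟩
      · exact ⟨hB, Or.inl h0⟩
      · exact absurd (hS _ h0 _ (hsub x hx)) hzS
    · intro hy
      obtain ⟨x, hx⟩ := cel_enc (hY ▸ hy)
      rw [hY, ← hx, mem_cel] at hy
      rw [hX, ← hx, mem_cel]
      rcases hy with ⟨hB, h0 | ⟨_, h0⟩⟩
      · exact ⟨hB, Or.inl h0⟩
      · exact absurd (hS' _ h0 _ (hsub x hx)) hzS'

private theorem cel_congr {d : ℕ} (k : Fin d) (B : Finset V3) {S R : Fam (Fin 3)}
    (h : ∀ T : Finset V3, T.card ≤ d → (T ∈ S ↔ T ∈ R)) : cel k B S = cel k B R := by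
  unfold cel
  congr 1
  refine filter_congr fun x _ => ?_
  rw [h _ (card_cell x)]

theorem ker_dif {d : ℕ} (k : Fin d) {Cs : WW.Shp d} {D : ℝ}
    {g : Finset (Fin d → ℕ) → Finset (Fin d → ℕ) → ℝ} (h : WW.JK d Cs D g) (S S' R R' : Fam (Fin 3))
    (hS : Cx S) (hS' : Cx S') (hR : Cx R) (hR' : Cx R') (hd : Dif d S S' R R') :
    ker k D g S S' = ker k D g R R' := by
  set B := (vs S ∪ vs S') ∪ (vs R ∪ vs R') with hB
  obtain ⟨I, hI⟩ : ∃ I : Fam (Fin 3), ∀ T, T ∈ I ↔ (T ∈ S ∧ T ∈ S') ∨ (T ∈ R ∧ T ∈ R') :=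
    ⟨(S ∩ S') ∪ (R ∩ R'), fun T => by rw [mem_union, mem_inter, mem_inter]⟩
  rw [ker_big k h S S' B subset_union_left, ker_big k h R R' B subset_union_right]
  have h1 := half k h B S S' I hS hS' (by
    intro T hT hTI
    obtain ⟨h1, h2⟩ := hd T hT
    rw [hI] at hTI
    tauto)
  have h2 := half k h B R R' I hR hR' (by
    intro T hT hTI
    obtain ⟨h1, h2⟩ := hd T hT
    rw [hI] at hTI
    tauto)
  have h3 : cel k B (S ∪ I) = cel k B (R ∪ I) := cel_congr k B (by
    intro T hT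
    obtain ⟨h1, h2⟩ := hd T hT
    have hTI := hI T
    rw [mem_union, mem_union, hTI]
    tauto)
  have h4 : cel k B (S' ∪ I) = cel k B (R' ∪ I) := cel_congr k B (by
    intro T hT
    obtain ⟨h1, h2⟩ := hd T hT
    have hTI := hI T
    rw [mem_union, mem_union, hTI]
    tauto)
  rw [← h1, ← h2, h3, h4]

theorem ker_KK {d : ℕ} (k : Fin d) {Cs : WW.Shp d} {D : ℝ} (hD : 0 < D)
    {g : Finset (Fin d → ℕ) → Finset (Fin d → ℕ) → ℝ} (h : WW.JK d Cs D g) : KK d (ker k D g) where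
  one S _ := by
    unfold ker
    rw [h.diag, div_self hD.ne']
  symm S S' _ _ := by
    unfold ker
    rw [h.symm, union_comm (vs S') (vs S)]
  psd α _ S a _ := by
    set B : Finset V3 := univ.biUnion (fun i => vs (S i)) with hB
    have h1 : ∀ i j, ker k D g (S i) (S j) = g (cel k B (S i)) (cel k B (S j)) / D := fun i j =>
      ker_big k h _ _ B (union_subset (subset_biUnion_of_mem (fun i => vs (S i)) (mem_univ i))
        (subset_biUnion_of_mem (fun i => vs (S i)) (mem_univ j)))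
    have h2 := h.psd α (fun i => cel k B (S i)) a
    have h3 : ∑ i, ∑ j, a i * a j * ker k D g (S i) (S j) =
        (∑ i, ∑ j, a i * a j * g (cel k B (S i)) (cel k B (S j))) / D := by
      rw [Finset.sum_div]
      refine sum_congr rfl fun i _ => ?_
      rw [Finset.sum_div]
      refine sum_congr rfl fun j _ => ?_
      rw [h1, mul_div_assoc]
    rw [h3]
    refine div_nonneg (le_trans ?_ h2) hD.le
    positivity
  inv φ hφ S S' hS hS' hi := ker_inv k h φ hφ S S' hS hS' hi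
  dif S S' R R' hS hS' hR hR' hd := ker_dif k h S S' R R' hS hS' hR hR' hd

end Pool.Agent.Lib.MP_90b327_co.UC
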