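import Mathlib
import Pool.Agent.Lib.MP_90b327_co.UC.UDefs
import Pool.Agent.Lib.MP_90b327_co.UC.UMean

/-!
MODULE UNear. (15 minutes) The near value.
PROOF. If `V > 0` take `ε = V/2`, `X`, the window length `L = 2^X` and `c₀` with `c₀ + i ∈ T` for `i < L`, `c₀` so large that `w m ≥ 2 · 2^X` for `m ≥ c₀`.
`x = fun _ => X`, `c = nv 0 c₀ 0`: all terms of `avC x (fun n => f (n + c))` are `f (nv a m h)` with `a, h < 2^X`, `m ∈ T`, `m ≥ c₀`: they vanish, the mean is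
`0` and `|0 - V| ≤ V/2`, contradiction. (`avC` is a sum over `piFinset`: `Finset.sum_eq_zero`.)
-/

set_option autoImplicit false

namespace Pool.Agent.Lib.MP_90b327_co.UC

open Finset MeasureTheory Filter Topology Pool.Agent.Lib.MP_90b327_co

theorem near_val (f : (Fin 3 → ℕ) → ℝ) (V : ℝ)
    (hV : ∀ ε : ℝ, 0 < ε → ∃ X : ℕ, ∀ x c : Fin 3 → ℕ, (∀ s, X ≤ x s) →
      |avC x (fun n => f (n + c)) - V| ≤ ε)
    (T : Set ℕ) (hT : ∀ L K : ℕ, ∃ c, K ≤ c ∧ ∀ i < L, c + i ∈ T) (w : ℕ → ℕ)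
    (hw : Tendsto w atTop atTop)
    (hbad : ∀ a m h : ℕ, m ∈ T → a + h ≤ w m → f (nv a m h) = 0) : V ≤ 0 := by
  by_contra hcon
  have hVp : 0 < V := not_le.mp hcon
  obtain ⟨X, hX⟩ := hV (V / 2) (by linarith)
  obtain ⟨K, hK⟩ := (tendsto_atTop_atTop.mp hw) (2 * 2 ^ X)
  obtain ⟨c₀, hc₀, hT'⟩ := hT (2 ^ X) K
  have h1 := hX (fun _ => X) (nv 0 c₀ 0) (fun _ => le_refl _)
  have h2 : avC (fun _ : Fin 3 => X) (fun n => f (n + nv 0 c₀ 0)) = 0 := by
    unfold avC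
    rw [Finset.sum_eq_zero, zero_div]
    intro n hn
    rw [Fintype.mem_piFinset] at hn
    have hn0 : n 0 < 2 ^ X := mem_range.mp (hn 0)
    have hn1 : n 1 < 2 ^ X := mem_range.mp (hn 1)
    have hn2 : n 2 < 2 ^ X := mem_range.mp (hn 2)
    have e : n + nv 0 c₀ 0 = nv (n 0) (c₀ + n 1) (n 2) := by
      funext i
      fin_cases i
      · simp [nv]
      · simp [nv, add_comm]
      · simp [nv]
    rw [e]
    refine hbad _ _ _ (hT' (n 1) hn1) ?_
    have := hK (c₀ + n 1) (by omega)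
    omega
  rw [h2, zero_sub, abs_neg, abs_of_pos hVp] at h1
  linarith

end Pool.Agent.Lib.MP_90b327_co.UC
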