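import Mathlib
import Pool.Agent.Lib.MP_90b327_co.UC.UDefs
import Pool.Agent.Lib.MP_90b327_co.UC.UCx
import Pool.Agent.Lib.MP_90b327_co.UC.UKerA

/-!
MODULE UVal. (45 minutes) Values, chain inequality, near boxes.
`val_eq`: `sf (ker k D g) [] n = ker k D g (cn n).powerset ∅ = g (cel k C C.powerset) (cel k C ∅) / D`, `C = cn n`.
`val_set`: for disjoint finite sets `A`, `Γ`, `H` of natural numbers, `S = A ∪ Γ ∪ H`: the value is `g` of the cells with `x k ∈ A ∪ Γ`, all entries in `S` and of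
the cells with `x k ∈ A`, all entries in `S` (`JK.inv` with an injection which sends the vertices of `cn` to `A`, `Γ`, `H`).
`chain`: blocks `g_0, .., g_n` of sizes `u 0, .., u n` (consecutive intervals), `P_i = G_i × (G_n)^(d-1)`, `G_i = g_0 ∪ .. ∪ g_i`, `i < n`;
`JK.psd` with `a = 1`: `D^2 n^2 ≤ ∑_{i,j} g P_i P_j = n D + 2 ∑_{i<j} g P_i P_j`, and `g P_j P_i = D * sf ..` for `i < j` by `val_set`; divide by `D`.
`bad_val`: the cells of type `ga` are `up` of the box `bxx k g G`, `G` = all vertices of `cn (nv a m h)` in an `Fin n`, disjoint from the cells of type `al`: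
`JK.bad` and `JK.symm`.
-/

set_option autoImplicit false

namespace Pool.Agent.Lib.MP_90b327_co.UC

open Finset MeasureTheory Filter Topology Pool.Agent.Lib.MP_90b327_co

/-- cells with the entry `k` in `A`, all entries in `S` -/
def bxn {d : ℕ} (k : Fin d) (A S : Finset ℕ) : Finset (Fin d → ℕ) :=
  (Fintype.piFinset (fun _ : Fin d => S)).filter (fun x => x k ∈ A)

private theorem uval_enum (A : Finset ℕ) :
    ∃ e : ℕ → ℕ, (range A.card).image e = A ∧ Set.InjOn e (↑(range A.card) : Set ℕ) := by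
  have h1 : ∃ e : ℕ → ℕ, (range A.card).image e = A := by
    refine ⟨fun i => if h : i < A.card then (A.equivFin.symm ⟨i, h⟩ : ℕ) else 0, ?_⟩
    ext y
    rw [mem_image]
    constructor
    · rintro ⟨i, hi, rfl⟩
      rw [mem_range] at hi
      simp only [hi, dif_pos]
      exact (A.equivFin.symm ⟨i, hi⟩).2
    · intro hy
      refine ⟨(A.equivFin ⟨y, hy⟩ : ℕ), mem_range.2 (A.equivFin ⟨y, hy⟩).2, ?_⟩
      simp only [Fin.is_lt, dif_pos, Fin.eta, Equiv.symm_apply_apply]
  obtain ⟨e, he⟩ := h1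
  exact ⟨e, he, card_image_iff.1 (by rw [he, card_range])⟩

private theorem uval_ext {α : Type} (en : α → ℕ) (hen : Function.Injective en) (C : Finset α) (F : α → ℕ)
    (hF : Set.InjOn F (↑C : Set α)) :
    ∃ σ : ℕ → ℕ, Function.Injective σ ∧ ∀ v ∈ C, σ (en v) = F v := by
  classical
  have hlt : ∀ v ∈ C, F v < C.sup F + 1 := fun v hv => Nat.lt_succ_of_le (le_sup hv)
  refine ⟨fun n => if h : ∃ v ∈ C, en v = n then F h.choose else n + (C.sup F + 1), ?_, ?_⟩
  · intro n n' hnn
    by_cases h : ∃ v ∈ C, en v = n <;> by_cases h' : ∃ v ∈ C, en v = n'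
    · simp only [h, h', dif_pos] at hnn
      have h1 := hF (mem_coe.2 h.choose_spec.1) (mem_coe.2 h'.choose_spec.1) hnn
      rw [← h.choose_spec.2, ← h'.choose_spec.2, h1]
    · simp only [h, h', dif_pos, dif_neg, not_false_iff] at hnn
      have := hlt _ h.choose_spec.1
      omega
    · simp only [h, h', dif_pos, dif_neg, not_false_iff] at hnn
      have := hlt _ h'.choose_spec.1
      omega
    · simp only [h, h', dif_neg, not_false_iff] at hnn
      omega
  · intro v hv
    have h : ∃ v' ∈ C, en v' = en v := ⟨v, hv, rfl⟩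
    show (if h : ∃ v' ∈ C, en v' = en v then F h.choose else en v + (C.sup F + 1)) = F v
    rw [dif_pos h, hen h.choose_spec.2]

private theorem uval_cn {n : Fin 3 → ℕ} {v : V3} : v ∈ cn n ↔ v.2 < n v.1 := by
  simp only [cn, bk, mem_biUnion, mem_univ, true_and, mem_image, mem_Ico]
  constructor
  · rintro ⟨s, i, hi, rfl⟩
    simpa using hi.2
  · intro h
    exact ⟨v.1, v.2, ⟨Nat.zero_le _, by simpa using h⟩, rfl⟩

private theorem uval_sf {d : ℕ} (k : Fin d) (D : ℝ) (g : Finset (Fin d → ℕ) → Finset (Fin d → ℕ) → ℝ)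
    (n : Fin 3 → ℕ) :
    sf (ker k D g) [] n =
      g (((Fintype.piFinset (fun _ : Fin d => cn n)).filter
          (fun x => (x k).1 = 0 ∨ (x k).1 = 1)).image (fun x i => enc (x i)))
        (((Fintype.piFinset (fun _ : Fin d => cn n)).filter
          (fun x => (x k).1 = 0)).image (fun x i => enc (x i))) / D := by
  have h1 : vs (cn n).powerset ∪ vs (∅ : Fam (Fin 3)) = cn n := by
    rw [vs_pow, vs_empty, union_empty]
  show ker k D g (cn n).powerset ∅ = _
  unfold ker
  rw [h1]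
  have h2 : cel k (cn n) (cn n).powerset = ((Fintype.piFinset (fun _ : Fin d => cn n)).filter
      (fun x => (x k).1 = 0 ∨ (x k).1 = 1)).image (fun x i => enc (x i)) := by
    unfold cel
    congr 1
    refine filter_congr fun x hx => ?_
    have h3 : univ.image x ∈ (cn n).powerset := by
      rw [mem_powerset]
      intro v hv
      obtain ⟨i, -, rfl⟩ := mem_image.1 hv
      exact (Fintype.mem_piFinset.1 hx) i
    simp only [h3, and_true]
  have h3 : cel k (cn n) ∅ = ((Fintype.piFinset (fun _ : Fin d => cn n)).filter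
      (fun x => (x k).1 = 0)).image (fun x i => enc (x i)) := by
    unfold cel
    congr 1
    refine filter_congr fun x hx => ?_
    simp only [notMem_empty, and_false, or_false]
  rw [h2, h3]

private theorem uval_img {d : ℕ} (k : Fin d) (C : Finset V3) (F : V3 → ℕ) (σ : ℕ → ℕ)
    (hσ : ∀ v ∈ C, σ (enc v) = F v) (A S : Finset ℕ) (p : Fin 3 → Prop) [DecidablePred p]
    (h1 : ∀ v ∈ C, F v ∈ S) (h2 : ∀ y ∈ S, ∃ v ∈ C, F v = y)
    (h3 : ∀ v ∈ C, (p v.1 ↔ F v ∈ A)) :
    WW.mv σ (((Fintype.piFinset (fun _ : Fin d => C)).filter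
      (fun x => p (x k).1)).image (fun x i => enc (x i))) = bxn k A S := by
  ext y
  simp only [WW.mv, bxn, mem_image, mem_filter, Fintype.mem_piFinset]
  constructor
  · rintro ⟨_, ⟨x, ⟨hx, hk⟩, rfl⟩, rfl⟩
    refine ⟨fun i => ?_, ?_⟩
    · show σ (enc (x i)) ∈ S
      rw [hσ _ (hx i)]
      exact h1 _ (hx i)
    · show σ (enc (x k)) ∈ A
      rw [hσ _ (hx k)]
      exact (h3 _ (hx k)).1 hk
  · rintro ⟨hy, hk⟩
    choose x hx hx' using fun i => h2 (y i) (hy i)
    refine ⟨_, ⟨x, ⟨hx, (h3 _ (hx k)).2 (by rw [hx' k]; exact hk)⟩, rfl⟩, ?_⟩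
    funext i
    show σ (enc (x i)) = y i
    rw [hσ _ (hx i), hx' i]

theorem val_set {d : ℕ} (k : Fin d) {Cs : WW.Shp d} {D : ℝ}
    {g : Finset (Fin d → ℕ) → Finset (Fin d → ℕ) → ℝ} (h : WW.JK d Cs D g) (A Γ H : Finset ℕ)
    (h1 : Disjoint A Γ) (h2 : Disjoint A H) (h3 : Disjoint Γ H) :
    sf (ker k D g) [] (nv A.card Γ.card H.card) =
      g (bxn k (A ∪ Γ) (A ∪ Γ ∪ H)) (bxn k A (A ∪ Γ ∪ H)) / D := by
  obtain ⟨eA, hA, iA⟩ := uval_enum A
  obtain ⟨eG, hG, iG⟩ := uval_enum Γ
  obtain ⟨eH, hH, iH⟩ := uval_enum H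
  set n := nv A.card Γ.card H.card with hn
  let F : V3 → ℕ := fun v => if v.1 = 0 then eA v.2 else if v.1 = 1 then eG v.2 else eH v.2
  have f0 : ∀ v : V3, v ∈ cn n → v.1 = 0 → v.2 ∈ range A.card ∧ F v = eA v.2 ∧ F v ∈ A := by
    intro v hv h0
    rw [uval_cn, h0] at hv
    have h4 : v.2 ∈ range A.card := mem_range.2 hv
    have h5 : F v = eA v.2 := by simp only [F, h0, if_true]
    refine ⟨h4, h5, ?_⟩
    have h6 := mem_image_of_mem eA h4
    rw [hA] at h6
    rwa [h5]
  have f1 : ∀ v : V3, v ∈ cn n → v.1 = 1 → v.2 ∈ range Γ.card ∧ F v = eG v.2 ∧ F v ∈ Γ := by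
    intro v hv h0
    rw [uval_cn, h0] at hv
    have h4 : v.2 ∈ range Γ.card := mem_range.2 hv
    have h5 : F v = eG v.2 := by
      simp only [F, h0]
      rw [if_neg (by decide), if_true]
    refine ⟨h4, h5, ?_⟩
    have h6 := mem_image_of_mem eG h4
    rw [hG] at h6
    rwa [h5]
  have f2 : ∀ v : V3, v ∈ cn n → v.1 = 2 → v.2 ∈ range H.card ∧ F v = eH v.2 ∧ F v ∈ H := by
    intro v hv h0
    rw [uval_cn, h0] at hv
    have h4 : v.2 ∈ range H.card := mem_range.2 hv
    have h5 : F v = eH v.2 := by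
      simp only [F, h0]
      rw [if_neg (by decide), if_neg (by decide)]
    refine ⟨h4, h5, ?_⟩
    have h6 := mem_image_of_mem eH h4
    rw [hH] at h6
    rwa [h5]
  have f3 : ∀ v : V3, v.1 = 0 ∨ v.1 = 1 ∨ v.1 = 2 := by
    intro v
    have : ∀ s : Fin 3, s = 0 ∨ s = 1 ∨ s = 2 := by decide
    exact this v.1
  have nAG : ∀ x, x ∈ A → x ∈ Γ → False := fun x hx hy => (disjoint_left.1 h1 hx) hy
  have nAH : ∀ x, x ∈ A → x ∈ H → False := fun x hx hy => (disjoint_left.1 h2 hx) hy
  have nGH : ∀ x, x ∈ Γ → x ∈ H → False := fun x hx hy => (disjoint_left.1 h3 hx) hy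
  have hinj : Set.InjOn F (↑(cn n) : Set V3) := by
    intro v hv v' hv' he
    rw [mem_coe] at hv hv'
    rcases f3 v with a | a | a <;> rcases f3 v' with a' | a' | a'
    · obtain ⟨b1, b2, b3⟩ := f0 v hv a
      obtain ⟨c1, c2, c3⟩ := f0 v' hv' a'
      rw [b2, c2] at he
      exact Prod.ext (a.trans a'.symm) (iA (mem_coe.2 b1) (mem_coe.2 c1) he)
    · exact (nAG _ (f0 v hv a).2.2 (by rw [he]; exact (f1 v' hv' a').2.2)).elim
    · exact (nAH _ (f0 v hv a).2.2 (by rw [he]; exact (f2 v' hv' a').2.2)).elim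
    · exact (nAG _ (f0 v' hv' a').2.2 (by rw [← he]; exact (f1 v hv a).2.2)).elim
    · obtain ⟨b1, b2, b3⟩ := f1 v hv a
      obtain ⟨c1, c2, c3⟩ := f1 v' hv' a'
      rw [b2, c2] at he
      exact Prod.ext (a.trans a'.symm) (iG (mem_coe.2 b1) (mem_coe.2 c1) he)
    · exact (nGH _ (f1 v hv a).2.2 (by rw [he]; exact (f2 v' hv' a').2.2)).elim
    · exact (nAH _ (f0 v' hv' a').2.2 (by rw [← he]; exact (f2 v hv a).2.2)).elim
    · exact (nGH _ (f1 v' hv' a').2.2 (by rw [← he]; exact (f2 v hv a).2.2)).elim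
    · obtain ⟨b1, b2, b3⟩ := f2 v hv a
      obtain ⟨c1, c2, c3⟩ := f2 v' hv' a'
      rw [b2, c2] at he
      exact Prod.ext (a.trans a'.symm) (iH (mem_coe.2 b1) (mem_coe.2 c1) he)
  obtain ⟨σ, hσ, hσ'⟩ := uval_ext enc enc_inj (cn n) F hinj
  have hS : ∀ v ∈ cn n, F v ∈ A ∪ Γ ∪ H := by
    intro v hv
    rcases f3 v with a | a | a
    · exact mem_union_left _ (mem_union_left _ (f0 v hv a).2.2)
    · exact mem_union_left _ (mem_union_right _ (f1 v hv a).2.2)
    · exact mem_union_right _ (f2 v hv a).2.2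
  have hsur : ∀ y ∈ A ∪ Γ ∪ H, ∃ v ∈ cn n, F v = y := by
    intro y hy
    rcases mem_union.1 hy with hy | hy
    · rcases mem_union.1 hy with hy | hy
      · rw [← hA] at hy
        obtain ⟨i, hi, rfl⟩ := mem_image.1 hy
        have hv : ((0, i) : V3) ∈ cn n := uval_cn.2 (mem_range.1 hi)
        exact ⟨(0, i), hv, (f0 _ hv rfl).2.1⟩
      · rw [← hG] at hy
        obtain ⟨i, hi, rfl⟩ := mem_image.1 hy
        have hv : ((1, i) : V3) ∈ cn n := uval_cn.2 (mem_range.1 hi)
        exact ⟨(1, i), hv, (f1 _ hv rfl).2.1⟩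
    · rw [← hH] at hy
      obtain ⟨i, hi, rfl⟩ := mem_image.1 hy
      have hv : ((2, i) : V3) ∈ cn n := uval_cn.2 (mem_range.1 hi)
      exact ⟨(2, i), hv, (f2 _ hv rfl).2.1⟩
  rw [uval_sf]
  congr 1
  rw [← h.inv σ hσ]
  have e1 := uval_img k (cn n) F σ hσ' (A ∪ Γ) (A ∪ Γ ∪ H) (fun s => s = 0 ∨ s = 1) hS hsur (by
    intro v hv
    rcases f3 v with a | a | a
    · exact ⟨fun _ => mem_union_left _ (f0 v hv a).2.2, fun _ => Or.inl a⟩
    · exact ⟨fun _ => mem_union_right _ (f1 v hv a).2.2, fun _ => Or.inr a⟩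
    · constructor
      · intro hp
        exfalso
        rcases hp with hp | hp <;> (rw [a] at hp; exact absurd hp (by decide))
      · intro hp
        exfalso
        rcases mem_union.1 hp with hp | hp
        · exact nAH _ hp (f2 v hv a).2.2
        · exact nGH _ hp (f2 v hv a).2.2)
  have e2 := uval_img k (cn n) F σ hσ' A (A ∪ Γ ∪ H) (fun s => s = 0) hS hsur (by
    intro v hv
    rcases f3 v with a | a | a
    · exact ⟨fun _ => (f0 v hv a).2.2, fun _ => a⟩
    · constructor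
      · intro hp
        rw [a] at hp
        exact absurd hp (by decide)
      · intro hp
        exact (nAG _ hp (f1 v hv a).2.2).elim
    · constructor
      · intro hp
        rw [a] at hp
        exact absurd hp (by decide)
      · intro hp
        exact (nAH _ hp (f2 v hv a).2.2).elim)
  rw [e1, e2]

private theorem uval_dsum (f : ℕ → ℕ → ℝ) (D : ℝ) (hs : ∀ i j, f i j = f j i) (hd : ∀ i, f i i = D)
    (n : ℕ) : ∑ i ∈ range n, ∑ j ∈ range n, f i j =
      n * D + 2 * ∑ j ∈ range n, ∑ i ∈ range j, f j i := by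
  induction n with
  | zero => simp
  | succ n ih =>
    rw [sum_range_succ]
    simp only [sum_range_succ _ n]
    rw [sum_add_distrib, ih, hd n, sum_congr rfl (fun i (_ : i ∈ range n) => hs i n)]
    push_cast
    ring

private theorem uval_Ico (u : ℕ → ℕ) {a b : ℕ} (hab : a ≤ b) :
    (Ico (∑ q ∈ range a, u q) (∑ q ∈ range b, u q)).card = ∑ q ∈ Ico a b, u q := by
  rw [Nat.card_Ico, ← sum_range_add_sum_Ico u hab, Nat.add_sub_cancel_left]

private theorem uval_mono (u : ℕ → ℕ) {a b : ℕ} (hab : a ≤ b) :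
    ∑ q ∈ range a, u q ≤ ∑ q ∈ range b, u q := by
  rw [← sum_range_add_sum_Ico u hab]
  exact Nat.le_add_right _ _

private theorem uval_un {a b : ℕ} (h : a ≤ b) : range a ∪ Ico a b = range b := by
  ext x
  simp only [mem_union, mem_range, mem_Ico]
  omega

theorem chain {d : ℕ} (k : Fin d) {Cs : WW.Shp d} {D : ℝ} (hD : 0 < D)
    {g : Finset (Fin d → ℕ) → Finset (Fin d → ℕ) → ℝ} (h : WW.JK d Cs D g) (n : ℕ) (u : ℕ → ℕ) :
    (n : ℝ) ^ 2 * D ≤ n + 2 * ∑ j ∈ range n, ∑ i ∈ range j,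
      sf (ker k D g) [] (nv (∑ q ∈ range (i + 1), u q) (∑ q ∈ Ico (i + 1) (j + 1), u q)
        (∑ q ∈ Ico (j + 1) (n + 1), u q)) := by
  set U : ℕ → ℕ := fun t => ∑ q ∈ range t, u q with hU
  set P : ℕ → Finset (Fin d → ℕ) := fun i => bxn k (range (U (i + 1))) (range (U (n + 1))) with hP
  have h1 := h.psd (Fin n) (fun i => P i) (fun _ => 1)
  have h2 : ∑ i : Fin n, ∑ j : Fin n, (1 : ℝ) * 1 * g (P i) (P j) =
      ∑ i ∈ range n, ∑ j ∈ range n, g (P i) (P j) := by
    rw [← Fin.sum_univ_eq_sum_range (fun i => ∑ j ∈ range n, g (P i) (P j)) n]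
    refine sum_congr rfl fun i _ => ?_
    rw [← Fin.sum_univ_eq_sum_range (fun j => g (P i) (P j)) n]
    refine sum_congr rfl fun j _ => ?_
    ring
  rw [h2, uval_dsum (fun i j => g (P i) (P j)) D (fun i j => h.symm _ _) (fun i => h.diag _) n] at h1
  simp only [sum_const, card_univ, Fintype.card_fin, nsmul_eq_mul, mul_one] at h1
  have h3 : ∀ j ∈ range n, ∀ i ∈ range j, g (P j) (P i) = D *
      sf (ker k D g) [] (nv (∑ q ∈ range (i + 1), u q) (∑ q ∈ Ico (i + 1) (j + 1), u q)
        (∑ q ∈ Ico (j + 1) (n + 1), u q)) := by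
    intro j hj i hi
    rw [mem_range] at hj hi
    have m1 : U (i + 1) ≤ U (j + 1) := uval_mono u (by omega)
    have m2 : U (j + 1) ≤ U (n + 1) := uval_mono u (by omega)
    have h4 := val_set k h (range (U (i + 1))) (Ico (U (i + 1)) (U (j + 1)))
      (Ico (U (j + 1)) (U (n + 1)))
      (by
        rw [disjoint_left]
        intro x hx hy
        rw [mem_range] at hx
        rw [mem_Ico] at hy
        omega)
      (by
        rw [disjoint_left]
        intro x hx hy
        rw [mem_range] at hx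
        rw [mem_Ico] at hy
        omega)
      (by
        rw [disjoint_left]
        intro x hx hy
        rw [mem_Ico] at hx hy
        omega)
    rw [uval_un m1, uval_un m2, card_range, uval_Ico u (by omega : i + 1 ≤ j + 1),
      uval_Ico u (by omega : j + 1 ≤ n + 1)] at h4
    show g (bxn k (range (U (j + 1))) (range (U (n + 1)))) (bxn k (range (U (i + 1)))
      (range (U (n + 1)))) = _
    rw [h4, mul_div_cancel₀ _ hD.ne']
  rw [sum_congr rfl (fun j hj => sum_congr rfl (h3 j hj))] at h1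
  simp only [← mul_sum] at h1
  have h5 : D * ((n : ℝ) ^ 2 * D) ≤ D * (n + 2 * ∑ j ∈ range n, ∑ i ∈ range j,
      sf (ker k D g) [] (nv (∑ q ∈ range (i + 1), u q) (∑ q ∈ Ico (i + 1) (j + 1), u q)
        (∑ q ∈ Ico (j + 1) (n + 1), u q))) := by
    nlinarith [h1]
  exact le_of_mul_le_mul_left h5 hD

theorem bad_val {d : ℕ} (k : Fin d) {D : ℝ} {T : Set ℕ} {w : ℕ → ℕ}
    {g : Finset (Fin d → ℕ) → Finset (Fin d → ℕ) → ℝ} (h : WW.JK d (NC k T w) D g) (a m b : ℕ)
    (hm : m ∈ T) (hw : a + b ≤ w m) : sf (ker k D g) [] (nv a m b) = 0 := by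
  have h4 := val_set k h (range a) (Ico a (a + m)) (Ico (a + m) (a + m + b))
      (by
        rw [disjoint_left]
        intro x hx hy
        rw [mem_range] at hx
        rw [mem_Ico] at hy
        omega)
      (by
        rw [disjoint_left]
        intro x hx hy
        rw [mem_range] at hx
        rw [mem_Ico] at hy
        omega)
      (by
        rw [disjoint_left]
        intro x hx hy
        rw [mem_Ico] at hx hy
        omega)
  rw [uval_un (Nat.le_add_right a m), uval_un (Nat.le_add_right (a + m) b), card_range,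
    Nat.card_Ico, Nat.card_Ico, Nat.add_sub_cancel_left, Nat.add_sub_cancel_left] at h4
  rw [h4]
  set N := a + m + b with hN
  let γ : Finset (Fin N) := univ.filter (fun x : Fin N => a ≤ (x : ℕ) ∧ (x : ℕ) < a + m)
  have hγ : γ.card = m := by
    have h5 : γ.image (fun x : Fin N => (x : ℕ)) = Ico a (a + m) := by
      ext x
      simp only [γ, mem_image, mem_filter, mem_univ, true_and, mem_Ico]
      constructor
      · rintro ⟨y, hy, rfl⟩
        exact hy
      · intro hx
        exact ⟨⟨x, by omega⟩, hx, rfl⟩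
    rw [← card_image_of_injective γ Fin.val_injective, h5, Nat.card_Ico, Nat.add_sub_cancel_left]
  have hc : (univ \ γ).card ≤ w γ.card := by
    rw [hγ, card_sdiff_of_subset (subset_univ γ), hγ, card_univ, Fintype.card_fin]
    omega
  have hsh : (NC k T w).sh N (bxx k γ univ) :=
    ⟨γ, univ, subset_univ γ, by rw [hγ]; exact hm, hc, rfl⟩
  have hup : WW.up (bxx k γ univ) = bxn k (Ico a (a + m)) (range N) := by
    ext y
    simp only [WW.up, bxx, bxn, γ, mem_image, mem_filter, mem_univ, true_and,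
      Fintype.mem_piFinset, mem_range, mem_Ico, implies_true, and_true]
    constructor
    · rintro ⟨x, hx, rfl⟩
      exact ⟨fun i => (x i).2, hx⟩
    · rintro ⟨hy, hk⟩
      exact ⟨fun i => ⟨y i, hy i⟩, hk, rfl⟩
  have hdis : Disjoint (bxn k (range a) (range N)) (WW.up (bxx k γ univ)) := by
    rw [hup, disjoint_left]
    intro y hy hy'
    simp only [bxn, mem_filter, mem_range, mem_Ico] at hy hy'
    omega
  have hun : bxn k (range a) (range N) ∪ WW.up (bxx k γ univ) =
      bxn k (range (a + m)) (range N) := by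
    rw [hup]
    ext y
    simp only [bxn, mem_union, mem_filter, mem_range, mem_Ico]
    constructor
    · rintro (⟨h5, h6⟩ | ⟨h5, h6⟩)
      · exact ⟨h5, by omega⟩
      · exact ⟨h5, by omega⟩
    · rintro ⟨h5, h6⟩
      by_cases h7 : y k < a
      · exact Or.inl ⟨h5, h7⟩
      · exact Or.inr ⟨h5, by omega⟩
  have h8 := h.bad N _ hsh _ hdis
  rw [hun] at h8
  rw [h.symm, h8, zero_div]

end Pool.Agent.Lib.MP_90b327_co.UC
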