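import Mathlib
import Pool.Agent.Lib.MP_90b327_co.UC.UDefs
import Pool.Agent.Lib.MP_90b327_co.UC.UCs
import Pool.Agent.Lib.MP_90b327_co.UC.UConv
import Pool.Agent.Lib.MP_90b327_co.UC.UNear
import Pool.Agent.Lib.MP_90b327_co.UC.UFar
import Pool.Agent.Lib.MP_90b327_co.UC.UKerB
import Pool.Agent.Lib.MP_90b327_co.UC.UVal
import Pool.Agent.Lib.MP_90b327_co.WW.GLimit
import Pool.Agent.Lib.MP_90b327_co.WW.GFiber
import Pool.Agent.Lib.MP_90b327_co.WW.GJoint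

/-!
MODULE UMain. (15 minutes) The theorem (assembled). PROOF. By contradiction as in `WW/WFinal.lean`.
-/

set_option autoImplicit false

namespace Pool.Agent.Lib.MP_90b327_co.UC

open Finset MeasureTheory Filter Topology Pool.Agent.Lib.MP_90b327_co

theorem no_jk {d : ℕ} (k : Fin d) {D : ℝ} (hD : 0 < D) {T : Set ℕ}
    (hT : ∀ L K : ℕ, ∃ c, K ≤ c ∧ ∀ i < L, c + i ∈ T) {w : ℕ → ℕ} (hw : Tendsto w atTop atTop)
    {g : Finset (Fin d → ℕ) → Finset (Fin d → ℕ) → ℝ} (h : WW.JK d (NC k T w) D g) : False := by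
  have hK := ker_KK k hD h
  obtain ⟨V, hV⟩ := uc (sys hK) ([] : List (Fin 3))
  have hV' : ∀ ε : ℝ, 0 < ε → ∃ X : ℕ, ∀ x c : Fin 3 → ℕ, (∀ s, X ≤ x s) →
      |avC x (fun n => sf (ker k D g) [] (n + c)) - V| ≤ ε := by
    intro ε hε
    obtain ⟨X, hX⟩ := hV ε hε
    exact ⟨X, fun x c hx => hX [] x c rfl (by intro p hp; simp at hp) hx⟩
  have h1 := near_val (sf (ker k D g) []) V hV' T hT w hw (fun a m b => bad_val k h a m b)
  have h2 := far_val (sf (ker k D g) []) (sf_bd hK []) V hV' D (fun n u => chain k hD h n u)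
  linarith

theorem near_cubes {d : ℕ} (k : Fin d) (δ : ℝ) (hδ : 0 < δ) (T : Set ℕ)
    (hT : ∀ L K : ℕ, ∃ c, K ≤ c ∧ ∀ i < L, c + i ∈ T) (w : ℕ → ℕ) (hw : Tendsto w atTop atTop) :
    ∃ N₀ : ℕ, ∀ N, N₀ ≤ N → ∀ S : Finset (Finset (Fin d → Fin N)),
      δ * 2 ^ (N ^ d) < (S.card : ℝ) →
      ∃ A ∈ S, ∃ g G : Finset (Fin N), g ⊆ G ∧ g.card ∈ T ∧ (G \ g).card ≤ w g.card ∧
        Disjoint A (bxx k g G) ∧ A ∪ bxx k g G ∈ S := by
  have hd : 1 ≤ d := Nat.one_le_iff_ne_zero.2 (fun h0 => by subst h0; exact k.elim0)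
  have key : ∃ N₀ : ℕ, ∀ S : Finset (Finset (Fin d → Fin N₀)),
      δ * 2 ^ (N₀ ^ d) < (S.card : ℝ) → WW.GoodS (NC k T w) N₀ S := by
    by_contra hcon
    push Not at hcon
    obtain ⟨δ', hδ', ⟨L⟩⟩ := WW.exists_glim d hd (NC k T w) δ (fun N => by
      obtain ⟨S, hS, hS'⟩ := hcon N
      exact ⟨S, hS, hS'⟩)
    obtain ⟨g, hg⟩ := WW.exists_jk L
    exact no_jk k (lt_of_lt_of_le hδ hδ') hT hw hg
  obtain ⟨N₀, hN₀⟩ := key
  refine ⟨N₀, fun N hN S hS => ?_⟩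
  obtain ⟨A, hA, P, ⟨g, G, h1, h2, h3, hP⟩, h5, h6⟩ :=
    WW.gfiber d (NC k T w) δ hδ N₀ hN₀ N hN S hS
  rw [hP] at h5 h6
  exact ⟨A, hA, g, G, h1, h2, h3, h5, h6⟩

end Pool.Agent.Lib.MP_90b327_co.UC
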